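import Pool.Agent.Lib.MP_f43b6f_lc.Main

set_option autoImplicit false

/-!
A colouring whose solutions for sums of at most three terms compute the projection of the
complement of the range of a function.
-/

namespace Pool.Agent.Lib.MP_f43b6f_lc

open Pool.Agent.Shared.Type2

/-- Binary digits. -/
def bit (y p : ℕ) : Bool := decide (y / 2 ^ p % 2 = 1)

theorem bit_eq (y p : ℕ) : bit y p = y.testBit p := by
  rw [bit, Nat.testBit_eq_decide_div_mod_eq]

theorem exists_top (y : ℕ) : ∃ N, decide (y < 2 ^ N) = true :=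
  ⟨y, decide_eq_true Nat.lt_two_pow_self⟩

/-- The number of binary digits. -/
def top (y : ℕ) : ℕ := Nat.find (exists_top y)

theorem lt_top (y : ℕ) : y < 2 ^ top y := of_decide_eq_true (Nat.find_spec (exists_top y))

theorem top_le {y N : ℕ} (h : y < 2 ^ N) : top y ≤ N := Nat.find_min' _ (decide_eq_true h)

theorem top_le_self (y : ℕ) : top y ≤ y := top_le Nat.lt_two_pow_self

theorem lt_top_of {y b : ℕ} (h : 2 ^ b ≤ y) : b < top y := by
  by_contra hc
  have h1 : 2 ^ top y ≤ 2 ^ b := Nat.pow_le_pow_right (by norm_num) (by omega)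
  have := lt_top y
  omega

theorem top_add {y z b : ℕ} (hy : y < 2 ^ b) (hz : 2 ^ b ∣ z) (h0 : z ≠ 0) :
    top (y + z) = top z := by
  refine le_antisymm (top_le ?_) (top_le (lt_of_le_of_lt (Nat.le_add_left _ _) (lt_top _)))
  have h1 : b < top z := lt_top_of (Nat.le_of_dvd (Nat.pos_of_ne_zero h0) hz)
  have h2 := lt_top z
  obtain ⟨u, rfl⟩ := hz
  obtain ⟨c, hc⟩ := Nat.exists_eq_add_of_lt h1
  rw [hc, show b + c + 1 = b + (c + 1) by ring, pow_add] at h2 ⊢
  have h3 : u < 2 ^ (c + 1) := Nat.lt_of_mul_lt_mul_left h2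
  calc y + 2 ^ b * u < 2 ^ b * (u + 1) := by rw [mul_add, mul_one]; omega
    _ ≤ _ := Nat.mul_le_mul_left _ h3

theorem bit_low {y z b j : ℕ} (hy : y < 2 ^ b) (hz : 2 ^ b ∣ z) (hj : j < b) :
    bit (y + z) j = bit y j := by
  obtain ⟨u, rfl⟩ := hz
  rw [bit_eq, bit_eq, add_comm, Nat.testBit_two_pow_mul_add _ hy, if_pos hj]

theorem bit_high {y z b j : ℕ} (hy : y < 2 ^ b) (hz : 2 ^ b ∣ z) (hj : b ≤ j) :
    bit (y + z) j = bit z j := by
  obtain ⟨u, rfl⟩ := hz
  have h0 : (0 : ℕ) < 2 ^ b := by positivity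
  have := Nat.testBit_two_pow_mul_add u h0 j
  rw [add_zero] at this
  rw [bit_eq, bit_eq, add_comm, Nat.testBit_two_pow_mul_add _ hy, this, if_neg (by omega),
    if_neg (by omega)]

theorem bit_of_top {y j : ℕ} (h : top y ≤ j) : bit y j = false := by
  rw [bit_eq]
  exact Nat.testBit_lt_two_pow
    (lt_of_lt_of_le (lt_top y) (Nat.pow_le_pow_right (by norm_num) h))

theorem top_pos {y : ℕ} (h : y ≠ 0) : 0 < top y := lt_top_of (by rw [pow_zero]; omega)

theorem bit_top {y : ℕ} (h : y ≠ 0) : bit y (top y - 1) = true := by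
  have h1 := top_pos h
  have h2 : 2 ^ (top y - 1) ≤ y := by
    by_contra hc
    have := top_le (not_le.1 hc)
    omega
  have h3 := lt_top y
  rw [bit_eq]
  refine Nat.testBit_of_two_pow_le_and_two_pow_add_one_gt h2 ?_
  rwa [show top y - 1 + 1 = top y by omega]

theorem val_spec {z : ℕ} (h : z ≠ 0) : ∃ u, u % 2 = 1 ∧ z = 2 ^ val z * u := by
  obtain ⟨m, u, hu, rfl⟩ := Nat.exists_eq_two_pow_mul_odd h
  exact ⟨u, Nat.odd_iff.1 hu, by rw [val_eq m u (Nat.odd_iff.1 hu)]⟩

theorem le_val {z A : ℕ} (h : z ≠ 0) (hA : 2 ^ A ∣ z) : A ≤ val z := by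
  obtain ⟨u, hu, h1⟩ := val_spec h
  rw [h1] at hA
  have := (Nat.Coprime.pow_left _
    (Nat.coprime_two_left.2 (Nat.odd_iff.2 hu))).dvd_of_dvd_mul_right hA
  exact (Nat.pow_dvd_pow_iff_le_right (by norm_num)).1 this

theorem bit_val {z : ℕ} (h : z ≠ 0) : bit z (val z) = true := by
  obtain ⟨u, hu, h1⟩ := val_spec h
  rw [bit, decide_eq_true_eq]
  generalize val z = m at h1
  rw [h1, Nat.mul_div_cancel_left _ (by positivity), hu]

theorem val_add {w z b : ℕ} (h : w ≠ 0) (hw : w < 2 ^ b) (hz : 2 ^ b ∣ z) :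
    val (w + z) = val w := by
  obtain ⟨u, hu, h1⟩ := val_spec h
  generalize val w = m at h1
  have h2 : m < b := by
    by_contra hc
    have h3 : 2 ^ b ≤ 2 ^ m := Nat.pow_le_pow_right (by norm_num) (by omega)
    have h4 : 2 ^ m ≤ 2 ^ m * u := Nat.le_mul_of_pos_right _ (by omega)
    omega
  obtain ⟨c, rfl⟩ := Nat.exists_eq_add_of_lt h2
  obtain ⟨v, rfl⟩ := hz
  rw [h1, show 2 ^ m * u + 2 ^ (m + c + 1) * v = 2 ^ m * (u + 2 * (2 ^ c * v)) by ring]
  exact val_eq _ _ (by omega)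

theorem run_congr₂ (T T' Z Z' : ℕ → Bool) (b : ℕ) (h : ∀ j < b, T j = T' j)
    (h' : ∀ j < b, Z j = Z' j) : run T Z b = run T' Z' b := by
  induction b with
  | zero => rfl
  | succ b ih =>
    rw [run_succ, run_succ, ih (fun j hj => h j (by omega)) fun j hj => h' j (by omega), step, step,
      h b (by omega), h' b (by omega)]

theorem run_tail (T T' Z : ℕ → Bool) {b N : ℕ} (hb : b < N) (h : ∀ j, b ≤ j → T j = T' j)
    (h1 : T' b = true) : (run T Z N).2 = (run T' Z N).2 ∧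
      xor (run T Z N).1 (run T' Z N).1 =
        xor (xor (run T Z b).1 (run T Z b).2) (xor (run T' Z b).1 (run T' Z b).2) := by
  induction N, hb using Nat.le_induction with
  | base => simp only [run_succ, step, h b le_rfl, h1]; simp
  | succ n hn ih =>
    rw [run_succ, run_succ, step, step, h n (by omega), ih.1, ← ih.2]
    refine ⟨rfl, ?_⟩
    cases (run T Z n).1 <;> cases (run T' Z n).1 <;> cases T' n <;> cases (run T' Z n).2 <;> simp

theorem run_flag (T Z : ℕ → Bool) {a b : ℕ} (hb : a < b) (h1 : T a = true)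
    (h : ∀ j, a < j → T j = false) :
    (run T Z b).2 = true ↔ ∃ j, a ≤ j ∧ j < b ∧ Z j = false := by
  induction b, hb using Nat.le_induction with
  | base =>
    simp only [run_succ, step, h1]
    constructor
    · intro h2
      exact ⟨a, le_rfl, by omega, by simpa using h2⟩
    · rintro ⟨j, h2, h3, h4⟩
      obtain rfl : j = a := by omega
      simp [h4]
  | succ n hn ih =>
    simp only [run_succ, step, h n hn, Bool.not_false, Bool.true_and, Bool.or_eq_true, ih,
      Bool.not_eq_eq_eq_not, Bool.not_true]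
    constructor
    · rintro (⟨j, h2, h3, h4⟩ | h2)
      · exact ⟨j, h2, by omega, h4⟩
      · exact ⟨n, by omega, by omega, h2⟩
    · rintro ⟨j, h2, h3, h4⟩
      rcases Nat.lt_succ_iff_lt_or_eq.1 h3 with h5 | rfl
      · exact Or.inl ⟨j, h2, h5, h4⟩
      · exact Or.inr h4

/-- The code `c` is the first witness for its first coordinate. -/
def fw (Q : ℕ → Bool) (c : ℕ) : Bool :=
  Q c && (List.range c).all fun d => !(decide (d.unpair.1 = c.unpair.1) && Q d)

theorem fw_iff (Q : ℕ → Bool) (c : ℕ) :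
    fw Q c = true ↔ Q c = true ∧ ∀ d < c, d.unpair.1 = c.unpair.1 → Q d = false := by
  simp [fw, imp_iff_not_or]

/-- Events of scale `W`: an element below `W` receives its first witness. -/
def ev2 (Q : ℕ → Bool) (W p : ℕ) : Bool :=
  decide (p % 2 = 1) && (decide ((p / 2).unpair.1 < W) && fw Q (p / 2))

theorem ev2_congr {Q Q' : ℕ → Bool} {b : ℕ} (h : ∀ c < b / 2, Q c = Q' c) (W : ℕ) {p : ℕ}
    (hp : p < b) : ev2 Q W p = ev2 Q' W p := by
  unfold ev2
  by_cases h1 : p % 2 = 1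
  · have h2 : fw Q (p / 2) = fw Q' (p / 2) := by
      rw [Bool.eq_iff_iff, fw_iff, fw_iff, h _ (by omega)]
      refine and_congr_right fun _ => forall₂_congr fun d hd => ?_
      rw [h d (by omega)]
    rw [h2]
  · simp [h1]

theorem ev2_bound (Q : ℕ → Bool) (W : ℕ) : ∃ b, ∀ p, b ≤ p → ev2 Q W p = false := by
  have h1 : {c | c.unpair.1 < W ∧ fw Q c = true}.Finite := by
    refine Set.Finite.of_finite_image (f := fun c : ℕ => c.unpair.1)
      ((Set.finite_lt_nat W).subset ?_) ?_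
    · rintro _ ⟨j, hj, rfl⟩
      exact hj.1
    · intro i hi j hj hij
      have h2 := (fw_iff Q i).1 hi.2
      have h3 := (fw_iff Q j).1 hj.2
      rcases lt_trichotomy i j with h | h | h
      · have := h3.2 i h hij
        rw [h2.1] at this
        exact absurd this (by simp)
      · exact h
      · have := h2.2 j h hij.symm
        rw [h3.1] at this
        exact absurd this (by simp)
  obtain ⟨b, hb⟩ := h1.bddAbove
  refine ⟨2 * b + 2, fun p hp => ?_⟩
  by_contra hc
  simp only [ev2, Bool.not_eq_false, Bool.and_eq_true, decide_eq_true_eq] at hc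
  have := hb (show p / 2 ∈ {c | c.unpair.1 < W ∧ fw Q c = true} from hc.2)
  omega

theorem ev2_of_witness {Q : ℕ → Bool} {W e t : ℕ} (he : e < W) (h : Q (Nat.pair e t) = true) :
    ∃ c, c.unpair.1 = e ∧ Q c = true ∧ ev2 Q W (2 * c + 1) = true := by
  have hex : ∃ c : ℕ, c.unpair.1 = e ∧ Q c = true := ⟨_, by simp, h⟩
  classical
  have h1 := Nat.find_spec hex
  refine ⟨Nat.find hex, h1.1, h1.2, ?_⟩
  have h2 : (2 * Nat.find hex + 1) / 2 = Nat.find hex := by omega
  simp only [ev2, h2, Bool.and_eq_true, decide_eq_true_eq, fw_iff]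
  refine ⟨by omega, by omega, h1.2, fun d hd h3 => ?_⟩
  by_contra hc
  exact Nat.find_min hex hd ⟨h3.trans h1.1, by simpa using hc⟩

/-- Parity of the number of gaps of the binary support of `y` that contain an event. -/
def par (Q : ℕ → Bool) (y : ℕ) : Bool :=
  (run (bit y) (fun p => !ev2 Q (val y) p) (top y)).1

/-- The code is not enumerated before the stage `Z`. -/
def Qa (f : B) (Z c : ℕ) : Bool := (List.range Z).all fun j => decide (ap f j ≠ c)

/-- The code is never enumerated, read from the characteristic function of the range. -/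
def Qr (g : B) (c : ℕ) : Bool := decide (ap g c = 0)

theorem Qr_iff (f : B) (c : ℕ) : Qr (chi (Set.range f)) c = true ↔ c ∉ Set.range f := by
  by_cases h : c ∈ Set.range f
  · simp only [Qr, ap_def, chi, if_pos h]
    simp [h]
  · simp only [Qr, ap_def, chi, if_neg h]
    simp [h]

/-- The second colouring. -/
def col2 (f : B) (y : ℕ) : Bool := par (Qa f (3 * 2 ^ top y)) y

/-- Events of scale `W` are left at the time `a`. -/
def Rem (Q : ℕ → Bool) (W a : ℕ) : Prop := ∃ j, a ≤ j ∧ ev2 Q W j = true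

theorem tot_eq (Q : ℕ → Bool) {y b : ℕ} (hy : y ≠ 0) (hb : top y ≤ b)
    (h : ∀ p, b ≤ p → ev2 Q (val y) p = false) :
    (run (bit y) (fun p => !ev2 Q (val y) p) b).1 = par Q y ∧
      ((run (bit y) (fun p => !ev2 Q (val y) p) b).2 = true ↔ Rem Q (val y) (top y - 1)) := by
  have h0 := top_pos hy
  refine ⟨run_fst_stable _ _ hb fun j hj => bit_of_top hj, ?_⟩
  rw [run_flag _ _ (show top y - 1 < b by omega) (bit_top hy) fun j hj => bit_of_top (by omega)]
  constructor
  · rintro ⟨j, h1, -, h2⟩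
    exact ⟨j, h1, by simpa using h2⟩
  · rintro ⟨j, h1, h2⟩
    refine ⟨j, h1, ?_, by simpa using h2⟩
    by_contra hc
    rw [h j (by omega)] at h2
    exact absurd h2 (by simp)

theorem ident {f : B} {n : ℕ} {X : Set ℕ} {i : Bool} (hn : 3 ≤ n)
    (hc : ∀ s ∈ FSle n X, col2 f s = i) (hA : ∀ A, ∃ y ∈ X, y ≠ 0 ∧ 2 ^ A ∣ y)
    (hS : ∀ z ∈ X, z ≠ 0 → ∀ c < val z / 2, c ∈ Set.range f → ∃ j < 3 * z, f j = c)
    {w x : ℕ} (hw : w ∈ X) (hx : x ∈ X) (hw0 : w ≠ 0) (hx0 : x ≠ 0) (hd : 2 ^ top w ∣ x) :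
    par (Qr (chi (Set.range f))) (w + x) = par (Qr (chi (Set.range f))) w ↔
      (Rem (Qr (chi (Set.range f))) (val w) (top x - 1) ↔
        Rem (Qr (chi (Set.range f))) (val w) (top w - 1)) := by
  set Q := Qr (chi (Set.range f)) with hQ
  obtain ⟨b0, hb0⟩ := ev2_bound Q (val w)
  obtain ⟨z, hz, hz0, hzd⟩ := hA (b0 + top x)
  have hb := le_val hz0 hzd
  obtain ⟨u, hu, hzu⟩ := val_spec hz0
  have hdz : 2 ^ val z ∣ z := ⟨u, hzu⟩
  have hwx : w < x := lt_of_lt_of_le (lt_top w) (Nat.le_of_dvd (Nat.pos_of_ne_zero hx0) hd)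
  have t1 : top (w + x) = top x := top_add (lt_top w) hd hx0
  have v1 : val (w + x) = val w := val_add hw0 (lt_top w) hd
  have l1 : w + x < 2 ^ val z :=
    lt_of_lt_of_le (lt_top _) (Nat.pow_le_pow_right (by norm_num) (by omega))
  have l2 : w < 2 ^ val z := by omega
  have l3 : 2 ^ val z ≤ z := Nat.le_of_dvd (Nat.pos_of_ne_zero hz0) hdz
  have t0 : top w ≤ top x := top_le (hwx.trans (lt_top x))
  have c1 := hc _ (mem_three hn hw hx hz (by omega) (by omega) (by omega))
  have c2 := hc _ (mem_two (by omega) hw hz (by omega))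
  rw [col2, par, top_add l1 hdz hz0, val_add (by omega) l1 hdz, v1] at c1
  rw [col2, par, top_add l2 hdz hz0, val_add hw0 l2 hdz] at c2
  have k1 := (run_tail (bit (w + x + z)) (bit (w + z))
    (fun p => !ev2 (Qa f (3 * 2 ^ top z)) (val w) p) (lt_top_of l3)
    (fun j hj => by rw [bit_high l1 hdz hj, bit_high l2 hdz hj])
    (by rw [bit_high l2 hdz le_rfl, bit_val hz0])).2
  have hgood : ∀ c < val z / 2, Qa f (3 * 2 ^ top z) c = Q c := by
    intro c hc'
    rw [Bool.eq_iff_iff, hQ, Qr_iff]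
    simp only [Qa, List.all_eq_true, List.mem_range]
    constructor
    · intro h1 h2
      obtain ⟨j, hj, h3⟩ := hS z hz hz0 c hc' h2
      have := lt_top z
      exact of_decide_eq_true (h1 j (by omega)) h3
    · intro h1 j _
      exact decide_eq_true fun h2 => h1 ⟨j, h2⟩
  have hE : ∀ p < val z, (!ev2 (Qa f (3 * 2 ^ top z)) (val w) p) = !ev2 Q (val w) p :=
    fun p hp => by rw [ev2_congr hgood _ hp]
  rw [c1, c2, run_congr₂ (bit (w + x + z)) (bit (w + x)) _ _ _ (fun j hj => bit_low l1 hdz hj) hE,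
    run_congr₂ (bit (w + z)) (bit w) _ _ _ (fun j hj => bit_low l2 hdz hj) hE] at k1
  have e1 := tot_eq Q (y := w + x) (b := val z) (by omega) (by omega)
    (by rw [v1]; exact fun p hp => hb0 p (by omega))
  have e2 := tot_eq Q (b := val z) hw0 (by omega) fun p hp => hb0 p (by omega)
  rw [v1, t1] at e1
  rw [← e1.2, ← e2.2, ← e1.1, ← e2.1]
  revert k1
  cases (run (bit (w + x)) (fun p => !ev2 Q (val w) p) (val z)).1 <;>
    cases (run (bit (w + x)) (fun p => !ev2 Q (val w) p) (val z)).2 <;>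
    cases (run (bit w) (fun p => !ev2 Q (val w) p) (val z)).1 <;>
    cases (run (bit w) (fun p => !ev2 Q (val w) p) (val z)).2 <;> simp

section computable

variable {Y : Type} [Rep Y]

@[fun_prop] theorem td_top {z : Y → ℕ} (hz : TD z) : TD fun y => top (z y) :=
  TD.find' (c := fun y N => decide (z y < 2 ^ N)) (by fun_prop) fun y => exists_top (z y)

theorem td_par {Q : Y → ℕ → Bool} {z : Y → ℕ} (hQ : TD fun p : Y × ℕ => Q p.1 p.2) (hz : TD z) :
    TD fun y => par (Q y) (z y) := by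
  have h1 : ∀ {V : Type} [Rep V] {a : V → Y} {c : V → ℕ}, TD a → TD c →
      TD fun v => Q (a v) (c v) := fun ha hc => hQ.comp' (ha.pair hc)
  have h2 : TD fun p : Y × ℕ => fw (Q p.1) p.2 := by
    unfold fw
    refine hQ.and' (TD.all (by fun_prop) (TD.not' (TD.and' (by fun_prop) ?_)))
    exact h1 (by fun_prop) (by fun_prop)
  have h3 : TD fun p : Y × ℕ => ev2 (Q p.1) (val (z p.1)) p.2 := by
    unfold ev2
    refine TD.and' (by fun_prop) (TD.and' (by fun_prop) ?_)
    exact h2.comp' (f := fun p : Y × ℕ => (p.1, p.2 / 2)) (by fun_prop)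
  have h4 : TD fun y => run (bit (z y)) (fun p => !ev2 (Q y) (val (z y)) p) (top (z y)) := by
    unfold run
    refine TD.nrec' (by fun_prop) (by fun_prop) ?_
    unfold step bit
    refine TD.pair (by fun_prop) (TD.or' (by fun_prop) (TD.not' (TD.not' ?_)))
    exact h3.comp' (f := fun p : Y × ℕ × Bool × Bool => (p.1, p.2.1)) (by fun_prop)
  exact h4.fst

end computable

/-- The test found by the search. -/
def test (δ : Bool) (e0 : ℕ) (g : B) (e y : ℕ) : Bool :=
  decide (ap (od g) y.unpair.1 = 1) && (decide (ap (od g) y.unpair.2 = 1) &&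
    (decide (y.unpair.1 ≠ 0) && (decide (y.unpair.2 ≠ 0) && (decide (max e e0 < val y.unpair.1) &&
      (decide (y.unpair.2 % 2 ^ top y.unpair.1 = 0) &&
        (δ || xor (par (Qr (ev g)) (y.unpair.1 + y.unpair.2)) (par (Qr (ev g)) y.unpair.1)))))))

theorem chi_eq_one {X : Set ℕ} {x : ℕ} : chi X x = 1 ↔ x ∈ X := by
  unfold chi
  split_ifs with h <;> simp [h]

theorem test_iff (δ : Bool) (e0 : ℕ) (K : B) (X : Set ℕ) (e w x : ℕ) :
    test δ e0 (jn K (chi X)) e (Nat.pair w x) = true ↔ w ∈ X ∧ x ∈ X ∧ w ≠ 0 ∧ x ≠ 0 ∧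
      max e e0 < val w ∧ 2 ^ top w ∣ x ∧ (δ = true ∨ par (Qr K) (w + x) ≠ par (Qr K) w) := by
  rw [test, od_jn, ev_jn, Nat.unpair_pair]
  simp only [Bool.and_eq_true, decide_eq_true_eq, Bool.or_eq_true, Nat.dvd_iff_mod_eq_zero,
    Bool.xor_iff_ne]
  simp only [ap_def, chi_eq_one]

theorem decode {K : B} {X S : Set ℕ} (δ : Bool) (e0 : ℕ)
    (hS : ∀ e, e ∈ S ↔ ∃ t, Qr K (Nat.pair e t) = true)
    (h1 : ∀ e, ∃ w x, test δ e0 (jn K (chi X)) e (Nat.pair w x) = true)
    (h2 : ∀ e w x, test δ e0 (jn K (chi X)) e (Nat.pair w x) = true →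
      ¬ Rem (Qr K) (val w) (top x - 1)) : Red (chi S) (jn K (chi X)) := by
  refine red_iff_TD.2 ?_
  have hex : ∀ p : Pt1 (jn K (chi X)) × ℕ, ∃ y, test δ e0 p.1.1 p.2 y = true := by
    rintro ⟨⟨_, rfl⟩, e⟩
    obtain ⟨w, x, h⟩ := h1 e
    exact ⟨_, h⟩
  have hT : TD fun q : (Pt1 (jn K (chi X)) × ℕ) × ℕ => test δ e0 q.1.1.1 q.1.2 q.2 := by
    unfold test
    refine TD.and' (by fun_prop) (TD.and' (by fun_prop) (TD.and' (by fun_prop)
      (TD.and' (by fun_prop) (TD.and' (by fun_prop) (TD.and' (by fun_prop)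
        (TD.or' (by fun_prop) (TD.xor' ?_ ?_)))))))
    · exact td_par (by unfold Qr; fun_prop) (by fun_prop)
    · exact td_par (by unfold Qr; fun_prop) (by fun_prop)
  obtain ⟨yf, h3, hyf⟩ : ∃ yf : Pt1 (jn K (chi X)) × ℕ → ℕ, TD yf ∧ ∀ p,
      test δ e0 p.1.1 p.2 (yf p) = true :=
    ⟨_, TD.find' (c := fun (p : Pt1 (jn K (chi X)) × ℕ) y => test δ e0 p.1.1 p.2 y) hT hex,
      fun p => Nat.find_spec (hex p)⟩
  have h4 : TD fun p : Pt1 (jn K (chi X)) × ℕ => ((List.range (yf p).unpair.2).any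
      fun c => decide (c.unpair.1 = p.2) && Qr (ev p.1.1) c).toNat := by
    unfold Qr
    fun_prop
  refine (TD.lam' (F := fun q a => ((List.range (yf (q, a)).unpair.2).any
      fun c => decide (c.unpair.1 = a) && Qr (ev q.1) c).toNat) h4).of_eq ?_
  rintro ⟨_, rfl⟩
  funext e
  have h5 := hyf (⟨_, rfl⟩, e)
  simp only [lam_def]
  generalize yf (⟨_, rfl⟩, e) = y at h5 ⊢
  obtain ⟨w, x, rfl⟩ : ∃ w x, y = Nat.pair w x := ⟨_, _, (Nat.pair_unpair y).symm⟩
  have h6 := h2 e w x h5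
  have h7 := ((test_iff δ e0 K X e w x).1 h5).2.2.2.2.1
  simp only [ev_jn, Nat.unpair_pair, chi]
  split_ifs with h
  · obtain ⟨t, ht⟩ := (hS e).1 h
    obtain ⟨c, c1, c2, c3⟩ := ev2_of_witness (W := val w) (by omega) ht
    have c4 : c < x := by
      by_contra hc
      have := top_le_self x
      exact h6 ⟨_, by omega, c3⟩
    have : ((List.range x).any fun c => decide (c.unpair.1 = e) && Qr K c) = true := by
      simp only [List.any_eq_true, List.mem_range, Bool.and_eq_true, decide_eq_true_eq]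
      exact ⟨c, c4, c1, c2⟩
    rw [this]
    rfl
  · have : ((List.range x).any fun c => decide (c.unpair.1 = e) && Qr K c) = false := by
      simp only [List.any_eq_false, List.mem_range, Bool.and_eq_true, decide_eq_true_eq]
      rintro c - ⟨c1, c2⟩
      refine h ((hS e).2 ⟨c.unpair.2, ?_⟩)
      rw [← c1, Nat.pair_unpair]
      exact c2
    rw [this]
    rfl

theorem red_proj {f : B} {n : ℕ} {X : Set ℕ} {i : Bool} (hn : 3 ≤ n)
    (hc : ∀ s ∈ FSle n X, col2 f s = i) (hA : ∀ A, ∃ y ∈ X, y ≠ 0 ∧ 2 ^ A ∣ y)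
    (hS : ∀ z ∈ X, z ≠ 0 → ∀ c < val z / 2, c ∈ Set.range f → ∃ j < 3 * z, f j = c) :
    Red (chi {e | ∃ t, Nat.pair e t ∉ Set.range f}) (jn (chi (Set.range f)) (chi X)) := by
  have hQ : ∀ e, e ∈ {e | ∃ t, Nat.pair e t ∉ Set.range f} ↔
      ∃ t, Qr (chi (Set.range f)) (Nat.pair e t) = true := fun e => by
    simp only [Qr_iff, Set.mem_ofPred_eq]
  have hmono : ∀ {w x : ℕ}, x ≠ 0 → 2 ^ top w ∣ x →
      Rem (Qr (chi (Set.range f))) (val w) (top x - 1) →
        Rem (Qr (chi (Set.range f))) (val w) (top w - 1) := by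
    rintro w x hx hd ⟨j, h1, h2⟩
    have := lt_top_of (Nat.le_of_dvd (Nat.pos_of_ne_zero hx) hd)
    exact ⟨j, by omega, h2⟩
  by_cases h : ∀ e, ∃ w x, test false 0 (jn (chi (Set.range f)) (chi X)) e (Nat.pair w x) = true
  · refine decode false 0 hQ h fun e w x h1 h2 => ?_
    obtain ⟨a1, a2, a3, a4, -, a5, a6⟩ := (test_iff _ _ _ _ _ _ _).1 h1
    exact (a6.resolve_left (by simp))
      ((ident hn hc hA hS a1 a2 a3 a4 a5).2 ⟨fun _ => hmono a4 a5 h2, fun _ => h2⟩)
  · push Not at h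
    obtain ⟨e0, h⟩ := h
    refine decode true e0 hQ (fun e => ?_) fun e w x h1 h2 => ?_
    · obtain ⟨w, a1, a2, a3⟩ := hA (max e e0 + 1)
      obtain ⟨x, b1, b2, b3⟩ := hA (top w)
      exact ⟨w, x, (test_iff _ _ _ _ _ _ _).2 ⟨a1, b1, a2, b2, le_val a2 a3, b3, Or.inl rfl⟩⟩
    · obtain ⟨a1, -, a3, a4, a5, a6, -⟩ := (test_iff _ _ _ _ _ _ _).1 h1
      obtain ⟨b, hb⟩ := ev2_bound (Qr (chi (Set.range f))) (val w)
      obtain ⟨y, b1, b2, b3⟩ := hA (top w + b)
      have b4 : 2 ^ top w ∣ y := (pow_dvd_pow 2 (by omega)).trans b3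
      have b5 := lt_top_of (Nat.le_of_dvd (Nat.pos_of_ne_zero b2) b3)
      refine h w y ((test_iff _ _ _ _ _ _ _).2 ⟨a1, b1, a3, b2, by omega, b4, Or.inr fun h3 => ?_⟩)
      obtain ⟨j, j1, j2⟩ := ((ident hn hc hA hS a1 b1 a3 b2 b4).1 h3).2 (hmono a4 a6 h2)
      rw [hb j (by omega)] at j2
      exact absurd j2 (by simp)

/-- The colouring with four colours. -/
def colour4 (f : B) (y : ℕ) : ℕ := 2 * colour 2 two f y + (col2 f y).toNat

theorem colour_two_lt (f : B) (y : ℕ) : colour 2 two f y < 2 := by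
  unfold colour col two
  omega

theorem two_flip (m r : ℕ) (a b c : Bool) : two m r (!a) (!b) (!c) ≠ two m r a b c := by
  unfold two
  rcases Nat.mod_two_eq_zero_or_one m with h1 | h1 <;> rw [h1] <;>
    cases a <;> cases b <;> cases c <;> simp <;> omega

theorem main {n : ℕ} (hn : 3 ≤ n) (f : B) :
    RecursiveIn {(f : ℕ →. ℕ)} (colour4 f : ℕ →. ℕ) ∧
      ∀ X : Set ℕ, X.Infinite → (∃ i, ∀ s ∈ FSle n X, colour4 f s = i) →
        RecursiveIn {(f : ℕ →. ℕ), (chi X : ℕ →. ℕ)}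
          (chi {e | ∃ t, Nat.pair e t ∉ Set.range f} : ℕ →. ℕ) := by
  have hΦ : ∀ b m u, u % 2 = 1 → col 2 two (lim f b) m u = col 2 two (lim f b) (m + 1) u →
      3 ≤ n ∧ col 2 two (lim f b) m u ≠ col 2 two (lim f b) m (3 * u) :=
    fun b m u hu h1 => ⟨hn, two_ne b m u hu h1⟩
  obtain ⟨s1, s2⟩ := scheme (L := 2) (Φ := two) (f := f) (show 2 ≤ n by omega) (by norm_num)
    (by unfold two; fun_prop) two_flip hΦ
  constructor
  · have h1 : TD fun p : Pt1 (jn f (colour 2 two f)) =>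
        lam fun y => 2 * ap (od p.1) y + (col2 (ev p.1) y).toNat := by
      refine TD.lam' (TD.add (by fun_prop) (TD.toNat' ?_))
      unfold col2
      exact td_par (by unfold Qa; fun_prop) (by fun_prop)
    have h2 : Red (colour4 f) (jn f (colour 2 two f)) := by
      refine red_iff_TD.2 (h1.of_eq ?_)
      rintro ⟨_, rfl⟩
      funext y
      simp only [lam_def, od_jn, ev_jn, ap_def, colour4]
    exact h2.trans ((Red.refl f).jn s1)
  · rintro X hX ⟨i, hc⟩
    have c1 : ∀ s ∈ FSle n X, colour 2 two f s = i / 2 := fun s hs => by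
      have h1 := hc s hs
      have h2 := Bool.toNat_le (col2 f s)
      unfold colour4 at h1
      omega
    have c2 : ∀ s ∈ FSle n X, col2 f s = decide (i % 2 = 1) := fun s hs => by
      have h1 := hc s hs
      unfold colour4 at h1
      revert h1
      cases col2 f s <;> simp <;> omega
    have hA := unbounded (show 2 ≤ n by omega) hX c1 hΦ
    have h1 := red_proj hn c2 hA fun z hz hz0 c hc' h => by
      have h4 := Nat.find_spec h
      have h5 : lab f (Nat.find h) = c :=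
        (lab_first f _ fun i hi => by rw [h4]; exact Nat.find_min h hi).trans h4
      exact ⟨_, settled (show 2 ≤ n by omega) c1 two_flip hA hz hz0 (by rw [h5]; exact hc'), h4⟩
    refine RecursiveIn.subst (red_pair h1) fun o ho => ?_
    rcases ho with rfl | rfl
    · exact s2 X hX ⟨_, c1⟩
    · exact RecursiveIn.oracle _ (by simp)

end Pool.Agent.Lib.MP_f43b6f_lc
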