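import Mathlib

set_option autoImplicit false

namespace Pool.Agent.Lib.MP_f43b6f_lc

/-- The sums of at least one and at most `n` distinct elements of `X`. -/
def FSle (n : ℕ) (X : Set ℕ) : Set ℕ :=
  {s | ∃ F : Finset ℕ, (↑F : Set ℕ) ⊆ X ∧ 1 ≤ F.card ∧ F.card ≤ n ∧ s = ∑ x ∈ F, x}

open Classical in
/-- The characteristic function of a set of natural numbers. -/
noncomputable def chi (X : Set ℕ) (x : ℕ) : ℕ := if x ∈ X then 1 else 0

end Pool.Agent.Lib.MP_f43b6f_lc
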