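import Pool.Agent.Shared.Type2.Normal

set_option autoImplicit false

/-!
Windows of binary digits, read at sampling times of the orbit `u, 3u, 9u, ...`, and the automaton
counting the classes of events.
-/

namespace Pool.Agent.Lib.MP_f43b6f_lc

open Pool.Agent.Shared.Type2

theorem nine_pow (a : ℕ) : ∃ c, 9 ^ 2 ^ a = 1 + 2 ^ (a + 3) * (2 * c + 1) := by
  induction a with
  | zero => exact ⟨0, by norm_num⟩
  | succ a ih =>
    obtain ⟨c, hc⟩ := ih
    refine ⟨c + 2 ^ (a + 1) * (2 * c + 1) ^ 2, ?_⟩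
    rw [pow_succ 2 a, pow_mul, hc]
    ring

theorem step_nine (a w : ℕ) (d : ℕ) (hw : w = 1 + 2 ^ (a + 3) * d) :
    ∃ e, 9 ^ 2 ^ a * w = 1 + 2 ^ (a + 3) * (d + 1 + 2 * e) := by
  obtain ⟨c, hc⟩ := nine_pow a
  refine ⟨c + 2 ^ (a + 2) * (2 * c + 1) * d, ?_⟩
  rw [hc, hw]
  ring

theorem exists_one (w d : ℕ) (hw : w = 1 + 8 * d) (a : ℕ) :
    ∃ i < 2 ^ a, ∃ e, 9 ^ i * w = 1 + 2 ^ (a + 3) * e := by
  induction a with
  | zero => exact ⟨0, by norm_num, d, by simpa using hw⟩
  | succ a ih =>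
    obtain ⟨i, hi, e, he⟩ := ih
    rcases Nat.even_or_odd' e with ⟨e', rfl | rfl⟩
    · exact ⟨i, by rw [pow_succ]; omega, e', by rw [he]; ring⟩
    · obtain ⟨e'', h⟩ := step_nine a _ _ he
      refine ⟨2 ^ a + i, by rw [pow_succ]; omega, e' + 1 + e'', ?_⟩
      rw [pow_add, mul_assoc, h]
      ring

/-- Sampling times of the window `j`. -/
def samp (j u : ℕ) : Bool := decide (u ^ 2 % 2 ^ (j + 5) = 1 + 2 ^ (j + 4))

theorem mod_eq_of (j e : ℕ) : (1 + 2 ^ (j + 4) * (2 * e + 1)) % 2 ^ (j + 5) = 1 + 2 ^ (j + 4) := by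
  have h1 : 1 + 2 ^ (j + 4) * (2 * e + 1) = 1 + 2 ^ (j + 4) + 2 ^ (j + 5) * e := by ring
  have h2 : 1 < 2 ^ (j + 4) := Nat.one_lt_two_pow (by omega)
  rw [h1, Nat.add_mul_mod_self_left, Nat.mod_eq_of_lt]
  rw [pow_succ 2 (j + 4)]
  omega

theorem exists_samp_lt (j u : ℕ) (hu : u % 2 = 1) : ∃ i < 2 ^ (j + 2), samp j (3 ^ i * u) = true := by
  obtain ⟨d, hd⟩ : ∃ d, u ^ 2 = 1 + 8 * d := by
    obtain ⟨q, rfl⟩ : ∃ q, u = 2 * q + 1 := ⟨u / 2, by omega⟩
    obtain ⟨r, hr⟩ := Nat.even_mul_succ_self q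
    exact ⟨r, by nlinarith⟩
  have h9 : ∀ i, (3 ^ i * u) ^ 2 = 9 ^ i * u ^ 2 := fun i => by
    rw [mul_pow, ← pow_mul, mul_comm i 2, pow_mul]; norm_num
  obtain ⟨i, hi, e, he⟩ := exists_one _ d hd (j + 1)
  rcases Nat.even_or_odd' e with ⟨e', rfl | rfl⟩
  · obtain ⟨e'', h⟩ := step_nine (j + 1) _ _ he
    refine ⟨2 ^ (j + 1) + i, by rw [pow_succ 2 (j + 1)]; omega, ?_⟩
    rw [samp, decide_eq_true_eq, h9, pow_add, mul_assoc, h,
      show 2 * e' + 1 + 2 * e'' = 2 * (e' + e'') + 1 by ring]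
    exact mod_eq_of j _
  · refine ⟨i, by rw [pow_succ 2 (j + 1)]; omega, ?_⟩
    rw [samp, decide_eq_true_eq, h9, he]
    exact mod_eq_of j _

theorem exists_samp (j u : ℕ) : ∃ i, (samp j (3 ^ i * u) || decide (u % 2 = 0)) = true := by
  rcases Nat.mod_two_eq_zero_or_one u with h | h
  · exact ⟨0, by simp [h]⟩
  · obtain ⟨i, -, hi⟩ := exists_samp_lt j u h
    exact ⟨i, by simp [hi]⟩

/-- Number of steps to the next sampling time. -/
def idx (j u : ℕ) : ℕ := Nat.find (exists_samp j u)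

theorem idx_lt (j u : ℕ) (hu : u % 2 = 1) : idx j u < 2 ^ (j + 2) := by
  obtain ⟨i, hi, h⟩ := exists_samp_lt j u hu
  exact lt_of_le_of_lt (Nat.find_min' _ (by simp [h])) hi

theorem idx_step (j u : ℕ) (hu : u % 2 = 1) (h : samp j u = false) :
    idx j u = idx j (3 * u) + 1 := by
  have h3 : (3 * u) % 2 = 1 := by omega
  rw [idx, Nat.find_eq_iff]
  constructor
  · have : (samp j (3 ^ idx j (3 * u) * (3 * u)) || decide (3 * u % 2 = 0)) = true :=
      Nat.find_spec (exists_samp j (3 * u))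
    rw [pow_succ, mul_assoc]
    simpa [h3, hu] using this
  · intro n hn
    rcases n with _ | n
    · simp [h, hu]
    · have := Nat.find_min (exists_samp j (3 * u)) (m := n) (by unfold idx at hn; omega)
      rw [pow_succ, mul_assoc]
      simpa [h3, hu] using this

theorem samp_congr (j u v : ℕ) (h : u ≡ v [MOD 2 ^ (j + 5)]) : samp j u = samp j v := by
  unfold samp
  rw [show u ^ 2 % 2 ^ (j + 5) = v ^ 2 % 2 ^ (j + 5) from h.pow 2]

theorem idx_congr (j u v : ℕ) (h : u ≡ v [MOD 2 ^ (j + 5)]) : idx j u = idx j v := by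
  have h2 : u % 2 = v % 2 := h.of_dvd (dvd_pow_self 2 (by omega))
  unfold idx
  congr 1
  funext i
  rw [samp_congr j _ _ (h.mul_left _), h2]

theorem samp_val {j u : ℕ} (h : samp j u = true) : ∃ e, u ^ 2 = 1 + 2 ^ (j + 4) * (2 * e + 1) := by
  rw [samp, decide_eq_true_eq] at h
  refine ⟨u ^ 2 / 2 ^ (j + 5), ?_⟩
  have := Nat.mod_add_div (u ^ 2) (2 ^ (j + 5))
  rw [h] at this
  generalize u ^ 2 / 2 ^ (j + 5) = e at this
  rw [← this]
  ring

theorem samp_unique {j j' u : ℕ} (h : samp j u = true) (h' : samp j' u = true) : j = j' := by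
  have key : ∀ {a b : ℕ}, samp a u = true → samp b u = true → ¬ a < b := by
    intro a b ha hb hab
    obtain ⟨e, he⟩ := samp_val ha
    obtain ⟨e', he'⟩ := samp_val hb
    obtain ⟨c, rfl⟩ := Nat.exists_eq_add_of_lt hab
    have h1 : 2 ^ (a + 4) * (2 * e + 1) = 2 ^ (a + 4) * (2 * (2 ^ c * (2 * e' + 1))) := by
      have : 2 ^ (a + c + 1 + 4) * (2 * e' + 1) = 2 ^ (a + 4) * (2 * (2 ^ c * (2 * e' + 1))) := by
        ring
      omega
    have := Nat.eq_of_mul_eq_mul_left (by positivity) h1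
    omega
  have := key h h'
  have := key h' h
  omega

theorem samp_three {j j' u : ℕ} (h : samp j u = true) : samp j' (3 * u) = false := by
  by_contra h'
  obtain ⟨e, he⟩ := samp_val h
  obtain ⟨e', he'⟩ := samp_val (Bool.not_eq_false _ ▸ h' : samp j' (3 * u) = true)
  rw [mul_pow, he, show 2 ^ (j + 4) = 16 * 2 ^ j by ring,
    show 2 ^ (j' + 4) = 16 * 2 ^ j' by ring, mul_assoc, mul_assoc] at he'
  omega

/-- Positions of the windows. -/
def pos (j : ℕ) : ℕ := 2 ^ (j + 4)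

/-- The window `j` is empty at the next sampling time. -/
def win (j u : ℕ) : Bool := decide (3 ^ idx j u * u % 2 ^ pos (j + 2) < 2 ^ pos j)

theorem win_step (j u : ℕ) (hu : u % 2 = 1) (h : samp j u = false) : win j u = win j (3 * u) := by
  unfold win
  rw [idx_step j u hu h, pow_succ, mul_assoc]

theorem pos_mono {i j : ℕ} (h : i ≤ j) : pos i ≤ pos j := Nat.pow_le_pow_right (by norm_num) (by omega)

theorem lt_pos (j : ℕ) : j + 4 < pos j := Nat.lt_two_pow_self

theorem win_congr (j u v M : ℕ) (hM : pos (j + 2) ≤ M) (h : u ≡ v [MOD 2 ^ M]) :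
    win j u = win j v := by
  have h1 : u ≡ v [MOD 2 ^ pos (j + 2)] := h.of_dvd (pow_dvd_pow 2 hM)
  have h2 : u ≡ v [MOD 2 ^ (j + 5)] := h1.of_dvd (pow_dvd_pow 2 (by have := lt_pos (j + 2); omega))
  unfold win
  rw [idx_congr j u v h2, show 3 ^ idx j v * u % 2 ^ pos (j + 2) = 3 ^ idx j v * v % 2 ^ pos (j + 2)
    from h1.mul_left _]

theorem three_idx (j u : ℕ) (hu : u % 2 = 1) : 3 ^ idx j u ≤ 2 ^ 2 ^ (j + 3) := by
  calc 3 ^ idx j u ≤ 4 ^ idx j u := Nat.pow_le_pow_left (by norm_num) _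
    _ ≤ 4 ^ 2 ^ (j + 2) := Nat.pow_le_pow_right (by norm_num) (idx_lt j u hu).le
    _ = 2 ^ 2 ^ (j + 3) := by
      rw [show (4 : ℕ) = 2 ^ 2 by norm_num, ← pow_mul, pow_succ' 2 (j + 2)]

theorem win_of_le (j u : ℕ) (hu : u % 2 = 1) (h : u ≤ j) : win j u = true := by
  rw [win, decide_eq_true_eq]
  refine lt_of_le_of_lt (Nat.mod_le _ _) ?_
  have h1 : u < 2 ^ 2 ^ (j + 3) :=
    calc u < 2 ^ (j + 3) := by have : j + 3 < 2 ^ (j + 3) := Nat.lt_two_pow_self; omega
      _ < _ := Nat.lt_two_pow_self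
  calc 3 ^ idx j u * u < 2 ^ 2 ^ (j + 3) * 2 ^ 2 ^ (j + 3) :=
        Nat.mul_lt_mul_of_le_of_lt (three_idx j u hu) h1 (by positivity)
    _ = 2 ^ pos j := by rw [← pow_add, pos, pow_succ 2 (j + 3)]; congr 1; omega

theorem lt_of_win (j u : ℕ) (hu : u % 2 = 1) (h : win j u = true) (h1 : u < 2 ^ pos (j + 1)) :
    u < 2 ^ pos j := by
  rw [win, decide_eq_true_eq, Nat.mod_eq_of_lt] at h
  · exact lt_of_le_of_lt (Nat.le_mul_of_pos_left _ (by positivity)) h
  · calc 3 ^ idx j u * u < 2 ^ 2 ^ (j + 3) * 2 ^ pos (j + 1) :=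
          Nat.mul_lt_mul_of_le_of_lt (three_idx j u hu) h1 (by positivity)
      _ ≤ 2 ^ pos (j + 2) := by
        rw [← pow_add]
        refine Nat.pow_le_pow_right (by norm_num) ?_
        unfold pos
        rw [show 2 ^ (j + 1 + 4) = 4 * 2 ^ (j + 3) by ring, show 2 ^ (j + 2 + 4) = 8 * 2 ^ (j + 3) by ring]
        omega

theorem exists_not_win (b u : ℕ) (hu : u % 2 = 1) (h : 2 ^ pos b ≤ u) :
    ∃ j, b ≤ j ∧ j < u ∧ win j u = false := by
  by_contra hc
  push Not at hc
  have hb : b ≤ u := by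
    have := lt_pos b
    have : pos b < 2 ^ pos b := Nat.lt_two_pow_self
    omega
  have : u < 2 ^ pos b := by
    refine Nat.decreasingInduction (n := u) (motive := fun j _ => b ≤ j → u < 2 ^ pos j)
      (fun j hj ih hbj => ?_) (fun _ => ?_) hb le_rfl
    · exact lt_of_win j u hu (by simpa using hc j hbj hj) (ih (by omega))
    · have := lt_pos u
      have : pos u < 2 ^ pos u := Nat.lt_two_pow_self
      omega
  omega

/-- One step of the automaton: parity of the number of classes, and whether a new class is open. -/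
def step (T Z : ℕ → Bool) (j : ℕ) (p : Bool × Bool) : Bool × Bool :=
  (xor p.1 (T j && p.2), (!T j && p.2) || !Z j)

/-- The state after the first `b` windows. -/
def run (T Z : ℕ → Bool) (b : ℕ) : Bool × Bool := nrec b (false, true) (step T Z)

theorem run_succ (T Z : ℕ → Bool) (b : ℕ) : run T Z (b + 1) = step T Z b (run T Z b) := rfl

theorem run_congr (T Z Z' : ℕ → Bool) (b : ℕ) (h : ∀ j < b, Z j = Z' j) :
    run T Z b = run T Z' b := by
  induction b with
  | zero => rfl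
  | succ b ih => rw [run_succ, run_succ, ih fun j hj => h j (by omega), step, step, h b (by omega)]

theorem run_fst_stable (T Z : ℕ → Bool) {b b' : ℕ} (hb : b ≤ b') (h : ∀ j, b ≤ j → T j = false) :
    (run T Z b').1 = (run T Z b).1 := by
  induction b', hb using Nat.le_induction with
  | base => rfl
  | succ n hn ih => rw [run_succ, step, h n hn, ← ih]; simp

theorem run_snd_true (T Z : ℕ → Bool) {j b' : ℕ} (hb : j < b') (hZ : Z j = false)
    (h : ∀ i, j < i → T i = false) : (run T Z b').2 = true := by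
  induction b', hb using Nat.le_induction with
  | base => rw [run_succ, step, hZ]; simp
  | succ n hn ih => rw [run_succ, step, h n hn, ih]; simp

theorem run_late (T Z : ℕ → Bool) {b b' : ℕ} (hb : b ≤ b') (hZ : ∀ j, b ≤ j → Z j = true) :
    xor (run T Z b').1 (run T Z b').2 = xor (run T Z b).1 (run T Z b).2 ∧
      ((∃ j, b ≤ j ∧ j < b' ∧ T j = true) → (run T Z b').2 = false) := by
  induction b', hb using Nat.le_induction with
  | base => exact ⟨rfl, fun ⟨j, h1, h2, _⟩ => by omega⟩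
  | succ n hn ih =>
    rw [run_succ, step, hZ n hn, ← ih.1]
    refine ⟨by cases T n <;> simp, fun ⟨j, h1, h2, h3⟩ => ?_⟩
    rcases Nat.lt_succ_iff_lt_or_eq.1 h2 with h4 | rfl
    · simp [ih.2 ⟨j, h1, h4, h3⟩]
    · simp [h3]

theorem run_snd_mono (T T' Z : ℕ → Bool) (hT : ∀ j, T j = true → T' j = true) (b : ℕ) :
    (run T' Z b).2 = true → (run T Z b).2 = true := by
  induction b with
  | zero => exact id
  | succ b ih =>
    rw [run_succ, run_succ, step, step]
    have := hT b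
    revert ih this
    cases T b <;> cases T' b <;> cases Z b <;> cases (run T Z b).2 <;> cases (run T' Z b).2 <;> simp

/-- Invariant of four runs: two sets of events, two sequences of windows. -/
def inv (p q p' q' : Bool × Bool) : Bool :=
  (p.1 == q.1 && p.2 == q.2 && ((p'.1 == q'.1 && (p'.2 == q'.2 || (!p'.2 && q'.2))) ||
    (p'.1 != q'.1 && p'.2 == q'.2))) ||
  (p.1 == q.1 && !p.2 && q.2 && ((p'.1 == q'.1 && !p'.2 && q'.2) ||
    (p'.1 != q'.1 && p'.2 == q'.2))) ||
  (p.1 != q.1 && p.2 == q.2 && p'.1 != q'.1 && p'.2 == q'.2)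

theorem inv_step : ∀ a a' z p1 p2 q1 q2 p1' p2' q1' q2' : Bool, (!a || a') = true →
    inv (p1, p2) (q1, q2) (p1', p2') (q1', q2') = true →
    inv (xor p1 (a && p2), (!a && p2) || !z) (xor q1 (a && q2), (!a && q2) || !z)
      (xor p1' (a' && p2'), (!a' && p2') || !z) (xor q1' (a' && q2'), (!a' && q2') || !z) = true := by
  decide

theorem inv_base : ∀ a a' p1 p2 p1' p2' : Bool, (!a || a') = true → (!p2' || p2) = true →
    inv (xor p1 (a && p2), (!a && p2) || !true) (xor p1 (a && p2), (!a && p2) || !false)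
      (xor p1' (a' && p2'), (!a' && p2') || !true) (xor p1' (a' && p2'), (!a' && p2') || !false) =
      true := by
  decide

theorem inv_out : ∀ p1 p2 q1 q2 p1' p2' q1' q2' : Bool,
    inv (p1, p2) (q1, q2) (p1', p2') (q1', q2') = true → p1 ≠ q1 → p1' ≠ q1' := by
  decide

theorem run_crit_aux (T T' Z Z' : ℕ → Bool) (hT : ∀ j, T j = true → T' j = true) (i : ℕ)
    (hZ : ∀ j, j ≠ i → Z j = Z' j) (h1 : Z i = true) (h2 : Z' i = false) (b : ℕ) (hb : i < b) :
    inv (run T Z b) (run T Z' b) (run T' Z b) (run T' Z' b) = true := by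
  have hT' : ∀ j, (!T j || T' j) = true := fun j => by
    have := hT j
    revert this
    cases T j <;> simp
  induction b, hb using Nat.le_induction with
  | base =>
    have e1 := run_congr T Z Z' i fun j hj => hZ j hj.ne
    have e2 := run_congr T' Z Z' i fun j hj => hZ j hj.ne
    have e3 := run_snd_mono T T' Z hT i
    simp only [run_succ, step, ← e1, ← e2, h1, h2]
    refine inv_base _ _ _ _ _ _ (hT' i) ?_
    revert e3
    cases (run T' Z i).2 <;> simp
  | succ n hn ih =>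
    simp only [run_succ, step, ← hZ n (by omega)]
    exact inv_step _ _ _ _ _ _ _ _ _ _ _ (hT' n) ih

/-- If one window changes and the parity changes, it changes for every larger set of events. -/
theorem run_crit (T T' Z Z' : ℕ → Bool) (hT : ∀ j, T j = true → T' j = true) (i : ℕ)
    (hZ : ∀ j, j ≠ i → Z j = Z' j) (b : ℕ) (h : (run T Z b).1 ≠ (run T Z' b).1) :
    (run T' Z b).1 ≠ (run T' Z' b).1 := by
  have hb : i < b := by
    by_contra hc
    exact h (by rw [run_congr T Z Z' b fun j hj => hZ j (by omega)])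
  have hne : Z i ≠ Z' i := by
    intro hc
    exact h (by rw [run_congr T Z Z' b fun j _ => if hj : j = i then hj ▸ hc else hZ j hj])
  cases h1 : Z i <;> cases h2 : Z' i
  · exact absurd (h1.trans h2.symm) hne
  · exact (inv_out _ _ _ _ _ _ _ _
      (run_crit_aux T T' Z' Z hT i (fun j hj => (hZ j hj).symm) h2 h1 b hb) h.symm).symm
  · exact inv_out _ _ _ _ _ _ _ _ (run_crit_aux T T' Z Z' hT i hZ h1 h2 b hb) h
  · exact absurd (h1.trans h2.symm) hne

end Pool.Agent.Lib.MP_f43b6f_lc
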