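import Pool.Agent.Lib.MP_f43b6f_lc.Defs
import Pool.Agent.Lib.MP_f43b6f_lc.Win

set_option autoImplicit false

/-!
Colourings whose solutions compute the range of a function.
-/

namespace Pool.Agent.Lib.MP_f43b6f_lc

open Pool.Agent.Shared.Type2

/-- Label of the event `j`: the value `f j` at its first occurrence. -/
def lab (f : B) (j : ℕ) : ℕ :=
  cond ((List.range j).any fun i => decide (ap f i = ap f j)) j (ap f j)

theorem lab_first (f : B) (j : ℕ) (h : ∀ i < j, f i ≠ f j) : lab f j = f j := by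
  have : ((List.range j).any fun i => decide (ap f i = ap f j)) = false := by
    rw [List.any_eq_false]
    intro i hi h1
    exact h i (List.mem_range.1 hi) (of_decide_eq_true h1)
  rw [lab, this]
  rfl

theorem exists_bound (f : B) (K : ℕ) : ∃ b, ∀ j, b ≤ j → K ≤ lab f j := by
  have h1 : {j | (∀ i < j, f i ≠ f j) ∧ f j < K}.Finite := by
    refine Set.Finite.of_finite_image (f := f) ((Set.finite_lt_nat K).subset ?_) ?_
    · rintro _ ⟨j, hj, rfl⟩
      exact hj.2
    · intro i hi j hj hij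
      rcases lt_trichotomy i j with h | h | h
      · exact absurd hij (hj.1 i h)
      · exact h
      · exact absurd hij.symm (hi.1 j h)
  obtain ⟨b, hb⟩ := h1.bddAbove
  refine ⟨max K (b + 1), fun j hj => ?_⟩
  by_cases h : ∀ i < j, f i ≠ f j
  · rw [lab_first f j h]
    by_contra hc
    have := hb (show j ∈ {j | (∀ i < j, f i ≠ f j) ∧ f j < K} from ⟨h, by omega⟩)
    omega
  · have : ((List.range j).any fun i => decide (ap f i = ap f j)) = true := by
      push Not at h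
      obtain ⟨i, hi, h1⟩ := h
      exact List.any_eq_true.2 ⟨i, List.mem_range.2 hi, decide_eq_true h1⟩
    rw [lab, this]
    change K ≤ j
    omega

/-- Events of level `k`. -/
def evt (f : B) (k j : ℕ) : Bool := decide (lab f j < k)

/-- The computable guess. -/
def appr (f : B) (k u : ℕ) : Bool :=
  !(xor (run (evt f k) (fun j => win j u) u).1 (run (evt f k) (fun j => win j u) u).2)

/-- The limit value. -/
def lim (f : B) (b k u : ℕ) : Bool := (run (evt f k) (fun j => win j u) b).1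

theorem appr_eq_lim (f : B) {b k K u : ℕ} (hb : ∀ j, b ≤ j → K ≤ lab f j) (hk : k ≤ K)
    (hu : u % 2 = 1) (h : 2 ^ pos b ≤ u) : appr f k u = lim f b k u := by
  have hT : ∀ j, b ≤ j → evt f k j = false := fun j hj => by
    have := hb j hj
    simp only [evt, decide_eq_false_iff_not]
    omega
  obtain ⟨j, h1, h2, h3⟩ := exists_not_win b u hu h
  rw [appr, lim, run_snd_true _ _ h2 h3 fun i hi => hT i (by omega),
    run_fst_stable _ _ (show b ≤ u by omega) hT]
  simp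

theorem lim_late (f : B) {b k K u j : ℕ} (hb : ∀ j, b ≤ j → K ≤ lab f j) (hk : k ≤ K)
    (hu : u % 2 = 1) (hj : u ≤ j) (hl : lab f j < k) : lim f b k u = !appr f k u := by
  have hjb : j < b := by
    by_contra hc
    have := hb j (by omega)
    omega
  obtain ⟨h1, h2⟩ := run_late (evt f k) (fun j => win j u) (show u ≤ b by omega)
    fun i hi => win_of_le i u hu hi
  rw [appr, lim, ← h1, h2 ⟨j, hj, hjb, by simpa [evt] using hl⟩]
  simp

theorem lim_congr (f : B) {b M u v : ℕ} (k : ℕ) (hM : pos (b + 1) ≤ M) (h : u ≡ v [MOD 2 ^ M]) :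
    lim f b k u = lim f b k v := by
  unfold lim
  rw [run_congr _ _ (fun j => win j v) b fun j hj =>
    win_congr j u v M ((pos_mono (by omega)).trans hM) h]

theorem lim_crit (f : B) (b k u : ℕ) (hu : u % 2 = 1) (h : lim f b k u ≠ lim f b k (3 * u)) :
    lim f b (k + 1) u ≠ lim f b (k + 1) (3 * u) ∧ lim f b k (3 * u) = lim f b k (3 * (3 * u)) := by
  obtain ⟨i, hi⟩ : ∃ i, samp i u = true := by
    by_contra hc
    refine h ?_
    unfold lim
    rw [run_congr _ _ (fun j => win j (3 * u)) b fun j _ =>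
      win_step j u hu (by simpa using fun h => hc ⟨j, h⟩)]
  constructor
  · refine run_crit (evt f k) _ _ _ (fun j hj => ?_) i (fun j hj => win_step j u hu ?_) b h
    · simp only [evt, decide_eq_true_eq] at hj ⊢
      omega
    · by_contra hc
      exact hj (samp_unique (by simpa using hc) hi)
  · unfold lim
    rw [run_congr _ _ (fun j => win j (3 * (3 * u))) b fun j _ =>
      win_step j (3 * u) (by omega) (samp_three hi)]

theorem exists_val (z : ℕ) : ∃ m, (decide (z / 2 ^ m % 2 = 1) || decide (z = 0)) = true := by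
  rcases eq_or_ne z 0 with h | h
  · exact ⟨0, by simp [h]⟩
  · obtain ⟨m, u, hu, rfl⟩ := Nat.exists_eq_two_pow_mul_odd h
    exact ⟨m, by simp [Nat.odd_iff.1 hu]⟩

/-- The dyadic valuation. -/
def val (z : ℕ) : ℕ := Nat.find (exists_val z)

theorem val_eq (m u : ℕ) (hu : u % 2 = 1) : val (2 ^ m * u) = m := by
  rw [val, Nat.find_eq_iff]
  refine ⟨by simp [hu], fun i hi => ?_⟩
  obtain ⟨c, rfl⟩ := Nat.exists_eq_add_of_lt hi
  have h0 : u ≠ 0 := by omega
  rw [show 2 ^ (i + c + 1) * u = 2 ^ i * (2 * (2 ^ c * u)) by ring]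
  simp [h0]

/-- The colour of `2 ^ m * u` read from the values `E`. -/
def col (L : ℕ) (Φ : ℕ → ℕ → Bool → Bool → Bool → ℕ) (E : ℕ → ℕ → Bool) (m u : ℕ) : ℕ :=
  Φ m (u % 4) (E (m / L) u) (E (m / L + 1) u) (E (m / L) (3 * u))

/-- The colouring. -/
def colour (L : ℕ) (Φ : ℕ → ℕ → Bool → Bool → Bool → ℕ) (f : B) (z : ℕ) : ℕ :=
  col L Φ (appr f) (val z) (z / 2 ^ val z)

variable {L : ℕ} {Φ : ℕ → ℕ → Bool → Bool → Bool → ℕ} {f : B}

theorem colour_eq (m u : ℕ) (hu : u % 2 = 1) :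
    colour L Φ f (2 ^ m * u) = col L Φ (appr f) m u := by
  rw [colour, val_eq m u hu, Nat.mul_div_cancel_left _ (by positivity)]

theorem colour_lim {b K M m u v : ℕ} (hb : ∀ j, b ≤ j → K ≤ lab f j) (hm : m < K)
    (hM : pos (b + 1) ≤ M) (hu : u % 2 = 1) (h : u ≡ v [MOD 2 ^ M]) (hv : 2 ^ pos b ≤ v) :
    colour L Φ f (2 ^ m * v) = col L Φ (lim f b) m u := by
  have h2 : 2 ≤ M := by have := lt_pos (b + 1); omega
  have h4 : u % 4 = v % 4 := h.of_dvd (pow_dvd_pow 2 h2)
  have hv2 : v % 2 = 1 := by omega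
  have h5 : m / L ≤ m := Nat.div_le_self _ _
  rw [colour_eq m v hv2, col, col, appr_eq_lim f hb (by omega) hv2 hv,
    appr_eq_lim f hb (by omega) hv2 hv, appr_eq_lim f hb (by omega) (by omega) (by omega),
    lim_congr f _ hM h, lim_congr f _ hM h, lim_congr f _ hM (h.mul_left 3), h4]

theorem mem_one {n x : ℕ} {X : Set ℕ} (hn : 2 ≤ n) (hx : x ∈ X) : x ∈ FSle n X :=
  ⟨{x}, by simpa using hx, by simp, by simp; omega, by simp⟩

theorem mem_two {n x y : ℕ} {X : Set ℕ} (hn : 2 ≤ n) (hx : x ∈ X) (hy : y ∈ X) (h : x ≠ y) :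
    x + y ∈ FSle n X :=
  ⟨{x, y}, by simp [Set.insert_subset_iff, hx, hy], by simp [h], by simpa [h] using hn,
    by simp [h]⟩

theorem mem_three {n x y z : ℕ} {X : Set ℕ} (hn : 3 ≤ n) (hx : x ∈ X) (hy : y ∈ X) (hz : z ∈ X)
    (h1 : x ≠ y) (h2 : x ≠ z) (h3 : y ≠ z) : x + y + z ∈ FSle n X :=
  ⟨{x, y, z}, by simp [Set.insert_subset_iff, hx, hy, hz], by simp [h1, h2, h3],
    by simpa [h1, h2, h3] using hn, by simp [h1, h2, h3, add_assoc]⟩

theorem exists_three {X : Set ℕ} (hX : X.Infinite) (Q N : ℕ) (hQ : 0 < Q) :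
    ∃ x ∈ X, ∃ y ∈ X, ∃ z ∈ X, x ≠ y ∧ x ≠ z ∧ y ≠ z ∧ N ≤ x ∧ N ≤ y ∧ N ≤ z ∧
      x ≡ y [MOD Q] ∧ x ≡ z [MOD Q] := by
  obtain ⟨r, hr⟩ : ∃ r, {x | x ∈ X ∧ N ≤ x ∧ x % Q = r}.Infinite := by
    by_contra hc
    refine hX (((Set.finite_lt_nat N).union ((Set.finite_lt_nat Q).biUnion
      (t := fun r => {x | x ∈ X ∧ N ≤ x ∧ x % Q = r})
      fun r _ => Set.not_infinite.1 fun h => hc ⟨r, h⟩)).subset fun x hx => ?_)
    by_cases h : x < N
    · exact Or.inl h
    · exact Or.inr (Set.mem_biUnion (Nat.mod_lt x hQ) ⟨hx, by omega, rfl⟩)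
  obtain ⟨F, hF, h3⟩ := hr.exists_subset_card_eq 3
  obtain ⟨x, y, z, h1, h2, h4, rfl⟩ := Finset.card_eq_three.1 h3
  obtain ⟨a1, a2, a3⟩ := hF (show x ∈ _ by simp)
  obtain ⟨b1, b2, b3⟩ := hF (show y ∈ _ by simp)
  obtain ⟨c1, c2, c3⟩ := hF (show z ∈ _ by simp)
  exact ⟨x, a1, y, b1, z, c1, h1, h2, h4, a2, b2, c2, a3.trans b3.symm, a3.trans c3.symm⟩

theorem cancel {m M u y : ℕ} (h : 2 ^ m * u ≡ y [MOD 2 ^ m * 2 ^ M]) :
    ∃ v, y = 2 ^ m * v ∧ u ≡ v [MOD 2 ^ M] := by
  obtain ⟨v, rfl⟩ : 2 ^ m ∣ y :=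
    (h.dvd_iff (dvd_mul_right _ _)).1 (dvd_mul_right _ _)
  exact ⟨v, rfl, Nat.ModEq.mul_left_cancel' (by positivity) h⟩

theorem unbounded {n i : ℕ} {X : Set ℕ} (hn : 2 ≤ n) (hX : X.Infinite)
    (hc : ∀ s ∈ FSle n X, colour L Φ f s = i)
    (hΦ : ∀ b m u, u % 2 = 1 → col L Φ (lim f b) m u = col L Φ (lim f b) (m + 1) u →
      3 ≤ n ∧ col L Φ (lim f b) m u ≠ col L Φ (lim f b) m (3 * u)) (A : ℕ) :
    ∃ y ∈ X, y ≠ 0 ∧ 2 ^ A ∣ y := by
  by_contra hA
  push Not at hA
  obtain ⟨b, hb⟩ := exists_bound f (A + 1)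
  obtain ⟨x, hx, y, hy, z, hz, h1, h2, h3, n1, n2, n3, e1, e2⟩ :=
    exists_three hX (2 ^ A * 2 ^ (pos (b + 1) + 1)) (2 ^ A * 2 ^ pos b) (by positivity)
  have hx0 : x ≠ 0 := by
    have : 0 < 2 ^ A * 2 ^ pos b := by positivity
    omega
  obtain ⟨m, u, hu, rfl⟩ := Nat.exists_eq_two_pow_mul_odd hx0
  rw [Nat.odd_iff] at hu
  have hm : m < A := by
    by_contra hc
    exact hA _ hx hx0 ((pow_dvd_pow 2 (by omega)).mul_right _)
  have hd : 2 ^ m * 2 ^ (pos (b + 1) + 1) ∣ 2 ^ A * 2 ^ (pos (b + 1) + 1) :=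
    Nat.mul_dvd_mul_right (pow_dvd_pow 2 hm.le) _
  obtain ⟨v, rfl, hv⟩ := cancel (e1.of_dvd hd)
  obtain ⟨w, rfl, hw⟩ := cancel (e2.of_dvd hd)
  have hbig : ∀ a, 2 ^ A * 2 ^ pos b ≤ 2 ^ m * a → 2 ^ pos b ≤ a := fun a ha =>
    Nat.le_of_mul_le_mul_left ((Nat.mul_le_mul_right _
      (Nat.pow_le_pow_right (by norm_num) hm.le)).trans ha) (by positivity)
  have g1 := hbig u n1
  have g2 := hbig v n2
  have g3 := hbig w n3
  have h4 : 2 ^ 1 * u ≡ u + v [MOD 2 ^ 1 * 2 ^ pos (b + 1)] := by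
    rw [pow_one, two_mul u, ← pow_succ']
    exact hv.add_left u
  obtain ⟨t, ht, htu⟩ := cancel h4
  have c1 := hc _ (mem_one hn hx)
  have c2 := hc _ (mem_two hn hx hy h1)
  rw [colour_lim hb (by omega) le_rfl hu (Nat.ModEq.refl u) g1] at c1
  rw [← mul_add, ht, ← mul_assoc, ← pow_add, colour_lim hb (by omega) le_rfl hu htu (by omega)]
    at c2
  obtain ⟨hn3, h5⟩ := hΦ b m u hu (c1.trans c2.symm)
  have c3 := hc _ (mem_three hn3 hx hy hz h1 h2 h3)
  have h6 : 3 * u ≡ u + v + w [MOD 2 ^ (pos (b + 1) + 1)] := by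
    rw [show 3 * u = u + u + u by ring]
    exact (hv.add_left u).add hw
  rw [← mul_add, ← mul_add, colour_lim hb (by omega) (Nat.le_succ _) (by omega) h6 (by omega)] at c3
  exact h5 (c1.trans c3.symm)

theorem settled {n i : ℕ} {X : Set ℕ} (hn : 2 ≤ n) (hc : ∀ s ∈ FSle n X, colour L Φ f s = i)
    (hflip : ∀ m r a b c, Φ m r (!a) (!b) (!c) ≠ Φ m r a b c)
    (hA : ∀ A, ∃ y ∈ X, y ≠ 0 ∧ 2 ^ A ∣ y) {x j : ℕ} (hx : x ∈ X) (hx0 : x ≠ 0)
    (hj : lab f j < val x / L) : j < 3 * x := by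
  by_contra hjx
  obtain ⟨m, u, hu, rfl⟩ := Nat.exists_eq_two_pow_mul_odd hx0
  rw [Nat.odd_iff] at hu
  rw [val_eq m u hu] at hj
  obtain ⟨b, hb⟩ := exists_bound f (m + 1)
  obtain ⟨y, hy, hy0, w, rfl⟩ := hA (m + (pos (b + 1) + u))
  have hw : 1 ≤ w := by
    rcases w with _ | w
    · simp at hy0
    · omega
  have h1 : 2 ^ (pos (b + 1) + u) ≤ 2 ^ (pos (b + 1) + u) * w := Nat.le_mul_of_pos_right _ hw
  have h2 : pos (b + 1) + u < 2 ^ (pos (b + 1) + u) := Nat.lt_two_pow_self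
  have h3 : 2 ^ pos b ≤ 2 ^ (pos (b + 1) + u) :=
    Nat.pow_le_pow_right (by norm_num) ((pos_mono (by omega)).trans (Nat.le_add_right _ _))
  have h4 : 2 ^ m * u ≠ 2 ^ (m + (pos (b + 1) + u)) * w := by
    rw [pow_add, mul_assoc]
    intro h
    have := Nat.eq_of_mul_eq_mul_left (by positivity) h
    omega
  have c1 := hc _ (mem_one hn hx)
  have c2 := hc _ (mem_two hn hx hy h4)
  have h5 : u ≤ 2 ^ m * u := Nat.le_mul_of_pos_left _ (by positivity)
  have h6 : m / L ≤ m := Nat.div_le_self _ _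
  rw [pow_add, mul_assoc, ← mul_add, colour_lim (u := u) hb (by omega) (Nat.le_add_right _ u) hu
    (by simp [Nat.ModEq]) (by omega), col, lim_late f (j := j) hb (by omega) hu (by omega) hj,
    lim_late f (j := j) hb (by omega) hu (by omega) (by omega),
    lim_late f (j := j) hb (by omega) (by omega) (by omega) hj] at c2
  rw [colour_eq m u hu, col] at c1
  exact hflip _ _ _ _ _ (c2.trans c1.symm)

section computable

variable {Y : Type} [Rep Y]

@[fun_prop] theorem td_idx {j u : Y → ℕ} (hj : TD j) (hu : TD u) : TD fun y => idx (j y) (u y) :=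
  TD.find' (c := fun y i => samp (j y) (3 ^ i * u y) || decide (u y % 2 = 0))
    (by unfold samp; fun_prop) fun y => exists_samp (j y) (u y)

@[fun_prop] theorem td_val {z : Y → ℕ} (hz : TD z) : TD fun y => val (z y) :=
  TD.find' (c := fun y m => decide (z y / 2 ^ m % 2 = 1) || decide (z y = 0))
    (by fun_prop) fun y => exists_val (z y)

@[fun_prop] theorem td_win {j u : Y → ℕ} (hj : TD j) (hu : TD u) :
    TD fun y => win (j y) (u y) := by
  unfold win pos; fun_prop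

@[fun_prop] theorem td_lab {g : Y → B} {j : Y → ℕ} (hg : TD g) (hj : TD j) :
    TD fun y => lab (g y) (j y) := by
  unfold lab; fun_prop

@[fun_prop] theorem td_evt {g : Y → B} {k j : Y → ℕ} (hg : TD g) (hk : TD k) (hj : TD j) :
    TD fun y => evt (g y) (k y) (j y) := by
  unfold evt; fun_prop

@[fun_prop] theorem td_appr {g : Y → B} {k u : Y → ℕ} (hg : TD g) (hk : TD k) (hu : TD u) :
    TD fun y => appr (g y) (k y) (u y) := by
  have : TD fun y => run (evt (g y) (k y)) (fun j => win j (u y)) (u y) := by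
    unfold run
    refine TD.nrec' hu (by fun_prop) ?_
    unfold step
    fun_prop
  unfold appr
  fun_prop

end computable

theorem red_pair {g a c : B} (h : Red g (jn a c)) :
    RecursiveIn {(a : ℕ →. ℕ), (c : ℕ →. ℕ)} (g : ℕ →. ℕ) := by
  refine RecursiveIn.subst h fun o ho => ?_
  rw [Set.mem_singleton_iff.1 ho, RecursiveIn.iff_nat]
  have h1 : Nat.RecursiveIn {(a : ℕ →. ℕ), (c : ℕ →. ℕ)} (a : ℕ →. ℕ) := .oracle _ (by simp)
  have h2 : Nat.RecursiveIn {(a : ℕ →. ℕ), (c : ℕ →. ℕ)} (c : ℕ →. ℕ) := .oracle _ (by simp)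
  have key : ∀ {g : ℕ → ℕ}, TD g →
      Nat.RecursiveIn {(a : ℕ →. ℕ), (c : ℕ →. ℕ)} (g : ℕ →. ℕ) := fun hg =>
    (Partrec.nat_iff.1 hg.computable.partrec).recursiveIn
  have h3 := key (g := fun n => n / 2) (by fun_prop)
  have h4 := key (g := fun n => n % 2) (by fun_prop)
  have h5 := key (g := fun p => if p.unpair.1 = 0 then p.unpair.2.unpair.1 else p.unpair.2.unpair.2)
    (by fun_prop)
  refine (h5.comp (h4.pair ((h1.comp h3).pair (h2.comp h3)))).of_eq fun n => ?_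
  have e : ∀ (x : ℕ) (g : ℕ → ℕ), (Part.some x).bind (g : ℕ →. ℕ) = Part.some (g x) :=
    fun x g => Part.bind_some x _
  simp only [jn, Seq.seq, PFun.coe_val, Bind.bind, e, Part.bind_some, Part.map_eq_map,
    Part.map_some, Nat.unpair_pair]

theorem scheme {n : ℕ} (hn : 2 ≤ n) (hL : 0 < L)
    (hT : TD fun p : ℕ × ℕ × Bool × Bool × Bool => Φ p.1 p.2.1 p.2.2.1 p.2.2.2.1 p.2.2.2.2)
    (hflip : ∀ m r a b c, Φ m r (!a) (!b) (!c) ≠ Φ m r a b c)
    (hΦ : ∀ b m u, u % 2 = 1 → col L Φ (lim f b) m u = col L Φ (lim f b) (m + 1) u →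
      3 ≤ n ∧ col L Φ (lim f b) m u ≠ col L Φ (lim f b) m (3 * u)) :
    RecursiveIn {(f : ℕ →. ℕ)} (colour L Φ f : ℕ →. ℕ) ∧
      ∀ X : Set ℕ, X.Infinite → (∃ i, ∀ s ∈ FSle n X, colour L Φ f s = i) →
        RecursiveIn {(f : ℕ →. ℕ), (chi X : ℕ →. ℕ)} (chi (Set.range f) : ℕ →. ℕ) := by
  constructor
  · have : TD fun g : B => lam (colour L Φ g) := by
      refine TD.lam' ?_
      unfold colour col
      exact hT.comp' (f := fun p : B × ℕ => (val p.2, p.2 / 2 ^ val p.2 % 4,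
        appr p.1 (val p.2 / L) (p.2 / 2 ^ val p.2), appr p.1 (val p.2 / L + 1) (p.2 / 2 ^ val p.2),
        appr p.1 (val p.2 / L) (3 * (p.2 / 2 ^ val p.2)))) (by fun_prop)
    exact this.red f
  · rintro X hX ⟨i, hc⟩
    have hA := unbounded hn hX hc hΦ
    refine red_pair (red_iff_TD.2 ?_)
    have hex : ∀ p : Pt1 (jn f (chi X)) × ℕ, ∃ x, (decide (ap (od p.1.1) x = 1) &&
        (decide (x ≠ 0) && decide (p.2 < val x / L))) = true := by
      rintro ⟨⟨_, rfl⟩, a⟩
      obtain ⟨y, hy, hy0, hd⟩ := hA ((a + 1) * L)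
      refine ⟨y, ?_⟩
      obtain ⟨m, u, hu, rfl⟩ := Nat.exists_eq_two_pow_mul_odd hy0
      have h1 : (a + 1) * L ≤ m := by
        have := (Nat.Coprime.pow_left _ (Nat.coprime_two_left.2 hu)).dvd_of_dvd_mul_right hd
        exact (Nat.pow_dvd_pow_iff_le_right (by norm_num)).1 this
      have h2 : a < m / L := (Nat.le_div_iff_mul_le hL).2 h1
      simp only [od_jn, ap_def, val_eq m u (Nat.odd_iff.1 hu), chi, if_pos hy, decide_true,
        h2, Bool.and_true, decide_eq_true hy0]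
    obtain ⟨xf, h1, hxf⟩ : ∃ xf : Pt1 (jn f (chi X)) × ℕ → ℕ, TD xf ∧ ∀ p,
        (decide (ap (od p.1.1) (xf p) = 1) &&
          (decide (xf p ≠ 0) && decide (p.2 < val (xf p) / L))) = true :=
      ⟨_, TD.find' (c := fun (p : Pt1 (jn f (chi X)) × ℕ) x => decide (ap (od p.1.1) x = 1) &&
        (decide (x ≠ 0) && decide (p.2 < val x / L))) (by fun_prop) hex,
        fun p => Nat.find_spec (hex p)⟩
    have h2 : TD fun p : Pt1 (jn f (chi X)) × ℕ => ((List.range (3 * xf p)).any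
        fun j => decide (ap (ev p.1.1) j = p.2)).toNat := by fun_prop
    refine (TD.lam' (F := fun q a => ((List.range (3 * xf (q, a))).any
        fun j => decide (ap (ev q.1) j = a)).toNat) h2).of_eq ?_
    rintro ⟨_, rfl⟩
    funext a
    have h3 := hxf (⟨_, rfl⟩, a)
    simp only [lam_def]
    generalize xf (⟨_, rfl⟩, a) = x at h3 ⊢
    simp only [od_jn, ap_def, Bool.and_eq_true, decide_eq_true_eq] at h3
    have hx : x ∈ X := by
      by_contra h
      simp [chi, h] at h3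
    simp only [ev_jn, ap_def, chi]
    split_ifs with h
    · have h4 := Nat.find_spec h
      have h5 : lab f (Nat.find h) = a :=
        (lab_first f _ fun i hi => by rw [h4]; exact Nat.find_min h hi).trans h4
      have h6 := settled hn hc hflip hA hx h3.2.1 (j := Nat.find h) (by rw [h5]; exact h3.2.2)
      have : ((List.range (3 * x)).any fun j => decide (f j = a)) = true := by
        simp only [List.any_eq_true, List.mem_range, decide_eq_true_eq]
        exact ⟨_, h6, h4⟩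
      rw [this]
      rfl
    · have : ((List.range (3 * x)).any fun j => decide (f j = a)) = false := by
        simp only [List.any_eq_false, List.mem_range, decide_eq_true_eq]
        exact fun j _ hj => h ⟨j, hj⟩
      rw [this]
      rfl

/-- Three colours: along a change of level the colours rotate. -/
def three (m _r : ℕ) (a b _c : Bool) : ℕ :=
  ((m / 3 + a.toNat) % 2 + m % 3) % (2 + (xor a b).toNat)

/-- Two colours: a change of level is made in two steps. -/
def two (m r : ℕ) (a b c : Bool) : ℕ :=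
  (m + r / 2 + (cond (decide (m % 2 = 1) && !xor a c) b a).toNat) % 2

theorem three_ne (E : ℕ → ℕ → Bool) (m u : ℕ) : col 3 three E m u ≠ col 3 three E (m + 1) u := by
  unfold col three
  rcases (by omega : m % 3 = 0 ∨ m % 3 = 1 ∨ m % 3 = 2) with h | h | h
  · rw [show (m + 1) / 3 = m / 3 by omega]
    cases E (m / 3) u <;> cases E (m / 3 + 1) u <;> simp <;> omega
  · rw [show (m + 1) / 3 = m / 3 by omega]
    cases E (m / 3) u <;> cases E (m / 3 + 1) u <;> simp <;> omega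
  · rw [show (m + 1) / 3 = m / 3 + 1 by omega, show (m + 1) % 3 = 0 by omega, h]
    generalize m / 3 = q
    cases E q u <;> cases E (q + 1) u <;> cases E (q + 1 + 1) u <;> simp <;> omega

theorem two_ne (b m u : ℕ) (hu : u % 2 = 1)
    (h : col 2 two (lim f b) m u = col 2 two (lim f b) (m + 1) u) :
    col 2 two (lim f b) m u ≠ col 2 two (lim f b) m (3 * u) := by
  have h1 := lim_crit f b (m / 2) u hu
  revert h h1
  unfold col two
  rcases Nat.mod_two_eq_zero_or_one m with h | h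
  · rw [show (m + 1) / 2 = m / 2 by omega, show (m + 1) % 2 = 1 by omega, h]
    cases lim f b (m / 2) u <;> cases lim f b (m / 2 + 1) u <;> cases lim f b (m / 2) (3 * u) <;>
      simp <;> omega
  · rw [show (m + 1) / 2 = m / 2 + 1 by omega, show (m + 1) % 2 = 0 by omega, h]
    cases lim f b (m / 2) u <;> cases lim f b (m / 2 + 1) u <;> cases lim f b (m / 2) (3 * u) <;>
      cases lim f b (m / 2 + 1) (3 * u) <;> cases lim f b (m / 2) (3 * (3 * u)) <;>
      simp <;> omega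

end Pool.Agent.Lib.MP_f43b6f_lc
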