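import Pool.Agent.Lib.MP_f43b6f_lc.UDef

set_option autoImplicit false

/-!
A calculus of arithmetical predicates, functions and real numbers.
-/

namespace Pool.Agent.Lib.MP_f43b6f_lc

open Encodable

/-- An oracle. -/
structure Orc where
  /-- the function consulted -/
  f : ℕ → ℕ

variable {o : Orc} {α β γ δ : Type} [Primcodable α] [Primcodable β] [Primcodable γ]

/-- Arithmetical predicates on a coded type. -/
def AP (o : Orc) (P : α → Prop) : Prop := ∃ A, ArithIn o.f A ∧ ∀ a, P a ↔ encode a ∈ A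

theorem AP.congr {P Q : α → Prop} (h : AP o P) (e : ∀ a, Q a ↔ P a) : AP o Q := by
  obtain ⟨A, h1, h2⟩ := h
  exact ⟨A, h1, fun a => (e a).trans (h2 a)⟩

theorem AP.not {P : α → Prop} (h : AP o P) : AP o fun a => ¬ P a := by
  obtain ⟨A, h1, h2⟩ := h
  exact ⟨Aᶜ, h1.compl, fun a => not_congr (h2 a)⟩

theorem AP.and {P Q : α → Prop} (h : AP o P) (h' : AP o Q) : AP o fun a => P a ∧ Q a := by
  obtain ⟨A, h1, h2⟩ := h
  obtain ⟨B, h3, h4⟩ := h'
  exact ⟨A ∩ B, h1.inter h3, fun a => and_congr (h2 a) (h4 a)⟩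

theorem AP.prim {P : β → Prop} {h : α → β} (hP : AP o P) (hh : Primrec h) :
    AP o fun a => P (h a) := by
  obtain ⟨A, h1, h2⟩ := hP
  refine ⟨_, h1.preimage (g := fun n => (encode ((decode (α := α) n).map h)).pred)
    (Primrec.pred.comp (Primrec.nat_iff.2 hh)).to_comp, fun a => ?_⟩
  simp [h2]

theorem AP.of_prim {P : α → Prop} (hP : PrimrecPred P) : AP o P := by
  classical
  have h0 : AP o fun n : ℕ => n = 0 := ⟨{0}, .zero, fun a => by simp⟩
  refine (h0.prim (Primrec.ite hP (Primrec.const 0) (Primrec.const 1))).congr fun a => ?_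
  by_cases h : P a <;> simp [h]

theorem AP.ex {P : α → β → Prop} (hP : AP o fun p : α × β => P p.1 p.2) :
    AP o fun a => ∃ b, P a b := by
  rcases isEmpty_or_nonempty β with h | ⟨⟨b₀⟩⟩
  · exact (AP.of_prim (Primrec.eq.comp (Primrec.const 0) (Primrec.const 1))).congr (by simp)
  obtain ⟨A, h1, h2⟩ := hP.prim (h := fun p : α × ℕ => (p.1, (decode p.2).getD b₀))
    (Primrec.fst.pair (Primrec.option_getD.comp (Primrec.decode.comp Primrec.snd)
      (Primrec.const b₀)))
  refine ⟨_, h1.proj, fun a => ⟨?_, ?_⟩⟩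
  · rintro ⟨b, hb⟩
    exact ⟨encode b, (h2 (a, encode b)).1 (by simpa using hb)⟩
  · rintro ⟨m, hm⟩
    exact ⟨_, (h2 (a, m)).2 hm⟩

/-- Observations of a value. -/
class Obs (β : Type) where
  /-- the observation with a given number -/
  obs : β → ℕ → Prop

/-- The rational number with a given code. -/
noncomputable def rv (n : ℕ) : ℝ :=
  ((n.unpair.1 : ℝ) - n.unpair.2.unpair.1) / (n.unpair.2.unpair.2 + 1)

instance obsProp : Obs Prop := ⟨fun p _ => p⟩
instance obsReal : Obs ℝ := ⟨fun x n => rv n < x⟩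
instance (priority := low) obsCode : Obs β := ⟨fun b n => encode b = n⟩

/-- Arithmetical maps. -/
@[fun_prop] def Ar (o : Orc) [Obs δ] (g : α → δ) : Prop :=
  AP o fun p : α × ℕ => Obs.obs (g p.1) p.2

theorem ar_iff {P : α → Prop} : Ar o P ↔ AP o P :=
  ⟨fun h => AP.prim (h := fun a => (a, 0)) h (Primrec.id.pair (Primrec.const 0)),
    fun h => AP.prim h Primrec.fst⟩

theorem Ar.congr {P Q : α → Prop} (h : Ar o P) (e : ∀ a, Q a ↔ P a) : Ar o Q :=
  ar_iff.2 ((ar_iff.1 h).congr e)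

theorem Ar.of_eq [Obs δ] {g h : α → δ} (hg : Ar o g) (e : ∀ a, h a = g a) : Ar o h := by
  rwa [show h = g from funext e]

theorem Ar.of_prim {h : α → β} (hh : Primrec h) : Ar o h :=
  AP.of_prim (Primrec.eq.comp (Primrec.encode.comp (hh.comp Primrec.fst)) Primrec.snd)

@[fun_prop] theorem Ar.comp [Obs δ] {g : β → δ} {h : α → β} (hg : Ar o g) (hh : Ar o h) :
    Ar o fun a => g (h a) := by
  refine (AP.ex (P := fun (p : α × ℕ) (b : β) => encode (h p.1) = encode b ∧ Obs.obs (g b) p.2)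
    (AP.and ?_ ?_)).congr fun p => by simp
  · exact AP.prim (h := fun q : (α × ℕ) × β => (q.1.1, encode q.2)) hh
      ((Primrec.fst.comp Primrec.fst).pair (Primrec.encode.comp Primrec.snd))
  · exact AP.prim (h := fun q : (α × ℕ) × β => (q.2, q.1.2)) hg
      (Primrec.snd.pair (Primrec.snd.comp Primrec.fst))

@[fun_prop] theorem Ar.id : Ar o fun a : α => a := Ar.of_prim Primrec.id

/-- Arithmetical constants. -/
class Cst [Obs δ] (c : δ) : Prop where
  out : ∀ o, Ar o fun _ : ℕ => c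

@[fun_prop] theorem Ar.const [Obs δ] (c : δ) [h : Cst c] : Ar o fun _ : α => c :=
  (h.out o).comp (Ar.of_prim (Primrec.const 0))

instance cstCode (b : β) : Cst b := ⟨fun _ => Ar.of_prim (Primrec.const b)⟩

instance cstProp (p : Prop) : Cst p := ⟨fun _ => ar_iff.2 <| by
  by_cases h : p
  · exact (AP.of_prim (Primrec.eq.comp (Primrec.const 0) (Primrec.const 0))).congr (by simp [h])
  · exact (AP.of_prim (Primrec.eq.comp (Primrec.const 0) (Primrec.const 1))).congr (by simp [h])⟩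

@[fun_prop] theorem Ar.pair {g : α → β} {h : α → γ} (hg : Ar o g) (hh : Ar o h) :
    Ar o fun a => (g a, h a) := by
  refine (AP.and (AP.prim (h := fun q : α × ℕ => (q.1, q.2.unpair.1)) hg ?_)
    (AP.prim (h := fun q : α × ℕ => (q.1, q.2.unpair.2)) hh ?_)).congr fun p => ?_
  · exact Primrec.fst.pair (Primrec.fst.comp (Primrec.unpair.comp Primrec.snd))
  · exact Primrec.fst.pair (Primrec.snd.comp (Primrec.unpair.comp Primrec.snd))
  · change Nat.pair (encode (g p.1)) (encode (h p.1)) = p.2 ↔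
      encode (g p.1) = p.2.unpair.1 ∧ encode (h p.1) = p.2.unpair.2
    constructor
    · intro e
      simp [← e]
    · rintro ⟨e1, e2⟩
      rw [e1, e2, Nat.pair_unpair]

@[fun_prop] theorem Ar.fst {g : α → β × γ} (hg : Ar o g) : Ar o fun a => (g a).1 :=
  (Ar.of_prim Primrec.fst).comp hg

@[fun_prop] theorem Ar.snd {g : α → β × γ} (hg : Ar o g) : Ar o fun a => (g a).2 :=
  (Ar.of_prim Primrec.snd).comp hg

theorem Ar.prim₂ {σ : Type} [Primcodable σ] {f : β → γ → σ} (hf : Primrec₂ f) {g : α → β}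
    {h : α → γ} (hg : Ar o g) (hh : Ar o h) : Ar o fun a => f (g a) (h a) :=
  (Ar.of_prim hf).comp (hg.pair hh)

theorem Ar.rel {r : β → γ → Prop} (hr : PrimrecRel r) {g : α → β}
    {h : α → γ} (hg : Ar o g) (hh : Ar o h) : Ar o fun a => r (g a) (h a) :=
  (ar_iff.2 (AP.of_prim hr)).comp (hg.pair hh)

@[fun_prop] theorem Ar.not {P : α → Prop} (h : Ar o P) : Ar o fun a => ¬ P a :=
  ar_iff.2 (ar_iff.1 h).not

@[fun_prop] theorem Ar.and {P Q : α → Prop} (h : Ar o P) (h' : Ar o Q) :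
    Ar o fun a => P a ∧ Q a := ar_iff.2 ((ar_iff.1 h).and (ar_iff.1 h'))

@[fun_prop] theorem Ar.or {P Q : α → Prop} (h : Ar o P) (h' : Ar o Q) :
    Ar o fun a => P a ∨ Q a := (h.not.and h'.not).not.congr fun a => by tauto

theorem Ar.imp {P Q : α → Prop} (h : Ar o P) (h' : Ar o Q) :
    Ar o fun a => P a → Q a := (h.not.or h').congr fun a => by tauto

@[fun_prop] theorem Ar.ex {P : α → β → Prop} (h : Ar o fun p : α × β => P p.1 p.2) :
    Ar o fun a => ∃ b, P a b := ar_iff.2 (ar_iff.1 h).ex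

theorem Ar.all {P : α → β → Prop} (h : Ar o fun p : α × β => P p.1 p.2) :
    Ar o fun a => ∀ b, P a b :=
  (Ar.ex (P := fun a b => ¬ P a b) h.not).not.congr fun a => by simp

@[fun_prop] theorem Ar.eq {g h : α → β} (hg : Ar o g) (hh : Ar o h) :
    Ar o fun a => g a = h a := by
  classical
  exact Ar.rel Primrec.eq hg hh

@[fun_prop] theorem Ar.ne {g h : α → β} (hg : Ar o g) (hh : Ar o h) :
    Ar o fun a => g a ≠ h a := (hg.eq hh).not

theorem Ar.obs [Obs δ] {g : α → δ} {h : α → ℕ} (hg : Ar o g) (hh : Ar o h) :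
    Ar o fun a => Obs.obs (g a) (h a) := (ar_iff.2 hg).comp (Ar.id.pair hh)

theorem Ar.of_obs [Obs δ] {g : α → δ} (hg : Ar o fun p : α × ℕ => Obs.obs (g p.1) p.2) :
    Ar o g := ar_iff.1 hg

@[fun_prop] theorem Ar.encode {g : α → β} (hg : Ar o g) : Ar o fun a => encode (g a) :=
  (Ar.of_prim Primrec.encode).comp hg

theorem Ar.of_graph {g : α → β} (hg : Ar o fun p : α × β => g p.1 = p.2) : Ar o g := by
  refine Ar.of_obs ((Ar.ex (P := fun (p : α × ℕ) (b : β) => g p.1 = b ∧ Encodable.encode b = p.2)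
    (Ar.and ?_ (by fun_prop))).congr fun p => by simp [Obs.obs])
  exact hg.comp (h := fun q : (α × ℕ) × β => (q.1.1, q.2)) (by fun_prop)

theorem ar_oracle : Ar o o.f :=
  ⟨_, .graph, fun p => by
    change o.f p.1 = p.2 ↔ o.f (Nat.pair p.1 p.2).unpair.1 = (Nat.pair p.1 p.2).unpair.2
    simp⟩

theorem Ar.arithIn {X : Set ℕ} (h : Ar o fun n => n ∈ X) : ArithIn o.f X := by
  obtain ⟨A, h1, h2⟩ := ar_iff.1 h
  rwa [show X = A from Set.ext h2]

@[fun_prop] theorem Ar.ite [Obs δ] {P : α → Prop} [DecidablePred P] {g h : α → δ} (hP : Ar o P)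
    (hg : Ar o g) (hh : Ar o h) : Ar o fun a => if P a then g a else h a := by
  have h1 := ar_iff.2 hg
  have h2 := ar_iff.2 hh
  have h3 : Ar o fun p : α × ℕ => P p.1 := by fun_prop
  refine Ar.of_obs (((h3.and h1).or (h3.not.and h2)).congr fun p => ?_)
  by_cases h : P p.1 <;> simp [h]

@[fun_prop] theorem Ar.inl {g : α → β} (hg : Ar o g) : Ar o fun a => (Sum.inl (g a) : β ⊕ γ) :=
  (Ar.of_prim Primrec.sumInl).comp hg

@[fun_prop] theorem Ar.inr {g : α → γ} (hg : Ar o g) : Ar o fun a => (Sum.inr (g a) : β ⊕ γ) :=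
  (Ar.of_prim Primrec.sumInr).comp hg

theorem Ar.elim [Obs δ] {s : α → β ⊕ γ} {g : α → β → δ} {h : α → γ → δ}
    (hs : Ar o s) (hg : Ar o fun p : α × β => g p.1 p.2) (hh : Ar o fun p : α × γ => h p.1 p.2) :
    Ar o fun a => Sum.elim (g a) (h a) (s a) := by
  refine Ar.of_obs ((Ar.or
    (Ar.ex (P := fun (p : α × ℕ) (b : β) => s p.1 = .inl b ∧ Obs.obs (g p.1 b) p.2)
      (Ar.and (by fun_prop) (Ar.obs ?_ (by fun_prop))))
    (Ar.ex (P := fun (p : α × ℕ) (b : γ) => s p.1 = .inr b ∧ Obs.obs (h p.1 b) p.2)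
      (Ar.and (by fun_prop) (Ar.obs ?_ (by fun_prop))))).congr fun p => ?_)
  · fun_prop
  · fun_prop
  · cases s p.1 <;> simp

@[fun_prop] theorem Ar.add_nat {g h : α → ℕ} (hg : Ar o g) (hh : Ar o h) :
    Ar o fun a => g a + h a := Ar.prim₂ Primrec.nat_add hg hh

@[fun_prop] theorem Ar.mul_nat {g h : α → ℕ} (hg : Ar o g) (hh : Ar o h) :
    Ar o fun a => g a * h a := Ar.prim₂ Primrec.nat_mul hg hh

@[fun_prop] theorem Ar.sub_nat {g h : α → ℕ} (hg : Ar o g) (hh : Ar o h) :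
    Ar o fun a => g a - h a := Ar.prim₂ Primrec.nat_sub hg hh

@[fun_prop] theorem Ar.le_nat {g h : α → ℕ} (hg : Ar o g) (hh : Ar o h) :
    Ar o fun a => g a ≤ h a := Ar.rel Primrec.nat_le hg hh

@[fun_prop] theorem Ar.lt_nat {g h : α → ℕ} (hg : Ar o g) (hh : Ar o h) :
    Ar o fun a => g a < h a := Ar.rel Primrec.nat_lt hg hh

@[fun_prop] theorem Ar.unpair {g : α → ℕ} (hg : Ar o g) : Ar o fun a => (g a).unpair :=
  (Ar.of_prim Primrec.unpair).comp hg

@[fun_prop] theorem Ar.npair {g h : α → ℕ} (hg : Ar o g) (hh : Ar o h) :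
    Ar o fun a => Nat.pair (g a) (h a) := Ar.prim₂ Primrec₂.natPair hg hh

@[fun_prop] theorem Ar.some {g : α → β} (hg : Ar o g) : Ar o fun a => some (g a) :=
  (Ar.of_prim Primrec.option_some).comp hg

@[fun_prop] theorem Ar.cons {g : α → β} {L : α → List β} (hg : Ar o g) (hL : Ar o L) :
    Ar o fun a => g a :: L a := Ar.prim₂ Primrec.list_cons hg hL

@[fun_prop] theorem Ar.append {L M : α → List β} (hL : Ar o L) (hM : Ar o M) :
    Ar o fun a => L a ++ M a := Ar.prim₂ Primrec.list_append hL hM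

@[fun_prop] theorem Ar.length {L : α → List β} (hL : Ar o L) : Ar o fun a => (L a).length :=
  (Ar.of_prim Primrec.list_length).comp hL

@[fun_prop] theorem Ar.range {g : α → ℕ} (hg : Ar o g) : Ar o fun a => List.range (g a) :=
  (Ar.of_prim Primrec.list_range).comp hg

@[fun_prop] theorem Ar.get? {L : α → List β} {g : α → ℕ} (hL : Ar o L) (hg : Ar o g) :
    Ar o fun a => (L a)[g a]? := Ar.prim₂ Primrec.list_getElem? hL hg

@[fun_prop] theorem Ar.getD {L : α → List β} {g : α → ℕ} (d : β) (hL : Ar o L) (hg : Ar o g) :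
    Ar o fun a => (L a).getD (g a) d := Ar.prim₂ (Primrec.list_getD d) hL hg

@[fun_prop] theorem Ar.mem {L : α → List β} {g : α → β} (hL : Ar o L) (hg : Ar o g) :
    Ar o fun a => g a ∈ L a :=
  (Ar.ex (P := fun a (i : ℕ) => (L a)[i]? = Option.some (g a)) (by fun_prop)).congr
    fun a => List.mem_iff_getElem?

@[fun_prop] theorem Ar.map {L : α → List β} {g : α → β → γ} (hL : Ar o L)
    (hg : Ar o fun p : α × β => g p.1 p.2) : Ar o fun a => (L a).map (g a) := by
  refine Ar.of_graph ((Ar.and (P := fun p : α × List γ => (L p.1).length = p.2.length)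
    (by fun_prop) (Ar.all (P := fun (p : α × List γ) (q : ℕ × β) =>
      (L p.1)[q.1]? = Option.some q.2 → p.2[q.1]? = Option.some (g p.1 q.2))
      (Ar.imp (by fun_prop) (by fun_prop)))).congr fun p => ⟨?_, ?_⟩)
  · intro e
    refine ⟨by simp [← e], fun q hq => by simp [← e, hq]⟩
  · rintro ⟨e1, e2⟩
    refine List.ext_getElem (by simpa using e1) fun i h1 h2 => ?_
    have h3 : i < (L p.1).length := by simpa using h1
    have := e2 (i, (L p.1)[i]) (by simp [h3])
    simp only [List.getElem?_eq_getElem h2, Option.some.injEq] at this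
    simp [this]

/-- A surjective enumeration. -/
def en [Inhabited β] (n : ℕ) : β := (decode n).getD default

theorem en_encode [Inhabited β] (b : β) : en (Encodable.encode b) = b := by simp [en]

@[fun_prop] theorem Ar.en [Inhabited β] {g : α → ℕ} (hg : Ar o g) :
    Ar o fun a => (en (g a) : β) :=
  (Ar.of_prim (Primrec.option_getD_default.comp Primrec.decode)).comp hg

theorem Ar.choose {R : α → β → Prop} (hR : Ar o fun p : α × β => R p.1 p.2)
    (h : ∀ a, ∃ b, R a b) : ∃ g : α → β, Ar o g ∧ ∀ a, R a (g a) := by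
  have h1 : ∀ a, ∃ b, R a b ∧ ∀ b', R a b' → Encodable.encode b ≤ Encodable.encode b' := fun a => by
    obtain ⟨b, h2, h3⟩ := (InvImage.wf (Encodable.encode (α := β)) Nat.lt_wfRel.wf).has_min
      {b | R a b} (h a)
    exact ⟨b, h2, fun b' hb' => not_lt.1 (h3 b' hb')⟩
  choose g h2 h3 using h1
  refine ⟨g, Ar.of_graph ((hR.and (Ar.all (P := fun (p : α × β) (b : β) =>
    R p.1 b → Encodable.encode p.2 ≤ Encodable.encode b) (Ar.imp (by fun_prop) (by fun_prop)))).congr
    fun p => ⟨?_, ?_⟩), h2⟩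
  · intro e
    exact ⟨e ▸ h2 _, e ▸ h3 _⟩
  · rintro ⟨e1, e2⟩
    exact encode_injective (le_antisymm (h3 _ _ e1) (e2 _ (h2 _)))

theorem Ar.nrec {s : ℕ → β} {h : ℕ → β → β} (hh : Ar o fun p : ℕ × β => h p.1 p.2)
    (hs : ∀ n, s (n + 1) = h n (s n)) : Ar o s := by
  refine Ar.of_graph ((Ar.ex (P := fun (p : ℕ × β) (L : List β) =>
    L[0]? = Option.some (s 0) ∧ L[p.1]? = Option.some p.2 ∧ ∀ q : ℕ × β, q.1 < p.1 →
      L[q.1]? = Option.some q.2 → L[q.1 + 1]? = Option.some (h q.1 q.2))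
    (Ar.and (by fun_prop) (Ar.and (by fun_prop) (Ar.all (Ar.imp (by fun_prop)
      (Ar.imp (by fun_prop) (by fun_prop))))))).congr fun p => ⟨?_, ?_⟩)
  · intro e
    refine ⟨(List.range (p.1 + 1)).map s, by simp, by simp [e], fun q h1 h2 => ?_⟩
    have h3 : q.1 < p.1 + 1 := by omega
    have h4 : q.1 + 1 < p.1 + 1 := by omega
    simp [h3] at h2
    simp [h4, hs, h2]
  · rintro ⟨L, h1, h2, h3⟩
    have : ∀ i ≤ p.1, L[i]? = Option.some (s i) := fun i hi => by
      induction i with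
      | zero => exact h1
      | succ i ih => rw [hs]; exact h3 (i, s i) hi (ih (by omega))
    exact Option.some_injective _ ((this _ le_rfl).symm.trans h2)

/-- Arithmetical dependent choice. -/
theorem Ar.dc {G : List β → Prop} {R : List β → β → Prop} (hG : Ar o G)
    (hR : Ar o fun p : List β × β => R p.1 p.2) (h0 : G [])
    (h : ∀ L, G L → ∃ b, R L b ∧ G (b :: L)) :
    ∃ (x : ℕ → β) (L : ℕ → List β), Ar o x ∧ Ar o L ∧ L 0 = [] ∧
      ∀ n, L (n + 1) = x n :: L n ∧ G (L n) ∧ R (L n) (x n) := by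
  obtain ⟨b₀, -⟩ := h [] h0
  obtain ⟨g, hg, h1⟩ := Ar.choose (o := o) (R := fun L b => G L → R L b ∧ G (b :: L))
    (Ar.imp (by fun_prop) (by fun_prop)) fun L => by
      by_cases h2 : G L
      · exact (h L h2).imp fun _ h3 _ => h3
      · exact ⟨b₀, fun h3 => absurd h3 h2⟩
  let L : ℕ → List β := fun n => Nat.rec [] (fun _ M => g M :: M) n
  have hL : Ar o L := Ar.nrec (h := fun _ M => g M :: M) (by fun_prop) fun _ => rfl
  have h2 : ∀ n, G (L n) := fun n => by
    induction n with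
    | zero => exact h0
    | succ n ih => exact (h1 _ ih).2
  exact ⟨fun n => g (L n), L, by fun_prop, hL, rfl, fun n => ⟨rfl, h2 n, (h1 _ (h2 n)).1⟩⟩

end Pool.Agent.Lib.MP_f43b6f_lc
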