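import Pool.Agent.Lib.MP_f43b6f_lc.UHull

set_option autoImplicit false

/-!
Assembly: from the forcing data to an arithmetical solution.
-/

namespace Pool.Agent.Lib.MP_f43b6f_lc

open Filter Topology Set

/-- The monomial `L` is one at `n`. -/
def vl (o : Orc) (L : List (ℕ × ℕ)) (n : ℕ) : Prop := ∀ p, p ∈ L → o.f (p.2 + n) = p.1

/-- The forcing data on a reservoir `F` for a colouring with `k` colours. -/
structure Forc (o : Orc) (k : ℕ) (F : Res) where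
  /-- the windows -/
  O : Res
  /-- positivity of window times monomial, relative to a set of killed pairs -/
  Pos : (ℕ × List (ℕ × ℕ) → Prop) → ℕ → List (ℕ × ℕ) → Prop
  aO : Ar o fun p : ℕ × ℕ => O.mem p.1 p.2
  aPos : ∀ {α : Type} [Primcodable α] (D : α → ℕ × List (ℕ × ℕ) → Prop),
    Ar o (fun p : α × (ℕ × List (ℕ × ℕ)) => D p.1 p.2) →
    Ar o fun p : α × (ℕ × List (ℕ × ℕ)) => Pos (D p.1) p.2.1 p.2.2
  hO : ∀ j b, O.mem j b → F.mem j b
  pos_empty : Pos (fun _ => False) 0 []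
  not_pos : ∀ D j v, D (j, v) → ¬ Pos D j v
  pos_trans : ∀ D D' j v, Pos D j v → (∀ p, D' p → ¬ Pos D p.1 p.2) → Pos D' j v
  pos_mono : ∀ D j j' v, Pos D j v → j' ≤ j → Pos D j' v
  pos_split : ∀ D j, Pos D 0 [] → ∃ i < k, Pos D j [(i, 0)]
  pos_point : ∀ D j i, Pos D j [(i, 0)] → ∀ N, ∃ b, F.mem N b ∧ o.f b = i
  step : ∀ j, ∃ j1, ∀ D v i N, Pos D j1 v →
    (∀ b, N ≤ b → vl o v b → ¬ Pos D j1 ((i, b) :: v)) →
    ∃ r, O.mem j r ∧ o.f r ≠ i ∧ (∀ n, n < j → ¬ Pos D j [(i, n)] → o.f (n + r) ≠ i) ∧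
      ∃ j2, Pos (fun p => D p ∨ (p.1 = j2 ∧ ∃ b, (b = 0 ∨ O.mem j2 b) ∧ p.2 = [(i, r + b)])) 0 []

/-- A solution that is arithmetical in the colouring. -/
def Solved (o : Orc) : Prop :=
  ∃ X : Set ℕ, X.Infinite ∧ ArithIn o.f X ∧ ∃ i, ∀ s ∈ FSle 2 X, o.f s = i

/-- The colours that occur far out in a reservoir. -/
def Col (o : Orc) (F : Res) (i : ℕ) : Prop := ∀ N, ∃ b, F.mem N b ∧ o.f b = i

theorem ar_vl {o : Orc} {α : Type} [Primcodable α] {L : α → List (ℕ × ℕ)} {g : α → ℕ}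
    (hL : Ar o L) (hg : Ar o g) : Ar o fun a => vl o (L a) (g a) :=
  Ar.all (Ar.imp (by fun_prop) (Ar.eq (ar_oracle.comp (by fun_prop)) (by fun_prop)))

theorem solved_of {o : Orc} {x : ℕ → ℕ} (hx : Ar o x) (hm : StrictMono x) {i : ℕ}
    (h1 : ∀ n, o.f (x n) = i) (h2 : ∀ m n, m < n → o.f (x m + x n) = i) : Solved o := by
  refine ⟨range x, infinite_range_of_injective hm.injective,
    Ar.arithIn (Ar.ex (P := fun n m => x m = n) (by fun_prop)), i, ?_⟩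
  rintro _ ⟨T, hT, c1, c2, rfl⟩
  rcases (show T.card = 1 ∨ T.card = 2 by omega) with h | h
  · obtain ⟨a, rfl⟩ := Finset.card_eq_one.1 h
    obtain ⟨n, rfl⟩ := hT (show a ∈ ({a} : Finset ℕ) by simp)
    simpa using h1 n
  · obtain ⟨a, b, hab, rfl⟩ := Finset.card_eq_two.1 h
    obtain ⟨m, rfl⟩ := hT (show a ∈ ({a, b} : Finset ℕ) by simp)
    obtain ⟨n, rfl⟩ := hT (show b ∈ ({x m, b} : Finset ℕ) by simp)
    rw [Finset.sum_pair hab]
    rcases lt_trichotomy m n with h | rfl | h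
    · exact h2 m n h
    · exact absurd rfl hab
    · rw [add_comm]
      exact h2 n m h

namespace Forc

variable {o : Orc} {k : ℕ} {F : Res} (Z : Forc o k F)

theorem pos_sub {D D' : ℕ × List (ℕ × ℕ) → Prop} {j : ℕ} {v : List (ℕ × ℕ)} (h : Z.Pos D j v)
    (hD : ∀ p, D' p → D p) : Z.Pos D' j v :=
  Z.pos_trans D D' j v h fun p hp => Z.not_pos D p.1 p.2 (hD p hp)

theorem arPos {α β : Type} [Primcodable α] [Primcodable β] (D : α → ℕ × List (ℕ × ℕ) → Prop)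
    (hD : Ar o fun p : α × (ℕ × List (ℕ × ℕ)) => D p.1 p.2) {a : β → α} {j : β → ℕ}
    {v : β → List (ℕ × ℕ)} (ha : Ar o a) (hj : Ar o j) (hv : Ar o v) :
    Ar o fun b => Z.Pos (D (a b)) (j b) (v b) :=
  (Z.aPos D hD).comp (h := fun b => (a b, (j b, v b))) (by fun_prop)

theorem exists_colour : ∃ (D : ℕ × List (ℕ × ℕ) → Prop) (i : ℕ), Ar o D ∧ i < k ∧ Z.Pos D 0 [] ∧
    ∀ D', (∀ p, D p → D' p) → Z.Pos D' 0 [] → ∀ j, Z.Pos D' j [(i, 0)] := by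
  classical
  let E : List ℕ → ℕ → ℕ × List (ℕ × ℕ) → Prop := fun I j p =>
    p.1 = j ∧ ∃ i, i < k ∧ ¬ i ∈ I ∧ p.2 = [(i, 0)]
  have h0 : ∃ n, ∃ I : List ℕ, I.length = n ∧ ∃ j, Z.Pos (E I j) 0 [] :=
    ⟨_, List.range k, rfl, 0, Z.pos_sub Z.pos_empty fun p ⟨_, i, h1, h2, _⟩ =>
      h2 (List.mem_range.2 h1)⟩
  obtain ⟨I, h1, j₀, h2⟩ := Nat.find_spec h0
  obtain ⟨i, h3, h4⟩ := Z.pos_split _ j₀ h2
  have h5 : i ∈ I := by
    by_contra h5
    exact Z.not_pos _ _ _ ⟨rfl, i, h3, h5, rfl⟩ h4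
  refine ⟨E I j₀, i, by fun_prop, h3, h2, fun D hD hp j => ?_⟩
  by_contra h6
  refine Nat.find_min h0 (m := (I.erase i).length) ?_ ⟨_, rfl, max j j₀, ?_⟩
  · rw [← h1, List.length_erase_of_mem h5]
    have := List.length_pos_of_mem h5
    omega
  · refine Z.pos_trans D _ 0 [] hp ?_
    rintro ⟨j', v⟩ ⟨rfl, i', a1, a2, rfl⟩ a3
    by_cases a4 : i' = i
    · exact h6 (a4 ▸ Z.pos_mono _ _ _ _ a3 (le_max_left _ _))
    · exact Z.not_pos D j₀ _ (hD _ ⟨rfl, i', a1, fun a5 => a2 ((List.mem_erase_of_ne a4).2 a5),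
        rfl⟩) (Z.pos_mono _ _ _ _ a3 (le_max_right _ _))

/-- The monomial of a finite part of a solution. -/
def mono (i : ℕ) (xs : List ℕ) : List (ℕ × ℕ) := xs.map (fun x => (i, x)) ++ [(i, 0)]

theorem success {D : ℕ × List (ℕ × ℕ) → Prop} (hD : Ar o D) {i j : ℕ} (h0 : Z.Pos D j [(i, 0)])
    (h : ∀ xs N, Z.Pos D j (mono i xs) →
      ∃ b, N ≤ b ∧ vl o (mono i xs) b ∧ Z.Pos D j ((i, b) :: mono i xs)) : Solved o := by
  have hm : Ar o (mono i) := by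
    unfold mono
    fun_prop
  obtain ⟨x, L, ax, -, l0, hL⟩ := Ar.dc (o := o) (G := fun xs => Z.Pos D j (mono i xs))
    (R := fun xs b => (∀ y, y ∈ xs → y < b) ∧ vl o (mono i xs) b)
    (Z.arPos (fun _ : ℕ => D) (by fun_prop) (a := fun _ => 0) (by fun_prop) (by fun_prop) hm)
    (Ar.and (Ar.all (Ar.imp (by fun_prop) (by fun_prop))) (ar_vl (by fun_prop) (by fun_prop))) h0
    fun xs hxs => by
      obtain ⟨b, a1, a2, a3⟩ := h xs (xs.sum + 1) hxs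
      exact ⟨b, ⟨fun y hy => Nat.lt_of_le_of_lt (List.le_sum_of_mem hy) a1, a2⟩, a3⟩
  have h1 : ∀ n m, m < n → x m ∈ L n := fun n => by
    induction n with
    | zero => simp
    | succ n ih =>
      intro m hm
      rw [(hL n).1, List.mem_cons]
      rcases Nat.lt_succ_iff_lt_or_eq.1 hm with h | rfl
      exacts [.inr (ih m h), .inl rfl]
  refine solved_of ax (fun m n hmn => (hL n).2.2.1 _ (h1 n m hmn)) (i := i) (fun n => ?_)
    fun m n hmn => ?_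
  · simpa using (hL n).2.2.2 (i, 0) (by simp [mono])
  · exact (hL n).2.2.2 (i, x m) (by simp [mono, h1 n m hmn])

theorem failure (hF : Ar o fun p : ℕ × ℕ => F.mem p.1 p.2) {D : ℕ × List (ℕ × ℕ) → Prop}
    (hD : Ar o D) {i : ℕ} (h0 : Z.Pos D 0 [])
    (h : ∀ D', Ar o D' → (∀ p, D p → D' p) → Z.Pos D' 0 [] → ∀ j, ∃ v N, Z.Pos D' j v ∧
      ∀ b, N ≤ b → vl o v b → ¬ Z.Pos D' j ((i, b) :: v)) :
    ∃ F' : Res, (Ar o fun p : ℕ × ℕ => F'.mem p.1 p.2) ∧ (∀ N b, F'.mem N b → F.mem N b) ∧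
      ¬ Col o F' i := by
  have aO := Z.aO
  let OO : List (ℕ × ℕ) → ℕ × List (ℕ × ℕ) → Prop := fun L p =>
    D p ∨ ∃ q, q ∈ L ∧ p.1 = q.2 ∧ ∃ b, (b = 0 ∨ Z.O.mem q.2 b) ∧ p.2 = [(i, q.1 + b)]
  have aOO : Ar o fun p : List (ℕ × ℕ) × (ℕ × List (ℕ × ℕ)) => OO p.1 p.2 := by
    fun_prop
  obtain ⟨x, L, ax, aL, l0, hL⟩ := Ar.dc (o := o) (G := fun L => Z.Pos (OO L) 0 [])
    (R := fun L q => Z.O.mem L.length q.1 ∧ o.f q.1 ≠ i ∧ ∀ n, n < L.length →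
      ¬ Z.Pos (OO L) L.length [(i, n)] → o.f (n + q.1) ≠ i)
    (Z.arPos OO aOO (a := fun L => L) (by fun_prop) (by fun_prop) (by fun_prop))
    (Ar.and (by fun_prop) (Ar.and (Ar.ne (ar_oracle.comp (by fun_prop)) (by fun_prop))
      (Ar.all (Ar.imp (by fun_prop) (Ar.imp
        (Ar.not (Z.arPos OO aOO (by fun_prop) (by fun_prop) (by fun_prop)))
        (Ar.ne (ar_oracle.comp (by fun_prop)) (by fun_prop)))))))
    (Z.pos_sub h0 fun p hp => by simpa [OO] using hp)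
    fun L hL => by
      obtain ⟨j1, a1⟩ := Z.step L.length
      obtain ⟨v, N, a2, a3⟩ := h (OO L) (aOO.comp (h := fun p => (L, p)) (by fun_prop))
        (fun p hp => .inl hp) hL j1
      obtain ⟨r, b1, b2, b3, j2, b4⟩ := a1 _ v i N a2 a3
      refine ⟨(r, j2), ⟨b1, b2, b3⟩, Z.pos_sub b4 ?_⟩
      rintro p (hp | ⟨q, c1, c2⟩)
      · exact .inl (.inl hp)
      · rcases List.mem_cons.1 c1 with rfl | c1
        · exact .inr c2
        · exact .inl (.inr ⟨q, c1, c2⟩)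
  have len : ∀ n, (L n).length = n := fun n => by
    induction n with
    | zero => simp [l0]
    | succ n ih => simp [(hL n).1, ih]
  have sub : ∀ m n, m ≤ n → ∀ p, OO (L m) p → OO (L n) p := fun m n hmn => by
    induction hmn with
    | refl => exact fun _ hp => hp
    | step _ ih =>
      intro p hp
      rcases ih p hp with hp | ⟨q, c1, c2⟩
      · exact .inl hp
      · exact .inr ⟨q, by simp [(hL _).1, c1], c2⟩
  let B : ℕ → Prop := fun n => o.f n ≠ i ∧ ∃ q : ℕ × ℕ, ∀ b, (b = 0 ∨ Z.O.mem q.1 b) →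
    ¬ Z.Pos (OO (L q.2)) q.1 [(i, n + b)]
  have aB : Ar o B := Ar.and (Ar.ne ar_oracle (by fun_prop)) (Ar.ex (Ar.all (Ar.imp (by fun_prop)
    (Ar.not (Z.arPos OO aOO (by fun_prop) (by fun_prop) (by fun_prop))))))
  have hR : ∀ l, Z.O.mem l (x l).1 ∧ o.f (x l).1 ≠ i ∧ ∀ n, n < l →
      ¬ Z.Pos (OO (L l)) l [(i, n)] → o.f (n + (x l).1) ≠ i := fun l => by
    simpa only [len] using (hL l).2.2
  have hB : ∀ n, ∀ᶠ l in atTop, B n → B (n + (x l).1) := fun n => by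
    by_cases hn : B n
    · obtain ⟨-, ⟨j, l₀⟩, c1⟩ := hn
      filter_upwards [eventually_ge_atTop j, eventually_ge_atTop l₀, eventually_gt_atTop n]
        with l d1 d2 d3 _
      have d4 := Z.O.anti d1 (hR l).1
      obtain ⟨N', d5⟩ := Z.O.sum d4
      refine ⟨(hR l).2.2 n d3 fun d6 => c1 0 (.inl rfl)
        (Z.pos_sub (Z.pos_mono _ _ _ _ d6 d1) (sub _ _ d2)), (max j N', l₀), fun b d6 d7 => ?_⟩
      refine c1 ((x l).1 + b) (.inr ?_) (add_assoc n _ b ▸ Z.pos_mono _ _ _ _ d7 (le_max_left _ _))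
      rcases d6 with rfl | d6
      exacts [d4, d5 b (Z.O.anti (le_max_right _ _) d6)]
    · exact Eventually.of_forall fun _ h => absurd h hn
  refine ⟨{
    mem := fun N t => F.mem N t ∧ B t ∧ ∀ n, n < N → B n → B (n + t)
    anti := fun hMN ht => ⟨F.anti hMN ht.1, ht.2.1, fun n hn => ht.2.2 n (hn.trans_le hMN)⟩
    ne := fun N => ?_
    ge := fun ht => F.ge ht.1
    sum := fun {N b} hb => ?_ }, ?_, fun N b hb => hb.1, fun hc => ?_⟩
  · obtain ⟨l, c1, c2⟩ := (((eventually_all_finset (Finset.range N)).2 fun n _ => hB n).and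
      (eventually_ge_atTop N)).exists
    refine ⟨(x l).1, F.anti c2 (Z.hO _ _ (hR l).1), ⟨(hR l).2.1, ((x l).2, l + 1), fun b hb =>
      Z.not_pos _ _ _ (.inr ⟨x l, by simp [(hL l).1], rfl, b, hb, rfl⟩)⟩,
      fun n hn => c1 n (Finset.mem_range.2 hn)⟩
  · obtain ⟨N₁, c1⟩ := F.sum hb.1
    refine ⟨N₁ + N + b + 1, fun t ht => ⟨c1 t (F.anti (by omega) ht.1),
      ht.2.2 b (by omega) hb.2.1, fun n hn c2 => ?_⟩⟩
    rw [← add_assoc]
    exact ht.2.2 _ (by omega) (hb.2.2 n hn c2)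
  · exact Ar.and hF (Ar.and (by fun_prop) (Ar.all (Ar.imp (by fun_prop) (Ar.imp (by fun_prop)
      (by fun_prop)))))
  · obtain ⟨b, c1, c2⟩ := hc 0
    exact c1.2.1.1 c2

include Z in
theorem dich (hF : Ar o fun p : ℕ × ℕ => F.mem p.1 p.2) : Solved o ∨
    ∃ F' : Res, (Ar o fun p : ℕ × ℕ => F'.mem p.1 p.2) ∧ (∀ N b, F'.mem N b → F.mem N b) ∧
      ∃ i < k, Col o F i ∧ ¬ Col o F' i := by
  obtain ⟨D, i, h1, h2, h3, h4⟩ := Z.exists_colour
  by_cases hs : Solved o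
  · exact .inl hs
  obtain ⟨F', a1, a2, a3⟩ := Z.failure hF h1 (i := i) h3 fun D' b1 b2 b3 j => by
    by_contra b4
    refine hs (Z.success b1 (h4 D' b2 b3 j) fun xs N b5 => ?_)
    by_contra b6
    exact b4 ⟨_, N, b5, fun b c1 c2 c3 => b6 ⟨b, c1, c2, c3⟩⟩
  exact .inr ⟨F', a1, a2, i, h2, Z.pos_point D 0 i (h4 D (fun _ h => h) h3 0), a3⟩

end Forc

theorem solved_of_forc {o : Orc} {k : ℕ}
    (hex : ∀ F : Res, (Ar o fun p : ℕ × ℕ => F.mem p.1 p.2) → ∃ F' : Res,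
      (Ar o fun p : ℕ × ℕ => F'.mem p.1 p.2) ∧ (∀ N b, F'.mem N b → F.mem N b) ∧
        Nonempty (Forc o k F')) : Solved o := by
  classical
  have key : ∀ n, ∀ F : Res, (Ar o fun p : ℕ × ℕ => F.mem p.1 p.2) →
      ((Finset.range k).filter (Col o F)).card = n → Solved o := fun n => by
    induction n using Nat.strong_induction_on with
    | _ n ih =>
      intro F hF hn
      obtain ⟨F1, a1, a2, ⟨Z⟩⟩ := hex F hF
      rcases Z.dich a1 with h | ⟨F2, b1, b2, i, b3, b4, b5⟩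
      · exact h
      refine ih _ (hn ▸ Finset.card_lt_card ⟨fun i' hi' => ?_, fun hsub => b5 ?_⟩) F2 b1 rfl
      · rw [Finset.mem_filter] at hi' ⊢
        exact ⟨hi'.1, fun N => (hi'.2 N).imp fun b hb => ⟨a2 _ _ (b2 _ _ hb.1), hb.2⟩⟩
      · exact (Finset.mem_filter.1 (hsub (Finset.mem_filter.2 ⟨Finset.mem_range.2 b3,
          fun N => (b4 N).imp fun b hb => ⟨a2 _ _ hb.1, hb.2⟩⟩))).2
  exact key _ ⟨fun N b => N ≤ b, fun h h' => h.trans h', fun N => ⟨N, le_rfl⟩, fun h => h,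
    fun h => ⟨0, fun _ _ => h.trans (Nat.le_add_right _ _)⟩⟩ (by fun_prop) rfl

end Pool.Agent.Lib.MP_f43b6f_lc
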