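import Pool.Agent.Lib.MP_f43b6f_lc.USys

set_option autoImplicit false

/-!
The three levels: building the system from the idempotent means.
-/

namespace Pool.Agent.Lib.MP_f43b6f_lc

open Filter Topology Set MeasureTheory

/-- The data of the system are arithmetical. -/
structure Sys.Arith {ι : Type} [Primcodable ι] (Y : Sys ι) (o : Orc) : Prop where
  hF : Ar o fun p : ℕ × ℕ => Y.F.mem p.1 p.2
  hsh : Ar o fun p : ι × ℕ => Y.sh p.1 p.2
  hmon : Ar o fun p : ι × ℕ => Y.mon p.1 (pure p.2)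
  hmon1 : Ar o fun p : ℕ × ℕ => Y.mon1 p.1 (pure p.2)
  hint : ∀ {α : Type} [Primcodable α] (G : α → C(BN, ℝ)), (∀ a, G a ∈ Y.C2) →
    Ar o (fun p : α × ℕ => G p.1 (pure p.2)) → Ar o fun a => ∫ x, G a x ∂Y.m

/-- An arithmetical family of functions with values in the unit interval, closed under shifts. -/
structure Gen (o : Orc) (γ : Type) [Primcodable γ] where
  /-- the functions -/
  g : γ → ℕ → ℝ
  /-- the shift of indices -/
  sh : γ → ℕ → γ
  g01 : ∀ a n, g a n ∈ Icc (0 : ℝ) 1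
  h1 : ∀ a b n, g (sh a b) n = g a (b + n)
  h2 : ∀ a b n, sh (sh a b) n = sh a (b + n)
  ag : Ar o fun p : γ × ℕ => g p.1 p.2
  ash : Ar o fun p : γ × ℕ => sh p.1 p.2

theorem prod_mem_unit (L : List ℝ) (h : ∀ x ∈ L, x ∈ Icc (0 : ℝ) 1) : L.prod ∈ Icc (0 : ℝ) 1 := by
  induction L with
  | nil => simp
  | cons a L ih =>
    have h1 := h a (by simp)
    have h2 := ih fun x hx => h x (by simp [hx])
    rw [List.prod_cons]
    exact ⟨mul_nonneg h1.1 h2.1, mul_le_one₀ h1.2 h2.1 h2.2⟩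

namespace Gen

variable {o : Orc} {γ : Type} [Primcodable γ] (G : Gen o γ)

/-- The family of monomials. -/
noncomputable def lst : Gen o (List γ) where
  g L n := (L.map fun a => G.g a n).prod
  sh L b := L.map fun a => G.sh a b
  g01 L n := prod_mem_unit _ (by
    intro x hx
    obtain ⟨a, -, rfl⟩ := List.mem_map.1 hx
    exact G.g01 a n)
  h1 L b n := by simp [Function.comp_def, G.h1]
  h2 L b n := by simp [Function.comp_def, G.h2]
  ag := Ar.prod (x := fun (p : List γ × ℕ) a => G.g a p.2)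
    (G.ag.comp (h := fun q : (List γ × ℕ) × γ => (q.2, q.1.2)) (by fun_prop))
    (fun p a => (G.g01 a p.2).1) (by fun_prop)
  ash := Ar.map (g := fun (p : List γ × ℕ) a => G.sh a p.2) (by fun_prop)
    (G.ash.comp (h := fun q : (List γ × ℕ) × γ => (q.2, q.1.2)) (by fun_prop))

/-- The next level. -/
noncomputable def up (κ : List γ → ℝ) (h01 : ∀ L, κ L ∈ Icc (0 : ℝ) 1) (hκ : Ar o κ) :
    Gen o (γ ⊕ (List γ × List γ)) where
  g a n := Sum.elim (fun a => G.g a n) (fun P => κ (G.lst.sh P.1 n ++ P.2)) a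
  sh a b := Sum.elim (fun a => .inl (G.sh a b)) (fun P => .inr (G.lst.sh P.1 b, P.2)) a
  g01 a n := by
    rcases a with a | P
    exacts [G.g01 a n, h01 _]
  h1 a b n := by
    rcases a with a | P
    · exact G.h1 a b n
    · simp [G.lst.h2]
  h2 a b n := by
    rcases a with a | P
    · simp [G.h2]
    · simp [G.lst.h2]
  ag := Ar.elim (s := fun p : (γ ⊕ (List γ × List γ)) × ℕ => p.1)
    (g := fun p a => G.g a p.2) (h := fun p P => κ (G.lst.sh P.1 p.2 ++ P.2)) (by fun_prop)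
    (G.ag.comp (h := fun q : ((γ ⊕ (List γ × List γ)) × ℕ) × γ => (q.2, q.1.2)) (by fun_prop))
    (hκ.comp (Ar.append (G.lst.ash.comp
      (h := fun q : ((γ ⊕ (List γ × List γ)) × ℕ) × (List γ × List γ) => (q.2.1, q.1.2))
      (by fun_prop)) (by fun_prop)))
  ash := Ar.elim (s := fun p : (γ ⊕ (List γ × List γ)) × ℕ => p.1)
    (g := fun p a => (.inl (G.sh a p.2) : γ ⊕ (List γ × List γ)))
    (h := fun p P => .inr (G.lst.sh P.1 p.2, P.2)) (by fun_prop)
    (Ar.inl (G.ash.comp (h := fun q : ((γ ⊕ (List γ × List γ)) × ℕ) × γ => (q.2, q.1.2))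
      (by fun_prop)))
    (Ar.inr (Ar.pair (G.lst.ash.comp
      (h := fun q : ((γ ⊕ (List γ × List γ)) × ℕ) × (List γ × List γ) => (q.2.1, q.1.2))
      (by fun_prop)) (by fun_prop)))

/-- A mean on the monomials that is invariant along the reservoir. -/
structure Good (F : Res) (κ : List γ → ℝ) : Prop where
  hF : Ar o fun p : ℕ × ℕ => F.mem p.1 p.2
  hκ : Ar o κ
  ha : ∀ a, Tendsto (fun b => κ (G.lst.sh a b)) F.fil (𝓝 (κ a))
  hb : κ ∈ F.hull fun n a => G.lst.g a n

variable {G}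

theorem Good.unit {F : Res} {κ : List γ → ℝ} (h : G.Good F κ) (L : List γ) :
    κ L ∈ Icc (0 : ℝ) 1 :=
  Res.hull_sub 0 (cube_compact _).isClosed (cube_convex _) (fun n _ a _ => G.lst.g01 a n) h.hb L
    (mem_univ _)

theorem good_of (G : Gen o γ) {F : Res} (hF : Ar o fun p : ℕ × ℕ => F.mem p.1 p.2)
    {ι₀ : Type} [Primcodable ι₀] {e : ι₀ → List γ} (he : Ar o e) {sh₀ : ι₀ → ℕ → ι₀}
    (h3 : ∀ a b, G.lst.sh (e a) b = e (sh₀ a b)) {lam : ι₀ → ℝ} (hl : Ar o lam)
    (ha : ∀ a, Tendsto (fun b => lam (sh₀ a b)) F.fil (𝓝 (lam a)))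
    (hb : lam ∈ F.hull fun n a => G.lst.g (e a) n) :
    ∃ (F' : Res) (κ : List γ → ℝ), G.Good F' κ ∧ (∀ N b, F'.mem N b → F.mem N b) ∧
      ∀ a, κ (e a) = lam a := by
  obtain ⟨κ, h1, h2, hne, h4⟩ := idem hF G.lst.g01 G.lst.ag G.lst.ash G.lst.h1 G.lst.h2 he h3 hl
    ha hb
  exact ⟨F.stab κ G.lst.sh G.lst.h2 hne, κ, ⟨F.ar_stabMem κ G.lst.sh hF h1 G.lst.ash, h1,
    F.stab_tendsto κ G.lst.sh G.lst.h2 hne, h4⟩, fun _ _ h => h.1, h2⟩

theorem good_zero (G : Gen o γ) {F : Res} (hF : Ar o fun p : ℕ × ℕ => F.mem p.1 p.2) :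
    ∃ (F' : Res) (κ : List γ → ℝ), G.Good F' κ ∧ ∀ N b, F'.mem N b → F.mem N b := by
  obtain ⟨F', κ, h1, h2, -⟩ := G.good_of hF (ι₀ := Empty) (e := fun a => a.elim)
    ⟨{0}, .zero, fun a => a.1.elim⟩ (sh₀ := fun a _ => a) (fun a => a.elim)
    (lam := fun a => a.elim) ⟨{0}, .zero, fun a => a.1.elim⟩ (fun a => a.elim)
    (mem_iInter.2 fun M => by
      obtain ⟨b, hb⟩ := F.ne M
      exact mem_of_eq_of_mem (funext fun a => a.elim) (Res.mem_cc hb))
  exact ⟨F', κ, h1, h2⟩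

theorem up_g {κ : List γ → ℝ} (h01 : ∀ L, κ L ∈ Icc (0 : ℝ) 1) (hκ : Ar o κ) (L : List γ) (n : ℕ) :
    (G.up κ h01 hκ).lst.g (L.map .inl) n = G.lst.g L n := by
  simp [lst, up, Function.comp_def]

theorem Good.succ {F : Res} {κ : List γ → ℝ} (h : G.Good F κ) :
    ∃ (F' : Res) (κ' : List (γ ⊕ (List γ × List γ)) → ℝ), (G.up κ h.unit h.hκ).Good F' κ' ∧
      (∀ N b, F'.mem N b → F.mem N b) ∧ ∀ a, κ' (a.map .inl) = κ a :=
  (G.up κ h.unit h.hκ).good_of h.hF (e := fun a : List γ => a.map .inl)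
    (Ar.map (L := fun a : List γ => a) (g := fun _ a => (Sum.inl a : γ ⊕ (List γ × List γ)))
      (by fun_prop) (by fun_prop)) (sh₀ := G.lst.sh)
    (fun a b => by simp [lst, up, Function.comp_def]) h.hκ h.ha (by
      simpa only [up_g] using h.hb)

variable (G)

theorem exists_M (a : γ) : ∃ f : C(BN, ℝ), ∀ n, f (pure n) = G.g a n :=
  exists_ext _ 1 fun n => abs_le.2 ⟨by linarith [(G.g01 a n).1], (G.g01 a n).2⟩

/-- The continuous extensions. -/
noncomputable def M (a : γ) : C(BN, ℝ) := (G.exists_M a).choose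

@[simp] theorem M_pure (a : γ) (n : ℕ) : G.M a (pure n) = G.g a n := (G.exists_M a).choose_spec n

theorem tau_M (a : γ) (b : ℕ) : tau b (G.M a) = G.M (G.sh a b) :=
  ext_pure fun n => by simp [G.h1]

theorem M01 (a : γ) (x : BN) : G.M a x ∈ Icc (0 : ℝ) 1 :=
  isClosed_Icc.mem_of_tendsto (tendsto_val _ x)
    (Eventually.of_forall fun n => by simpa using G.g01 a n)

theorem M_append (L L' : List γ) : G.lst.M (L ++ L') = G.lst.M L * G.lst.M L' :=
  ext_pure fun n => by simp [lst]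

theorem M_nil : G.lst.M [] = 1 := ext_pure fun n => by simp [lst]

/-- The closed algebra of the monomials. -/
noncomputable def alg : Subalgebra ℝ C(BN, ℝ) :=
  (Algebra.adjoin ℝ (range G.lst.M)).topologicalClosure

theorem M_mem (L : List γ) : G.lst.M L ∈ G.alg :=
  Subalgebra.le_topologicalClosure _ (Algebra.subset_adjoin ⟨L, rfl⟩)

theorem alg_sub {f : C(BN, ℝ)} (hf : f ∈ G.alg) :
    f ∈ closure (Submodule.span ℝ (range G.lst.M) : Set C(BN, ℝ)) := by
  refine closure_mono (fun x hx => ?_) hf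
  have h1 : x ∈ (Algebra.adjoin ℝ (range G.lst.M)).toSubmodule := hx
  rw [Algebra.adjoin_eq_span] at h1
  refine Submodule.span_mono (fun y hy => ?_) h1
  induction hy using Submonoid.closure_induction with
  | mem y hy => exact hy
  | one => exact ⟨[], G.M_nil⟩
  | mul y z _ _ hy hz =>
    obtain ⟨L, rfl⟩ := hy
    obtain ⟨L', rfl⟩ := hz
    exact ⟨L ++ L', G.M_append L L'⟩

theorem alg_le {D : Submodule ℝ C(BN, ℝ)} (hD : IsClosed (D : Set C(BN, ℝ)))
    (h : ∀ L, G.lst.M L ∈ D) {f : C(BN, ℝ)} (hf : f ∈ G.alg) : f ∈ D :=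
  closure_minimal (Submodule.span_le.2 (range_subset_iff.2 h)) hD (G.alg_sub hf)

theorem alg_tendsto {I : Type} (l : Filter I) (A : I → C(BN, ℝ) →ₗ[ℝ] ℝ) (a : C(BN, ℝ) →ₗ[ℝ] ℝ)
    (hA : ∀ i f, |A i f| ≤ ‖f‖) (ha : ∀ f, |a f| ≤ ‖f‖)
    (h : ∀ L, Tendsto (fun i => A i (G.lst.M L)) l (𝓝 (a (G.lst.M L)))) {f : C(BN, ℝ)}
    (hf : f ∈ G.alg) : Tendsto (fun i => A i f) l (𝓝 (a f)) := by
  have h1 : ∀ g ∈ Submodule.span ℝ (range G.lst.M), Tendsto (fun i => A i g) l (𝓝 (a g)) := by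
    intro g hg
    induction hg using Submodule.span_induction with
    | mem g hg =>
      obtain ⟨L, rfl⟩ := hg
      exact h L
    | zero => simpa only [map_zero] using tendsto_const_nhds
    | add x y _ _ hx hy => simpa only [map_add] using hx.add hy
    | smul c x _ hx => simpa only [map_smul, smul_eq_mul] using hx.const_mul c
  refine Metric.tendsto_nhds.2 fun e he => ?_
  obtain ⟨g, hg, h2⟩ := Metric.mem_closure_iff.1 (G.alg_sub hf) (e / 3) (by positivity)
  filter_upwards [Metric.tendsto_nhds.1 (h1 g hg) (e / 3) (by positivity)] with i hi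
  have h3 := hA i (f - g)
  have h4 := ha (f - g)
  rw [map_sub, ← dist_eq_norm] at h3 h4
  rw [Real.dist_eq, abs_lt] at *
  rw [abs_le] at h3 h4
  constructor <;> linarith [h3.1, h3.2, h4.1, h4.2, hi.1, hi.2]

theorem up_M {κ : List γ → ℝ} (h01 : ∀ L, κ L ∈ Icc (0 : ℝ) 1) (hκ : Ar o κ) (L : List γ) :
    (G.up κ h01 hκ).lst.M (L.map .inl) = G.lst.M L := ext_pure fun n => by simp [up_g]

theorem alg_up {κ : List γ → ℝ} (h01 : ∀ L, κ L ∈ Icc (0 : ℝ) 1) (hκ : Ar o κ) :
    G.alg ≤ (G.up κ h01 hκ).alg := fun _ hf =>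
  G.alg_le (D := (G.up κ h01 hκ).alg.toSubmodule) (Subalgebra.isClosed_topologicalClosure _)
    (fun L => G.up_M h01 hκ L ▸ M_mem _ _) hf

theorem tau_alg {f : C(BN, ℝ)} (hf : f ∈ G.alg) (b : ℕ) : tau b f ∈ G.alg :=
  G.alg_le (D := G.alg.toSubmodule.comap (tau b).toLinearMap)
    ((Subalgebra.isClosed_topologicalClosure _).preimage
      (AddMonoidHomClass.continuous_of_bound (tau b) 1 fun f => by simpa using norm_tau b f))
    (fun L => by
      change tau b (G.lst.M L) ∈ G.alg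
      rw [tau_M]
      exact M_mem _ _) hf

end Gen

/-- The average as a linear functional. -/
noncomputable def avgL (μ : List ℕ) : C(BN, ℝ) →ₗ[ℝ] ℝ where
  toFun f := avg μ fun n => f (pure n)
  map_add' f g := by simp [avg, List.sum_map_add, add_div]
  map_smul' c f := by simp [avg, List.sum_map_mul_left, mul_div_assoc]

theorem avg_mono (μ : List ℕ) {f g : ℕ → ℝ} (h : ∀ n ∈ μ, f n ≤ g n) : avg μ f ≤ avg μ g :=
  div_le_div_of_nonneg_right (List.sum_le_sum h) (Nat.cast_nonneg _)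

theorem avg_const {μ : List ℕ} (h : μ ≠ []) (c : ℝ) : avg μ (fun _ => c) = c := by
  have h1 : (μ.length : ℝ) ≠ 0 := by simpa using h
  simp [avg, mul_div_cancel_left₀ _ h1]

theorem abs_avgL {μ : List ℕ} (h : μ ≠ []) (f : C(BN, ℝ)) : |avgL μ f| ≤ ‖f‖ :=
  abs_le.2 ⟨(avg_const h _).ge.trans (avg_mono μ fun _ _ => (abs_le.1 (f.norm_coe_le_norm _)).1),
    (avg_mono μ fun _ _ => (abs_le.1 (f.norm_coe_le_norm _)).2).trans (avg_const h _).le⟩

theorem exists_meas (μ : ℕ → List ℕ) (h : ∀ M, μ M ≠ []) : ∃ m : Measure BN,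
    IsProbabilityMeasure m ∧ ∀ f : C(BN, ℝ),
      Tendsto (fun M => avgL (μ M) f) (hyperfilter ℕ) (𝓝 (∫ x, f x ∂m)) := by
  have h1 : ∀ f : C(BN, ℝ), ∃ a, Tendsto (fun M => avgL (μ M) f) (hyperfilter ℕ) (𝓝 a) :=
    fun f => by
      obtain ⟨g, hg⟩ := exists_ext _ _ fun M => abs_avgL (h M) f
      exact ⟨g _, (tendsto_val g _).congr hg⟩
  choose a ha using h1
  let Λ : CompactlySupportedContinuousMap BN ℝ →ₚ[ℝ] ℝ :=
    { toFun := fun f => a f.toContinuousMap
      map_add' := fun f g => tendsto_nhds_unique (ha (f.toContinuousMap + g.toContinuousMap)) (by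
        simpa only [map_add] using (ha f.toContinuousMap).add (ha g.toContinuousMap))
      map_smul' := fun c f => tendsto_nhds_unique (ha (c • f.toContinuousMap)) (by
        simpa only [smul_eq_mul, map_smul, RingHom.id_apply] using
          (ha f.toContinuousMap).const_mul c)
      monotone' := fun f g hfg => le_of_tendsto_of_tendsto' (ha _) (ha _) fun M =>
        avg_mono _ fun n _ => hfg _ }
  have h2 : ∀ f : C(BN, ℝ), ∫ x, f x ∂(RealRMK.rieszMeasure Λ) = a f := fun f =>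
    RealRMK.integral_rieszMeasure Λ ⟨f, HasCompactSupport.of_compactSpace _⟩
  refine ⟨RealRMK.rieszMeasure Λ, ?_, fun f => h2 f ▸ ha f⟩
  have h3 : a 1 = 1 := tendsto_nhds_unique (ha 1)
    (tendsto_const_nhds.congr fun M => (avg_const (h M) 1).symm)
  have h4 := h2 1
  rw [h3] at h4
  exact isProbabilityMeasure_iff_real.2 (by simpa using h4)

theorem ae_far {F : Res} {μ : ℕ → List ℕ} (h : ∀ M, F.lst M (μ M)) {m : Measure BN}
    [IsProbabilityMeasure m] (hm : ∀ f : C(BN, ℝ),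
      Tendsto (fun M => avgL (μ M) f) (hyperfilter ℕ) (𝓝 (∫ x, f x ∂m))) :
    ∀ᵐ r ∂m, ((r : BN) : Filter ℕ) ≤ F.fil := by
  classical
  have h1 : ∀ N, ∀ᵐ r ∂m, ∀ᶠ b in ((r : BN) : Filter ℕ), F.mem N b := fun N => by
    obtain ⟨f, hf⟩ := exists_ext (fun n => if F.mem N n then 0 else 1) 1 fun n => by
      split_ifs <;> simp
    have h2 : ∫ x, f x ∂m = 0 := by
      refine tendsto_nhds_unique (hm f) (tendsto_const_nhds.congr' ?_)
      filter_upwards [(hyperfilter_le_cofinite.trans Nat.cofinite_eq_atTop.le)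
        (eventually_ge_atTop N)] with M hM
      have h3 : ∀ n ∈ μ M, f (pure n) = 0 := fun n hn => by
        rw [hf, if_pos (F.anti hM ((h M).2 n hn))]
      exact le_antisymm ((avg_const (h M).1 0).ge.trans (avg_mono _ fun n hn => (h3 n hn).ge))
        ((avg_mono _ fun n hn => (h3 n hn).le).trans (avg_const (h M).1 0).le)
    have h4 : 0 ≤ (f : BN → ℝ) := fun x => ge_of_tendsto' (tendsto_val f x) fun n => by
      rw [hf]
      split_ifs <;> simp
    rw [integral_eq_zero_iff_of_nonneg h4 (f.continuous.integrable_of_hasCompactSupport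
      (HasCompactSupport.of_compactSpace _))] at h2
    filter_upwards [h2] with r hr
    filter_upwards [(tendsto_val f r).eventually (gt_mem_nhds (hr.trans_lt zero_lt_one))] with b hb
    by_contra h5
    rw [hf, if_neg h5] at hb
    exact lt_irrefl _ hb
  filter_upwards [ae_all_iff.2 h1] with r hr
  exact le_iInf fun N => le_principal_iff.2 (hr N)

/-- Integration of a translate as a linear functional. -/
noncomputable def intL (m : Measure BN) [IsProbabilityMeasure m] : C(BN, ℝ) →ₗ[ℝ] ℝ where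
  toFun f := ∫ x, f x ∂m
  map_add' f g := integral_add (f.continuous.integrable_of_hasCompactSupport
      (HasCompactSupport.of_compactSpace _)) (g.continuous.integrable_of_hasCompactSupport
      (HasCompactSupport.of_compactSpace _))
  map_smul' c f := integral_smul c f

theorem abs_intL (m : Measure BN) [IsProbabilityMeasure m] (f : C(BN, ℝ)) : |intL m f| ≤ ‖f‖ := by
  change |∫ x, f x ∂m| ≤ ‖f‖
  simpa using norm_integral_le_of_norm_le_const (μ := m) (f := f) (C := ‖f‖)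
    (Eventually.of_forall f.norm_coe_le_norm)

/-- The bottom generators. -/
noncomputable def gen0 (o : Orc) : Gen o (ℕ × ℕ) where
  g p n := if o.f (p.2 + n) = p.1 then 1 else 0
  sh p b := (p.1, p.2 + b)
  g01 p n := by split_ifs <;> simp
  h1 p b n := by simp [add_assoc]
  h2 p b n := by simp [add_assoc]
  ag := Ar.ite (Ar.eq (ar_oracle.comp (by fun_prop)) (by fun_prop)) (by fun_prop) (by fun_prop)
  ash := by fun_prop

theorem exists_sys (o : Orc) (F : Res) (hF : Ar o fun p : ℕ × ℕ => F.mem p.1 p.2) :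
    ∃ Y : Sys (List (ℕ × ℕ)), Y.Arith o ∧ (∀ N b, Y.F.mem N b → F.mem N b) ∧
      ∀ L n, Y.mon L (pure n) =
        (L.map fun p => if o.f (p.2 + n) = p.1 then (1 : ℝ) else 0).prod := by
  obtain ⟨F0, κ0, g0, s0⟩ := (gen0 o).good_zero hF
  obtain ⟨F1, κ1, g1, s1, e1⟩ := g0.succ
  obtain ⟨F2, κ2, g2, s2, e2⟩ := g1.succ
  set G1 := (gen0 o).up κ0 g0.unit g0.hκ with hG1
  set G2 := G1.up κ1 g1.unit g1.hκ with hG2
  obtain ⟨μ, aμ, hμ, tμ⟩ := exists_lists g2.hF G2.lst.ag g2.hκ g2.hb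
  obtain ⟨m, hm, tm⟩ := exists_meas μ fun M => (hμ M).1
  have t2 : ∀ L, Tendsto (fun M => avgL (μ M) (G2.lst.M L)) atTop (𝓝 (κ2 L)) := fun L => by
    simpa [avgL] using tμ L
  have i2 : ∀ L, ∫ x, G2.lst.M L x ∂m = κ2 L := fun L => tendsto_nhds_unique (tm _)
    ((t2 L).mono_left (hyperfilter_le_cofinite.trans Nat.cofinite_eq_atTop.le))
  have i1 : ∀ L, ∫ x, G1.lst.M L x ∂m = κ1 L := fun L => by
    rw [← G1.up_M g1.unit g1.hκ, i2, e2]
  have i0 : ∀ L, ∫ x, (gen0 o).lst.M L x ∂m = κ0 L := fun L => by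
    rw [← (gen0 o).up_M g0.unit g0.hκ, i1, e1]
  refine ⟨{
    F := F2
    m := m
    prob := hm
    C1 := G1.alg
    C2 := G2.alg
    mon := (gen0 o).lst.M
    sh := (gen0 o).lst.sh
    mon1 := fun a => G1.lst.M (en a)
    hS := ae_far hμ tm
    cl1 := Subalgebra.isClosed_topologicalClosure _
    cl2 := Subalgebra.isClosed_topologicalClosure _
    le12 := G1.alg_up _ _
    tau1 := fun f hf b => G1.tau_alg hf b
    inv := fun f hf => G2.alg_tendsto F2.fil (fun b => (intL m).comp (tau b).toLinearMap) (intL m)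
      (fun b f => (abs_intL m _).trans (norm_tau b f)) (abs_intL m) (fun L => ?_) hf
    mon_sh := (gen0 o).lst.tau_M
    sh_sh := (gen0 o).lst.h2
    mon_mem := fun a => (gen0 o).alg_up _ _ (Gen.M_mem _ a)
    mon01 := (gen0 o).lst.M01
    mon1_mem := fun a => Gen.M_mem _ _
    dense1 := fun f hf => ?_
    th0 := fun a b => ⟨G1.lst.M [.inr (a, b)], Gen.M_mem _ _, fun n => ?_⟩
    th1 := fun a b => ⟨G2.lst.M [.inr (en a, en b)], Gen.M_mem _ _, fun n => ?_⟩ },
    ⟨g2.hF, (gen0 o).lst.ash, ?_, ?_, fun G hG aG => ?_⟩,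
    fun N b h => s0 N b (s1 N b (s2 N b h)), fun L n => (gen0 o).lst.M_pure L n⟩
  · change Tendsto (fun b => ∫ x, tau b (G2.lst.M L) x ∂m) _ (𝓝 (∫ x, G2.lst.M L x ∂m))
    simpa only [Gen.tau_M, i2] using g2.ha L
  · have : range (fun a : ℕ => G1.lst.M (en a)) = range G1.lst.M :=
      Function.Surjective.range_comp (fun b => ⟨_, en_encode b⟩) G1.lst.M
    rw [this]
    exact G1.alg_sub hf
  · simp only [Gen.tau_M, ← ContinuousMap.mul_apply, ← Gen.M_append, i0]
    simp [Gen.lst, hG1, Gen.up]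
  · simp only [Gen.tau_M, ← ContinuousMap.mul_apply, ← Gen.M_append, i1]
    simp [Gen.lst, hG2, Gen.up]
  · simpa only [Gen.M_pure] using (gen0 o).lst.ag
  · simpa only [Gen.M_pure] using G1.lst.ag.comp
      (h := fun p : ℕ × ℕ => (en p.1, p.2)) (by fun_prop)
  · refine Ar.lim (x := fun a M => avg (μ M) fun n => G a (pure n))
      (Ar.avg (aG.comp (h := fun q : (_ × ℕ) × ℕ => (q.1.1, q.2)) (by fun_prop))
        (aμ.comp (by fun_prop))) fun a => ?_
    exact G2.alg_tendsto atTop (fun M => avgL (μ M)) (intL m) (fun M => abs_avgL (hμ M).1)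
      (abs_intL m) (fun L => by
        change Tendsto _ _ (𝓝 (∫ x, G2.lst.M L x ∂m))
        rw [i2]
        exact t2 L) (hG a)

end Pool.Agent.Lib.MP_f43b6f_lc
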