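import Pool.Agent.Lib.MP_f43b6f_lc.UStep
import Pool.Agent.Lib.MP_f43b6f_lc.UTower
import Pool.Agent.Lib.MP_f43b6f_lc.UAsm

set_option autoImplicit false

/-!
From the analytic system to the forcing data.
-/

namespace Pool.Agent.Lib.MP_f43b6f_lc

open Filter Topology Set MeasureTheory TopologicalSpace
open scoped InnerProductSpace

instance cstIv (n : ℕ) : Cst (iv n) := ⟨fun _ => Ar.iv (Ar.const n)⟩

namespace Sys

variable {ι : Type} {Y : Sys ι} {o : Orc} {y z : Y.E}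

theorem T_one_inv (y : Y.E) : Y.T y (Y.L 1) ∈ Y.Inv := mem_Inv.2 fun r hr => by
  have : Y.V r (Y.L 1) = Y.L 1 := ext_inner_right ℝ fun y =>
    tendsto_nhds_unique (V_spec hr (one_mem _) y) (by simp)
  conv_rhs => rw [T_covar hr (L_mem (one_mem _)), this]

theorem T_one_le (h0 : 0 ≤ y) (h1 : y ≤ Y.L 1) : Y.T y (Y.L 1) ≤ Y.L 1 := by
  refine (T_le h0 h1 one_inv _).trans (sub_nonneg.1 ?_)
  rw [show Y.L 1 - ‖Y.L 1‖ • Y.L 1 = Y.L ((1 - ‖Y.L 1‖) • 1) by simp [sub_smul]]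
  exact L_nonneg fun t => by simpa using norm_L (Y := Y) 1

theorem Th_inv (hz : z ∈ Y.Inv) (x : Y.E) : ⟪Y.L 1, Y.Th x z⟫_ℝ = ⟪x, z⟫_ℝ := by
  rw [inner_one, integral_congr_ae (g := fun _ => ⟪x, z⟫_ℝ)]
  · simp
  filter_upwards [coe_Th x z, ae_S] with s a b
  rw [a, mem_Inv.1 hz s b]

variable (Y) in
/-- Rational combinations of the middle family. -/
noncomputable def gc (c : List (ℕ × ℕ)) : C(BN, ℝ) := (c.map fun p => rv p.2 • Y.mon1 p.1).sum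

variable (Y) in
/-- Clamped rational combinations. -/
noncomputable def gl (c : List (ℕ × ℕ)) : C(BN, ℝ) := (-((-Y.gc c) ⊔ (-1))) ⊔ 0

theorem gl_mem (c : List (ℕ × ℕ)) : Y.gl c ∈ Y.C1 :=
  ContinuousMap.sup_mem_closed_subalgebra _ Y.cl1 ⟨_, neg_mem
    (ContinuousMap.sup_mem_closed_subalgebra _ Y.cl1 ⟨_, neg_mem (list_sum_mem
      (List.forall_mem_map.2 fun a _ => Y.C1.smul_mem (Y.mon1_mem a.1) _))⟩ ⟨_, neg_mem (one_mem _)⟩)⟩
    ⟨_, zero_mem _⟩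

theorem gl_dense (hz : z ∈ Y.HH) (h0 : 0 ≤ z) (h1 : z ≤ Y.L 1) :
    z ∈ closure (range fun c => Y.L (Y.gl c)) := by
  have h2 : ∀ (r : ℕ → ℝ) (J : Finset ℕ),
      ∑ a ∈ J, r a • Y.L (Y.mon1 a) ∈ closure (range fun c => Y.L (Y.gc c)) := fun r J => by
    induction J using Finset.induction with
    | empty => exact subset_closure ⟨[], by simp [gc]⟩
    | insert a J ha ih =>
      rw [Finset.sum_insert ha]
      refine map_mem_closure₂ (f := fun (s : ℝ) (x : Y.E) => s • Y.L (Y.mon1 a) + x) (by fun_prop)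
        (denseRange_rv (r a)) ih ?_
      rintro _ ⟨q, rfl⟩ _ ⟨c, rfl⟩
      exact ⟨(a, q) :: c, by simp [gc]⟩
  have h3 : z ∈ closure (range fun c => Y.L (Y.gc c)) := by
    refine closure_minimal (fun x hx => ?_) isClosed_closure (HH_le
      (D := (Submodule.span ℝ (range fun a => Y.L (Y.mon1 a))).topologicalClosure)
      (Submodule.isClosed_topologicalClosure _) (fun a =>
      Submodule.le_topologicalClosure _ (Submodule.subset_span ⟨a, rfl⟩)) hz)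
    obtain ⟨c, rfl⟩ := Finsupp.mem_span_range_iff_exists_finsupp.1 hx
    exact h2 _ _
  have h4 := map_mem_closure (f := fun x : Y.E => (-((-x) ⊔ (-Y.L 1))) ⊔ 0)
    (t := range fun c => Y.L (Y.gl c)) (by fun_prop) h3 (by
      rintro _ ⟨c, rfl⟩
      exact ⟨c, by simp [gl, L_sup]⟩)
  rwa [sup_eq_left.2 (neg_le_neg h1), neg_neg, sup_eq_left.2 h0] at h4

variable [Primcodable ι]

theorem ar_th (hY : Y.Arith o) {α : Type} [Primcodable α] {f g : α → C(BN, ℝ)}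
    (hf : ∀ a, f a ∈ Y.C1) (hg : ∀ a, g a ∈ Y.C1) (af : Ar o fun p : α × ℕ => f p.1 (pure p.2))
    (ag : Ar o fun p : α × ℕ => g p.1 (pure p.2)) :
    Ar o fun p : α × ℕ => Y.th (f p.1) (Y.L (g p.1)) (pure p.2) := by
  refine (hY.hint (fun p : α × ℕ => tau p.2 (f p.1) * g p.1)
    (fun p => Y.le12 (mul_mem (Y.tau1 _ (hf _) _) (hg _))) ?_).of_eq fun p => by
      simp [th_pure, inner_LL]
  simp only [ContinuousMap.mul_apply, tau_pure]
  exact (af.comp (h := fun q : (α × ℕ) × ℕ => (q.1.1, q.1.2 + q.2)) (by fun_prop)).mul_real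
    (ag.comp (h := fun q : (α × ℕ) × ℕ => (q.1.1, q.2)) (by fun_prop))

variable [Inhabited ι]

theorem ar_P (hY : Y.Arith o) : Ar o Y.P := by
  have h1 : ∀ a : ι × ι, Y.mon a.1 + Y.mon a.2 ∈ Y.C1 := fun a =>
    add_mem (Y.mon_mem _) (Y.mon_mem _)
  have h2 : Ar o fun p : (ι × ι) × ℕ => (Y.mon p.1.1 + Y.mon p.1.2) (pure p.2) :=
    (hY.hmon.comp (h := fun p : (ι × ι) × ℕ => (p.1.1, p.2)) (by fun_prop)).add_real
      (hY.hmon.comp (h := fun p : (ι × ι) × ℕ => (p.1.2, p.2)) (by fun_prop))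
  have h3 : Ar o fun a : ι × ι => ‖Y.w0 a.1 + Y.w0 a.2‖ ^ 2 := by
    refine Ar.of_obs ((Ar.lt_real (Ar.const 0) (hY.hint (fun p : (ι × ι) × ℕ =>
      (Y.th (Y.mon p.1.1 + Y.mon p.1.2) (Y.L (Y.mon p.1.1 + Y.mon p.1.2)) -
        algebraMap ℝ _ (rv p.2)) ⊔ 0) (fun p => ?_) ?_)).congr fun p => ?_)
    · exact ContinuousMap.sup_mem_closed_subalgebra _ Y.cl2
        ⟨_, sub_mem (th_C2 (h1 _) (L_mem (h1 _))) (algebraMap_mem _ _)⟩ ⟨_, zero_mem _⟩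
    · refine (Ar.max_real (Ar.sub_real ((ar_th hY h1 h1 h2 h2).comp
        (h := fun q : ((ι × ι) × ℕ) × ℕ => (q.1.1, q.2)) (by fun_prop))
        (Ar.rv (g := fun q : ((ι × ι) × ℕ) × ℕ => q.1.2) (by fun_prop))) (Ar.const 0)).of_eq
        fun q => by simp
    · rw [← rho_iff (h1 _) (map_add Y.L _ _ ▸ add_mem (mon_H _) (mon_H _)), map_add, map_add]
      rfl
  refine (Ar.mul_real (Ar.const (iv 1)) (Ar.sub_real h3 (Ar.mul_real (Ar.const (iv 3))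
    (Ar.add_real (h3.comp (h := fun a : ι × ι => (a.1, a.1)) (by fun_prop))
      (h3.comp (h := fun a : ι × ι => (a.2, a.2)) (by fun_prop)))))).of_eq fun a => ?_
  have : Y.P a = ⟪Y.w0 a.1, Y.w0 a.2⟫_ℝ := by
    rw [w0, Submodule.inner_starProjection_left_eq_right,
      Submodule.starProjection_eq_self_iff.2 (w0_mem _), P]
  simp only [this, norm_add_sq_real, real_inner_self_eq_norm_sq, iv]
  ring

omit [Inhabited ι] in
theorem ar_psh (hY : Y.Arith o) : Ar o fun p : (ι × ι) × ℕ => Y.psh p.1 p.2 := by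
  have := hY.hsh
  unfold psh
  fun_prop

theorem ar_om (hY : Y.Arith o) : Ar o fun p : ℕ × ℕ => Y.om p.1 (pure p.2) := by
  have h1 := ar_P hY
  have h2 := ar_psh hY
  refine (Ar.prod (x := fun (p : ℕ × ℕ) l => max (iv p.1 - |Y.P (Y.psh (en l) p.2) - Y.P (en l)|) 0)
    (by fun_prop) (fun _ _ => le_max_right _ _) (L := fun p => List.range p.1)
    (by fun_prop)).of_eq fun p => ?_
  simp only [om_apply, th_P]
  rw [← List.prod_toFinset _ List.nodup_range, List.toFinset_range]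

variable (Y) in
/-- Positivity relative to a set of killed pairs. -/
def Pos (D : ℕ × ι → Prop) (j : ℕ) (v : ι) : Prop :=
  ∃ z ∈ Y.Inv, 0 ≤ z ∧ z ≤ Y.L 1 ∧ (∀ p, D p → ⟪Y.L (Y.om p.1 * Y.mon p.2), z⟫_ℝ ≤ 0) ∧
    0 < ⟪Y.L (Y.om j * Y.mon v), z⟫_ℝ

theorem pos_iff (D : ℕ × ι → Prop) (p : ℕ × ι) : Y.Pos D p.1 p.2 ↔ ∃ e, ∀ N, ∃ c,
    iv e < ⟪Y.L 1, Y.Th (Y.L (Y.om p.1 * Y.mon p.2)) (Y.L (Y.gl c))⟫_ℝ ∧ ∀ l, l < N → D (en l) →
      ⟪Y.L 1, Y.Th (Y.L (Y.om (en l : ℕ × ι).1 * Y.mon (en l : ℕ × ι).2)) (Y.L (Y.gl c))⟫_ℝ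
        < iv N := by
  refine ⟨fun ⟨z, h1, h2, h3, h4, h5⟩ => ?_, fun ⟨e, h⟩ => ?_⟩
  · obtain ⟨e, he⟩ := exists_iv h5
    obtain ⟨r, hr⟩ := (ae_S (Y := Y)).exists
    refine ⟨e, fun N => ?_⟩
    obtain ⟨_, a, c, rfl⟩ := mem_closure_iff.1 (gl_dense (mem_Inv.1 h1 r hr ▸ W_mem r z) h2 h3)
      ({y | iv e < ⟪Y.L 1, Y.Th (Y.L (Y.om p.1 * Y.mon p.2)) y⟫_ℝ} ∩ ⋂ l ∈ Iio N, ⋂ _ : D (en l),
        {y | ⟪Y.L 1, Y.Th (Y.L (Y.om (en l : ℕ × ι).1 * Y.mon (en l : ℕ × ι).2)) y⟫_ℝ < iv N})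
      ((isOpen_lt continuous_const (by fun_prop)).inter ((finite_Iio N).isOpen_biInter fun l _ =>
        isOpen_iInter_of_finite fun _ => isOpen_lt (by fun_prop) continuous_const))
      ⟨by simpa only [mem_ofPred_eq, Th_inv h1] using he, mem_iInter₂.2 fun l _ => mem_iInter.2
        fun h => by simpa only [mem_ofPred_eq, Th_inv h1] using (h4 _ h).trans_lt (iv_pos N)⟩
    exact ⟨c, a.1, fun l hl h => mem_iInter.1 (mem_iInter₂.1 a.2 l hl) h⟩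
  · choose c h1 h2 using h
    have a0 : ∀ N, 0 ≤ Y.L (Y.gl (c N)) := fun N => L_nonneg le_sup_right
    have a1 : ∀ N, Y.L (Y.gl (c N)) ≤ Y.L 1 := fun N => sub_nonneg.1 (map_sub Y.L _ _ ▸
      L_nonneg (sub_nonneg.2 (sup_le (neg_le.1 le_sup_right) zero_le_one)))
    have a2 := fun N => T_nonneg (a0 N) (L_nonneg zero_le_one)
    have a3 := fun N => T_one_le (a0 N) (a1 N)
    obtain ⟨z, hz⟩ := exists_wlim (hyperfilter ℕ) (fun N => Y.T (Y.L (Y.gl (c N))) (Y.L 1)) (C := 1)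
      fun N => norm_le_of_ae zero_le_one ((ae_unit (a2 N) (a3 N)).mono fun t ht =>
        abs_le.2 ⟨by linarith [ht.1], ht.2⟩)
    replace hz : ∀ x, Tendsto (fun N => ⟪x, Y.T (Y.L (Y.gl (c N))) (Y.L 1)⟫_ℝ) (hyperfilter ℕ)
        (𝓝 ⟪x, z⟫_ℝ) := fun x => by simpa only [real_inner_comm x] using hz x
    refine ⟨z, mem_Inv.2 fun r hr => ext_inner_left ℝ fun x => ?_,
      nonneg_of_test fun x hx => ge_of_tendsto' (hz x) fun N => inner_nonneg hx (a2 N),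
      sub_nonneg.1 (nonneg_of_test fun x hx => ?_), fun q hq => ?_, (iv_pos e).trans_le
        (ge_of_tendsto' (hz _) fun N => (inner_T _ _ _).symm ▸ (h1 N).le)⟩
    · rw [inner_W]
      refine tendsto_nhds_unique (hz _) ?_
      simpa only [← inner_W, mem_Inv.1 (T_one_inv _) r hr] using hz x
    · rw [inner_sub_right, sub_nonneg]
      refine le_of_tendsto' (hz x) fun N => ?_
      have := inner_nonneg hx (sub_nonneg.2 (a3 N))
      rwa [inner_sub_right, sub_nonneg] at this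
    · refine le_of_tendsto_of_tendsto (hz _) (tendsto_iv.mono_left Nat.hyperfilter_le_atTop) ?_
      filter_upwards [Nat.hyperfilter_le_atTop (eventually_gt_atTop (Encodable.encode q))]
        with N hN
      have := h2 N _ hN (by rwa [en_encode])
      rw [en_encode, ← inner_T] at this
      exact this.le

theorem ar_pos (hY : Y.Arith o) {α : Type} [Primcodable α] (D : α → ℕ × ι → Prop)
    (hD : Ar o fun p : α × (ℕ × ι) => D p.1 p.2) :
    Ar o fun p : α × (ℕ × ι) => Y.Pos (D p.1) p.2.1 p.2.2 := by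
  have h1 : ∀ p : (ℕ × ι) × List (ℕ × ℕ), Y.om p.1.1 * Y.mon p.1.2 ∈ Y.C1 := fun p =>
    mul_mem (om_mem _) (Y.mon_mem _)
  have h2 : Ar o fun p : (ℕ × ι) × List (ℕ × ℕ) =>
      ⟪Y.L 1, Y.Th (Y.L (Y.om p.1.1 * Y.mon p.1.2)) (Y.L (Y.gl p.2))⟫_ℝ := by
    refine (hY.hint (fun p : (ℕ × ι) × List (ℕ × ℕ) =>
      Y.th (Y.om p.1.1 * Y.mon p.1.2) (Y.L (Y.gl p.2))) (fun p => th_C2 (h1 p) (L_mem (gl_mem p.2)))
      (ar_th (f := fun p : (ℕ × ι) × List (ℕ × ℕ) => Y.om p.1.1 * Y.mon p.1.2)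
        (g := fun p => Y.gl p.2) hY h1 (fun p => gl_mem p.2) ?_ ?_)).of_eq
      fun p => by rw [Th_L (h1 p), inner_one_L]
    · exact ((ar_om hY).comp (h := fun q : ((ℕ × ι) × List (ℕ × ℕ)) × ℕ => (q.1.1.1, q.2))
        (by fun_prop)).mul_real (hY.hmon.comp
        (h := fun q : ((ℕ × ι) × List (ℕ × ℕ)) × ℕ => (q.1.1.2, q.2)) (by fun_prop))
    · have h3 := Ar.sum (x := fun (q : ((ℕ × ι) × List (ℕ × ℕ)) × ℕ) (b : ℕ × ℕ) =>
        rv b.2 * Y.mon1 b.1 (pure q.2)) (Ar.mul_real (by fun_prop) (hY.hmon1.comp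
          (h := fun q : (((ℕ × ι) × List (ℕ × ℕ)) × ℕ) × ℕ × ℕ => (q.2.1, q.1.2)) (by fun_prop)))
        (L := fun q => q.1.2) (by fun_prop)
      refine (Ar.max_real (h3.neg_real.max_real (Ar.const 1).neg_real).neg_real
        (Ar.const 0)).of_eq fun q => ?_
      have : ∀ c, Y.gc c (pure q.2) = (c.map fun b => rv b.2 * Y.mon1 b.1 (pure q.2)).sum :=
        fun c => by induction c <;> simp_all [gc]
      simp [gl, this]
  refine Ar.congr ?_ fun p => pos_iff (D p.1) p.2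
  refine Ar.ex (Ar.all (Ar.ex (Ar.and (Ar.lt_real (by fun_prop) ?_) (Ar.all (Ar.imp (by fun_prop)
    (Ar.imp (by fun_prop) (Ar.lt_real ?_ (by fun_prop))))))))
  · exact h2.comp (h := fun q : (((α × ℕ × ι) × ℕ) × ℕ) × List (ℕ × ℕ) => (q.1.1.1.2, q.2))
      (by fun_prop)
  · exact h2.comp (h := fun q : ((((α × ℕ × ι) × ℕ) × ℕ) × List (ℕ × ℕ)) × ℕ => (en q.2, q.1.2))
      (by fun_prop)

omit [Primcodable ι] [Inhabited ι] in
theorem inner_mono {f g : C(BN, ℝ)} (h : f ≤ g) (hz : 0 ≤ z) : ⟪Y.L f, z⟫_ℝ ≤ ⟪Y.L g, z⟫_ℝ := by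
  have := inner_nonneg (L_nonneg (Y := Y) (sub_nonneg.2 h)) hz
  rwa [map_sub, inner_sub_left, sub_nonneg] at this

theorem freq_mem {t : BN} (ht : t ∈ Y.S) {j : ℕ} (h : 0 < Y.om j t) :
    ∀ᶠ r in (t : Filter ℕ), Y.F.stabMem Y.P Y.psh j r := by
  filter_upwards [mem_S.1 ht j, (tendsto_val _ t).eventually (lt_mem_nhds h)] with r a b
  exact stab_iff.2 ⟨a, b⟩

end Sys

section bridge

variable {o : Orc} {Y : Sys (List (ℕ × ℕ))} (hm : ∀ L n, Y.mon L (pure n) =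
  (L.map fun p => if o.f (p.2 + n) = p.1 then (1 : ℝ) else 0).prod)

include hm

theorem mon_nil : Y.mon [] = 1 := ext_pure fun n => by simp [hm]

theorem pos_step (j : ℕ) : ∃ j₁, ∀ D v i N, Y.Pos D j₁ v →
    (∀ b, N ≤ b → vl o v b → ¬ Y.Pos D j₁ ((i, b) :: v)) →
    ∃ r, Y.F.stabMem Y.P Y.psh j r ∧ o.f r ≠ i ∧
      (∀ n, n < j → ¬ Y.Pos D j [(i, n)] → o.f (n + r) ≠ i) ∧
      ∃ j', Y.Pos (fun p => D p ∨ (p.1 = j' ∧ ∃ b, (b = 0 ∨ Y.F.stabMem Y.P Y.psh j' b) ∧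
        p.2 = [(i, r + b)])) 0 [] := by
  have m1 : ∀ i n, Y.mon [(i, n)] = tau n (Y.mon [(i, 0)]) := fun i n =>
    ext_pure fun t => by simp [hm]
  have m2 : ∀ i n v, Y.mon ((i, n) :: v) = Y.mon v * tau n (Y.mon [(i, 0)]) := fun i n v =>
    ext_pure fun t => by simp [hm, mul_comm]
  have m3 : ∀ i n (t : BN), Y.mon [(i, n)] t = 0 → ∀ᶠ r in (t : Filter ℕ), o.f (n + r) ≠ i :=
    fun i n t h => ((tendsto_val _ t).eventually (gt_mem_nhds (h.trans_lt one_pos))).mono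
      fun r hr e => by simp [hm, e] at hr
  have m4 : ∀ j v, 0 ≤ Y.L (Y.om j * Y.mon v) := fun j v =>
    Sys.L_nonneg fun t => mul_nonneg (Sys.om_nonneg j t) (Y.mon01 v t).1
  obtain ⟨j₁, h⟩ := Sys.step (Y := Y) j
  refine ⟨j₁, fun D v i N ⟨z, a, b, c, d, e⟩ h1 => ?_⟩
  have f1 := h z a b c v [(i, 0)] N e fun n hn h2 => by
    refine not_lt.1 fun h3 => h1 n hn (fun p hp => ?_) ⟨z, a, b, c, d, by rwa [m2, ← mul_assoc]⟩
    by_contra h4
    rw [hm] at h2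
    exact h2 (List.prod_eq_zero (List.mem_map.2 ⟨p, hp, if_neg h4⟩))
  have f2 : ∀ n, ∀ᵐ t ∂Y.m, ¬ Y.Pos D j [(i, n)] → (Y.om j * Y.mon [(i, n)]) t * z t = 0 := by
    intro n
    by_cases h2 : Y.Pos D j [(i, n)]
    · simp [h2]
    filter_upwards [Sys.ae_mul_zero (m4 j _) b (not_lt.1 fun h3 => h2 ⟨z, a, b, c, d, h3⟩),
      Sys.coe_L (Y.om j * Y.mon [(i, n)])] with t h3 h4 _
    rwa [h4] at h3
  obtain ⟨t, ⟨t1, t2, t3, t4, t5⟩, t6⟩ := (f1.and_eventually (ae_all_iff.2 f2)).exists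
  have f3 : ∀ n, ∀ᶠ r in (t : Filter ℕ), ¬ Y.Pos D j [(i, n)] → o.f (n + r) ≠ i := fun n => by
    by_cases h2 : Y.Pos D j [(i, n)]
    · simp [h2]
    exact (m3 i n t (by simpa [t2.ne', t3.ne'] using t6 n h2)).mono fun _ h _ => h
  obtain ⟨r, r1, r2, r3, j', z', s1, s2, s3, s4, s5⟩ := ((Sys.freq_mem t1 t3).and
    ((m3 i 0 t t4).and (((eventually_all_finite (finite_Iio j)).2 fun n _ => f3 n).and t5))).exists
  refine ⟨r, r1, by simpa using r2, r3, j', z', s1, s2, s3.trans c, ?_, by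
    rwa [mon_nil hm, Sys.om_zero, mul_one]⟩
  rintro ⟨j'', v'⟩ (hp | ⟨rfl, n, hn, rfl⟩)
  · have := Sys.inner_nonneg (m4 j'' v') (sub_nonneg.2 s3)
    rw [inner_sub_right] at this
    linarith [d _ hp]
  · rw [m1]
    exact s5 n (hn.imp_right fun h => (Sys.stab_iff.1 h).2)

theorem forc_of_sys {k : ℕ} (hk : ∀ n, o.f n < k) (hY : Y.Arith o) : Nonempty (Forc o k Y.F) := by
  refine ⟨{
    O := Y.F.stab Y.P Y.psh (fun a b n => by simp [Sys.psh, Y.sh_sh]) fun j => ?_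
    Pos := Y.Pos
    aO := Y.F.ar_stabMem Y.P Y.psh hY.hF (Sys.ar_P hY) (Sys.ar_psh hY)
    aPos := Sys.ar_pos hY
    hO := fun _ _ h => h.1
    pos_empty := ⟨Y.L 1, Sys.one_inv, Sys.L_nonneg zero_le_one, le_rfl, by simp, by
      rw [Sys.inner_LL]; simp [mon_nil hm, Sys.om_zero]⟩
    not_pos := fun D j v h ⟨z, _, _, _, a, b⟩ => absurd b (not_lt.2 (a (j, v) h))
    pos_trans := fun D D' j v ⟨z, a, b, c, d, e⟩ h =>
      ⟨z, a, b, c, fun p hp => not_lt.1 fun h' => h p hp ⟨z, a, b, c, d, h'⟩, e⟩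
    pos_mono := fun D j j' v ⟨z, a, b, c, d, e⟩ h => ⟨z, a, b, c, d, lt_of_lt_of_le e
      (Sys.inner_mono (fun t => mul_le_mul_of_nonneg_right (Sys.om_anti h t) (Y.mon01 v t).1) b)⟩
    pos_split := fun D j ⟨z, a, b, c, d, e⟩ => ?_
    pos_point := fun D j i ⟨z, a, b, c, d, e⟩ N => ?_
    step := pos_step hm }⟩
  · obtain ⟨t, a, b⟩ := ((Sys.freq_om (Y := Y) j).and_eventually Sys.ae_S).exists
    exact (Sys.freq_mem b a).exists
  · rw [mon_nil hm, Sys.om_zero, mul_one] at e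
    have h := Sys.recur a b e j
    rw [show Y.om j = ∑ i ∈ Finset.range k, Y.om j * Y.mon [(i, 0)] from ext_pure fun n => by
      simp [hm, hk], map_sum, sum_inner] at h
    obtain ⟨i, hi, h⟩ := Finset.exists_lt_of_sum_lt (f := fun _ => (0 : ℝ)) (by simpa using h)
    exact ⟨i, Finset.mem_range.1 hi, z, a, b, c, d, h⟩
  · obtain ⟨t, h1, h2, h3⟩ := ((Sys.freq_of_pos e).and_eventually
      (Sys.ae_S.and (Sys.coe_L (Y.om j * Y.mon [(i, 0)])))).exists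
    rw [h3] at h1
    obtain ⟨n, h4, h5⟩ := ((Sys.mem_S.1 h2 N).and ((tendsto_val _ t).eventually_ne
      (right_ne_zero_of_mul (left_ne_zero_of_mul h1.ne')))).exists
    exact ⟨n, h4, by simpa [hm] using h5⟩

end bridge

theorem solved {o : Orc} {k : ℕ} (hk : ∀ n, o.f n < k) : Solved o :=
  solved_of_forc (k := k) fun F hF =>
    (exists_sys o F hF).elim fun Y h => ⟨Y.F, h.1.hF, h.2.1, forc_of_sys h.2.2 hk h.1⟩

end Pool.Agent.Lib.MP_f43b6f_lc
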