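import Pool.Agent.Lib.MP_f43b6f_lc.Defs

set_option autoImplicit false

namespace Pool.Agent.Lib.MP_f43b6f_lc

/-- The sets arithmetical in `f`: the least family of sets of natural numbers that holds the graph
of `f` and `{0}` and is closed under computable preimages, complements, intersections and
existential projection along the pairing function. -/
inductive ArithIn (f : ℕ → ℕ) : Set ℕ → Prop
  | graph : ArithIn f {n | f n.unpair.1 = n.unpair.2}
  | zero : ArithIn f {0}
  | preimage {g : ℕ → ℕ} {A : Set ℕ} : Computable g → ArithIn f A → ArithIn f (g ⁻¹' A)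
  | compl {A : Set ℕ} : ArithIn f A → ArithIn f Aᶜ
  | inter {A B : Set ℕ} : ArithIn f A → ArithIn f B → ArithIn f (A ∩ B)
  | proj {A : Set ℕ} : ArithIn f A → ArithIn f {n | ∃ m, Nat.pair n m ∈ A}

end Pool.Agent.Lib.MP_f43b6f_lc
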