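import Pool.Agent.Lib.MP_f43b6f_lc.UTheta

set_option autoImplicit false

/-!
The reversible part and covariant kernels.
-/

namespace Pool.Agent.Lib.MP_f43b6f_lc

open Filter Topology Set MeasureTheory TopologicalSpace
open scoped InnerProductSpace

attribute [local instance] Ultrafilter.add Ultrafilter.addSemigroup

namespace Sys

variable {ι : Type} {Y : Sys ι} {r p q s t : BN} {f : C(BN, ℝ)} {u v w y : Y.E}

variable (Y) in
/-- The compression of the adjoint operator. -/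
noncomputable def R (r : BN) : Y.E →L[ℝ] Y.E := Y.H.starProjection.comp (Y.W r)

theorem R_mem (r : BN) (y : Y.E) : Y.R r y ∈ Y.H := Y.H.starProjection_apply_mem _

theorem inner_RW (hu : u ∈ Y.H) (r : BN) (y : Y.E) : ⟪u, Y.R r y⟫_ℝ = ⟪u, Y.W r y⟫_ℝ := by
  rw [R, ContinuousLinearMap.comp_apply, ← Submodule.inner_starProjection_left_eq_right,
    Submodule.starProjection_eq_self_iff.2 hu]

theorem inner_R (hu : u ∈ Y.H) (r : BN) (y : Y.E) : ⟪u, Y.R r y⟫_ℝ = ⟪Y.V r u, y⟫_ℝ := by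
  rw [inner_RW hu, inner_W]

theorem norm_R (hr : r ∈ Y.S) (y : Y.E) : ‖Y.R r y‖ ≤ ‖y‖ :=
  (Y.H.norm_starProjection_apply_le _).trans (norm_W hr y)

theorem R_add (hp : p ∈ Y.S) (hq : q ∈ Y.S) (y : Y.E) : Y.R (p + q) y = Y.R p (Y.R q y) := by
  have : ∀ u ∈ Y.H, ⟪u, Y.R (p + q) y - Y.R p (Y.R q y)⟫_ℝ = 0 := fun u hu => by
    rw [inner_sub_right, inner_RW hu, W_add hp hq, inner_R hu, inner_RW (V_H hp hu), inner_W,
      sub_self]
  exact sub_eq_zero.1 (inner_self_eq_zero.1 (this _ (sub_mem (R_mem _ _) (R_mem _ _))))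

theorem norm_R_iff (hr : r ∈ Y.S) : ‖Y.R r v‖ = ‖v‖ ↔ Y.V r (Y.R r v) = v := by
  refine ⟨fun h => ?_, fun h => (norm_R hr v).antisymm
    ((congrArg norm h).ge.trans (norm_V hr _))⟩
  · have h1 := norm_sub_sq_real (Y.V r (Y.R r v)) v
    have h2 := (norm_V hr (Y.R r v)).trans h.le
    rw [← inner_R (R_mem r v), real_inner_self_eq_norm_sq, h] at h1
    have h3 : ‖Y.V r (Y.R r v)‖ ^ 2 ≤ ‖v‖ ^ 2 := by gcongr
    exact sub_eq_zero.1 (norm_eq_zero.1 (pow_eq_zero_iff two_ne_zero |>.1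
      (le_antisymm (by linarith) (sq_nonneg _))))

variable (Y) in
/-- The reversible part. -/
noncomputable def H0 : Submodule ℝ Y.E := Y.H ⊓ ⨅ r ∈ Y.S, ((Y.V r).comp (Y.R r) - 1).ker

theorem mem_H0 : v ∈ Y.H0 ↔ v ∈ Y.H ∧ ∀ r ∈ Y.S, ‖Y.R r v‖ = ‖v‖ := by
  simp +contextual [H0, sub_eq_zero, norm_R_iff]

theorem isClosed_H0 : IsClosed (Y.H0 : Set Y.E) := by
  simp only [H0, Submodule.coe_inf, Submodule.coe_iInf]
  exact (Submodule.isClosed_topologicalClosure _).inter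
    (isClosed_iInter fun r => isClosed_iInter fun _ => ContinuousLinearMap.isClosed_ker _)

instance : CompleteSpace Y.H0 := isClosed_H0.completeSpace_coe

theorem R_H0 (hr : r ∈ Y.S) (hv : v ∈ Y.H0) : Y.R r v ∈ Y.H0 :=
  mem_H0.2 ⟨R_mem r v, fun p hp => by
    rw [← R_add hp hr, (mem_H0.1 hv).2 _ (add_mem_S hp hr), (mem_H0.1 hv).2 _ hr]⟩

theorem R_inj (hr : r ∈ Y.S) (hv : v ∈ Y.H0) (hw : w ∈ Y.H0) (h : Y.R r v = Y.R r w) : v = w := by
  rw [← sub_eq_zero, ← norm_eq_zero, ← (mem_H0.1 (sub_mem hv hw)).2 r hr, map_sub, h, sub_self,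
    norm_zero]

theorem exists_inv (ht : t ∈ Y.S) :
    ∃ r ∈ Y.S, ∀ w ∈ Y.H0, Y.R r (Y.R t w) = w ∧ Y.R t (Y.R r w) = w := by
  obtain ⟨_, ⟨r, hr, rfl⟩, he⟩ := exists_idempotent_in_compact_add_subsemigroup
    Ultrafilter.continuous_add_left ((· + t) '' Y.S) ⟨_, t, ht, rfl⟩
    (isClosed_S.isCompact.image (Ultrafilter.continuous_add_left t)) (by
      rintro _ ⟨a, ha, rfl⟩ _ ⟨b, hb, rfl⟩
      exact ⟨a + t + b, add_mem_S (add_mem_S ha ht) hb, add_assoc _ _ _⟩)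
  have h1 : ∀ w ∈ Y.H0, Y.R r (Y.R t w) = w := fun w hw => by
    have h := add_mem_S hr ht
    rw [← R_add hr ht]
    exact R_inj h (R_H0 h hw) hw (by rw [← R_add h h, he])
  exact ⟨r, hr, fun w hw => ⟨h1 w hw, R_inj hr (R_H0 ht (R_H0 hr hw)) hw (h1 _ (R_H0 hr hw))⟩⟩

theorem V_H0 (ht : t ∈ Y.S) (hw : w ∈ Y.H0) : Y.V t w ∈ Y.H0 := by
  obtain ⟨r, hr, h⟩ := exists_inv ht
  have h1 := R_H0 hr hw
  rwa [← (h w hw).2, (norm_R_iff ht).1 ((mem_H0.1 h1).2 t ht)]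

theorem cont_R (hw : w ∈ Y.H0) : ContinuousOn (fun t => Y.R t w) Y.S := fun s hs => by
  refine tendsto_iff_norm_sub_tendsto_zero.2 ?_
  have h1 : Tendsto (fun t => √(‖w‖ ^ 2 - 2 * ⟪Y.R s w, Y.W t w⟫_ℝ + ‖w‖ ^ 2)) (𝓝[Y.S] s)
      (𝓝 √(‖w‖ ^ 2 - 2 * ⟪Y.R s w, Y.W s w⟫_ℝ + ‖w‖ ^ 2)) :=
    ((((cont_W _ w s hs).const_mul 2).const_sub _).add_const _).sqrt
  rw [← inner_RW (R_mem s w), real_inner_self_eq_norm_sq, (mem_H0.1 hw).2 s hs,
    show ‖w‖ ^ 2 - 2 * ‖w‖ ^ 2 + ‖w‖ ^ 2 = 0 by ring, Real.sqrt_zero] at h1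
  refine h1.congr' (eventually_nhdsWithin_of_forall fun t ht => ?_)
  dsimp only
  rw [norm_sub_rev, ← Real.sqrt_sq (norm_nonneg (Y.R s w - _)), norm_sub_sq_real,
    (mem_H0.1 hw).2 s hs, (mem_H0.1 hw).2 t ht, inner_RW (R_mem s w)]

theorem kernel_covar {K : BN → Y.E} {C : ℝ} {y : Y.E → Y.E} (h1 : ∀ t, K t ∈ Y.H)
    (h2 : ∀ᵐ t ∂Y.m, ‖K t‖ ≤ C) (h3 : ∀ u ∈ Y.H, y u =ᵐ[Y.m] fun t => ⟪u, K t⟫_ℝ)
    (h4 : ∀ r ∈ Y.S, ∀ u ∈ Y.H, y u = Y.W r (y (Y.V r u))) :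
    (∃ Z ∈ Y.Inv, Z =ᵐ[Y.m] fun t => ‖K t‖) ∧ ∀ᵐ t ∂Y.m, K t ∈ Y.H0 := by
  have a1 : ∀ u ∈ Y.H, AEMeasurable (fun t => ⟪u, K t⟫_ℝ) Y.m := fun u hu =>
    (Lp.aestronglyMeasurable (y u)).aemeasurable.congr (h3 u hu)
  have a2 : MemLp (fun t => ‖K t‖) 2 Y.m :=
    MemLp.of_bound (aem_norm sep_H h1 a1).aestronglyMeasurable C (by simpa using h2)
  obtain ⟨d, d1, d2, -⟩ := exists_norming (sep_H (Y := Y))
  have key : ∀ r ∈ Y.S, a2.toLp ≤ Y.W r a2.toLp ∧ ∀ᵐ t ∂Y.m, ‖Y.R r (K t)‖ = ‖K t‖ := by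
    intro r hr
    have a3 : MemLp (fun t => ‖Y.R r (K t)‖) 2 Y.m :=
      MemLp.of_bound (aem_norm sep_H (fun t => R_mem r _) fun u hu => by
        simpa only [inner_R hu] using a1 _ (V_H hr hu)).aestronglyMeasurable C
        (h2.mono fun t ht => by simpa using (norm_R hr _).trans ht)
    have a4 : a3.toLp ≤ a2.toLp := (Lp.coeFn_le _ _).1 (by
      filter_upwards [a2.coeFn_toLp, a3.coeFn_toLp] with t b c using b ▸ c ▸ norm_R hr _)
    have a5 : ∀ i, y (d i) ≤ Y.W r a3.toLp := fun i => by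
      rw [h4 r hr _ (d1 i).1]
      refine W_mono hr ((Lp.coeFn_le _ _).1 ?_)
      filter_upwards [h3 _ (V_H hr (d1 i).1), a3.coeFn_toLp] with t b c
      rw [b, c, ← inner_R (d1 i).1]
      exact (real_inner_le_norm _ _).trans (mul_le_of_le_one_left (norm_nonneg _) (d1 i).2)
    have a6 : a2.toLp ≤ Y.W r a3.toLp := (Lp.coeFn_le _ _).1 (by
      filter_upwards [a2.coeFn_toLp, ae_all_iff.2 fun i => (Lp.coeFn_le _ _).2 (a5 i),
        ae_all_iff.2 fun i => h3 _ (d1 i).1] with t b c e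
      exact b ▸ d2 _ (h1 t) _ fun i => e i ▸ c i)
    have a7 := eq_of_le_of_int a4 (by
      have := inner_nonneg (L_nonneg (Y := Y) zero_le_one) (sub_nonneg.2 a6)
      rwa [inner_sub_right, one_W hr, sub_nonneg] at this)
    refine ⟨a6.trans (W_mono hr a4), ?_⟩
    filter_upwards [a2.coeFn_toLp, a3.coeFn_toLp] with t b c
    rw [← b, ← c, a7]
  refine ⟨⟨_, inv_of_le fun r hr => (key r hr).1, a2.coeFn_toLp⟩, ?_⟩
  have := (sep_H (Y := Y)).separableSpace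
  have : SecondCountableTopology (Y.H : Set Y.E) := UniformSpace.secondCountable_of_separable _
  obtain ⟨T, b1, b2⟩ := isOpen_iUnion_countable
    (fun r : Y.S => {v : (Y.H : Set Y.E) | ‖Y.R r v‖ ≠ ‖(v : Y.E)‖})
    fun r => isOpen_ne_fun (by fun_prop) (by fun_prop)
  filter_upwards [(ae_ball_iff b1).2 fun r _ => (key r r.2).2] with t ht
  refine mem_H0.2 ⟨h1 t, fun r hr => by_contra fun h => ?_⟩
  obtain ⟨r', c1, c2⟩ := mem_iUnion₂.1 (b2.ge (mem_iUnion.2 ⟨⟨r, hr⟩, (h : ⟨K t, h1 t⟩ ∈ _)⟩))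
  exact c2 (ht r' c1)

theorem coe_Th_R (hu : u ∈ Y.H) (y : Y.E) : Y.Th u y =ᵐ[Y.m] fun t => ⟪u, Y.R t y⟫_ℝ := by
  simpa only [inner_RW hu] using coe_Th u y

theorem ae_diag (hv : v ∈ Y.H) : ∀ᵐ s ∂Y.m, ⟪v, Y.R s v⟫_ℝ =
    ⟪Y.H0.starProjection v, Y.R s (Y.H0.starProjection v)⟫_ℝ := by
  filter_upwards [(kernel_covar (K := fun t => Y.R t v) (y := fun u => Y.Th u v)
    (fun t => R_mem t v) (ae_S.mono fun t ht => norm_R ht v) (fun u hu => coe_Th_R hu v)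
    fun r hr u hu => Th_covar hr hu hv).2, ae_S] with s h1 hs
  have h2 := Y.H0.starProjection_apply_mem v
  rw [← Submodule.starProjection_eq_self_iff.2 h1, ← Submodule.inner_starProjection_left_eq_right,
    inner_R h2.1, inner_R h2.1, ← Submodule.inner_starProjection_left_eq_right,
    Submodule.starProjection_eq_self_iff.2 (V_H0 hs h2)]

theorem exists_kernel {y : Y.E →L[ℝ] Y.E} (h : ∀ u, ∀ᵐ t ∂Y.m, |y u t| ≤ ‖u‖) :
    ∃ K : BN → Y.E, (∀ t, K t ∈ Y.H) ∧ (∀ t, ‖K t‖ ≤ 1) ∧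
      ∀ u ∈ Y.H, y u =ᵐ[Y.m] fun t => ⟪u, K t⟫_ℝ := by
  obtain ⟨d, d1, d2⟩ := exists_dseq (sep_H (Y := Y)) ⟨0, zero_mem _⟩
  let e : (ℕ →₀ ℚ) →ₗ[ℚ] Y.H := Finsupp.linearCombination ℚ fun i => ⟨d i, d1 i⟩
  have e1 : DenseRange e := Metric.denseRange_iff.2 fun x r hr =>
    (d2 x x.2 r hr).elim fun i hi => ⟨Finsupp.single i 1, by
      simp only [e, Finsupp.linearCombination_single, one_smul, dist_eq_norm]
      exact hi⟩
  have e2 : ∀ c, ∀ᵐ t ∂Y.m, y (e c) t = Finsupp.linearCombination ℚ (fun i => y (d i) t) c := by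
    intro c
    induction c using Finsupp.induction_linear with
    | zero => filter_upwards [Lp.coeFn_zero ℝ 2 Y.m] with t ht using by simp
    | add a b ha hb =>
      filter_upwards [ha, hb, Lp.coeFn_add (y (e a)) (y (e b))] with t a1 a2 a3
      rw [map_add, map_add, Submodule.coe_add, map_add, a3, Pi.add_apply, a1, a2]
    | single i c =>
      filter_upwards [Lp.coeFn_smul (c : ℝ) (y (d i))] with t ht
      simp only [e, Finsupp.linearCombination_single, Submodule.coe_smul_of_tower]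
      rw [← Rat.cast_smul_eq_qsmul ℝ, map_smul, ht, Pi.smul_apply, Rat.cast_smul_eq_qsmul]
  have e3 : ∀ t, ∃ k : Y.E, k ∈ Y.H ∧ ‖k‖ ≤ 1 ∧
      ((∀ c, |Finsupp.linearCombination ℚ (fun i => y (d i) t) c| ≤ ‖e c‖) →
        ∀ i, y (d i) t = ⟪d i, k⟫_ℝ) := fun t => by
    by_cases hb : ∀ c, |Finsupp.linearCombination ℚ (fun i => y (d i) t) c| ≤ ‖e c‖
    · let l := (Finsupp.linearCombination ℚ fun i => y (d i) t).extendOfNorm e
      let k := (InnerProductSpace.toDual ℝ Y.H).symm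
        (l.toLinearMap.toAddMonoidHom.toRealLinearMap l.continuous)
      refine ⟨k, k.2, ?_, fun _ i => ?_⟩
      · change ‖k‖ ≤ 1
        rw [LinearIsometryEquiv.norm_map]
        exact ContinuousLinearMap.opNorm_le_bound _ zero_le_one
          (LinearMap.norm_extendOfNorm_apply_le e1 1 fun c => (hb c).trans_eq (one_mul _).symm)
      · have := LinearMap.extendOfNorm_eq (f := Finsupp.linearCombination ℚ fun i => y (d i) t) e1
          ⟨1, fun c => (hb c).trans_eq (one_mul _).symm⟩ (Finsupp.single i 1)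
        simp only [e, Finsupp.linearCombination_single, one_smul] at this
        rw [real_inner_comm, ← this]
        exact (InnerProductSpace.toDual_symm_apply (𝕜 := ℝ) (x := (⟨d i, d1 i⟩ : Y.H))
          (y := l.toLinearMap.toAddMonoidHom.toRealLinearMap l.continuous)).symm
    · exact ⟨0, zero_mem _, by simp, fun h => absurd h hb⟩
  choose K k1 k2 k3 using e3
  refine ⟨K, k1, k2, fun u hu => ?_⟩
  filter_upwards [ae_all_iff.2 e2, ae_all_iff.2 fun c => h (e c), ae_all_iff.2 fun i => h (u - d i),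
    ae_all_iff.2 fun i => Lp.coeFn_sub (y u) (y (d i))] with t a1 a2 a3 a4
  refine eq_of_forall_dist_le fun r hr => ?_
  obtain ⟨i, hi⟩ := d2 u hu (r / 2) (half_pos hr)
  have a5 := a3 i
  have a6 := (abs_real_inner_le_norm (u - d i) (K t)).trans
    (mul_le_of_le_one_right (norm_nonneg _) (k2 t))
  rw [map_sub, a4, Pi.sub_apply, k3 t (fun c => a1 c ▸ a2 c) i, abs_le] at a5
  rw [inner_sub_left, abs_le] at a6
  rw [Real.dist_eq, abs_le]
  constructor <;> linarith [a5.1, a5.2, a6.1, a6.2]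

end Sys

end Pool.Agent.Lib.MP_f43b6f_lc
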