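import Pool.Agent.Lib.MP_f43b6f_lc.UReal

set_option autoImplicit false

/-!
Reservoirs, hulls along reservoirs, and arithmetical maximal consistent sets of conditions.
-/

namespace Pool.Agent.Lib.MP_f43b6f_lc

open Filter Topology Set

/-- A decreasing sequence of nonempty sets that is closed under adding far elements. -/
structure Res where
  /-- membership in the set with a given index -/
  mem : ℕ → ℕ → Prop
  anti : ∀ {M N b}, M ≤ N → mem N b → mem M b
  ne : ∀ N, ∃ b, mem N b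
  ge : ∀ {N b}, mem N b → N ≤ b
  sum : ∀ {N b}, mem N b → ∃ N', ∀ t, mem N' t → mem N (b + t)

namespace Res

variable (F : Res)

/-- The filter of a reservoir. -/
def fil : Filter ℕ := ⨅ N, 𝓟 {b | F.mem N b}

theorem basis : F.fil.HasBasis (fun _ => True) fun N => {b | F.mem N b} :=
  hasBasis_iInf_principal (Antitone.directed_ge fun _ _ h _ => F.anti h)

theorem ev {P : ℕ → Prop} : (∀ᶠ b in F.fil, P b) ↔ ∃ N, ∀ b, F.mem N b → P b := by
  simpa using F.basis.eventually_iff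

section stab

variable {ι : Type} [Primcodable ι] [Inhabited ι] (κ : ι → ℝ) (sh : ι → ℕ → ι)

/-- Elements that almost fix the first values. -/
def stabMem (N b : ℕ) : Prop := F.mem N b ∧ ∀ l, l < N → |κ (sh (en l) b) - κ (en l)| < iv N

theorem stabMem_anti {M N b : ℕ} (h : M ≤ N) (hb : F.stabMem κ sh N b) : F.stabMem κ sh M b :=
  ⟨F.anti h hb.1, fun l hl => (hb.2 l (by omega)).trans_le (iv_anti h)⟩

theorem stab_small (a : ι) {e : ℝ} (he : 0 < e) :
    ∀ᶠ N in atTop, ∀ b, F.stabMem κ sh N b → |κ (sh a b) - κ a| < e := by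
  filter_upwards [eventually_gt_atTop (Encodable.encode a), tendsto_iv.eventually (gt_mem_nhds he)]
    with N h1 h2 b hb
  simpa only [en_encode] using (hb.2 _ h1).trans h2

/-- The stabiliser reservoir. -/
def stab (hsh : ∀ a b n, sh (sh a b) n = sh a (b + n)) (hne : ∀ N, ∃ b, F.stabMem κ sh N b) :
    Res where
  mem := F.stabMem κ sh
  anti := F.stabMem_anti κ sh
  ne := hne
  ge := fun h => F.ge h.1
  sum := fun {N b} hb => by
    obtain ⟨N₁, h1⟩ := F.sum hb.1
    have h2 : ∀ᶠ M in atTop, ∀ l ∈ Finset.range N, ∀ t, F.stabMem κ sh M t →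
        |κ (sh (sh (en l) b) t) - κ (sh (en l) b)| < iv N - |κ (sh (en l) b) - κ (en l)| :=
      (eventually_all_finset _).2 fun l hl =>
        F.stab_small κ sh _ (sub_pos.2 (hb.2 l (Finset.mem_range.1 hl)))
    obtain ⟨M, h3, h4⟩ := (h2.and (eventually_ge_atTop N₁)).exists
    refine ⟨M, fun t ht => ⟨h1 t (F.anti h4 ht.1), fun l hl => ?_⟩⟩
    have := h3 l (Finset.mem_range.2 hl) t ht
    rw [hsh] at this
    have := abs_sub_le (κ (sh (en l) (b + t))) (κ (sh (en l) b)) (κ (en l))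
    linarith

theorem stab_tendsto (hsh : ∀ a b n, sh (sh a b) n = sh a (b + n))
    (hne : ∀ N, ∃ b, F.stabMem κ sh N b) (a : ι) :
    Tendsto (fun b => κ (sh a b)) (F.stab κ sh hsh hne).fil (𝓝 (κ a)) :=
  Metric.tendsto_nhds.2 fun _ he => (Res.ev _).2 (F.stab_small κ sh a he).exists

theorem ar_stabMem {o : Orc} (hF : Ar o fun p : ℕ × ℕ => F.mem p.1 p.2) (hκ : Ar o κ)
    (hsh : Ar o fun p : ι × ℕ => sh p.1 p.2) :
    Ar o fun p : ℕ × ℕ => F.stabMem κ sh p.1 p.2 :=
  hF.and (Ar.all (Ar.imp (by fun_prop) (by fun_prop)))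

end stab

section hull

variable {X Y : Type} [AddCommGroup X] [Module ℝ X] [TopologicalSpace X] [IsTopologicalAddGroup X]
  [ContinuousSMul ℝ X] [AddCommGroup Y] [Module ℝ Y] [TopologicalSpace Y] [IsTopologicalAddGroup Y]
  [ContinuousSMul ℝ Y]

/-- The closed convex hull of the values on one set of the reservoir. -/
def cc (x : ℕ → X) (M : ℕ) : Set X := closure (convexHull ℝ (x '' {n | F.mem M n}))

/-- The values of far means. -/
def hull (x : ℕ → X) : Set X := ⋂ M, F.cc x M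

variable {F}

theorem cc_convex (x : ℕ → X) (M : ℕ) : Convex ℝ (F.cc x M) := (convex_convexHull ℝ _).closure

omit [IsTopologicalAddGroup X] [ContinuousSMul ℝ X] in
theorem cc_sub {x : ℕ → X} {M : ℕ} {D : Set X} (h1 : IsClosed D) (h2 : Convex ℝ D)
    (h : ∀ n, F.mem M n → x n ∈ D) : F.cc x M ⊆ D :=
  closure_minimal (convexHull_min (by rintro _ ⟨n, hn, rfl⟩; exact h n hn) h2) h1

omit [IsTopologicalAddGroup X] [ContinuousSMul ℝ X] in
theorem mem_cc {x : ℕ → X} {M n : ℕ} (h : F.mem M n) : x n ∈ F.cc x M :=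
  subset_closure (subset_convexHull ℝ _ ⟨n, h, rfl⟩)

omit [IsTopologicalAddGroup X] [ContinuousSMul ℝ X] in
theorem hull_sub {x : ℕ → X} (M : ℕ) {D : Set X} (h1 : IsClosed D) (h2 : Convex ℝ D)
    (h : ∀ n, F.mem M n → x n ∈ D) : F.hull x ⊆ D :=
  (iInter_subset _ M).trans (cc_sub h1 h2 h)

theorem cc_anti (x : ℕ → X) {M N : ℕ} (h : M ≤ N) : F.cc x N ⊆ F.cc x M :=
  cc_sub isClosed_closure (cc_convex x M) fun _ hn => mem_cc (F.anti h hn)

theorem hull_convex (x : ℕ → X) : Convex ℝ (F.hull x) := convex_iInter (cc_convex x)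

omit [IsTopologicalAddGroup X] [ContinuousSMul ℝ X] in
theorem hull_le {x : ℕ → X} (M : ℕ) (f : X →L[ℝ] ℝ) {c : ℝ} (h : ∀ n, F.mem M n → f (x n) ≤ c)
    {y : X} (hy : y ∈ F.hull x) : f y ≤ c :=
  hull_sub M (isClosed_le f.continuous continuous_const)
    (convex_halfSpace_le f.toLinearMap.isLinear c) h hy

theorem hull_trans {x y : ℕ → X} (h : ∀ n, y n ∈ F.hull fun t => x (n + t)) :
    F.hull y ⊆ F.hull x := fun _ hz => mem_iInter.2 fun M =>
  hull_sub M isClosed_closure (cc_convex x M) (fun n hn => (F.sum hn).elim fun N hN =>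
    hull_sub N isClosed_closure (cc_convex x M) (fun t ht => mem_cc (hN t ht)) (h n)) hz

omit [IsTopologicalAddGroup X] [ContinuousSMul ℝ X] in
theorem hull_map {x : ℕ → X} (L : X →L[ℝ] Y) {z : X} (hz : z ∈ F.hull x) :
    L z ∈ F.hull fun n => L (x n) := mem_iInter.2 fun M =>
  hull_sub (D := L ⁻¹' F.cc (fun n => L (x n)) M) M (isClosed_closure.preimage L.continuous)
    ((cc_convex _ M).linear_preimage L.toLinearMap) (fun _ hn => mem_cc hn) hz

theorem exists_mem_cc [T2Space X] {x : ℕ → X} {Q : Set X} (hQ : IsCompact Q) (hQ' : Convex ℝ Q)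
    (hx : ∀ n, x n ∈ Q) {D : ℕ → Set X} (h1 : ∀ M, IsClosed (D M)) (h2 : ∀ M, D (M + 1) ⊆ D M)
    (h3 : ∀ M, (F.cc x M ∩ D M).Nonempty) : ∃ z ∈ F.hull x, ∀ M, z ∈ D M := by
  obtain ⟨z, hz⟩ := IsCompact.nonempty_iInter_of_sequence_nonempty_isCompact_isClosed
    (fun M => F.cc x M ∩ D M) (fun M => inter_subset_inter (cc_anti x M.le_succ) (h2 M)) h3
    (hQ.of_isClosed_subset (isClosed_closure.inter (h1 0))
      (inter_subset_left.trans (cc_sub hQ.isClosed hQ' fun n _ => hx n)))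
    fun M => isClosed_closure.inter (h1 M)
  exact ⟨z, mem_iInter.2 fun M => (mem_iInter.1 hz M).1, fun M => (mem_iInter.1 hz M).2⟩

omit [IsTopologicalAddGroup Y] [ContinuousSMul ℝ Y] in
theorem hull_lift [T2Space X] [T2Space Y] {x : ℕ → X} {Q : Set X} (hQ : IsCompact Q)
    (hQ' : Convex ℝ Q) (hx : ∀ n, x n ∈ Q) (L : X →L[ℝ] Y) {y : Y}
    (hy : y ∈ F.hull fun n => L (x n)) : ∃ z ∈ F.hull x, L z = y := by
  obtain ⟨z, h1, h2⟩ := exists_mem_cc (F := F) hQ hQ' hx (D := fun _ => L ⁻¹' {y})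
    (fun _ => isClosed_singleton.preimage L.continuous) (fun _ => subset_rfl) fun M =>
      hull_sub (D := L '' F.cc x M) M (((hQ.of_isClosed_subset isClosed_closure
        (cc_sub hQ.isClosed hQ' fun n _ => hx n)).image L.continuous).isClosed)
        ((cc_convex x M).linear_image L.toLinearMap) (fun n hn => ⟨_, mem_cc hn, rfl⟩) hy
  exact ⟨z, h1, h2 0⟩

end hull

end Res

/-- The average of `f` over a list. -/
noncomputable def avg (μ : List ℕ) (f : ℕ → ℝ) : ℝ := (μ.map f).sum / μ.length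

@[fun_prop] theorem Ar.avg {o : Orc} {α : Type} [Primcodable α] {μ : α → List ℕ} {f : α → ℕ → ℝ}
    (hf : Ar o fun p : α × ℕ => f p.1 p.2) (hμ : Ar o μ) : Ar o fun a => avg (μ a) (f a) := by
  unfold MP_f43b6f_lc.avg
  fun_prop

theorem avg_mix {μ ν : List ℕ} (hμ : μ ≠ []) (hν : ν ≠ []) (a b : ℕ) (f : ℕ → ℝ) :
    avg ((List.replicate (a * ν.length) μ).flatten ++ (List.replicate (b * μ.length) ν).flatten) f
      = (a * avg μ f + b * avg ν f) / (a + b) := by
  have h1 : (μ.length : ℝ) ≠ 0 := by simpa using hμ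
  have h2 : (ν.length : ℝ) ≠ 0 := by simpa using hν
  simp only [avg, List.map_append, List.sum_append, List.map_flatten, List.sum_flatten,
    List.map_replicate, List.sum_replicate, List.length_append, List.length_flatten, smul_eq_mul,
    nsmul_eq_mul]
  push_cast
  rw [show (a : ℝ) * ν.length * μ.length + b * μ.length * ν.length =
    (μ.length * ν.length) * (a + b) by ring, ← div_div]
  congr 1
  field_simp

/-- The unit cube. -/
def cube (ι : Type) : Set (ι → ℝ) := Set.pi univ fun _ => Icc 0 1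

theorem cube_compact (ι : Type) : IsCompact (cube ι) := isCompact_univ_pi fun _ => isCompact_Icc

theorem cube_convex (ι : Type) : Convex ℝ (cube ι) := convex_pi fun _ _ => convex_Icc 0 1

namespace Res

variable (F : Res) {ι : Type}

/-- Nonempty lists inside one set of the reservoir. -/
def lst (M : ℕ) (μ : List ℕ) : Prop := μ ≠ [] ∧ ∀ n, n ∈ μ → F.mem M n

variable {F}

theorem avg_mem_cc (φ : ι → ℕ → ℝ) {M : ℕ} {μ : List ℕ} (h : F.lst M μ) :
    (fun a => avg μ (φ a)) ∈ F.cc (fun n a => φ a n) M := by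
  have h1 : (μ.length : ℝ) ≠ 0 := by simpa using h.1
  have := (cc_convex (F := F) (fun n a => φ a n) M).sum_mem (t := Finset.univ)
    (w := fun _ : Fin μ.length => (μ.length : ℝ)⁻¹) (z := fun i a => φ a μ[i.1])
    (fun _ _ => by positivity) (by simp [h1]) fun i _ => mem_cc (h.2 _ (List.getElem_mem _))
  convert this using 1
  funext a
  simp only [Finset.sum_apply, Pi.smul_apply, smul_eq_mul, ← Finset.mul_sum, avg]
  rw [Fin.sum_univ_fun_getElem, div_eq_inv_mul]

theorem cc_sub_avg (φ : ι → ℕ → ℝ) (M : ℕ) : F.cc (fun n a => φ a n) M ⊆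
    closure {y | ∃ μ, F.lst M μ ∧ y = fun a => avg μ (φ a)} := by
  refine cc_sub isClosed_closure (convex_iff_add_mem.2 fun p hp q hq s t hs ht hst => ?_)
    fun n hn => subset_closure ⟨[n], ⟨by simp, by simpa using hn⟩, by simp [avg]⟩
  rw [← closure_closure]
  refine map_mem_closure₂ (f := fun p q : ι → ℝ => s • p + t • q) (by fun_prop) hp hq ?_
  rintro _ ⟨μ, hμ, rfl⟩ _ ⟨ν, hν, rfl⟩
  have h1 : Tendsto (fun n : ℕ => (⌊s * ((n : ℝ) + 1)⌋₊ : ℝ) / ((n : ℝ) + 1)) atTop (𝓝 s) :=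
    (tendsto_nat_floor_mul_div_atTop hs).comp
      (tendsto_atTop_add_const_right _ 1 tendsto_natCast_atTop_atTop)
  refine mem_closure_of_tendsto (b := atTop) (f := fun (n : ℕ) a =>
    (⌊s * ((n : ℝ) + 1)⌋₊ : ℝ) / ((n : ℝ) + 1) * avg μ (φ a) +
      (1 - (⌊s * ((n : ℝ) + 1)⌋₊ : ℝ) / ((n : ℝ) + 1)) * avg ν (φ a))
    (tendsto_pi_nhds.2 fun a => ?_) (Eventually.of_forall fun n => ?_)
  · rw [show t = 1 - s by linarith]
    exact (h1.mul_const _).add ((h1.const_sub 1).mul_const _)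
  · have h2 : ⌊s * ((n : ℝ) + 1)⌋₊ ≤ n + 1 := Nat.floor_le_of_le (by push_cast; nlinarith)
    generalize ⌊s * ((n : ℝ) + 1)⌋₊ = a at h2
    obtain ⟨b, hb⟩ := Nat.exists_eq_add_of_le h2
    have h3 : (n : ℝ) + 1 = a + b := by exact_mod_cast hb
    refine ⟨_, ⟨?_, ?_⟩, funext fun i => ((avg_mix hμ.1 hν.1 a b (φ i)).trans ?_).symm⟩
    · have h4 := List.length_pos_iff.2 hμ.1
      have h5 := List.length_pos_iff.2 hν.1
      rw [← List.length_pos_iff]
      simp only [List.length_append, List.length_flatten, List.map_replicate, List.sum_replicate,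
        smul_eq_mul]
      have : 0 < (a + b) * (μ.length * ν.length) := by rw [← hb]; positivity
      nlinarith
    · intro m hm
      simp only [List.mem_append, List.mem_flatten, List.mem_replicate] at hm
      rcases hm with ⟨_, ⟨_, rfl⟩, hm⟩ | ⟨_, ⟨_, rfl⟩, hm⟩
      exacts [hμ.2 m hm, hν.2 m hm]
    · rw [← h3, show (b : ℝ) = n + 1 - a by linarith]
      field_simp

theorem exists_lst {φ : ι → ℕ → ℝ} {κ : ι → ℝ} (h : κ ∈ F.hull fun n a => φ a n) (M : ℕ)
    {U : Set (ι → ℝ)} (hU : IsOpen U) (hκ : κ ∈ U) :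
    ∃ μ, F.lst M μ ∧ (fun a => avg μ (φ a)) ∈ U := by
  obtain ⟨_, h1, μ, h2, rfl⟩ := mem_closure_iff.1 (cc_sub_avg φ M (mem_iInter.1 h M)) U hU hκ
  exact ⟨μ, h2, h1⟩

theorem ar_lst {o : Orc} (hF : Ar o fun p : ℕ × ℕ => F.mem p.1 p.2) :
    Ar o fun p : ℕ × List ℕ => F.lst p.1 p.2 :=
  Ar.and (by fun_prop) (Ar.all (Ar.imp (by fun_prop) (by fun_prop)))

variable {I : Type} (F) (φ : ι → ℕ → ℝ) (g : I → (ι → ℝ) → ℝ)

/-- Values of far means that obey a set of conditions. -/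
def sol (N : I → Prop) : Set (ι → ℝ) :=
  {κ | κ ∈ F.hull (fun n a => φ a n) ∧ ∀ i, N i → g i κ ≤ 0}

variable {F φ g} [Primcodable I] [Inhabited I]

theorem sol_iff (hφ : ∀ a n, φ a n ∈ Icc (0 : ℝ) 1) (hg : ∀ i, Continuous (g i)) (N : I → Prop) :
    (F.sol φ g N).Nonempty ↔ ∃ _ : Unit, ∀ M, ∃ μ, F.lst M μ ∧ ∀ l, l < M → N (en l) →
      g (en l) (fun a => avg μ (φ a)) < iv M := by
  refine ⟨fun ⟨κ, h1, h2⟩ => ⟨(), fun M => ?_⟩, fun ⟨_, h⟩ => ?_⟩
  · obtain ⟨μ, h3, h4⟩ := exists_lst h1 M (U := ⋂ l ∈ Iio M, ⋂ _ : N (en l), {y | g (en l) y < iv M})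
      ((finite_Iio M).isOpen_biInter fun l _ => isOpen_iInter_of_finite fun _ =>
        isOpen_lt (hg _) continuous_const)
      (by simpa using fun l _ h => (h2 _ h).trans_lt (iv_pos M))
    exact ⟨μ, h3, by simpa using h4⟩
  · obtain ⟨κ, h1, h2⟩ := exists_mem_cc (F := F) (cube_compact ι) (cube_convex ι)
      (fun n a _ => hφ a n) (D := fun M => {y | ∀ l, l < M → N (en l) → g (en l) y ≤ iv M})
      (fun M => by
        simp only [ofPred_forall]
        exact isClosed_iInter fun l => isClosed_iInter fun _ => isClosed_iInter fun _ =>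
          isClosed_le (hg _) continuous_const)
      (fun M y hy l hl h => (hy l (by omega) h).trans (iv_anti M.le_succ))
      fun M => (h M).elim fun μ hμ => ⟨_, avg_mem_cc φ hμ.1, fun l h1 h2 => (hμ.2 l h1 h2).le⟩
    refine ⟨κ, h1, fun i hi => ge_of_tendsto tendsto_iv ?_⟩
    filter_upwards [eventually_gt_atTop (Encodable.encode i)] with M hM
    simpa only [en_encode] using h2 M _ hM (by rwa [en_encode])

theorem ar_sol {o : Orc} (hφ : ∀ a n, φ a n ∈ Icc (0 : ℝ) 1) (hg : ∀ i, Continuous (g i))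
    (hF : Ar o fun p : ℕ × ℕ => F.mem p.1 p.2)
    (hg' : Ar o fun p : I × List ℕ => g p.1 fun a => avg p.2 (φ a))
    {α : Type} [Primcodable α] {N : α → I → Prop} (hN : Ar o fun p : α × I => N p.1 p.2) :
    Ar o fun a => (F.sol φ g (N a)).Nonempty := by
  refine Ar.congr ?_ fun a => sol_iff hφ hg (N a)
  refine Ar.ex (Ar.all (Ar.ex (Ar.and ?_ (Ar.all (Ar.imp (by fun_prop) (Ar.imp (by fun_prop)
    (Ar.lt_real ?_ (by fun_prop))))))))
  · exact (ar_lst hF).comp (h := fun p : ((α × Unit) × ℕ) × List ℕ => (p.1.2, p.2)) (by fun_prop)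
  · exact hg'.comp (h := fun p : (((α × Unit) × ℕ) × List ℕ) × ℕ => (en p.2, p.1.2)) (by fun_prop)

theorem greedy {o : Orc} (hφ : ∀ a n, φ a n ∈ Icc (0 : ℝ) 1) (hg : ∀ i, Continuous (g i))
    (hF : Ar o fun p : ℕ × ℕ => F.mem p.1 p.2)
    (hg' : Ar o fun p : I × List ℕ => g p.1 fun a => avg p.2 (φ a))
    {J : Type} [Primcodable J] [Inhabited J] {N : I → Prop} (hN : Ar o N)
    (h0 : (F.sol φ g N).Nonempty) {B : J → I → Prop} (hB : Ar o fun p : J × I => B p.1 p.2) :
    ∃ (A : J → Prop) (N' : I → Prop), Ar o N' ∧ (∀ i, N' i ↔ N i ∨ ∃ j, A j ∧ B j i) ∧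
      (F.sol φ g N').Nonempty ∧ ∀ j, (F.sol φ g N' ∩ F.sol φ g (B j)).Nonempty → A j := by
  classical
  let up : List J → I → Prop := fun L i => N i ∨ ∃ j, j ∈ L ∧ B j i
  have h1 : Ar o fun L => (F.sol φ g (up L)).Nonempty := ar_sol hφ hg hF hg' (by fun_prop)
  let h : ℕ → List J → List J := fun n L =>
    if (F.sol φ g (up (en n :: L))).Nonempty then en n :: L else L
  let L : ℕ → List J := fun n => Nat.rec [] h n
  have hL : Ar o L := Ar.nrec (h := h) (Ar.ite (h1.comp (by fun_prop)) (by fun_prop) (by fun_prop))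
    fun _ => rfl
  have h2 : ∀ n, (F.sol φ g (up (L n))).Nonempty := fun n => by
    induction n with
    | zero => simpa [L, up] using h0
    | succ n ih =>
      change (F.sol φ g (up (h n (L n)))).Nonempty
      simp only [h]
      split_ifs with h3
      exacts [h3, ih]
  have h3 : ∀ n, L n ⊆ L (n + 1) := fun n => by
    change L n ⊆ h n (L n)
    simp only [h]
    split_ifs <;> simp
  refine ⟨fun j => ∃ n, j ∈ L n, fun i => N i ∨ ∃ j, (∃ n, j ∈ L n) ∧ B j i, by fun_prop,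
    fun _ => Iff.rfl, ?_, fun j ⟨κ, h4, h5⟩ => ⟨Encodable.encode j + 1, ?_⟩⟩
  · obtain ⟨κ, h4, h5⟩ := exists_mem_cc (F := F) (cube_compact ι) (cube_convex ι)
      (fun n a _ => hφ a n) (D := fun M => {y | ∀ i, up (L M) i → g i y ≤ 0})
      (fun M => by
        simp only [ofPred_forall]
        exact isClosed_iInter fun l => isClosed_iInter fun _ => isClosed_le (hg _) continuous_const)
      (fun M y hy i hi => hy i (hi.imp_right fun ⟨j, a, b⟩ => ⟨j, h3 M a, b⟩))
      fun M => (h2 M).imp fun κ hκ => ⟨mem_iInter.1 hκ.1 M, hκ.2⟩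
    refine ⟨κ, h4, fun i hi => ?_⟩
    rcases hi with hi | ⟨j, ⟨n, a⟩, b⟩
    exacts [h5 0 i (Or.inl hi), h5 n i (Or.inr ⟨j, a, b⟩)]
  · change j ∈ h _ (L _)
    simp only [h, en_encode]
    rw [if_pos]
    · simp
    refine ⟨κ, h4.1, fun i hi => ?_⟩
    rcases hi with hi | ⟨j', a, b⟩
    · exact h4.2 i (Or.inl hi)
    rcases List.mem_cons.1 a with rfl | a
    exacts [h5.2 i b, h4.2 i (Or.inr ⟨j', ⟨_, a⟩, b⟩)]

end Res

end Pool.Agent.Lib.MP_f43b6f_lc
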