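import Pool.Agent.Lib.MP_f43b6f_lc.UHull

set_option autoImplicit false

/-!
An arithmetical idempotent mean on a countable shift-invariant family of functions.
-/

namespace Pool.Agent.Lib.MP_f43b6f_lc

open Filter Topology Set

variable {ι : Type}

/-- A rational linear form in finitely many coordinates. -/
noncomputable def lin (f : List (ι × ℕ)) : (ι → ℝ) →L[ℝ] ℝ :=
  (f.map fun p => rv p.2 • ContinuousLinearMap.proj (R := ℝ) (φ := fun _ : ι => ℝ) p.1).sum

theorem lin_cons (p : ι × ℕ) (f : List (ι × ℕ)) (y : ι → ℝ) :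
    lin (p :: f) y = rv p.2 * y p.1 + lin f y := by simp [lin]

theorem lin_apply (f : List (ι × ℕ)) (y : ι → ℝ) :
    lin f y = (f.map fun p => rv p.2 * y p.1).sum := by
  induction f with
  | nil => simp [lin]
  | cons p f ih => simp [lin_cons, ih]

theorem exists_lin_sum (r : ι → ℝ) (J : Finset ι) {e : ℝ} (he : 0 < e) :
    ∃ f : List (ι × ℕ), ∀ y ∈ cube ι, |∑ a ∈ J, r a * y a - lin f y| < e := by
  classical
  induction J using Finset.induction generalizing e with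
  | empty => exact ⟨[], by simpa [lin] using fun _ _ => he⟩
  | insert a J ha ih =>
    obtain ⟨f, hf⟩ := ih (half_pos he)
    obtain ⟨q, h1, h2⟩ := exists_rv (show r a < r a + e / 2 by linarith)
    refine ⟨(a, q) :: f, fun y hy => ?_⟩
    have h3 := abs_lt.1 (hf y hy)
    obtain ⟨h4, h5⟩ := hy a trivial
    rw [Finset.sum_insert ha, lin_cons, abs_lt]
    constructor <;> nlinarith

theorem exists_lin (f : (ι → ℝ) →L[ℝ] ℝ) {e : ℝ} (he : 0 < e) :
    ∃ f' : List (ι × ℕ), ∀ y ∈ cube ι, |f y - lin f' y| < e := by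
  classical
  have h1 : f ⁻¹' Iio 1 ∈ 𝓝 (0 : ι → ℝ) := f.continuous.continuousAt.preimage_mem_nhds
    (Iio_mem_nhds (by simp))
  rw [nhds_pi, Filter.mem_pi'] at h1
  obtain ⟨J, t, h2, h3⟩ := h1
  have h4 : ∀ y : ι → ℝ, (∀ a ∈ J, y a = 0) → f y = 0 := fun y hy => by
    by_contra hc
    have := h3 (a := (f y)⁻¹ • y) fun a ha => by
      simpa [hy a ha] using mem_of_mem_nhds (h2 a)
    simp [hc] at this
  obtain ⟨f', h5⟩ := exists_lin_sum (fun a => f (Pi.single a 1)) J he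
  refine ⟨f', fun y hy => ?_⟩
  have h6 := h4 (y - ∑ a ∈ J, y a • Pi.single a (1 : ℝ)) fun a ha => by
    simp [Finset.sum_apply, Pi.single_apply, ha]
  simp only [map_sub, map_sum, map_smul, smul_eq_mul, sub_eq_zero] at h6
  simpa only [h6, mul_comm] using h5 y hy

/-- Weighted sum. -/
noncomputable def sw (u : ℕ → ℝ) : ℝ := ∑' l, iv l * iv l * u l

theorem summable_iv : Summable fun l => iv l * iv l := by
  have := (summable_nat_add_iff 1).2 (Real.summable_one_div_nat_pow.2 one_lt_two)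
  refine this.congr fun l => ?_
  simp [iv, sq]

theorem summable_sw {u : ℕ → ℝ} (h : ∀ l, |u l| ≤ 1) : Summable fun l => iv l * iv l * u l :=
  summable_iv.of_norm_bounded fun l => by
    have := mul_pos (iv_pos l) (iv_pos l)
    rw [Real.norm_eq_abs, abs_mul, abs_of_pos this]
    exact mul_le_of_le_one_right this.le (h l)

theorem sw_lin {u v w z : ℕ → ℝ} (hu : ∀ l, |u l| ≤ 1) (hv : ∀ l, |v l| ≤ 1) (hw : ∀ l, |w l| ≤ 1)
    (a b c : ℝ) (h : ∀ l, z l = a * u l + b * v l + c * w l) :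
    sw z = a * sw u + b * sw v + c * sw w := by
  refine (tsum_congr fun l => ?_).trans ((((summable_sw hu).hasSum.mul_left a).add
    ((summable_sw hv).hasSum.mul_left b)).add ((summable_sw hw).hasSum.mul_left c)).tsum_eq
  rw [h]
  ring

/-- Clamping to the unit interval. -/
def clamp (t : ℝ) : ℝ := max 0 (min 1 t)

theorem clamp_mem (t : ℝ) : clamp t ∈ Icc (0 : ℝ) 1 :=
  ⟨le_max_left _ _, max_le zero_le_one (min_le_left _ _)⟩

theorem clamp_eq {t : ℝ} (h : t ∈ Icc (0 : ℝ) 1) : clamp t = t := by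
  rw [clamp, min_eq_right h.2, max_eq_right h.1]

variable [Primcodable ι] [Inhabited ι]

/-- A weighted inner product on the cube. -/
noncomputable def bil (x y : ι → ℝ) : ℝ := sw fun l => clamp (x (en l)) * clamp (y (en l))

theorem abs_mul_le {s t : ℝ} (hs : s ∈ Icc (0 : ℝ) 1) (ht : t ∈ Icc (0 : ℝ) 1) : |s * t| ≤ 1 := by
  rw [abs_of_nonneg (mul_nonneg hs.1 ht.1)]
  exact mul_le_one₀ hs.2 ht.1 ht.2

theorem continuous_bil {X : Type} [TopologicalSpace X] {x y : X → ι → ℝ} (hx : Continuous x)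
    (hy : Continuous y) : Continuous fun t => bil (x t) (y t) := by
  refine continuous_tsum (fun l => by unfold clamp; fun_prop) summable_iv fun l t => ?_
  have := mul_pos (iv_pos l) (iv_pos l)
  rw [Real.norm_eq_abs, abs_mul, abs_of_pos this]
  exact mul_le_of_le_one_right this.le (abs_mul_le (clamp_mem _) (clamp_mem _))

theorem bil_lin {k x y : ι → ℝ} (hx : x ∈ cube ι) (hy : y ∈ cube ι) {a b : ℝ} (ha : 0 ≤ a)
    (hb : 0 ≤ b) (hab : a + b = 1) : bil k (a • x + b • y) = a * bil k x + b * bil k y := by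
  have h := cube_convex ι hx hy ha hb hab
  refine (sw_lin (fun l => abs_mul_le (clamp_mem (k (en l))) (clamp_mem (x (en l))))
    (fun l => abs_mul_le (clamp_mem (k (en l))) (clamp_mem (y (en l)))) (w := fun _ => 0)
    (by simp) a b 0 fun l => ?_).trans (by simp [bil])
  rw [clamp_eq (h _ trivial), clamp_eq (hx _ trivial), clamp_eq (hy _ trivial)]
  simp only [Pi.add_apply, Pi.smul_apply, smul_eq_mul]
  ring

theorem bil_dist {x y : ι → ℝ} (hx : x ∈ cube ι) (hy : y ∈ cube ι) (l : ℕ) :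
    iv l * iv l * (x (en l) - y (en l)) ^ 2 ≤ bil x x + bil y y - 2 * bil x y := by
  have h1 : ∀ l, |(x (en l) - y (en l)) ^ 2| ≤ 1 := fun l => by
    obtain ⟨a, b⟩ := hx (en l) trivial
    obtain ⟨c, d⟩ := hy (en l) trivial
    rw [abs_of_nonneg (sq_nonneg _)]
    nlinarith
  refine ((summable_sw h1).le_tsum l fun j _ => ?_).trans_eq ((sw_lin
    (fun l => abs_mul_le (clamp_mem (x (en l))) (clamp_mem (x (en l))))
    (fun l => abs_mul_le (clamp_mem (y (en l))) (clamp_mem (y (en l))))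
    (fun l => abs_mul_le (clamp_mem (x (en l))) (clamp_mem (y (en l)))) 1 1 (-2)
    fun l => ?_).trans (by simp only [bil]; ring))
  · have := iv_pos j
    positivity
  · rw [clamp_eq (hx _ trivial), clamp_eq (hy _ trivial)]
    ring

theorem bil_comm (x y : ι → ℝ) : bil x y = bil y x := by simp only [bil, mul_comm]

theorem bil_mid {x y : ι → ℝ} (hx : x ∈ cube ι) (hy : y ∈ cube ι) {k : ι → ℝ}
    (hk : k = (1 / 2 : ℝ) • x + (1 / 2 : ℝ) • y) (h1 : bil x x ≤ bil k k) (h2 : bil y y ≤ bil k k) :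
    x = y := by
  have h3 : ∀ z, bil z k = 1 / 2 * bil z x + 1 / 2 * bil z y := fun z =>
    hk ▸ bil_lin hx hy (by norm_num) (by norm_num) (by norm_num)
  have h4 := h3 k
  rw [bil_comm k x, bil_comm k y, h3 x, h3 y, bil_comm y x] at h4
  funext a
  have h5 := bil_dist hx hy (Encodable.encode a)
  have h6 := mul_pos (iv_pos (Encodable.encode a)) (iv_pos (Encodable.encode a))
  rw [en_encode] at h5
  have h7 : (x a - y a) ^ 2 ≤ 0 := by nlinarith
  nlinarith

theorem Ar.bil {o : Orc} {α : Type} [Primcodable α] {x : α → ι → ℝ}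
    (hx : Ar o fun p : α × ι => x p.1 p.2) : Ar o fun a => bil (x a) (x a) := by
  refine Ar.lim (x := fun a n => ((List.range n).map fun l =>
    MP_f43b6f_lc.iv l * MP_f43b6f_lc.iv l *
      (clamp (x a (MP_f43b6f_lc.en l)) * clamp (x a (MP_f43b6f_lc.en l)))).sum)
    (by unfold clamp; fun_prop) fun a => ?_
  have := (summable_sw fun l => abs_mul_le (clamp_mem (x a (MP_f43b6f_lc.en l)))
    (clamp_mem (x a (MP_f43b6f_lc.en l)))).hasSum.tendsto_sum_nat
  refine this.congr fun n => ?_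
  induction n with
  | zero => simp
  | succ n ih => rw [Finset.sum_range_succ, List.range_succ, List.map_append, List.sum_append, ih]
                 simp

/-- The shift on the cube. -/
def shift (sh : ι → ℕ → ι) (n : ℕ) : (ι → ℝ) →L[ℝ] ι → ℝ :=
  ContinuousLinearMap.pi fun a => ContinuousLinearMap.proj (sh a n)

/-- The basic conditions. -/
noncomputable def cond' : (List (ι × ℕ) × ℕ) ⊕ ℕ → (ι → ℝ) → ℝ := fun i y =>
  Sum.elim (fun p => lin p.1 y - rv p.2) (fun q => rv q - bil y y) i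

theorem rv_one : rv (Nat.pair 1 (Nat.pair 0 0)) = 1 := by simp [rv_pair]

theorem exists_max {o : Orc} {F : Res} (hF : Ar o fun p : ℕ × ℕ => F.mem p.1 p.2)
    {φ : ι → ℕ → ℝ} (hφ : ∀ a n, φ a n ∈ Icc (0 : ℝ) 1) (hφ' : Ar o fun p : ι × ℕ => φ p.1 p.2)
    {sh : ι → ℕ → ι} (hsh' : Ar o fun p : ι × ℕ => sh p.1 p.2)
    (h1 : ∀ a b n, φ (sh a b) n = φ a (b + n)) (h2 : ∀ a b n, sh (sh a b) n = sh a (b + n))
    {ι₀ : Type} [Primcodable ι₀] {e : ι₀ → ι} (he : Ar o e) {sh₀ : ι₀ → ℕ → ι₀}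
    (h3 : ∀ a b, sh (e a) b = e (sh₀ a b)) {lam : ι₀ → ℝ} (hl : Ar o lam)
    (ha : ∀ a, Tendsto (fun b => lam (sh₀ a b)) F.fil (𝓝 (lam a)))
    (hb : lam ∈ F.hull fun n a => φ (e a) n) :
    ∃ (κ : ι → ℝ) (A : Set (ι → ℝ)), Ar o κ ∧ (∀ a, κ (e a) = lam a) ∧ κ ∈ A ∧ Convex ℝ A ∧
      A ⊆ F.hull (fun n a => φ a n) ∧ (∀ k ∈ A, F.hull (fun n => shift sh n k) = A) ∧
      ∀ k ∈ A, bil k k ≤ bil κ κ := by
  have hg : ∀ i, Continuous (cond' (ι := ι) i) := by
    rintro (p | q)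
    · exact (lin p.1).continuous.sub continuous_const
    · exact continuous_const.sub (continuous_bil continuous_id continuous_id)
  have hg' : Ar o fun p : ((List (ι × ℕ) × ℕ) ⊕ ℕ) × List ℕ =>
      cond' p.1 fun a => avg p.2 (φ a) := by
    refine Ar.elim (by fun_prop) ?_ (Ar.sub_real (by fun_prop) (Ar.bil (by fun_prop)))
    simp only [lin_apply]
    fun_prop
  have hQ : ∀ n, (fun a => φ a n) ∈ cube ι := fun n a _ => hφ a n
  have hc : F.hull (fun n a => φ a n) ⊆ cube ι :=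
    Res.hull_sub 0 (cube_compact ι).isClosed (cube_convex ι) fun n _ => hQ n
  have horb : ∀ k ∈ F.hull (fun n a => φ a n),
      F.hull (fun n => shift sh n k) ⊆ F.hull fun n a => φ a n := fun k hk =>
    Res.hull_trans fun n => by
      convert Res.hull_map (shift sh n) hk using 2
      funext t a
      exact (h1 a n t).symm
  let N₀ : (List (ι × ℕ) × ℕ) ⊕ ℕ → Prop := fun i => ∃ p : ι₀ × ℕ × ℕ,
    i = .inl ([(e p.1, p.2.1)], p.2.2) ∧ rv p.2.1 * lam p.1 ≤ rv p.2.2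
  have e0 : ∀ k : ι → ℝ, (∀ i, N₀ i → cond' i k ≤ 0) ↔ ∀ a, k (e a) = lam a := fun k => by
    refine ⟨fun h a => ?_, ?_⟩
    · have h4 : ∀ q, rv q * k (e a) ≤ rv q * lam a := fun q => le_of_forall_gt fun c hc => by
        obtain ⟨r, a1, a2⟩ := exists_rv hc
        have := h _ ⟨(a, q, r), rfl, a1.le⟩
        simp only [cond', Sum.elim_inl, lin_apply] at this
        simp at this
        linarith
      have a1 := h4 (Nat.pair 1 (Nat.pair 0 0))
      have a2 := h4 (Nat.pair 0 (Nat.pair 1 0))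
      simp only [rv_pair] at a1 a2
      norm_num at a1 a2
      linarith
    · rintro h _ ⟨p, rfl, hp⟩
      simpa [cond', lin_apply, h] using hp
  let B : List (ι × ℕ) × ℕ × ℕ → (List (ι × ℕ) × ℕ) ⊕ ℕ → Prop := fun j i =>
    i = .inl (j.1, j.2.1) ∨ ∃ s, F.mem j.2.2 s ∧
      i = .inl (j.1.map fun p => (sh p.1 s, p.2), j.2.1)
  have e1 : ∀ (f : List (ι × ℕ)) s (k : ι → ℝ),
      lin (f.map fun p => (sh p.1 s, p.2)) k = lin f (shift sh s k) := fun f s k => by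
    simp [lin_apply, shift, Function.comp_def]
  have e2 : ∀ j (k : ι → ℝ), (∀ s, F.mem j.2.2 s → lin j.1 (shift sh s k) ≤ rv j.2.1) →
      ∀ k' ∈ F.hull (fun n => shift sh n k), ∀ i, B j i → cond' i k' ≤ 0 := by
    rintro j k h k' hk' _ (rfl | ⟨s, hs, rfl⟩)
    · exact sub_nonpos.2 (Res.hull_le _ _ h hk')
    · obtain ⟨M, hM⟩ := F.sum hs
      refine sub_nonpos.2 ((e1 _ _ _).trans_le (Res.hull_le M ((lin j.1).comp (shift sh s))
        (fun n hn => le_of_eq_of_le ?_ (h _ (hM n hn))) hk'))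
      simp [lin_apply, shift, h2]
  obtain ⟨A₁, N₁, a1, a2, a3, a4⟩ := Res.greedy hφ hg hF hg' (N := N₀) (by fun_prop) (by
    obtain ⟨k, b1, b2⟩ := Res.hull_lift (cube_compact ι) (cube_convex ι) hQ
      (ContinuousLinearMap.pi fun a => ContinuousLinearMap.proj (e a)) hb
    exact ⟨k, b1, (e0 k).2 fun a => congrFun b2 a⟩) (B := B) (by fun_prop)
  have e3 : ∀ k ∈ F.sol φ cond' N₁, F.hull (fun n => shift sh n k) ⊆ F.sol φ cond' N₁ := by
    intro k hk k' hk'
    refine ⟨horb k hk.1 hk', fun i hi => ?_⟩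
    rcases (a2 i).1 hi with hi | ⟨j, b1, b2⟩
    · refine (e0 k').2 (fun a => ?_) i hi
      have b3 := (e0 k).1 fun i hi => hk.2 i ((a2 i).2 (Or.inl hi))
      refine eq_of_forall_dist_le fun r hr => ?_
      obtain ⟨M, hM⟩ := (Res.ev _).1 (Metric.tendsto_nhds.1 (ha a) r hr)
      refine Res.hull_sub (D := (ContinuousLinearMap.proj (R := ℝ) (φ := fun _ : ι => ℝ) (e a)) ⁻¹'
        Metric.closedBall (lam a) r) M (Metric.isClosed_closedBall.preimage (by fun_prop))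
        ((convex_closedBall _ _).linear_preimage _) (fun n hn => ?_) hk'
      simpa [shift, h3, b3] using (hM n hn).le
    · refine e2 j k (fun s hs => ?_) k' hk' i b2
      simpa [cond', e1] using hk.2 _ ((a2 _).2 (Or.inr ⟨j, b1, Or.inr ⟨s, hs, rfl⟩⟩))
  obtain ⟨A₂, N₂, b1, b2, b3, b4⟩ := Res.greedy hφ hg hF hg' a1 a3
    (B := fun (q : ℕ) i => i = .inr q) (by fun_prop)
  obtain ⟨A₃, N₃, c1, c2, ⟨κ, c3⟩, c4⟩ := Res.greedy hφ hg hF hg' b1 b3
    (B := fun (j : List (ι × ℕ) × ℕ) i => i = .inl j) (by fun_prop)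
  have d2 : κ ∈ F.sol φ cond' N₂ := ⟨c3.1, fun i hi => c3.2 i ((c2 i).2 (Or.inl hi))⟩
  have d1 : κ ∈ F.sol φ cond' N₁ := ⟨c3.1, fun i hi => d2.2 i ((b2 i).2 (Or.inl hi))⟩
  refine ⟨κ, F.sol φ cond' N₁, ?_, (e0 κ).1 fun i hi => d1.2 i ((a2 i).2 (Or.inl hi)), d1, ?_,
    fun _ h => h.1, fun k hk => (e3 k hk).antisymm fun k' hk' => mem_iInter.2 fun M => ?_,
    fun k hk => not_lt.1 fun h => ?_⟩
  · refine Ar.of_obs ((Res.ar_sol hφ hg hF hg' (N := fun (p : ι × ℕ) i => N₃ i ∨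
      i = .inl ([(p.1, Nat.pair 1 (Nat.pair 0 0))], p.2)) (by fun_prop)).not.congr
      fun p => ⟨fun h ⟨k, d3, d4⟩ => ?_, fun h => not_le.1 fun h' => h ⟨κ, c3.1, ?_⟩⟩)
    · have := c3.2 _ ((c2 _).2 (Or.inr ⟨_, c4 ([(p.1, Nat.pair 1 (Nat.pair 0 0))], p.2)
        ⟨k, ⟨d3, fun i hi => d4 i (Or.inl hi)⟩, d3, fun i hi => d4 i (Or.inr hi)⟩, rfl⟩))
      simp [cond', lin_apply, rv_one] at this
      exact absurd h (not_lt.2 this)
    · rintro i (hi | rfl)
      · exact c3.2 i hi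
      · simpa [cond', lin_apply, rv_one] using h'
  · intro x hx y hy s t hs ht hst
    refine ⟨Res.hull_convex _ hx.1 hy.1 hs ht hst, fun i hi => ?_⟩
    obtain ⟨p, rfl⟩ : ∃ p, i = .inl p := by
      rcases (a2 i).1 hi with ⟨_, rfl, _⟩ | ⟨_, _, rfl | ⟨_, _, rfl⟩⟩ <;> exact ⟨_, rfl⟩
    exact sub_nonpos.2 (convex_halfSpace_le (lin p.1).toLinearMap.isLinear _
      (sub_nonpos.1 (hx.2 _ hi)) (sub_nonpos.1 (hy.2 _ hi)) hs ht hst)
  · by_contra hn
    obtain ⟨f, u, d3, d4⟩ := geometric_hahn_banach_closed_point (Res.cc_convex _ M)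
      isClosed_closure hn
    obtain ⟨f', d5⟩ := exists_lin f (show 0 < (f k' - u) / 3 by linarith)
    obtain ⟨c, d6, d7⟩ := exists_rv (show u + (f k' - u) / 3 < f k' - (f k' - u) / 3 by linarith)
    have d8 : ∀ n, shift sh n k ∈ cube ι := fun n a _ => hc hk.1 _ trivial
    obtain ⟨k₃, d9, -⟩ := Res.exists_mem_cc (F := F) (cube_compact ι) (cube_convex ι) d8
      (D := fun _ => univ) (fun _ => isClosed_univ) (fun _ => subset_rfl)
      fun M => (F.ne M).elim fun n hn => ⟨_, Res.mem_cc hn, trivial⟩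
    have := hk'.2 _ ((a2 _).2 (Or.inr ⟨(f', c, M), a4 _ ⟨k₃, e3 k hk d9, (e3 k hk d9).1,
      e2 _ k (fun s hs => ?_) k₃ d9⟩, Or.inl rfl⟩))
    · have := sub_nonpos.1 this
      have := abs_lt.1 (d5 k' (hc hk'.1))
      linarith
    · have := d3 _ (Res.mem_cc hs)
      have := abs_lt.1 (d5 _ (d8 s))
      change lin f' _ ≤ rv c
      linarith
  · obtain ⟨q, d3, d4⟩ := exists_rv h
    have := d2.2 _ ((b2 _).2 (Or.inr ⟨q, b4 q ⟨k, ⟨hk.1, fun i hi => ?_⟩, hk.1, ?_⟩, rfl⟩))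
    · exact absurd (sub_nonpos.1 this) (not_le.2 d3)
    · rcases (b2 i).1 hi with hi' | ⟨r, -, rfl⟩
      · exact hk.2 i hi'
      · exact sub_nonpos.2 ((sub_nonpos.1 (d2.2 _ hi)).trans h.le)
    · rintro _ rfl
      exact sub_nonpos.2 d4.le

theorem idem_pair {F : Res} {φ : ι → ℕ → ℝ} (hφ : ∀ a n, φ a n ∈ Icc (0 : ℝ) 1)
    {sh : ι → ℕ → ι} (h1 : ∀ a b n, φ (sh a b) n = φ a (b + n))
    (h2 : ∀ a b n, sh (sh a b) n = sh a (b + n)) {κ : ι → ℝ} {A : Set (ι → ℝ)} (a3 : κ ∈ A)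
    (a4 : Convex ℝ A) (a5 : A ⊆ F.hull (fun n a => φ a n)) (hc : A ⊆ cube ι)
    (a6 : ∀ k ∈ A, F.hull (fun n => shift sh n k) = A) (a7 : ∀ k ∈ A, bil k k ≤ bil κ κ) :
    (κ, κ) ∈ F.hull fun n => (fun a => φ a n, shift sh n κ) := by
  have hQ : ∀ n, (fun a => φ a n) ∈ cube ι := fun n a _ => hφ a n
  have hT : ∀ n, ∀ k ∈ A, shift sh n k ∈ cube ι := fun n k hk a _ => hc hk _ trivial
  have hQ1 := (cube_compact ι).prod (cube_compact ι)
  have hQ2 := (cube_convex ι).prod (cube_convex ι)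
  obtain ⟨p, b1, b2⟩ := Res.hull_lift (x := fun n => (fun a => φ a n, shift sh n κ)) hQ1 hQ2
    (fun n => ⟨hQ n, hT n κ a3⟩) (ContinuousLinearMap.fst ℝ _ _) (a5 a3)
  have b3 : p.2 ∈ A := (a6 κ a3).le (by
    simpa only [ContinuousLinearMap.coe_snd'] using Res.hull_map (ContinuousLinearMap.snd ℝ _ _) b1)
  have b4 : (1 / 2 : ℝ) • κ + (1 / 2 : ℝ) • p.2 ∈ A :=
    a4 a3 b3 (by norm_num) (by norm_num) (by norm_num)
  let L : (ι → ℝ) × (ι → ℝ) →L[ℝ] ι → ℝ := (1 / 2 : ℝ) • ContinuousLinearMap.fst ℝ _ _ +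
    (1 / 2 : ℝ) • ContinuousLinearMap.snd ℝ _ _
  have hL : ∀ q, L q = (1 / 2 : ℝ) • q.1 + (1 / 2 : ℝ) • q.2 := fun _ => rfl
  obtain ⟨q, b5, b6⟩ := Res.hull_lift (F := F) (x := fun n => (shift sh n κ, shift sh n p.2))
    hQ1 hQ2 (fun n => ⟨hT n κ a3, hT n _ b3⟩) L (y := κ) (by
      have := (a6 _ b4).ge a3
      simpa only [hL, map_add, map_smul] using this)
  have b7 : q.1 ∈ A := (a6 κ a3).le (by
    simpa only [ContinuousLinearMap.coe_fst'] using Res.hull_map (ContinuousLinearMap.fst ℝ _ _) b5)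
  have b8 : q.2 ∈ A := (a6 _ b3).le (by
    simpa only [ContinuousLinearMap.coe_snd'] using Res.hull_map (ContinuousLinearMap.snd ℝ _ _) b5)
  rw [hL] at b6
  have b9 := bil_mid (hc b7) (hc b8) b6.symm (a7 _ b7) (a7 _ b8)
  have c1 : q = (κ, κ) := by
    rw [b9, ← add_smul, add_halves, one_smul] at b6
    exact Prod.ext (b9.trans b6) b6
  rw [c1] at b5
  refine Res.hull_trans (fun n => ?_) b5
  have c2 := Res.hull_map ((shift sh n).prodMap (shift sh n)) b1
  have c3 : (shift sh n).prodMap (shift sh n) p = (shift sh n κ, shift sh n p.2) :=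
    Prod.ext (congrArg (shift sh n) b2) rfl
  have c4 : (fun t => (shift sh n).prodMap (shift sh n) (fun a => φ a t, shift sh t κ)) =
      fun t => (fun a => φ a (n + t), shift sh (n + t) κ) := funext fun t =>
    Prod.ext (funext fun a => h1 a n t) (funext fun a => congrArg κ (h2 a n t))
  rwa [c3, c4] at c2

theorem idem_var {F : Res} {φ : ι → ℕ → ℝ} (hφ : ∀ a n, φ a n ∈ Icc (0 : ℝ) 1)
    {sh : ι → ℕ → ι} {κ : ι → ℝ} (hκ : κ ∈ cube ι)
    (c2 : (κ, κ) ∈ F.hull fun n => (fun a => φ a n, shift sh n κ))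
    (a7 : ∀ k ∈ F.hull (fun n => shift sh n κ), bil k k ≤ bil κ κ)
    (M : ℕ) (f : (ι → ℝ) →L[ℝ] ℝ) (c : ℝ) (h : ∀ n, F.stabMem κ sh M n → f (fun a => φ a n) ≤ c) :
    f κ ≤ c := by
  have hQ : ∀ n, (fun a => φ a n) ∈ cube ι := fun n a _ => hφ a n
  have hT : ∀ n, shift sh n κ ∈ cube ι := fun n a _ => hκ _ trivial
  have c3 : ∀ r : ℝ, 0 < r → ∃ M, ∀ n, F.mem M n →
      bil (shift sh n κ) (shift sh n κ) ≤ bil κ κ + r := fun r hr => by
    by_contra hn
    push Not at hn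
    obtain ⟨k, c4, c5⟩ := Res.exists_mem_cc (F := F) (cube_compact ι) (cube_convex ι)
      hT (D := fun _ => {y | bil κ κ + r ≤ bil y y})
      (fun _ => isClosed_le continuous_const (continuous_bil continuous_id continuous_id))
      (fun _ => subset_rfl) fun M => (hn M).elim fun n hn => ⟨_, Res.mem_cc hn.1, hn.2.le⟩
    have := a7 k c4
    have : bil κ κ + r ≤ bil k k := c5 0
    linarith
  obtain ⟨C, hC⟩ := ((cube_compact ι).image f.continuous).bddAbove
  have hM := iv_pos M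
  obtain ⟨B, d1, d2⟩ : ∃ B : ℝ, 0 < B ∧ C ≤ c + B * (iv M * iv M * iv M ^ 2) :=
    ⟨(|C - c| + 1) / (iv M * iv M * iv M ^ 2), by positivity, by
      rw [div_mul_cancel₀ _ (by positivity)]
      have := le_abs_self (C - c)
      linarith⟩
  refine le_of_forall_pos_le_add fun r hr => ?_
  obtain ⟨M', d3⟩ := c3 (r / B) (by positivity)
  have := Res.hull_sub (D := cube ι ×ˢ cube ι ∩
    {y | f y.1 + 2 * B * bil κ y.2 ≤ c + r + 2 * B * bil κ κ}) (max M M')
    (((cube_compact ι).prod (cube_compact ι)).isClosed.inter (isClosed_le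
      ((f.continuous.comp continuous_fst).add
      (continuous_const.mul (continuous_bil continuous_const continuous_snd))) continuous_const))
    (fun x hx y hy s t hs ht hst => ⟨(cube_convex ι).prod (cube_convex ι) hx.1 hy.1 hs ht hst, ?_⟩)
    (fun n hn => ⟨⟨hQ n, hT n⟩, ?_⟩) c2
  · have := this.2
    simp only [mem_ofPred_eq] at this
    linarith
  · have d4 := mul_le_mul_of_nonneg_left hx.2 hs
    have d5 := mul_le_mul_of_nonneg_left hy.2 ht
    simp only [mem_ofPred_eq, Prod.fst_add, Prod.snd_add, Prod.smul_fst, Prod.smul_snd, map_add,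
      map_smul, smul_eq_mul, bil_lin hx.1.2 hy.1.2 hs ht hst]
    obtain rfl : t = 1 - s := by linarith
    linarith
  · have d4 := mul_le_mul_of_nonneg_left (d3 n (F.anti (le_max_right _ _) hn)) d1.le
    have d5 := bil_dist hκ (hT n)
    rw [mul_add, show B * (r / B) = r by field_simp] at d4
    simp only [mem_ofPred_eq]
    by_cases d7 : F.stabMem κ sh M n
    · have := h n d7
      have d8 := mul_le_mul_of_nonneg_left (le_trans (by have := iv_pos 0; positivity) (d5 0)) d1.le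
      linarith
    · obtain ⟨l, d8, d9⟩ : ∃ l, l < M ∧ iv M ≤ |κ (sh (en l) n) - κ (en l)| := by
        by_contra d8
        push Not at d8
        exact d7 ⟨F.anti (le_max_left _ _) hn, d8⟩
      have e1 := hC ⟨_, hQ n, rfl⟩
      have e2 : iv M ^ 2 ≤ (κ (en l) - shift sh n κ (en l)) ^ 2 := by
        rw [← sq_abs (κ (en l) - _), abs_sub_comm]
        exact pow_le_pow_left₀ hM.le d9 2
      have e3 := iv_anti d8.le
      have e4 : iv M * iv M * iv M ^ 2 ≤ iv l * iv l * (κ (en l) - shift sh n κ (en l)) ^ 2 := by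
        have := iv_pos l
        gcongr
      have e5 := mul_le_mul_of_nonneg_left (e4.trans (d5 l)) d1.le
      linarith

theorem idem {o : Orc} {F : Res} (hF : Ar o fun p : ℕ × ℕ => F.mem p.1 p.2)
    {φ : ι → ℕ → ℝ} (hφ : ∀ a n, φ a n ∈ Icc (0 : ℝ) 1) (hφ' : Ar o fun p : ι × ℕ => φ p.1 p.2)
    {sh : ι → ℕ → ι} (hsh' : Ar o fun p : ι × ℕ => sh p.1 p.2)
    (h1 : ∀ a b n, φ (sh a b) n = φ a (b + n)) (h2 : ∀ a b n, sh (sh a b) n = sh a (b + n))
    {ι₀ : Type} [Primcodable ι₀] {e : ι₀ → ι} (he : Ar o e) {sh₀ : ι₀ → ℕ → ι₀}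
    (h3 : ∀ a b, sh (e a) b = e (sh₀ a b)) {lam : ι₀ → ℝ} (hl : Ar o lam)
    (ha : ∀ a, Tendsto (fun b => lam (sh₀ a b)) F.fil (𝓝 (lam a)))
    (hb : lam ∈ F.hull fun n a => φ (e a) n) :
    ∃ κ : ι → ℝ, Ar o κ ∧ (∀ a, κ (e a) = lam a) ∧ ∃ hne,
      κ ∈ (F.stab κ sh h2 hne).hull fun n a => φ a n := by
  obtain ⟨κ, A, a1, a2, a3, a4, a5, a6, a7⟩ := exists_max hF hφ hφ' hsh' h1 h2 he h3 hl ha hb
  have hc : A ⊆ cube ι := a5.trans
    (Res.hull_sub 0 (cube_compact ι).isClosed (cube_convex ι) fun n _ a _ => hφ a n)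
  have c4 := idem_var hφ (hc a3) (idem_pair hφ h1 h2 a3 a4 a5 hc a6 a7)
    fun k hk => a7 k ((a6 κ a3).le hk)
  refine ⟨κ, a1, a2, fun M => ?_, mem_iInter.2 fun M => ?_⟩
  · by_contra hn
    have := c4 M 0 (-1) fun n h => absurd ⟨n, h⟩ hn
    norm_num at this
  · by_contra hn
    obtain ⟨f, u, d3, d4⟩ := geometric_hahn_banach_closed_point (Res.cc_convex _ M)
      isClosed_closure hn
    exact absurd (c4 M f u fun n h => (d3 _ (Res.mem_cc h)).le) (not_le.2 d4)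

theorem exists_lists {o : Orc} {F : Res} (hF : Ar o fun p : ℕ × ℕ => F.mem p.1 p.2)
    {φ : ι → ℕ → ℝ} (hφ' : Ar o fun p : ι × ℕ => φ p.1 p.2) {κ : ι → ℝ} (hκ : Ar o κ)
    (h : κ ∈ F.hull fun n a => φ a n) : ∃ μ : ℕ → List ℕ, Ar o μ ∧ (∀ M, F.lst M (μ M)) ∧
      ∀ a, Tendsto (fun M => avg (μ M) (φ a)) atTop (𝓝 (κ a)) := by
  obtain ⟨μ, h1, h2⟩ := Ar.choose (o := o) (R := fun M μ => F.lst M μ ∧ ∀ l, l < M →
    |avg μ (φ (en l)) - κ (en l)| < iv M)
    ((Res.ar_lst hF).and (Ar.all (Ar.imp (by fun_prop) (by fun_prop)))) fun M => by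
      obtain ⟨μ, h3, h4⟩ := Res.exists_lst h M (U := ⋂ l ∈ Iio M, {y | |y (en l) - κ (en l)| < iv M})
        ((finite_Iio M).isOpen_biInter fun l _ => isOpen_lt (by fun_prop) continuous_const)
        (by simpa using fun l _ => iv_pos M)
      exact ⟨μ, h3, by simpa using h4⟩
  refine ⟨μ, h1, fun M => (h2 M).1, fun a => Metric.tendsto_nhds.2 fun r hr => ?_⟩
  filter_upwards [eventually_gt_atTop (Encodable.encode a), tendsto_iv.eventually (gt_mem_nhds hr)]
    with M h3 h4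
  simpa only [en_encode, Real.dist_eq] using ((h2 M).2 _ h3).trans h4

end Pool.Agent.Lib.MP_f43b6f_lc
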