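import Pool.Agent.Lib.MP_f43b6f_lc.UAr

set_option autoImplicit false

/-!
Arithmetical real numbers.
-/

namespace Pool.Agent.Lib.MP_f43b6f_lc

open Filter Topology

variable {o : Orc} {α β : Type} [Primcodable α] [Primcodable β]

theorem rv_pair (a b c : ℕ) : rv (Nat.pair a (Nat.pair b c)) = ((a : ℝ) - b) / (c + 1) := by
  simp [rv]

theorem exists_rv {x y : ℝ} (h : x < y) : ∃ n, x < rv n ∧ rv n < y := by
  obtain ⟨q, h1, h2⟩ := exists_rat_btwn h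
  have h3 : rv (Nat.pair q.num.toNat (Nat.pair (-q.num).toNat (q.den - 1))) = q := by
    have h4 : ((q.den - 1 : ℕ) : ℝ) + 1 = q.den := by
      rw [Nat.cast_sub q.den_pos]
      simp
    have h5 : ((q.num.toNat : ℝ) - ((-q.num).toNat : ℕ)) = q.num := by
      have := Int.toNat_sub_toNat_neg q.num
      exact_mod_cast this
    rw [rv_pair, h4, h5, Rat.cast_def]
  exact ⟨_, h3 ▸ h1, h3 ▸ h2⟩

theorem denseRange_rv : DenseRange rv :=
  dense_of_exists_between fun _ _ h => (exists_rv h).elim fun n hn => ⟨_, ⟨n, rfl⟩, hn⟩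

@[fun_prop] theorem Ar.lt_real {x y : α → ℝ} (hx : Ar o x) (hy : Ar o y) :
    Ar o fun a => x a < y a := by
  refine (Ar.ex (P := fun a q => ¬ Obs.obs (x a) q ∧ Obs.obs (y a) q)
    (Ar.and (Ar.not (Ar.obs (by fun_prop) (by fun_prop)))
      (Ar.obs (by fun_prop) (by fun_prop)))).congr fun a => ⟨fun h => ?_, ?_⟩
  · obtain ⟨q, h1, h2⟩ := exists_rv h
    exact ⟨q, not_lt.2 h1.le, h2⟩
  · rintro ⟨q, h1, h2⟩
    exact lt_of_le_of_lt (not_lt.1 h1) h2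

@[fun_prop] theorem Ar.le_real {x y : α → ℝ} (hx : Ar o x) (hy : Ar o y) :
    Ar o fun a => x a ≤ y a := (hy.lt_real hx).not.congr fun _ => not_lt.symm

@[fun_prop] theorem Ar.eq_real {x y : α → ℝ} (hx : Ar o x) (hy : Ar o y) :
    Ar o fun a => x a = y a := ((hx.le_real hy).and (hy.le_real hx)).congr fun _ => le_antisymm_iff

@[fun_prop] theorem Ar.ne_real {x y : α → ℝ} (hx : Ar o x) (hy : Ar o y) :
    Ar o fun a => x a ≠ y a := (hx.eq_real hy).not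

@[fun_prop] theorem Ar.rv {g : α → ℕ} (hg : Ar o g) : Ar o fun a => rv (g a) := by
  refine Ar.comp (Ar.of_obs (Ar.congr (P := fun p : ℕ × ℕ =>
    p.2.unpair.1 * (p.1.unpair.2.unpair.2 + 1) + p.1.unpair.2.unpair.1 * (p.2.unpair.2.unpair.2 + 1)
      < p.1.unpair.1 * (p.2.unpair.2.unpair.2 + 1) +
        p.2.unpair.2.unpair.1 * (p.1.unpair.2.unpair.2 + 1)) (by fun_prop) fun p => ?_)) hg
  change MP_f43b6f_lc.rv p.2 < MP_f43b6f_lc.rv p.1 ↔ _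
  unfold MP_f43b6f_lc.rv
  rw [div_lt_div_iff₀ (by positivity) (by positivity), ← Nat.cast_lt (α := ℝ)]
  push_cast
  constructor <;> intro h <;> linarith

theorem Ar.op₂ {f : ℝ → ℝ → ℝ} (hc : Continuous fun p : ℝ × ℝ => f p.1 p.2)
    (hf : Ar o fun p : ℕ × ℕ => f (MP_f43b6f_lc.rv p.1) (MP_f43b6f_lc.rv p.2)) {x y : α → ℝ}
    (hx : Ar o x) (hy : Ar o y) : Ar o fun a => f (x a) (y a) := by
  refine Ar.of_obs ((Ar.ex (P := fun (p : α × ℕ) (q : ℕ × (ℕ × ℕ) × ℕ × ℕ) =>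
    (MP_f43b6f_lc.rv p.2 < MP_f43b6f_lc.rv q.1 ∧ MP_f43b6f_lc.rv q.2.1.1 < x p.1 ∧
      x p.1 < MP_f43b6f_lc.rv q.2.1.2 ∧ MP_f43b6f_lc.rv q.2.2.1 < y p.1 ∧
      y p.1 < MP_f43b6f_lc.rv q.2.2.2) ∧ ∀ b : ℕ × ℕ,
      (MP_f43b6f_lc.rv q.2.1.1 < MP_f43b6f_lc.rv b.1 ∧ MP_f43b6f_lc.rv b.1 < MP_f43b6f_lc.rv q.2.1.2
      ∧ MP_f43b6f_lc.rv q.2.2.1 < MP_f43b6f_lc.rv b.2 ∧
        MP_f43b6f_lc.rv b.2 < MP_f43b6f_lc.rv q.2.2.2) →
      MP_f43b6f_lc.rv q.1 < f (MP_f43b6f_lc.rv b.1) (MP_f43b6f_lc.rv b.2))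
    (Ar.and (by fun_prop) (Ar.all (Ar.imp (by fun_prop) (Ar.lt_real (by fun_prop)
      (hf.comp (h := Prod.snd) (by fun_prop))))))).congr fun p => ⟨fun h => ?_, ?_⟩)
  · obtain ⟨q, h1, h2⟩ := exists_rv h
    obtain ⟨e, he, h3⟩ := Metric.isOpen_iff.1 (isOpen_lt (continuous_const (y := MP_f43b6f_lc.rv q))
      hc) (x p.1, y p.1) h2
    obtain ⟨b1, a1, a2⟩ := exists_rv (show x p.1 - e < x p.1 by linarith)
    obtain ⟨b2, a3, a4⟩ := exists_rv (show x p.1 < x p.1 + e by linarith)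
    obtain ⟨b3, a5, a6⟩ := exists_rv (show y p.1 - e < y p.1 by linarith)
    obtain ⟨b4, a7, a8⟩ := exists_rv (show y p.1 < y p.1 + e by linarith)
    refine ⟨(q, (b1, b2), b3, b4), ⟨h1, a2, a3, a6, a7⟩, fun b ⟨c1, c2, c3, c4⟩ =>
      h3 (a := (MP_f43b6f_lc.rv b.1, MP_f43b6f_lc.rv b.2)) ?_⟩
    rw [Metric.mem_ball, Prod.dist_eq, max_lt_iff, Real.dist_eq, Real.dist_eq, abs_lt, abs_lt]
    dsimp only at *
    refine ⟨⟨?_, ?_⟩, ?_, ?_⟩ <;> linarith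
  · rintro ⟨q, ⟨h1, h2, h3, h4, h5⟩, h6⟩
    refine lt_of_lt_of_le h1 (not_lt.1 fun h7 => ?_)
    obtain ⟨b, c1, c2⟩ := (denseRange_rv.prodMap denseRange_rv).exists_mem_open
      (s := {u : ℝ × ℝ | f u.1 u.2 < MP_f43b6f_lc.rv q.1} ∩
        Set.Ioo (MP_f43b6f_lc.rv q.2.1.1) (MP_f43b6f_lc.rv q.2.1.2) ×ˢ
        Set.Ioo (MP_f43b6f_lc.rv q.2.2.1) (MP_f43b6f_lc.rv q.2.2.2))
      ((isOpen_lt hc continuous_const).inter (isOpen_Ioo.prod isOpen_Ioo))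
      ⟨(x p.1, y p.1), h7, ⟨h2, h3⟩, h4, h5⟩
    exact lt_asymm c1 (h6 b ⟨c2.1.1, c2.1.2, c2.2.1, c2.2.2⟩)

@[fun_prop] theorem Ar.add_real {x y : α → ℝ} (hx : Ar o x) (hy : Ar o y) :
    Ar o fun a => x a + y a := by
  refine Ar.op₂ (f := (· + ·)) (by fun_prop) (Ar.of_eq (Ar.rv (g := fun p : ℕ × ℕ => Nat.pair
    (p.1.unpair.1 * (p.2.unpair.2.unpair.2 + 1) + p.2.unpair.1 * (p.1.unpair.2.unpair.2 + 1))
    (Nat.pair (p.1.unpair.2.unpair.1 * (p.2.unpair.2.unpair.2 + 1) + p.2.unpair.2.unpair.1 *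
      (p.1.unpair.2.unpair.2 + 1)) (p.1.unpair.2.unpair.2 * (p.2.unpair.2.unpair.2 + 1) +
      p.2.unpair.2.unpair.2))) (by fun_prop)) fun p => ?_) hx hy
  rw [rv_pair]
  unfold MP_f43b6f_lc.rv
  push_cast
  rw [div_add_div _ _ (by positivity) (by positivity), div_eq_div_iff (by positivity)
    (by positivity)]
  ring

@[fun_prop] theorem Ar.mul_real {x y : α → ℝ} (hx : Ar o x) (hy : Ar o y) :
    Ar o fun a => x a * y a := by
  refine Ar.op₂ (f := (· * ·)) (by fun_prop) (Ar.of_eq (Ar.rv (g := fun p : ℕ × ℕ => Nat.pair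
    (p.1.unpair.1 * p.2.unpair.1 + p.1.unpair.2.unpair.1 * p.2.unpair.2.unpair.1)
    (Nat.pair (p.1.unpair.1 * p.2.unpair.2.unpair.1 + p.1.unpair.2.unpair.1 * p.2.unpair.1)
      (p.1.unpair.2.unpair.2 * (p.2.unpair.2.unpair.2 + 1) + p.2.unpair.2.unpair.2)))
    (by fun_prop)) fun p => ?_) hx hy
  rw [rv_pair]
  unfold MP_f43b6f_lc.rv
  push_cast
  rw [div_mul_div_comm, div_eq_div_iff (by positivity) (by positivity)]
  ring

@[fun_prop] theorem Ar.neg_real {x : α → ℝ} (hx : Ar o x) : Ar o fun a => - x a := by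
  refine Ar.op₂ (f := fun a _ => - a) (by fun_prop) (Ar.of_eq (Ar.rv (g := fun p : ℕ × ℕ =>
    Nat.pair p.1.unpair.2.unpair.1 (Nat.pair p.1.unpair.1 p.1.unpair.2.unpair.2)) (by fun_prop))
    fun p => ?_) hx hx
  rw [rv_pair]
  unfold MP_f43b6f_lc.rv
  ring

@[fun_prop] theorem Ar.sub_real {x y : α → ℝ} (hx : Ar o x) (hy : Ar o y) :
    Ar o fun a => x a - y a := (hx.add_real hy.neg_real).of_eq fun _ => sub_eq_add_neg _ _

@[fun_prop] theorem Ar.max_real {x y : α → ℝ} (hx : Ar o x) (hy : Ar o y) :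
    Ar o fun a => max (x a) (y a) :=
  (Ar.ite (hx.le_real hy) hy hx).of_eq fun _ => max_def _ _

@[fun_prop] theorem Ar.min_real {x y : α → ℝ} (hx : Ar o x) (hy : Ar o y) :
    Ar o fun a => min (x a) (y a) :=
  (Ar.ite (hx.le_real hy) hx hy).of_eq fun _ => min_def _ _

@[fun_prop] theorem Ar.abs_real {x : α → ℝ} (hx : Ar o x) : Ar o fun a => |x a| :=
  hx.max_real hx.neg_real

@[fun_prop] theorem Ar.cast {g : α → ℕ} (hg : Ar o g) : Ar o fun a => (g a : ℝ) :=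
  (Ar.rv (g := fun a => Nat.pair (g a) (Nat.pair 0 0)) (by fun_prop)).of_eq fun a => by
    simp [rv_pair]

/-- The number `1 / (n + 1)`. -/
noncomputable def iv (n : ℕ) : ℝ := 1 / ((n : ℝ) + 1)

theorem iv_pos (n : ℕ) : 0 < iv n := by unfold iv; positivity

theorem iv_anti {m n : ℕ} (h : m ≤ n) : iv n ≤ iv m := Nat.one_div_le_one_div h

theorem iv_le_one (n : ℕ) : iv n ≤ 1 := (iv_anti n.zero_le).trans (by simp [iv])

theorem tendsto_iv : Tendsto iv atTop (𝓝 0) := tendsto_one_div_add_atTop_nhds_zero_nat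

theorem exists_iv {e : ℝ} (he : 0 < e) : ∃ n, iv n < e := exists_nat_one_div_lt he

@[fun_prop] theorem Ar.iv {g : α → ℕ} (hg : Ar o g) : Ar o fun a => iv (g a) :=
  (Ar.rv (g := fun a => Nat.pair 1 (Nat.pair 0 (g a))) (by fun_prop)).of_eq fun a => by
    simp [rv_pair, MP_f43b6f_lc.iv]

instance cstZero : Cst (0 : ℝ) := ⟨fun _ => (Ar.cast (Ar.const 0)).of_eq (by simp)⟩
instance cstOne : Cst (1 : ℝ) := ⟨fun _ => (Ar.cast (Ar.const 1)).of_eq (by simp)⟩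
instance cstTwo : Cst (2 : ℝ) := ⟨fun _ => (Ar.cast (Ar.const 2)).of_eq (by simp)⟩

theorem Ar.lim {x : α → ℕ → ℝ} {y : α → ℝ} (hx : Ar o fun p : α × ℕ => x p.1 p.2)
    (h : ∀ a, Tendsto (x a) atTop (𝓝 (y a))) : Ar o y := by
  refine Ar.of_obs ((Ar.ex (P := fun (p : α × ℕ) (q : ℕ × ℕ) => MP_f43b6f_lc.rv p.2 <
    MP_f43b6f_lc.rv q.1 ∧ ∀ n, q.2 ≤ n → MP_f43b6f_lc.rv q.1 < x p.1 n)
    (Ar.and (by fun_prop) (Ar.all (Ar.imp (by fun_prop) (by fun_prop))))).congr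
    fun p => ⟨fun h1 => ?_, ?_⟩)
  · obtain ⟨q, h2, h3⟩ := exists_rv h1
    obtain ⟨N, hN⟩ := eventually_atTop.1 ((h p.1).eventually (lt_mem_nhds h3))
    exact ⟨(q, N), h2, hN⟩
  · rintro ⟨q, h1, h2⟩
    exact lt_of_lt_of_le h1 (ge_of_tendsto (h p.1)
      (eventually_atTop.2 ⟨q.2, fun n hn => (h2 n hn).le⟩))

omit [Primcodable β] in
theorem lt_foldr {f : β → ℝ → ℝ} (hm : ∀ b, Monotone (f b)) (hc : ∀ b, Continuous (f b)) (z : ℝ)
    (L : List β) (q : ℕ) : rv q < L.foldr f z ↔ ∃ Q : List ℕ, Q.getD 0 0 = q ∧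
      rv (Q.getD L.length 0) < z ∧ ∀ p : ℕ × β, L[p.1]? = some p.2 →
        rv (Q.getD p.1 0) < f p.2 (rv (Q.getD (p.1 + 1) 0)) := by
  induction L generalizing q with
  | nil => exact ⟨fun h => ⟨[q], rfl, h, by simp⟩, fun ⟨Q, h1, h2, _⟩ => h1 ▸ h2⟩
  | cons b L ih =>
    constructor
    · intro h
      obtain ⟨e, he, h3⟩ := Metric.isOpen_iff.1 (isOpen_lt (continuous_const (y := rv q)) (hc b))
        _ h
      obtain ⟨r, a1, a2⟩ := exists_rv (show L.foldr f z - e < L.foldr f z by linarith)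
      obtain ⟨Q, h4, h5, h6⟩ := (ih r).1 a2
      refine ⟨q :: Q, rfl, h5, ?_⟩
      rintro ⟨_ | i, c⟩ hp
      · obtain rfl : b = c := by simpa using hp
        refine h3 (a := rv (Q.getD 0 0)) ?_
        rw [h4, Metric.mem_ball, Real.dist_eq, abs_lt]
        constructor <;> linarith
      · exact h6 (i, c) hp
    · rintro ⟨Q, h1, h2, h3⟩
      have h4 : ∀ i, Q.tail.getD i 0 = Q.getD (i + 1) 0 := fun i => by cases Q <;> simp
      have h5 := (ih (Q.getD 1 0)).2 ⟨Q.tail, h4 0, h4 _ ▸ h2, fun p hp => by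
        rw [h4, h4]
        exact h3 (p.1 + 1, p.2) hp⟩
      exact lt_of_lt_of_le (h1 ▸ h3 (0, b) rfl) (hm b h5.le)

theorem Ar.foldr {f : α → β → ℝ → ℝ} (hm : ∀ a b, Monotone (f a b))
    (hc : ∀ a b, Continuous (f a b))
    (hf : Ar o fun p : (α × β) × ℕ => f p.1.1 p.1.2 (MP_f43b6f_lc.rv p.2)) {z : α → ℝ}
    (hz : Ar o z) {L : α → List β} (hL : Ar o L) : Ar o fun a => (L a).foldr (f a) (z a) := by
  refine Ar.of_obs (Ar.congr ?_ fun p => lt_foldr (hm p.1) (hc p.1) _ _ _)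
  refine Ar.ex (Ar.and (by fun_prop) (Ar.and (by fun_prop) (Ar.all (Ar.imp (by fun_prop)
    (Ar.lt_real (by fun_prop) ?_)))))
  exact hf.comp (h := fun p : ((α × ℕ) × List ℕ) × ℕ × β =>
    ((p.1.1.1, p.2.2), p.1.2.getD (p.2.1 + 1) 0)) (by fun_prop)

@[fun_prop] theorem Ar.sum {x : α → β → ℝ} (hx : Ar o fun p : α × β => x p.1 p.2)
    {L : α → List β} (hL : Ar o L) : Ar o fun a => ((L a).map (x a)).sum := by
  refine (Ar.foldr (f := fun a b z => x a b + z) (z := fun _ => 0)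
    (fun a b _ _ h => by simpa using h) (fun a b => by fun_prop) (by fun_prop) (by fun_prop)
    hL).of_eq fun a => ?_
  rw [List.sum_eq_foldr, List.foldr_map]

theorem Ar.prod {x : α → β → ℝ} (hx : Ar o fun p : α × β => x p.1 p.2) (h0 : ∀ a b, 0 ≤ x a b)
    {L : α → List β} (hL : Ar o L) : Ar o fun a => ((L a).map (x a)).prod := by
  refine (Ar.foldr (f := fun a b z => x a b * z) (z := fun _ => 1)
    (fun a b _ _ h => mul_le_mul_of_nonneg_left h (h0 a b)) (fun a b => by fun_prop) (by fun_prop)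
    (by fun_prop) hL).of_eq fun a => ?_
  rw [List.prod_eq_foldr, List.foldr_map]

@[fun_prop] theorem Ar.div_nat {x : α → ℝ} {g : α → ℕ} (hx : Ar o x) (hg : Ar o g) :
    Ar o fun a => x a / (g a : ℝ) := by
  refine (Ar.ite (P := fun a => g a = 0) (g := fun _ => (0 : ℝ))
    (h := fun a => x a * MP_f43b6f_lc.iv (g a - 1)) (by fun_prop) (by fun_prop)
    (by fun_prop)).of_eq fun a => ?_
  rcases g a with _ | n <;> simp [MP_f43b6f_lc.iv, div_eq_mul_inv]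

end Pool.Agent.Lib.MP_f43b6f_lc
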