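import Pool.Agent.Lib.MP_f43b6f_lc.UWin

set_option autoImplicit false

/-!
The step lemma: a stuck condition inside a small window gives a hole inside a given window.
-/

namespace Pool.Agent.Lib.MP_f43b6f_lc

open Filter Topology Set MeasureTheory TopologicalSpace
open scoped InnerProductSpace

namespace Sys

variable {ι : Type} {Y : Sys ι} {r p q s t : BN} {f : C(BN, ℝ)} {u v w x y z : Y.E}

theorem Th_nonneg (hx : 0 ≤ x) (hy : 0 ≤ y) : 0 ≤ Y.Th x y := (Lp.coeFn_nonneg _).1 (by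
  filter_upwards [coe_Th x y, ae_S] with s a b using a ▸ inner_nonneg hx (W_nonneg b hy))

theorem T_nonneg (hy : 0 ≤ y) (hu : 0 ≤ u) : 0 ≤ Y.T y u :=
  nonneg_of_test fun x hx => inner_T x y u ▸ inner_nonneg hu (Th_nonneg hx hy)

theorem T_le (hy : 0 ≤ y) (h : y ≤ z) (hz : z ∈ Y.Inv) (u : Y.E) : Y.T y u ≤ ‖u‖ • z := by
  refine sub_nonneg.1 (nonneg_of_test fun x hx => ?_)
  rw [inner_sub_right, inner_T, real_inner_smul_right, sub_nonneg]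
  refine (real_inner_le_norm _ _).trans (mul_le_mul_of_nonneg_left
    (norm_le_of_ae (inner_nonneg hx (hy.trans h)) ?_) (norm_nonneg _))
  filter_upwards [coe_Th x y, ae_S] with s a b
  have := inner_nonneg hx (sub_nonneg.2 (W_mono b h))
  rw [a, abs_of_nonneg (inner_nonneg hx (W_nonneg b hy))]
  rwa [inner_sub_right, mem_Inv.1 hz s b, sub_nonneg] at this

theorem abs_T_le (hy : 0 ≤ y) (h : y ≤ z) (hz : z ∈ Y.Inv) (u : Y.E) :
    ∀ᵐ t ∂Y.m, |Y.T y u t| ≤ ‖u‖ * z t := by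
  filter_upwards [(Lp.coeFn_le _ _).2 (T_le hy h hz u), (Lp.coeFn_le _ _).2 (T_le hy h hz (-u)),
    Lp.coeFn_smul ‖u‖ z, Lp.coeFn_neg (Y.T y u)] with t a b c d
  rw [map_neg, norm_neg, d, c] at b
  rw [c] at a
  exact abs_le.2 ⟨neg_le.1 b, a⟩

theorem ae_unit (h0 : 0 ≤ z) (h1 : z ≤ Y.L 1) : ∀ᵐ t ∂Y.m, 0 ≤ z t ∧ z t ≤ 1 := by
  filter_upwards [(Lp.coeFn_nonneg _).2 h0, (Lp.coeFn_le _ _).2 h1, coe_L 1] with t a b c
  exact ⟨a, by simpa [c] using b⟩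

theorem exists_mul (hf : ∀ t, f t ∈ Icc (0 : ℝ) 1) (h0 : 0 ≤ z) (h1 : z ≤ Y.L 1) :
    ∃ y : Y.E, 0 ≤ y ∧ y ≤ z ∧ (∀ᵐ t ∂Y.m, y t ≠ 0 → f t ≠ 0) ∧
      ∀ g, ⟪Y.L g, y⟫_ℝ = ⟪Y.L (f * g), z⟫_ℝ := by
  have h : MemLp (fun t => f t * z t) 2 Y.m := MemLp.of_bound
    (f.continuous.aestronglyMeasurable.mul (Lp.aestronglyMeasurable z)) 1
    ((ae_unit h0 h1).mono fun t ht => abs_mul_le (hf t) ht)
  refine ⟨h.toLp, (Lp.coeFn_nonneg _).1 ?_, (Lp.coeFn_le _ _).1 ?_, ?_, fun g => ?_⟩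
  · filter_upwards [h.coeFn_toLp, ae_unit h0 h1] with t a b using a ▸ mul_nonneg (hf t).1 b.1
  · filter_upwards [h.coeFn_toLp, ae_unit h0 h1] with t a b
      using a ▸ mul_le_of_le_one_left b.1 (hf t).2
  · filter_upwards [h.coeFn_toLp] with t a b using left_ne_zero_of_mul (a ▸ b)
  · rw [inner_L, inner_L]
    refine integral_congr_ae ?_
    filter_upwards [h.coeFn_toLp] with t a
    rw [a, ContinuousMap.mul_apply]
    ring

theorem freq_exists {κ : Type} [Countable κ] {Q : κ → BN → Prop} (h : ∃ᵐ t ∂Y.m, ∃ i, Q i t) :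
    ∃ i, ∃ᵐ t ∂Y.m, Q i t := by
  by_contra hn
  simp only [not_exists, not_frequently] at hn
  exact h ((ae_all_iff.2 hn).mono fun t ht => not_exists.2 ht)

theorem dagger {a v : ι} {N : ℕ} (hy : 0 ≤ y)
    (h : ∀ b, N ≤ b → Y.mon v (pure b) ≠ 0 → ⟪Y.L (tau b (Y.mon a)), y⟫_ℝ ≤ 0) (c : ℕ) :
    ∀ᵐ t ∂Y.m, 0 < Y.T y (Y.L (tau c (Y.mon v))) t → tau c (Y.mon a) t = 0 := by
  have h1 : ∀ b, 0 ≤ Y.L (tau c (Y.mon b)) := fun b => L_nonneg fun t => (Y.mon01 b _).1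
  have h2 : ⟪Y.L (tau c (Y.mon a)), Y.T y (Y.L (tau c (Y.mon v)))⟫_ℝ ≤ 0 := by
    rw [inner_T, Th_L (Y.tau1 _ (Y.mon_mem a) c), inner_LL]
    refine integral_nonpos_of_ae (ae_S.mono fun s hs => le_of_tendsto
      (tendsto_val (tau c (Y.mon v) * Y.th (tau c (Y.mon a)) y) s) ?_)
    filter_upwards [mem_S.1 hs N] with n hn
    rw [ContinuousMap.mul_apply, th_pure, tau_tau, tau_pure]
    by_cases h3 : Y.mon v (pure (c + n)) = 0
    · simp [h3]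
    · exact mul_nonpos_of_nonneg_of_nonpos (Y.mon01 v _).1 (h _ ((Y.F.ge hn).trans le_add_self) h3)
  filter_upwards [ae_mul_zero (h1 a) (T_nonneg hy (h1 v)) h2, coe_L (tau c (Y.mon a))] with t a b c
  exact b ▸ (mul_eq_zero.1 a).resolve_right c.ne'

variable [Primcodable ι] [Inhabited ι]

theorem step (j : ℕ) : ∃ i, ∀ z ∈ Y.Inv, 0 ≤ z → z ≤ Y.L 1 → ∀ (v a : ι) (N : ℕ),
    0 < ⟪Y.L (Y.om i * Y.mon v), z⟫_ℝ → (∀ b, N ≤ b → Y.mon v (pure b) ≠ 0 →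
      ⟪Y.L (Y.om i * Y.mon v * tau b (Y.mon a)), z⟫_ℝ ≤ 0) →
    ∃ᵐ t ∂Y.m, t ∈ Y.S ∧ 0 < z t ∧ 0 < Y.om j t ∧ Y.mon a t = 0 ∧ ∀ᶠ r in (t : Filter ℕ),
      ∃ j', ∃ z' ∈ Y.Inv, 0 ≤ z' ∧ z' ≤ z ∧ 0 < ⟪Y.L 1, z'⟫_ℝ ∧ ∀ b, (b = 0 ∨ 0 < Y.om j' (pure b)) →
        ⟪Y.L (Y.om j' * tau (r + b) (Y.mon a)), z'⟫_ℝ ≤ 0 := by
  obtain ⟨i, hi⟩ := exists_win (Y := Y) j
  refine ⟨i, fun z hz h0 h1 v a N h2 h3 => ?_⟩
  obtain ⟨y, y0, y1, y2, y3⟩ := exists_mul (f := Y.om i * Y.mon v) (fun t =>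
    ⟨mul_nonneg (om_nonneg i t) (Y.mon01 v t).1,
      mul_le_one₀ (om_le_one i t) (Y.mon01 v t).1 (Y.mon01 v t).2⟩) h0 h1
  have a1 := dagger y0 fun b c d => (y3 _).trans_le (h3 b c d)
  have a0 : ∀ g, tau 0 g = g := fun g => ext_pure fun n => by simp
  have a2 : 0 < ⟪Y.L (Y.om j), Y.T y (Y.L (Y.mon v))⟫_ℝ := by
    rw [inner_T, Th_L (om_mem j)]
    refine not_le.1 fun hn => ?_
    obtain ⟨s, b1, b2, b3, b4, b5, hs⟩ := ((freq_of_pos h2).and_eventually ((ae_mul_zero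
      (L_nonneg fun t => (Y.mon01 v t).1) (Th_L (om_mem j) y ▸ Th_nonneg
      (L_nonneg (om_nonneg j)) y0) hn).and ((coe_L (Y.mon v)).and ((coe_L (Y.th (Y.om j) y)).and
      ((coe_L (Y.om i * Y.mon v)).and ae_S))))).exists
    rw [b5, ContinuousMap.mul_apply] at b1
    have b6 := left_ne_zero_of_mul b1.ne'
    have b7 : (iv j / 2) ^ j * ⟪Y.L 1, y⟫_ℝ ≤ Y.th (Y.om j) y s := by
      refine ge_of_tendsto (tendsto_val _ s) ?_
      filter_upwards [(tendsto_val (Y.om i) s).eventually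
        (lt_mem_nhds ((om_nonneg i s).lt_of_ne' (left_ne_zero_of_mul b6)))] with b hb
      rw [th_pure]
      refine inner_lower y0 ?_
      filter_upwards [y2, ae_S] with t c d e
      exact hi b hb t d ((om_nonneg i t).lt_of_ne' (left_ne_zero_of_mul (c e)))
    rw [y3, mul_one] at b7
    rw [b3, b4] at b2
    have := mul_pos (pow_pos (half_pos (iv_pos j)) j) h2
    linarith [(mul_eq_zero.1 b2).resolve_left (right_ne_zero_of_mul b6)]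
  have a3 : ∀ u, ∀ᵐ t ∂Y.m, |Y.T y u t| ≤ ‖u‖ := fun u => by
    filter_upwards [abs_T_le y0 y1 hz u, ae_unit h0 h1] with t b c
      using b.trans (mul_le_of_le_one_right (norm_nonneg _) c.2)
  obtain ⟨K, k1, k2, k3⟩ := exists_kernel a3
  have k4 := (kernel_covar k1 (Eventually.of_forall k2) k3
    fun r hr u hu => T_covar hr (H_le_HH hu) y).2
  obtain ⟨d, d1, d2⟩ := exists_dseq (s := (Y.H0 : Set Y.E)) (sep_H.mono fun _ h => h.1)
    ⟨0, zero_mem _⟩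
  obtain ⟨⟨n, k⟩, a4⟩ := freq_exists (Y := Y) (Q := fun (p : ℕ × ℕ) t => 0 < Y.om j t ∧
      4 * iv p.1 < ⟪Y.L (Y.mon v), K t⟫_ℝ ∧ ‖K t - Y.R t (d p.2)‖ < iv p.1) (by
    refine ((freq_of_pos a2).and_eventually (k4.and (ae_S.and ((k3 _ (mon_H v)).and
      (coe_L (Y.om j)))))).mono fun t ⟨b1, b2, b3, b4, b5⟩ => ?_
    rw [b4, b5] at b1
    have b6 := (om_nonneg j t).lt_of_ne' (left_ne_zero_of_mul b1.ne')
    obtain ⟨n, hn⟩ := exists_iv (div_pos (pos_of_mul_pos_right b1 b6.le) four_pos)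
    obtain ⟨r, hr, b7⟩ := exists_inv b3
    obtain ⟨k, hk⟩ := d2 _ (R_H0 hr b2) _ (iv_pos n)
    refine ⟨(n, k), b6, by linarith, ?_⟩
    rw [← (b7 _ b2).2, ← map_sub]
    exact (norm_R b3 _).trans_lt hk)
  obtain ⟨Z, z1, z2⟩ := (kernel_covar (K := fun t => K t - Y.R t (d k))
    (y := fun u => Y.T y u - Y.Th u (d k)) (fun t => sub_mem (k1 t) (R_mem _ _))
    (ae_S.mono fun t ht => (norm_sub_le _ _).trans (add_le_add (k2 t) (norm_R ht _)))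
    (fun u hu => by
      filter_upwards [Lp.coeFn_sub (Y.T y u) (Y.Th u (d k)), k3 u hu, coe_Th_R hu (d k)]
        with t b c e
      rw [b, Pi.sub_apply, c, e, inner_sub_right])
    fun r hr u hu => by rw [map_sub, ← T_covar hr (H_le_HH hu), ← Th_covar hr hu (d1 k).1]).1
  have z3 : ∀ᵐ t ∂Y.m, (z ⊓ ((iv n • Y.L 1 - Z) ⊔ 0) : Y.E) t =
      min (z t) (max (iv n - ‖K t - Y.R t (d k)‖) 0) := by
    filter_upwards [Lp.coeFn_inf z ((iv n • Y.L 1 - Z) ⊔ 0), Lp.coeFn_sup (iv n • Y.L 1 - Z) 0,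
      Lp.coeFn_sub (iv n • Y.L 1) Z, Lp.coeFn_smul (iv n) (Y.L 1), coe_L 1, z2,
      Lp.coeFn_zero ℝ 2 Y.m] with t b c e f g h l
    rw [b, Pi.inf_apply, c, Pi.sup_apply, e, Pi.sub_apply, f, Pi.smul_apply, g, h, l]
    simp
  have z4 := inf_inv hz (sup_inv (sub_mem (Y.Inv.smul_mem (iv n) one_inv) z1) (zero_mem _))
  have z5 : 0 ≤ z ⊓ ((iv n • Y.L 1 - Z) ⊔ 0) := le_inf h0 le_sup_right
  have z6 : z ⊓ ((iv n • Y.L 1 - Z) ⊔ 0) ≤ z := inf_le_left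
  generalize z ⊓ ((iv n • Y.L 1 - Z) ⊔ 0) = z' at z3 z4 z5 z6
  have hn := iv_pos n
  have hm : ∀ b, ‖Y.L (Y.mon b)‖ ≤ 1 := fun b => (norm_L _).trans (norm_mon b)
  have a5 := (a4.and_eventually ((abs_T_le y0 y1 hz (Y.L (Y.mon v))).and (k3 _ (mon_H v)))).mono
    (q := fun t => (0 < Y.om j t ∧ 4 * iv n < ⟪Y.L (Y.mon v), K t⟫_ℝ ∧
      ‖K t - Y.R t (d k)‖ < iv n) ∧ 0 < z t) fun t ⟨b1, b2, b3⟩ => ⟨b1, pos_of_mul_pos_right
      (a := ‖Y.L (Y.mon v)‖) (by linarith [b1.2.1, le_abs_self (Y.T y (Y.L (Y.mon v)) t)])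
      (norm_nonneg _)⟩
  have z7 : 0 < ⟪Y.L 1, z'⟫_ℝ := not_le.1 fun h => by
    obtain ⟨t, b1, b2, b3, b4⟩ := (a5.and_eventually ((ae_mul_zero (L_nonneg zero_le_one) z5 h).and
      (z3.and (coe_L 1)))).exists
    rw [b3, b4, ContinuousMap.one_apply, one_mul] at b2
    exact (lt_min b1.2 (lt_max_of_lt_left (sub_pos.2 b1.1.2.2))).ne' b2
  refine (a5.and_eventually (ae_S.and ((a1 0).and (k3 _ (mon_H v))))).mono
    fun t ⟨⟨⟨b1, b2, b3⟩, b4⟩, b5, b6, b7⟩ => ⟨b5, b4, b1, ?_, ?_⟩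
  · rw [a0, a0, b7] at b6
    exact b6 (by linarith)
  have b8 := (real_inner_le_norm (Y.L (Y.mon v)) (K t - Y.R t (d k))).trans
    (mul_le_of_le_one_left (norm_nonneg _) (hm v))
  rw [inner_sub_right, inner_R (mon_H v)] at b8
  filter_upwards [(V_spec b5 (Y.mon_mem v) (d k)).eventually (lt_mem_nhds
    (show 3 * iv n < _ by linarith))] with r hr
  obtain ⟨j', c1, c2⟩ := ((win_th (Y.sh v r) (d1 k) hn).and (win_R (d1 k) hn)).exists
  refine ⟨j', z', z4, z5, z6, z7, fun b hb => ?_⟩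
  have c3 : 2 * iv n < ⟪Y.L (tau (r + b) (Y.mon v)), d k⟫_ℝ := by
    rcases hb with rfl | hb
    · rw [add_zero]
      linarith
    · have := abs_lt.1 (c1 _ hb)
      rw [th_pure, ← Y.mon_sh, tau_tau] at this
      linarith [this.1]
  rw [inner_L]
  refine integral_nonpos_of_ae ?_
  filter_upwards [a1 (r + b), k3 _ (Y.mon_sh v (r + b) ▸ mon_H _), z3, ae_S] with s e1 e2 e3 e4
  refine not_lt.1 fun e5 => ?_
  have e6 := left_ne_zero_of_mul e5.ne'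
  have e7 := right_ne_zero_of_mul e5.ne'
  refine right_ne_zero_of_mul e6 (e1 ?_)
  have e8 : ‖K s - Y.R s (d k)‖ < iv n := by
    by_contra e8
    rw [e3, max_eq_right (sub_nonpos.2 (not_lt.1 e8))] at e5 e7
    exact absurd e5 (not_lt.2 (mul_nonpos_of_nonneg_of_nonpos
      (mul_nonneg (om_nonneg j' s) (Y.mon01 a _).1) (min_le_right _ _)))
  have e9 := c2 s e4 ((om_nonneg j' s).lt_of_ne' (left_ne_zero_of_mul e6))
  have f1 := (real_inner_le_norm (Y.L (tau (r + b) (Y.mon v))) (d k - K s)).trans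
    (mul_le_of_le_one_left (norm_nonneg _) (Y.mon_sh v (r + b) ▸ hm _))
  have f2 := norm_sub_le_norm_sub_add_norm_sub (d k) (Y.R s (d k)) (K s)
  rw [norm_sub_rev] at e8 e9
  rw [inner_sub_right] at f1
  linarith

end Sys

end Pool.Agent.Lib.MP_f43b6f_lc
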