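import Pool.Agent.Lib.MP_f43b6f_lc.UIdem

set_option autoImplicit false

/-!
The measure system on the space of ultrafilters and its Markov operators.
-/

namespace Pool.Agent.Lib.MP_f43b6f_lc

open Filter Topology Set MeasureTheory
open scoped InnerProductSpace

/-- Ultrafilters on the natural numbers. -/
abbrev BN := Ultrafilter ℕ

instance msBN : MeasurableSpace BN := borel _
instance borelBN : BorelSpace BN := ⟨rfl⟩

attribute [local instance] Ultrafilter.add Ultrafilter.addSemigroup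

theorem tendsto_val (f : C(BN, ℝ)) (p : BN) : Tendsto (fun n => f (pure n)) p (𝓝 (f p)) :=
  (f.continuous.tendsto p).comp p.tendsto_pure_self

theorem ext_pure {f g : C(BN, ℝ)} (h : ∀ n, f (pure n) = g (pure n)) : f = g :=
  ContinuousMap.ext (congrFun (denseRange_pure.equalizer f.continuous g.continuous (funext h)))

theorem exists_ext (f : ℕ → ℝ) (C : ℝ) (h : ∀ n, |f n| ≤ C) :
    ∃ g : C(BN, ℝ), ∀ n, g (pure n) = f n :=
  ⟨⟨Subtype.val ∘ Ultrafilter.extend fun n => (⟨f n, abs_le.1 (h n)⟩ : Icc (-C) C),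
    continuous_subtype_val.comp (continuous_ultrafilter_extend _)⟩, fun n => by simp⟩

theorem norm_le_pure {f : C(BN, ℝ)} {C : ℝ} (h : ∀ n, |f (pure n)| ≤ C) : ‖f‖ ≤ C :=
  (f.norm_le ((abs_nonneg _).trans (h 0))).2 fun p =>
    le_of_tendsto' (tendsto_val f p).abs h

/-- Translation of continuous functions. -/
noncomputable def tau (b : ℕ) : C(BN, ℝ) →ₐ[ℝ] C(BN, ℝ) :=
  ContinuousMap.compRightAlgHom ℝ ℝ
    ⟨Ultrafilter.extend fun n => pure (b + n), continuous_ultrafilter_extend _⟩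

@[simp] theorem tau_pure (b n : ℕ) (f : C(BN, ℝ)) : tau b f (pure n) = f (pure (b + n)) := by
  simp [tau]

theorem tau_tau (a b : ℕ) (f : C(BN, ℝ)) : tau b (tau a f) = tau (a + b) f :=
  ext_pure fun n => by simp [add_assoc]

theorem norm_tau (b : ℕ) (f : C(BN, ℝ)) : ‖tau b f‖ ≤ ‖f‖ :=
  norm_le_pure fun n => by simpa using f.norm_coe_le_norm _

theorem exists_wlim {E : Type} [NormedAddCommGroup E] [InnerProductSpace ℝ E] [CompleteSpace E]
    (r : BN) (u : ℕ → E) {C : ℝ} (h : ∀ n, ‖u n‖ ≤ C) :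
    ∃ v, ∀ y, Tendsto (fun n => ⟪u n, y⟫_ℝ) r (𝓝 ⟪v, y⟫_ℝ) := by
  have h0 : ∀ y n, |⟪u n, y⟫_ℝ| ≤ C * ‖y‖ := fun y n =>
    (abs_real_inner_le_norm _ _).trans (by gcongr; exact h n)
  have h1 : ∀ y, ∃ a, Tendsto (fun n => ⟪u n, y⟫_ℝ) r (𝓝 a) := fun y => by
    obtain ⟨g, hg⟩ := exists_ext _ _ (h0 y)
    exact ⟨g r, (tendsto_val g r).congr hg⟩
  choose a ha using h1
  let l : E →ₗ[ℝ] ℝ :=
    { toFun := a
      map_add' := fun y z => tendsto_nhds_unique (ha _)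
        (by simpa only [inner_add_right] using (ha y).add (ha z))
      map_smul' := fun c y => tendsto_nhds_unique (ha _)
        (by simpa only [real_inner_smul_right, RingHom.id_apply, smul_eq_mul] using (ha y).const_mul c) }
  refine ⟨(InnerProductSpace.toDual ℝ E).symm (l.mkContinuous C fun y =>
    le_of_tendsto' (ha y).abs (h0 y)), fun y => ?_⟩
  rw [InnerProductSpace.toDual_symm_apply]
  exact ha y

theorem tendsto_add {p q : BN} {g h : ℕ → ℝ} {a : ℝ}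
    (h1 : ∀ b, Tendsto (fun t => g (b + t)) q (𝓝 (h b))) (h2 : Tendsto h p (𝓝 a)) :
    Tendsto g (p + q : BN) (𝓝 a) := fun U hU => by
  refine (Ultrafilter.eventually_add p q fun n => g n ∈ U).2 ?_
  filter_upwards [h2 (eventually_mem_nhds_iff.2 hU)] with b hb using h1 b hb

/-- The data of the analytic argument. -/
structure Sys (ι : Type) where
  /-- the reservoir -/
  F : Res
  /-- the measure -/
  m : Measure BN
  prob : IsProbabilityMeasure m
  /-- the middle algebra -/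
  C1 : Subalgebra ℝ C(BN, ℝ)
  /-- the top algebra -/
  C2 : Subalgebra ℝ C(BN, ℝ)
  /-- the bottom family -/
  mon : ι → C(BN, ℝ)
  /-- the shift on the bottom family -/
  sh : ι → ℕ → ι
  /-- a total family of the middle algebra -/
  mon1 : ℕ → C(BN, ℝ)
  hS : ∀ᵐ r ∂m, ((r : BN) : Filter ℕ) ≤ F.fil
  cl1 : IsClosed (C1 : Set C(BN, ℝ))
  cl2 : IsClosed (C2 : Set C(BN, ℝ))
  le12 : C1 ≤ C2
  tau1 : ∀ f ∈ C1, ∀ b, tau b f ∈ C1
  inv : ∀ f ∈ C2, Tendsto (fun b => ∫ x, tau b f x ∂m) F.fil (𝓝 (∫ x, f x ∂m))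
  mon_sh : ∀ a b, tau b (mon a) = mon (sh a b)
  sh_sh : ∀ a b n, sh (sh a b) n = sh a (b + n)
  mon_mem : ∀ a, mon a ∈ C1
  mon01 : ∀ a x, mon a x ∈ Icc (0 : ℝ) 1
  mon1_mem : ∀ a, mon1 a ∈ C1
  dense1 : ∀ f ∈ C1, f ∈ (Submodule.span ℝ (range mon1)).topologicalClosure
  th0 : ∀ a b, ∃ h ∈ C1, ∀ n, h (pure n) = ∫ x, tau n (mon a) x * mon b x ∂m
  th1 : ∀ a b, ∃ h ∈ C2, ∀ n, h (pure n) = ∫ x, tau n (mon1 a) x * mon1 b x ∂m

namespace Sys

variable {ι : Type} (Y : Sys ι)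

instance : IsProbabilityMeasure Y.m := Y.prob

/-- The Hilbert space. -/
abbrev E := Lp ℝ 2 Y.m

/-- The class of a continuous function. -/
noncomputable def L : C(BN, ℝ) →L[ℝ] Y.E := ContinuousMap.toLp 2 Y.m ℝ

/-- The far ultrafilters. -/
def S : Set BN := {r | (r : Filter ℕ) ≤ Y.F.fil}

/-- The closure of the middle algebra. -/
noncomputable def HH : Submodule ℝ Y.E := (Y.C1.toSubmodule.map Y.L.toLinearMap).topologicalClosure

/-- The closed span of the bottom family. -/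
noncomputable def H : Submodule ℝ Y.E :=
  (Submodule.span ℝ (range fun a => Y.L (Y.mon a))).topologicalClosure

instance : CompleteSpace Y.HH := (Submodule.isClosed_topologicalClosure _).completeSpace_coe
instance : CompleteSpace Y.H := (Submodule.isClosed_topologicalClosure _).completeSpace_coe

variable {Y}

theorem coe_L (f : C(BN, ℝ)) : Y.L f =ᵐ[Y.m] f := ContinuousMap.coeFn_toLp _ _

theorem inner_eq (x y : Y.E) : ⟪x, y⟫_ℝ = ∫ t, x t * y t ∂Y.m := by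
  simp [L2.inner_def, mul_comm]

theorem inner_L (f : C(BN, ℝ)) (y : Y.E) : ⟪Y.L f, y⟫_ℝ = ∫ t, f t * y t ∂Y.m := by
  rw [inner_eq]
  exact integral_congr_ae (by filter_upwards [coe_L f] with t ht using by rw [ht])

theorem inner_LL (f g : C(BN, ℝ)) : ⟪Y.L f, Y.L g⟫_ℝ = ∫ t, f t * g t ∂Y.m := by
  rw [inner_L]
  exact integral_congr_ae (by filter_upwards [coe_L g] with t ht using by rw [ht])

theorem norm_le_of_ae {y : Y.E} {C : ℝ} (hC : 0 ≤ C) (h : ∀ᵐ t ∂Y.m, |y t| ≤ C) : ‖y‖ ≤ C := by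
  simpa [measureUnivNNReal] using Lp.norm_le_of_ae_bound (f := y) hC h

theorem norm_L (f : C(BN, ℝ)) : ‖Y.L f‖ ≤ ‖f‖ :=
  norm_le_of_ae (norm_nonneg _) (by
    filter_upwards [coe_L f] with t ht using ht ▸ f.norm_coe_le_norm t)

theorem mem_S {r : BN} : r ∈ Y.S ↔ ∀ N, ∀ᶠ b in r, Y.F.mem N b := by
  simp [S, Res.fil, Filter.Eventually]

theorem isClosed_S : IsClosed Y.S := by
  rw [show Y.S = ⋂ N, {r : BN | {b | Y.F.mem N b} ∈ r} from Set.ext fun r =>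
    mem_S.trans (by rw [mem_iInter]; rfl)]
  exact isClosed_iInter fun N => ultrafilter_isClosed_basic _

theorem add_mem_S {p q : BN} (hp : p ∈ Y.S) (hq : q ∈ Y.S) : p + q ∈ Y.S :=
  mem_S.2 fun N => (Ultrafilter.eventually_add p q _).2 <| (mem_S.1 hp N).mono fun _ hb =>
    (Y.F.sum hb).elim fun M hM => (mem_S.1 hq M).mono hM

theorem L_mem {f : C(BN, ℝ)} (h : f ∈ Y.C1) : Y.L f ∈ Y.HH :=
  Submodule.le_topologicalClosure _ ⟨f, h, rfl⟩

theorem HH_ind {D : Set Y.E} (hD : IsClosed D) (h : ∀ f ∈ Y.C1, Y.L f ∈ D) {y : Y.E}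
    (hy : y ∈ Y.HH) : y ∈ D :=
  closure_minimal (by rintro _ ⟨f, hf, rfl⟩; exact h f hf) hD hy

theorem mon_H (a : ι) : Y.L (Y.mon a) ∈ Y.H :=
  Submodule.le_topologicalClosure _ (Submodule.subset_span ⟨a, rfl⟩)

theorem H_le {D : Submodule ℝ Y.E} (hD : IsClosed (D : Set Y.E)) (h : ∀ a, Y.L (Y.mon a) ∈ D) :
    Y.H ≤ D :=
  Submodule.topologicalClosure_minimal _ (Submodule.span_le.2 (range_subset_iff.2 h)) hD

theorem H_le_HH : Y.H ≤ Y.HH :=
  H_le (Submodule.isClosed_topologicalClosure _) fun a => L_mem (Y.mon_mem a)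

theorem exists_tw (r : BN) (f : C(BN, ℝ)) :
    ∃ v : Y.E, ∀ y, Tendsto (fun b => ⟪Y.L (tau b f), y⟫_ℝ) r (𝓝 ⟪v, y⟫_ℝ) :=
  exists_wlim r _ fun b => (norm_L _).trans (norm_tau b f)

variable (Y) in
/-- Weak limits of translates. -/
noncomputable def tw (r : BN) : C(BN, ℝ) →ₗ[ℝ] Y.E where
  toFun f := (exists_tw r f).choose
  map_add' f g := ext_inner_right ℝ fun y => tendsto_nhds_unique ((exists_tw r _).choose_spec y)
    (by simpa only [map_add, inner_add_left] using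
      ((exists_tw r f).choose_spec y).add ((exists_tw r g).choose_spec y))
  map_smul' c f := ext_inner_right ℝ fun y => tendsto_nhds_unique ((exists_tw r _).choose_spec y)
    (by simpa only [map_smul, real_inner_smul_left, RingHom.id_apply] using
      ((exists_tw r f).choose_spec y).const_mul c)

theorem tw_spec (r : BN) (f : C(BN, ℝ)) (y : Y.E) :
    Tendsto (fun b => ⟪Y.L (tau b f), y⟫_ℝ) r (𝓝 ⟪Y.tw r f, y⟫_ℝ) := (exists_tw r f).choose_spec y

theorem norm_tw {r : BN} (hr : r ∈ Y.S) {f : C(BN, ℝ)} (hf : f ∈ Y.C1) :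
    ‖Y.tw r f‖ ≤ ‖Y.L f‖ := by
  have h1 : Tendsto (fun b => ‖Y.L (tau b f)‖) r (𝓝 ‖Y.L f‖) := by
    have := ((Y.inv _ (Y.le12 (mul_mem hf hf))).mono_left hr).sqrt
    simpa only [map_mul, ContinuousMap.mul_apply, ← inner_LL, ← norm_eq_sqrt_real_inner] using this
  have := le_of_tendsto_of_tendsto' (tw_spec r f (Y.tw r f)) (h1.mul_const ‖Y.tw r f‖)
    fun b => real_inner_le_norm _ _
  rw [real_inner_self_eq_norm_mul_norm] at this
  rcases (norm_nonneg (Y.tw r f)).eq_or_lt with h | h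
  · exact h ▸ norm_nonneg _
  · exact le_of_mul_le_mul_right this h

variable (Y) in
/-- The middle algebra inside its closure. -/
noncomputable def emb : Y.C1.toSubmodule →ₗ[ℝ] Y.HH :=
  (Y.L.toLinearMap.domRestrict _).codRestrict _ fun f => L_mem f.2

theorem dense_emb : DenseRange Y.emb := by
  intro y
  rw [closure_subtype]
  refine HH_ind isClosed_closure (fun f hf => subset_closure ?_) y.2
  exact ⟨_, ⟨⟨f, hf⟩, rfl⟩, rfl⟩

variable (Y) in
/-- The operator of translation along `r`. -/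
noncomputable def V (r : BN) : Y.E →L[ℝ] Y.E :=
  (((Y.tw r).domRestrict Y.C1.toSubmodule).extendOfNorm Y.emb).comp
    Y.HH.orthogonalProjectionOnto

variable (Y) in
/-- The adjoint operator. -/
noncomputable def W (r : BN) : Y.E →L[ℝ] Y.E := (Y.V r).adjoint

variable {r p q : BN} {f : C(BN, ℝ)}

theorem V_spec (hr : r ∈ Y.S) (hf : f ∈ Y.C1) (y : Y.E) :
    Tendsto (fun b => ⟪Y.L (tau b f), y⟫_ℝ) r (𝓝 ⟪Y.V r (Y.L f), y⟫_ℝ) := by
  have : Y.V r (Y.L f) = Y.tw r f := by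
    have h := Y.HH.orthogonalProjectionOnto_mem_subspace_eq_self ⟨_, L_mem hf⟩
    simp only [V, ContinuousLinearMap.comp_apply, h]
    exact LinearMap.extendOfNorm_eq dense_emb ⟨1, fun g => (norm_tw hr g.2).trans_eq (one_mul _).symm⟩ ⟨f, hf⟩
  exact this ▸ tw_spec r f y

theorem norm_V (hr : r ∈ Y.S) (y : Y.E) : ‖Y.V r y‖ ≤ ‖y‖ :=
  (LinearMap.norm_extendOfNorm_apply_le dense_emb 1 (fun g => (norm_tw hr g.2).trans_eq (one_mul _).symm)
    _).trans (by simpa using Y.HH.norm_orthogonalProjectionOnto_apply_le y)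

theorem inner_W (r : BN) (x y : Y.E) : ⟪x, Y.W r y⟫_ℝ = ⟪Y.V r x, y⟫_ℝ :=
  ContinuousLinearMap.adjoint_inner_right _ _ _

theorem norm_W (hr : r ∈ Y.S) (y : Y.E) : ‖Y.W r y‖ ≤ ‖y‖ := by
  have := (real_inner_self_eq_norm_mul_norm _).symm.trans (inner_W r (Y.W r y) y)
  have h := (real_inner_le_norm (Y.V r (Y.W r y)) y).trans
    (mul_le_mul_of_nonneg_right (norm_V hr _) (norm_nonneg _))
  rcases (norm_nonneg (Y.W r y)).eq_or_lt with h' | h'
  · exact h' ▸ norm_nonneg _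
  · exact le_of_mul_le_mul_left (this ▸ h) h'

theorem V_proj (r : BN) (y : Y.E) : Y.V r (Y.HH.starProjection y) = Y.V r y := by
  simp [V, Submodule.orthogonalProjectionOnto_starProjection_of_le]

theorem V_ext {X : Type} [NormedAddCommGroup X] [NormedSpace ℝ X] {A B : Y.E →L[ℝ] X}
    (h : ∀ f ∈ Y.C1, A (Y.L f) = B (Y.L f)) {y : Y.E} (hy : y ∈ Y.HH) : A y = B y :=
  HH_ind (isClosed_eq A.continuous B.continuous) h hy

theorem V_mem_of (hr : r ∈ Y.S) (hf : f ∈ Y.C1) {D : Submodule ℝ Y.E} [CompleteSpace D]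
    (h : ∀ b, Y.L (tau b f) ∈ D) : Y.V r (Y.L f) ∈ D := by
  rw [← D.orthogonal_orthogonal]
  refine (Submodule.mem_orthogonal' _ _).2 fun y hy => tendsto_nhds_unique (V_spec hr hf y) ?_
  simpa only [fun b => Submodule.inner_right_of_mem_orthogonal (h b) hy] using tendsto_const_nhds

theorem V_mem (hr : r ∈ Y.S) (y : Y.E) : Y.V r y ∈ Y.HH := by
  rw [← V_proj]
  exact HH_ind (D := Y.V r ⁻¹' Y.HH)
    ((Submodule.isClosed_topologicalClosure _).preimage (Y.V r).continuous)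
    (fun f hf => V_mem_of hr hf fun b => L_mem (Y.tau1 f hf b)) (Y.HH.starProjection_apply_mem y)

theorem V_H (hr : r ∈ Y.S) {y : Y.E} (hy : y ∈ Y.H) : Y.V r y ∈ Y.H :=
  H_le (D := Y.H.comap (Y.V r).toLinearMap)
    ((Submodule.isClosed_topologicalClosure _).preimage (Y.V r).continuous)
    (fun a => V_mem_of hr (Y.mon_mem a) fun b => Y.mon_sh a b ▸ mon_H _) hy

theorem W_mem (r : BN) (y : Y.E) : Y.W r y ∈ Y.HH := by
  rw [← Y.HH.orthogonal_orthogonal]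
  refine (Submodule.mem_orthogonal _ _).2 fun x hx => ?_
  rw [inner_W, ← V_proj, (Submodule.starProjection_apply_eq_zero_iff _).2 hx]
  simp

theorem eq_of_test {x y : Y.E} (hx : x ∈ Y.HH) (hy : y ∈ Y.HH)
    (h : ∀ f ∈ Y.C1, ⟪Y.L f, x⟫_ℝ = ⟪Y.L f, y⟫_ℝ) : x = y := by
  have := HH_ind (D := {z | ⟪z, x⟫_ℝ = ⟪z, y⟫_ℝ}) (isClosed_eq (by fun_prop) (by fun_prop)) h
    (sub_mem hx hy)
  rwa [mem_ofPred_eq, ← sub_eq_zero, ← inner_sub_right, inner_self_eq_zero, sub_eq_zero] at this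

theorem W_add (hp : p ∈ Y.S) (hq : q ∈ Y.S) (y : Y.E) : Y.W (p + q) y = Y.W p (Y.W q y) :=
  eq_of_test (W_mem _ _) (W_mem _ _) fun f hf => by
    rw [inner_W, inner_W p]
    refine tendsto_nhds_unique (V_spec (add_mem_S hp hq) hf y) (tendsto_add (fun b => ?_)
      (V_spec hp hf _))
    simpa only [tau_tau, inner_W] using V_spec hq (Y.tau1 f hf b) y

theorem inner_nonneg {x y : Y.E} (hx : 0 ≤ x) (hy : 0 ≤ y) : 0 ≤ ⟪x, y⟫_ℝ := by
  rw [inner_eq]
  refine integral_nonneg_of_ae ?_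
  filter_upwards [(Lp.coeFn_nonneg _).2 hx, (Lp.coeFn_nonneg _).2 hy] with t using mul_nonneg

theorem L_nonneg (h : 0 ≤ f) : 0 ≤ Y.L f :=
  (Lp.coeFn_nonneg _).1 (by filter_upwards [coe_L f] with t ht using ht ▸ h t)

theorem nonneg_of_negPart {x : Y.E} (h : 0 ≤ ⟪(-x) ⊔ 0, x⟫_ℝ) : 0 ≤ x := by
  have h2 : ⟪(-x) ⊔ 0, x⟫_ℝ = -⟪(-x) ⊔ 0, (-x) ⊔ 0⟫_ℝ := by
    rw [inner_eq, inner_eq, ← integral_neg]
    refine integral_congr_ae ?_
    filter_upwards [Lp.coeFn_sup (-x) 0, Lp.coeFn_neg x, Lp.coeFn_zero ℝ 2 Y.m] with t a b c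
    rw [a, Pi.sup_apply, b, c, Pi.neg_apply, Pi.zero_apply]
    rcases le_total (-x t) 0 with h | h <;> simp [h]
  have h3 : (-x) ⊔ 0 = 0 := inner_self_eq_zero.1
    (le_antisymm (by linarith) real_inner_self_nonneg)
  exact neg_nonpos.1 (sup_eq_right.1 h3)

theorem nonneg_of_test {x : Y.E} (h : ∀ y, 0 ≤ y → 0 ≤ ⟪y, x⟫_ℝ) : 0 ≤ x :=
  nonneg_of_negPart (h _ le_sup_right)

theorem L_sup (f g : C(BN, ℝ)) : Y.L (f ⊔ g) = Y.L f ⊔ Y.L g := by
  refine Lp.ext ?_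
  filter_upwards [coe_L (f ⊔ g), Lp.coeFn_sup (Y.L f) (Y.L g), coe_L f, coe_L g] with t a b c d
  simp [a, b, c, d]

theorem W_nonneg (hr : r ∈ Y.S) {y : Y.E} (hy : 0 ≤ y) : 0 ≤ Y.W r y := by
  refine nonneg_of_negPart (HH_ind (D := {x | 0 ≤ ⟪(-x) ⊔ 0, Y.W r y⟫_ℝ})
    (isClosed_le continuous_const (by fun_prop)) (fun f hf => ?_) (W_mem r y))
  have h : (-f) ⊔ 0 ∈ Y.C1 :=
    ContinuousMap.sup_mem_closed_subalgebra _ Y.cl1 ⟨_, neg_mem hf⟩ ⟨_, zero_mem _⟩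
  rw [mem_ofPred_eq, ← map_neg, ← map_zero Y.L, ← L_sup, inner_W]
  exact ge_of_tendsto' (V_spec hr h y) fun b => inner_nonneg (L_nonneg fun t => le_max_right _ _) hy

theorem W_mono (hr : r ∈ Y.S) {x y : Y.E} (h : x ≤ y) : Y.W r x ≤ Y.W r y :=
  sub_nonneg.1 (map_sub (Y.W r) y x ▸ W_nonneg hr (sub_nonneg.2 h))

theorem inner_one (y : Y.E) : ⟪Y.L 1, y⟫_ℝ = ∫ t, y t ∂Y.m := by simp [inner_L]

theorem one_W (hr : r ∈ Y.S) (y : Y.E) : ⟪Y.L 1, Y.W r y⟫_ℝ = ⟪Y.L 1, y⟫_ℝ := by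
  rw [inner_W]
  exact tendsto_nhds_unique (V_spec hr (one_mem _) y) (by simp)

theorem eq_of_le_of_int {x y : Y.E} (h : x ≤ y) (h' : ⟪Y.L 1, y⟫_ℝ ≤ ⟪Y.L 1, x⟫_ℝ) : x = y := by
  have h1 : ∫ t, (y - x) t ∂Y.m = 0 := by
    rw [← inner_one, inner_sub_right]
    have := inner_nonneg (L_nonneg (Y := Y) zero_le_one) (sub_nonneg.2 h)
    rw [inner_sub_right] at this
    linarith
  rw [integral_eq_zero_iff_of_nonneg_ae ((Lp.coeFn_nonneg _).2 (sub_nonneg.2 h))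
    ((Lp.memLp _).integrable one_le_two)] at h1
  exact (sub_eq_zero.1 (Lp.eq_zero_iff_ae_eq_zero.2 h1)).symm

variable (Y) in
/-- Invariant elements. -/
noncomputable def Inv : Submodule ℝ Y.E := ⨅ r ∈ Y.S, (Y.W r - 1).ker

theorem mem_Inv {z : Y.E} : z ∈ Y.Inv ↔ ∀ r ∈ Y.S, Y.W r z = z := by simp [Inv, sub_eq_zero]

theorem inv_of_le {z : Y.E} (h : ∀ r ∈ Y.S, z ≤ Y.W r z) : z ∈ Y.Inv :=
  mem_Inv.2 fun r hr => (eq_of_le_of_int (h r hr) (one_W hr z).le).symm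

theorem one_inv : Y.L 1 ∈ Y.Inv := mem_Inv.2 fun r hr =>
  eq_of_test (W_mem _ _) (L_mem (one_mem _)) fun f hf => by
    rw [inner_W]
    refine tendsto_nhds_unique (V_spec hr hf _) ?_
    simpa [inner_LL] using (Y.inv f (Y.le12 hf)).mono_left hr

theorem sup_inv {x y : Y.E} (hx : x ∈ Y.Inv) (hy : y ∈ Y.Inv) : x ⊔ y ∈ Y.Inv :=
  inv_of_le fun r hr => sup_le ((mem_Inv.1 hx r hr).ge.trans (W_mono hr le_sup_left))
    ((mem_Inv.1 hy r hr).ge.trans (W_mono hr le_sup_right))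

theorem inf_inv {x y : Y.E} (hx : x ∈ Y.Inv) (hy : y ∈ Y.Inv) : x ⊓ y ∈ Y.Inv := by
  simpa [← neg_inf] using neg_mem (sup_inv (neg_mem hx) (neg_mem hy))

end Sys

end Pool.Agent.Lib.MP_f43b6f_lc
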