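import Pool.Agent.Lib.MP_f43b6f_lc.USys

set_option autoImplicit false

/-!
Correlation functions and their covariance.
-/

namespace Pool.Agent.Lib.MP_f43b6f_lc

open Filter Topology Set MeasureTheory TopologicalSpace
open scoped InnerProductSpace

theorem exists_dseq {E : Type} [NormedAddCommGroup E] {s : Set E} (hs : IsSeparable s)
    (hne : s.Nonempty) : ∃ d : ℕ → E, (∀ i, d i ∈ s) ∧ ∀ x ∈ s, ∀ e > 0, ∃ i, ‖x - d i‖ < e := by
  obtain ⟨t, h1, h2, h3⟩ := hs.exists_countable_dense_subset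
  obtain ⟨d, rfl⟩ := h2.exists_eq_range (closure_nonempty_iff.1 (hne.mono h3))
  refine ⟨d, fun i => h1 ⟨i, rfl⟩, fun x hx e he => ?_⟩
  obtain ⟨_, ⟨i, rfl⟩, h⟩ := Metric.mem_closure_iff.1 (h3 hx) e he
  exact ⟨i, by rwa [dist_eq_norm] at h⟩

theorem exists_norming {E : Type} [NormedAddCommGroup E] [InnerProductSpace ℝ E]
    {D : Submodule ℝ E} (hD : IsSeparable (D : Set E)) : ∃ d : ℕ → E, (∀ i, d i ∈ D ∧ ‖d i‖ ≤ 1) ∧
      (∀ x ∈ D, ∀ a, (∀ i, ⟪d i, x⟫_ℝ ≤ a) → ‖x‖ ≤ a) ∧ ∀ x ∈ D, ‖x‖ = ⨆ i, ⟪d i, x⟫_ℝ := by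
  obtain ⟨d, h1, h2⟩ := exists_dseq (s := {u | u ∈ D ∧ ‖u‖ ≤ 1}) (hD.mono fun _ h => h.1)
    ⟨0, by simp⟩
  have h3 : ∀ x ∈ D, ∀ a, (∀ i, ⟪d i, x⟫_ℝ ≤ a) → ‖x‖ ≤ a := fun x hx a h => by
    rcases eq_or_ne x 0 with rfl | h0
    · simpa using h 0
    have h4 := norm_pos_iff.2 h0
    refine le_of_forall_pos_le_add fun e he => ?_
    obtain ⟨i, hi⟩ := h2 (‖x‖⁻¹ • x) ⟨D.smul_mem _ hx, by simp [norm_smul, h0]⟩ (e / ‖x‖)
      (by positivity)
    have h5 := real_inner_le_norm (‖x‖⁻¹ • x - d i) x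
    rw [inner_sub_left, real_inner_smul_left, real_inner_self_eq_norm_mul_norm,
      inv_mul_cancel_left₀ h4.ne'] at h5
    have := (lt_div_iff₀ h4).1 hi
    linarith [h i]
  have h6 : ∀ i x, ⟪d i, x⟫_ℝ ≤ ‖x‖ := fun i x =>
    (real_inner_le_norm _ _).trans (mul_le_of_le_one_left (norm_nonneg _) (h1 i).2)
  exact ⟨d, h1, h3, fun x hx => le_antisymm (h3 x hx _ fun i => le_ciSup
    (f := fun i => ⟪d i, x⟫_ℝ) ⟨‖x‖, forall_mem_range.2 fun i => h6 i x⟩ i) (ciSup_le (h6 · x))⟩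

namespace Sys

variable {ι : Type} {Y : Sys ι} {r p q s : BN} {f : C(BN, ℝ)}

theorem HH_le {D : Submodule ℝ Y.E} (hD : IsClosed (D : Set Y.E)) (h : ∀ a, Y.L (Y.mon1 a) ∈ D) :
    Y.HH ≤ D := fun _ hy => HH_ind hD (fun f hf => Submodule.topologicalClosure_minimal _
      (t := D.comap Y.L.toLinearMap) (Submodule.span_le.2 (range_subset_iff.2 h))
      (hD.preimage Y.L.continuous) (Y.dense1 f hf)) hy

theorem sep_HH : IsSeparable (Y.HH : Set Y.E) :=
  ((countable_range fun a => Y.L (Y.mon1 a)).isSeparable.span (R := ℝ)).closure.mono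
    (HH_le (Submodule.isClosed_topologicalClosure _) fun a =>
      Submodule.le_topologicalClosure _ (Submodule.subset_span ⟨a, rfl⟩))

theorem sep_H : IsSeparable (Y.H : Set Y.E) := sep_HH.mono H_le_HH

theorem aem_norm {D : Submodule ℝ Y.E} (hD : IsSeparable (D : Set Y.E)) {K : BN → Y.E}
    (h1 : ∀ t, K t ∈ D) (h2 : ∀ u ∈ D, AEMeasurable (fun t => ⟪u, K t⟫_ℝ) Y.m) :
    AEMeasurable (fun t => ‖K t‖) Y.m := by
  obtain ⟨d, a, -, b⟩ := exists_norming hD
  simpa only [b _ (h1 _)] using AEMeasurable.iSup fun i => h2 _ (a i).1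

theorem exists_th (f : C(BN, ℝ)) (y : Y.E) :
    ∃ g : C(BN, ℝ), ∀ n, g (pure n) = ⟪Y.L (tau n f), y⟫_ℝ :=
  exists_ext _ (‖f‖ * ‖y‖) fun n => (abs_real_inner_le_norm _ _).trans (by
    gcongr; exact (norm_L _).trans (norm_tau n f))

variable (Y) in
/-- The extension of a correlation sequence. -/
noncomputable def thf (f : C(BN, ℝ)) (y : Y.E) : C(BN, ℝ) := (exists_th f y).choose

theorem thf_pure (f : C(BN, ℝ)) (y : Y.E) (n : ℕ) : Y.thf f y (pure n) = ⟪Y.L (tau n f), y⟫_ℝ :=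
  (exists_th f y).choose_spec n

variable (Y) in
/-- Correlations as continuous functions. -/
noncomputable def th : C(BN, ℝ) →L[ℝ] Y.E →L[ℝ] C(BN, ℝ) :=
  LinearMap.mkContinuous₂ (LinearMap.mk₂ ℝ Y.thf
    (fun f g y => ext_pure fun n => by simp [thf_pure, inner_add_left])
    (fun c f y => ext_pure fun n => by simp [thf_pure, inner_smul_left])
    (fun f x y => ext_pure fun n => by simp [thf_pure, inner_add_right])
    fun c f y => ext_pure fun n => by simp [thf_pure, inner_smul_right]) 1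
    fun f y => norm_le_pure fun n => by
      rw [LinearMap.mk₂_apply, thf_pure, one_mul]
      refine (abs_real_inner_le_norm _ _).trans ?_
      gcongr
      exact (norm_L _).trans (norm_tau n f)

theorem th_pure (f : C(BN, ℝ)) (y : Y.E) (n : ℕ) : Y.th f y (pure n) = ⟪Y.L (tau n f), y⟫_ℝ :=
  thf_pure f y n

theorem integrable_mul (x y : Y.E) : Integrable (fun t => x t * y t) Y.m := by
  simpa [mul_comm] using L2.integrable_inner (𝕜 := ℝ) x y

theorem ae_S : ∀ᵐ s ∂Y.m, s ∈ Y.S := Y.hS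

theorem tau_th (b : ℕ) (f : C(BN, ℝ)) (y : Y.E) : tau b (Y.th f y) = Y.th (tau b f) y :=
  ext_pure fun n => by simp [th_pure, tau_tau]

theorem th_S (hs : s ∈ Y.S) (hf : f ∈ Y.C1) (y : Y.E) : Y.th f y s = ⟪Y.L f, Y.W s y⟫_ℝ :=
  tendsto_nhds_unique (tendsto_val _ s) (by simpa only [th_pure, inner_W] using V_spec hs hf y)

theorem th_C1 (a : ι) {y : Y.E} (hy : y ∈ Y.H) : Y.th (Y.mon a) y ∈ Y.C1 :=
  H_le (D := Y.C1.toSubmodule.comap (Y.th (Y.mon a)).toLinearMap)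
    (Y.cl1.preimage (Y.th _).continuous) (fun b => (Y.th0 a b).elim fun h hh => by
      rw [show h = Y.th (Y.mon a) (Y.L (Y.mon b)) from
        ext_pure fun n => by rw [hh.2, th_pure, inner_LL]] at hh
      exact hh.1) hy

theorem th_C2 (hf : f ∈ Y.C1) {y : Y.E} (hy : y ∈ Y.HH) : Y.th f y ∈ Y.C2 :=
  Submodule.topologicalClosure_minimal _
    (t := Y.C2.toSubmodule.comap (Y.th.flip y).toLinearMap) (Submodule.span_le.2
      (range_subset_iff.2 fun a => HH_le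
        (D := Y.C2.toSubmodule.comap (Y.th (Y.mon1 a)).toLinearMap)
        (Y.cl2.preimage (Y.th _).continuous) (fun b => (Y.th1 a b).elim fun h hh => by
          rw [show h = Y.th (Y.mon1 a) (Y.L (Y.mon1 b)) from
            ext_pure fun n => by rw [hh.2, th_pure, inner_LL]] at hh
          exact hh.1) hy))
    (Y.cl2.preimage (Y.th.flip y).continuous) (Y.dense1 f hf)

theorem cont_W (u y : Y.E) : ContinuousOn (fun s => ⟪u, Y.W s y⟫_ℝ) Y.S := by
  refine continuousOn_of_uniform_approx_of_continuousOn fun U hU => ?_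
  obtain ⟨e, he, h⟩ := Metric.mem_uniformity_dist.1 hU
  obtain ⟨_, ⟨f, hf, rfl⟩, h1⟩ := Metric.mem_closure_iff.1 (Y.HH.starProjection_apply_mem u)
    (e / (‖y‖ + 1)) (by positivity)
  refine ⟨Y.th f y, (Y.th f y).continuous.continuousOn, fun s hs => h ?_⟩
  rw [th_S hs hf, inner_W, ← V_proj, ← inner_W, Real.dist_eq, ← inner_sub_left]
  rw [dist_eq_norm, lt_div_iff₀ (by positivity)] at h1
  refine (abs_real_inner_le_norm _ _).trans_lt (lt_of_le_of_lt ?_ h1)
  gcongr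
  · exact le_rfl
  · exact (norm_W hs y).trans (by linarith)

theorem aesm_W (u y : Y.E) : AEStronglyMeasurable (fun s => ⟪u, Y.W s y⟫_ℝ) Y.m := by
  have := (cont_W u y).aestronglyMeasurable (μ := Y.m) isClosed_S.measurableSet
  rwa [Measure.restrict_eq_self_of_ae_mem ae_S] at this

theorem bound_W (u y : Y.E) : ∀ᵐ s ∂Y.m, |⟪u, Y.W s y⟫_ℝ| ≤ ‖u‖ * ‖y‖ :=
  ae_S.mono fun s hs => (abs_real_inner_le_norm _ _).trans (by gcongr; exact norm_W hs y)

theorem memLp_W (u y : Y.E) : MemLp (fun s => ⟪u, Y.W s y⟫_ℝ) 2 Y.m :=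
  MemLp.of_bound (aesm_W u y) _ (bound_W u y)

variable (Y) in
/-- Correlations as square integrable functions. -/
noncomputable def Th : Y.E →L[ℝ] Y.E →L[ℝ] Y.E :=
  LinearMap.mkContinuous₂ (LinearMap.mk₂ ℝ (fun u y => (memLp_W u y).toLp _)
    (fun u v y => by simp only [inner_add_left, ← MemLp.toLp_add]; rfl)
    (fun c u y => by simp only [real_inner_smul_left, ← MemLp.toLp_const_smul]; rfl)
    (fun u x y => by simp only [map_add, inner_add_right, ← MemLp.toLp_add]; rfl)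
    fun c u y => by simp only [map_smul, real_inner_smul_right, ← MemLp.toLp_const_smul]; rfl) 1
    fun u y => norm_le_of_ae (by positivity) (by
      filter_upwards [(memLp_W u y).coeFn_toLp, bound_W u y] with t h1 h2
      rw [LinearMap.mk₂_apply, h1, one_mul]
      exact h2)

theorem coe_Th (u y : Y.E) : Y.Th u y =ᵐ[Y.m] fun s => ⟪u, Y.W s y⟫_ℝ := (memLp_W u y).coeFn_toLp

theorem Th_L (hf : f ∈ Y.C1) (y : Y.E) : Y.Th (Y.L f) y = Y.L (Y.th f y) :=
  Lp.ext (by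
    filter_upwards [coe_Th (Y.L f) y, coe_L (Y.th f y), ae_S] with s a b c
    rw [a, b, th_S c hf])

theorem Th_proj (u y : Y.E) :
    Y.Th (Y.HH.starProjection u) (Y.HH.starProjection y) = Y.Th u y :=
  Lp.ext (by
    filter_upwards [coe_Th u y, coe_Th (Y.HH.starProjection u) (Y.HH.starProjection y), ae_S]
      with s a b c
    rw [a, b, inner_W, inner_W, V_proj, ← Submodule.inner_starProjection_left_eq_right,
      Submodule.starProjection_eq_self_iff.2 (V_mem c u)])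

theorem Th_tendsto {l : Filter ℕ} {u : ℕ → Y.E} {C : ℝ} (hC : ∀ b, ‖u b‖ ≤ C)
    (hu : ∀ x, Tendsto (fun b => ⟪u b, x⟫_ℝ) l (𝓝 0)) (y : Y.E) :
    Tendsto (fun b => Y.Th (u b) y) l (𝓝 0) := by
  obtain ⟨d, h1, h2⟩ := exists_dseq (sep_HH (Y := Y)) ⟨0, zero_mem _⟩
  have hC0 := (norm_nonneg _).trans (hC 0)
  have key : ∀ e > 0, ∀ᶠ b in l, ‖Y.Th (u b) y‖ ^ 2 ≤ e ^ 2 * ((1 + C) ^ 2 + (C * ‖y‖) ^ 2) := by
    intro e he
    let A : ℕ → Set BN := fun n => ⋂ i ∈ Iio n, {s | e < ‖Y.W s y - d i‖}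
    have a1 : ∀ n, NullMeasurableSet (A n) Y.m := fun n =>
      .biInter (to_countable _) fun i _ => nullMeasurableSet_lt aemeasurable_const
        (aem_norm sep_HH (fun t => sub_mem (W_mem t y) (h1 i)) fun v _ => by
          simpa only [inner_sub_right] using (aesm_W v y).aemeasurable.sub_const _)
    have a2 := tendsto_measure_iInter_atTop a1 (fun _ _ h => biInter_subset_biInter_left
      (Iio_subset_Iio h)) ⟨0, measure_ne_top _ _⟩
    rw [show ⋂ n, A n = ∅ from eq_empty_of_forall_notMem fun s hs => by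
      obtain ⟨i, hi⟩ := h2 _ (W_mem s y) e he
      exact lt_asymm hi (mem_iInter₂.1 (mem_iInter.1 hs (i + 1)) i i.lt_succ_self),
      measure_empty] at a2
    obtain ⟨n, hn⟩ := (((ENNReal.tendsto_toReal ENNReal.zero_ne_top).comp a2).eventually
      (ge_mem_nhds (show (0 : ENNReal).toReal < e ^ 2 by simpa using by positivity))).exists
    filter_upwards [(eventually_all_finite (finite_Iio n)).2 fun i _ =>
      (hu (d i)).abs.eventually (ge_mem_nhds (show |(0 : ℝ)| < e by simpa))] with b hb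
    rw [← real_inner_self_eq_norm_sq, inner_eq]
    refine (integral_mono_ae (g := fun s => (e * (1 + C)) ^ 2 + (A n).indicator
      (fun _ => (C * ‖y‖) ^ 2) s) (integrable_mul _ _)
      ((integrable_const _).add ((integrable_const _).indicator₀ (a1 n))) ?_).trans ?_
    · filter_upwards [coe_Th (u b) y, bound_W (u b) y] with s a3 a4
      rw [a3, ← sq, ← sq_abs]
      by_cases hs : s ∈ A n
      · have : |⟪u b, Y.W s y⟫_ℝ| ^ 2 ≤ (C * ‖y‖) ^ 2 := by
          gcongr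
          exact a4.trans (by gcongr; exact hC b)
        rw [indicator_of_mem hs]
        nlinarith [sq_nonneg (e * (1 + C))]
      · obtain ⟨i, hi, a5⟩ : ∃ i ∈ Iio n, ‖Y.W s y - d i‖ ≤ e := by simpa [A] using hs
        have a6 := abs_real_inner_le_norm (u b) (Y.W s y - d i)
        have a7 : ‖u b‖ * ‖Y.W s y - d i‖ ≤ C * e := by gcongr; exact hC b
        have a8 := abs_add_le ⟪u b, Y.W s y - d i⟫_ℝ ⟪u b, d i⟫_ℝ
        rw [← inner_add_right, sub_add_cancel] at a8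
        rw [indicator_of_notMem hs, add_zero]
        gcongr
        linarith [hb i hi]
    · rw [integral_add (integrable_const _) ((integrable_const _).indicator₀ (a1 n)),
        integral_indicator₀ (a1 n), setIntegral_const]
      have : Y.m.real (A n) * (C * ‖y‖) ^ 2 ≤ e ^ 2 * (C * ‖y‖) ^ 2 := by gcongr; exact hn
      simp only [integral_const, probReal_univ, smul_eq_mul]
      linarith
  refine Metric.tendsto_nhds.2 fun e he => ?_
  have h3 : Tendsto (fun e : ℝ => e ^ 2 * ((1 + C) ^ 2 + (C * ‖y‖) ^ 2)) (𝓝[>] 0) (𝓝 0) :=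
    (Continuous.tendsto' (by fun_prop) _ _ (by simp)).mono_left nhdsWithin_le_nhds
  obtain ⟨e', a, b⟩ := ((h3.eventually (gt_mem_nhds (pow_pos he 2))).and self_mem_nhdsWithin).exists
  filter_upwards [key e' b] with b hb
  rw [dist_zero_right]
  exact lt_of_pow_lt_pow_left₀ 2 he.le (hb.trans_lt a)

theorem covar (hr : r ∈ Y.S) {w : Y.E} (hw : w ∈ Y.HH) (u y : Y.E) :
    ⟪w, Y.Th u y⟫_ℝ = ⟪Y.V r w, Y.Th (Y.V r u) y⟫_ℝ := by
  have key : ∀ f ∈ Y.C1, ∀ g ∈ Y.C1, ∀ y ∈ Y.HH,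
      ⟪Y.L f, Y.Th (Y.L g) y⟫_ℝ = ⟪Y.V r (Y.L f), Y.Th (Y.V r (Y.L g)) y⟫_ℝ := by
    intro f hf g hg y hy
    have h1 := (Y.inv _ (mul_mem (Y.le12 hf) (th_C2 hg hy))).mono_left hr
    simp only [map_mul, ContinuousMap.mul_apply, ← inner_LL, tau_th, ← Th_L hg,
      ← Th_L (Y.tau1 g hg _)] at h1
    refine tendsto_nhds_unique h1 ?_
    have h2 := Th_tendsto (l := r) (u := fun b => Y.L (tau b g) - Y.V r (Y.L g))
      (C := ‖g‖ + ‖Y.V r (Y.L g)‖)
      (fun b => (norm_sub_le _ _).trans (by gcongr; exact (norm_L _).trans (norm_tau b g)))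
      (fun x => by simpa only [inner_sub_left, sub_self] using
        (V_spec hr hg x).sub_const ⟪Y.V r (Y.L g), x⟫_ℝ) y
    have h3 : Tendsto (fun b => ⟪Y.L (tau b f), Y.Th (Y.L (tau b g) - Y.V r (Y.L g)) y⟫_ℝ) r
        (𝓝 0) := squeeze_zero_norm (fun b => (abs_real_inner_le_norm _ _).trans
          (mul_le_mul_of_nonneg_right ((norm_L _).trans (norm_tau b f)) (norm_nonneg _)))
      (by simpa using h2.norm.const_mul ‖f‖)
    simpa [inner_sub_right] using h3.add (V_spec hr hf (Y.Th (Y.V r (Y.L g)) y))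
  rw [← Th_proj u y, ← Th_proj (Y.V r u) y, ← V_proj r u,
    Submodule.starProjection_eq_self_iff.2 (V_mem hr _)]
  refine HH_ind (D := {w | ⟪w, Y.Th _ _⟫_ℝ = ⟪Y.V r w, Y.Th _ _⟫_ℝ})
    (isClosed_eq (by fun_prop) (by fun_prop)) (fun f hf => ?_) hw
  exact HH_ind (D := {u | ⟪Y.L f, Y.Th u _⟫_ℝ = ⟪Y.V r (Y.L f), Y.Th (Y.V r u) _⟫_ℝ})
    (isClosed_eq (by fun_prop) (by fun_prop))
    (fun g hg => key f hf g hg _ (Y.HH.starProjection_apply_mem y)) (Y.HH.starProjection_apply_mem u)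

theorem Th_mem {u y : Y.E} (hu : u ∈ Y.H) (hy : y ∈ Y.H) : Y.Th u y ∈ Y.HH :=
  H_le (D := Y.HH.comap (Y.Th.flip y).toLinearMap)
    ((Submodule.isClosed_topologicalClosure _).preimage (Y.Th.flip y).continuous)
    (fun a => show Y.Th _ y ∈ Y.HH from Th_L (Y.mon_mem a) y ▸ L_mem (th_C1 a hy)) hu

theorem Th_covar (hr : r ∈ Y.S) {u y : Y.E} (hu : u ∈ Y.H) (hy : y ∈ Y.H) :
    Y.Th u y = Y.W r (Y.Th (Y.V r u) y) :=
  eq_of_test (Th_mem hu hy) (W_mem _ _) fun _ hf => by rw [inner_W, covar hr (L_mem hf)]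

variable (Y) in
/-- Averages of the translates of `y`. -/
noncomputable def T (y : Y.E) : Y.E →L[ℝ] Y.E := (Y.Th.flip y).adjoint

theorem inner_T (x y u : Y.E) : ⟪x, Y.T y u⟫_ℝ = ⟪u, Y.Th x y⟫_ℝ := by
  rw [T, ContinuousLinearMap.adjoint_inner_right, real_inner_comm]
  rfl

theorem T_covar (hr : r ∈ Y.S) {u : Y.E} (hu : u ∈ Y.HH) (y : Y.E) :
    Y.T y u = Y.W r (Y.T y (Y.V r u)) :=
  ext_inner_left ℝ fun x => by rw [inner_W, inner_T, inner_T, covar hr hu]

end Sys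

end Pool.Agent.Lib.MP_f43b6f_lc
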