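import Pool.Agent.Lib.MP_f43b6f_lc.UGrp

set_option autoImplicit false

/-!
Windows around the identity of the reversible part.
-/

namespace Pool.Agent.Lib.MP_f43b6f_lc

open Filter Topology Set MeasureTheory TopologicalSpace
open scoped InnerProductSpace

namespace Sys

variable {ι : Type} {Y : Sys ι} {r p q s t : BN} {f : C(BN, ℝ)} {u v w x y z : Y.E}

theorem inner_one_L (f : C(BN, ℝ)) : ⟪Y.L 1, Y.L f⟫_ℝ = ∫ t, f t ∂Y.m := by simp [inner_LL]

theorem ae_mul_zero (hx : 0 ≤ x) (hy : 0 ≤ y) (h : ⟪x, y⟫_ℝ ≤ 0) : ∀ᵐ t ∂Y.m, x t * y t = 0 := by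
  have h1 := h.antisymm (inner_nonneg hx hy)
  rw [inner_eq, integral_eq_zero_iff_of_nonneg_ae _ (integrable_mul x y)] at h1
  · exact h1
  filter_upwards [(Lp.coeFn_nonneg _).2 hx, (Lp.coeFn_nonneg _).2 hy] with t using mul_nonneg

theorem freq_of_pos (h : 0 < ⟪x, y⟫_ℝ) : ∃ᵐ t ∂Y.m, 0 < x t * y t := fun h1 =>
  absurd h (not_lt.2 (inner_eq x y ▸ integral_nonpos_of_ae (h1.mono fun _ => not_lt.1)))

theorem inner_lower (hy : 0 ≤ y) {c : ℝ} (h : ∀ᵐ t ∂Y.m, y t ≠ 0 → c ≤ f t) :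
    c * ⟪Y.L 1, y⟫_ℝ ≤ ⟪Y.L f, y⟫_ℝ := by
  rw [← real_inner_smul_left, inner_eq, inner_eq]
  refine integral_mono_ae (integrable_mul _ _) (integrable_mul _ _) ?_
  filter_upwards [h, (Lp.coeFn_nonneg _).2 hy, coe_L f, coe_L (c • 1)] with t a b c d
  rw [← map_smul, c, d]
  by_cases h : y t = 0
  · simp [h]
  · exact mul_le_mul_of_nonneg_right (by simpa using a h) b

theorem H_tendsto {X : Type} {l : Filter X} {φ : X → Y.E →L[ℝ] ℝ} {C : ℝ}
    (hC : ∀ᶠ t in l, ∀ u, |φ t u| ≤ C * ‖u‖)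
    (h : ∀ a, Tendsto (fun t => φ t (Y.L (Y.mon a))) l (𝓝 0)) (hu : u ∈ Y.H) :
    Tendsto (fun t => φ t u) l (𝓝 0) := by
  let D : Submodule ℝ Y.E :=
    { carrier := {u | Tendsto (fun t => φ t u) l (𝓝 0)}
      add_mem' := fun ha hb => by simpa using Tendsto.add ha hb
      zero_mem' := by simpa using tendsto_const_nhds
      smul_mem' := fun c _ ha => by simpa using Tendsto.const_mul c ha }
  refine H_le (D := D) (isClosed_of_closure_subset fun v hv => Metric.tendsto_nhds.2 fun e he => ?_)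
    h hu
  obtain ⟨v', a, b⟩ := Metric.mem_closure_iff.1 hv (e / 2 / (|C| + 1)) (by positivity)
  filter_upwards [hC, Metric.tendsto_nhds.1 a _ (half_pos he)] with t c d
  have h1 := c (v - v')
  rw [dist_eq_norm, lt_div_iff₀ (by positivity)] at b
  rw [Real.dist_eq, sub_zero, abs_lt] at d ⊢
  rw [map_sub, abs_le] at h1
  have := le_abs_self C
  have := norm_nonneg (v - v')
  constructor <;> nlinarith [h1.1, h1.2, d.1, d.2]

theorem norm_mon (a : ι) : ‖Y.mon a‖ ≤ 1 :=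
  (ContinuousMap.norm_le _ zero_le_one).2 fun x => abs_le.2
    ⟨by linarith [(Y.mon01 a x).1], (Y.mon01 a x).2⟩

variable (Y) in
/-- The reversible part of a member of the bottom family. -/
noncomputable def w0 (a : ι) : Y.E := Y.H0.starProjection (Y.L (Y.mon a))

theorem w0_mem (a : ι) : Y.w0 a ∈ Y.H0 := Y.H0.starProjection_apply_mem _

variable (Y) in
/-- Matrix entries of the projection. -/
noncomputable def P (a : ι × ι) : ℝ := ⟪Y.L (Y.mon a.1), Y.w0 a.2⟫_ℝ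

variable (Y) in
/-- The shift in the first place. -/
def psh (a : ι × ι) (b : ℕ) : ι × ι := (Y.sh a.1 b, a.2)

theorem th_P (a : ι × ι) (n : ℕ) : Y.th (Y.mon a.1) (Y.w0 a.2) (pure n) = Y.P (Y.psh a n) := by
  rw [th_pure, Y.mon_sh, P, psh]

variable [Primcodable ι] [Inhabited ι]

variable (Y) in
/-- The windows. -/
noncomputable def om (j : ℕ) : C(BN, ℝ) := ∏ l ∈ Finset.range j,
  (algebraMap ℝ _ (iv j) - |Y.th (Y.mon (en l : ι × ι).1) (Y.w0 (en l : ι × ι).2) -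
    algebraMap ℝ _ (Y.P (en l))|) ⊔ 0

theorem om_apply (j : ℕ) (x : BN) : Y.om j x = ∏ l ∈ Finset.range j,
    max (iv j - |Y.th (Y.mon (en l : ι × ι).1) (Y.w0 (en l : ι × ι).2) x - Y.P (en l)|) 0 := by
  simp [om]

theorem om_mem (j : ℕ) : Y.om j ∈ Y.C1 := prod_mem fun l _ => by
  have h := sub_mem (th_C1 (en l : ι × ι).1 (w0_mem (Y := Y) (en l : ι × ι).2).1)
    (algebraMap_mem _ (Y.P (en l)))
  exact ContinuousMap.sup_mem_closed_subalgebra _ Y.cl1 ⟨_, sub_mem (algebraMap_mem _ _)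
    (ContinuousMap.sup_mem_closed_subalgebra _ Y.cl1 ⟨_, h⟩ ⟨_, neg_mem h⟩)⟩ ⟨_, zero_mem _⟩

theorem om_nonneg (j : ℕ) (x : BN) : 0 ≤ Y.om j x :=
  (om_apply (Y := Y) j x).symm ▸ Finset.prod_nonneg fun _ _ => le_max_right _ _

theorem om_anti {i j : ℕ} (h : i ≤ j) (x : BN) : Y.om j x ≤ Y.om i x := by
  rw [om_apply, om_apply]
  refine (Finset.prod_le_prod_of_subset_of_le_one (Finset.range_mono h)
    (fun _ _ => le_max_right _ _) fun l _ _ => max_le ?_ zero_le_one).trans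
    (Finset.prod_le_prod (fun _ _ => le_max_right _ _) fun l _ => ?_)
  · exact (sub_le_self _ (abs_nonneg _)).trans (iv_le_one j)
  · gcongr
    exact iv_anti h

theorem om_zero : Y.om 0 = 1 := by simp [om]

theorem om_le_one (j : ℕ) (x : BN) : Y.om j x ≤ 1 := by simpa [om_zero] using om_anti j.zero_le x

theorem om_pos {j : ℕ} {x : BN} : 0 < Y.om j x ↔ ∀ l, l < j →
    |Y.th (Y.mon (en l : ι × ι).1) (Y.w0 (en l : ι × ι).2) x - Y.P (en l)| < iv j := by
  rw [om_apply, (Finset.prod_nonneg fun _ _ => le_max_right _ _).lt_iff_ne', Finset.prod_ne_zero_iff]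
  simp

theorem stab_iff {j b : ℕ} : Y.F.stabMem Y.P Y.psh j b ↔ Y.F.mem j b ∧ 0 < Y.om j (pure b) := by
  simp only [Res.stabMem, om_pos, th_P]

theorem win_th (a : ι) (hw : w ∈ Y.H0) {e : ℝ} (he : 0 < e) :
    ∀ᶠ j in atTop, ∀ x, 0 < Y.om j x → |Y.th (Y.mon a) w x - ⟪Y.L (Y.mon a), w⟫_ℝ| < e := by
  have hb := hasBasis_iInf_principal (s := fun j => {x | 0 < Y.om j x})
    (Antitone.directed_ge fun _ _ h x hx => lt_of_lt_of_le hx (om_anti h x))
  have := H_tendsto (l := ⨅ j, 𝓟 {x | 0 < Y.om j x}) (C := 2) (φ := fun x =>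
    ((ContinuousMap.evalCLM ℝ x).comp (Y.th (Y.mon a)) - innerSL ℝ (Y.L (Y.mon a))).comp
      Y.H0.starProjection) (Eventually.of_forall fun x u => ?_) (fun b => ?_) hw.1
  · obtain ⟨j, -, hj⟩ := hb.eventually_iff.1 (Metric.tendsto_nhds.1 this e he)
    filter_upwards [eventually_ge_atTop j] with i hi x hx
    simpa [Submodule.starProjection_eq_self_iff.2 hw] using hj (lt_of_lt_of_le hx (om_anti hi x))
  · have h1 := Y.H0.norm_starProjection_apply_le u
    have h2 := (Y.th (Y.mon a) (Y.H0.starProjection u)).norm_coe_le_norm x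
    have h3 : ‖Y.th (Y.mon a) (Y.H0.starProjection u)‖ ≤ 1 * ‖u‖ := norm_le_pure fun n => by
      rw [th_pure]
      refine (abs_real_inner_le_norm _ _).trans ?_
      gcongr
      exact (norm_L _).trans ((norm_tau _ _).trans (norm_mon a))
    have h4 : |⟪Y.L (Y.mon a), Y.H0.starProjection u⟫_ℝ| ≤ 1 * ‖u‖ :=
      (abs_real_inner_le_norm _ _).trans (by gcongr; exact (norm_L _).trans (norm_mon a))
    exact (abs_sub _ _).trans ((add_le_add (h2.trans h3) h4).trans_eq (by ring))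
  · refine Metric.tendsto_nhds.2 fun e he => ?_
    obtain ⟨j, h1, h2⟩ := ((eventually_gt_atTop (Encodable.encode (a, b))).and
      (tendsto_iv.eventually (gt_mem_nhds he))).exists
    refine hb.eventually_iff.2 ⟨j, trivial, fun x hx => ?_⟩
    have := (om_pos.1 hx _ h1).trans h2
    rw [en_encode] at this
    simpa [P, w0] using this

theorem win_R (hw : w ∈ Y.H0) {e : ℝ} (he : 0 < e) :
    ∀ᶠ j in atTop, ∀ t ∈ Y.S, 0 < Y.om j t → ‖Y.R t w - w‖ < e := by
  have hb := (hasBasis_iInf_principal (s := fun j => {x | 0 < Y.om j x})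
    (Antitone.directed_ge fun _ _ h x hx => lt_of_lt_of_le hx (om_anti h x))).inf_principal Y.S
  have := H_tendsto (l := (⨅ j, 𝓟 {x | 0 < Y.om j x}) ⊓ 𝓟 Y.S) (C := 2 * ‖w‖) (φ := fun t =>
    innerSL ℝ (Y.R t w - w)) (eventually_inf_principal.2 (Eventually.of_forall fun t ht u => ?_))
    (fun b => Metric.tendsto_nhds.2 fun e he => ?_) hw.1
  · obtain ⟨j, -, hj⟩ := hb.eventually_iff.1 (Metric.tendsto_nhds.1 this (e ^ 2 / 2) (by positivity))
    filter_upwards [eventually_ge_atTop j] with i hi t ht hx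
    have h1 := hj ⟨lt_of_lt_of_le hx (om_anti hi t), ht⟩
    refine lt_of_pow_lt_pow_left₀ 2 he.le ?_
    rw [Real.dist_eq, sub_zero, innerSL_apply_apply, inner_sub_left, real_inner_self_eq_norm_sq,
      abs_lt] at h1
    rw [norm_sub_sq_real, (mem_H0.1 hw).2 t ht]
    linarith [h1.1]
  · refine (abs_real_inner_le_norm (Y.R t w - w) u).trans ?_
    gcongr
    exact (norm_sub_le _ _).trans (by linarith [norm_R ht w])
  · obtain ⟨j, hj⟩ := (win_th b hw he).exists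
    refine hb.eventually_iff.2 ⟨j, trivial, fun t ht => ?_⟩
    have := hj t ht.1
    rwa [th_S ht.2 (Y.mon_mem b), ← inner_RW (mon_H b), ← inner_sub_right, real_inner_comm,
      ← sub_zero ⟪_, _⟫_ℝ] at this

theorem om_lower {j b : ℕ} (ht : t ∈ Y.S) {y : ι → Y.E}
    (h : ∀ l ∈ Iio j, ‖Y.R t (Y.w0 (en l : ι × ι).2) - y (en l : ι × ι).2‖ ≤ iv j / 4)
    (h' : ∀ l ∈ Iio j, |⟪Y.L (tau b (Y.mon (en l : ι × ι).1)), y (en l : ι × ι).2⟫_ℝ - Y.P (en l)|
      ≤ iv j / 4) : (iv j / 2) ^ j ≤ tau b (Y.om j) t := by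
  obtain ⟨x, hx⟩ : ∃ x, ∀ f, tau b f t = f x := ⟨_, fun _ => rfl⟩
  rw [hx, om_apply, ← Finset.card_range j, ← Finset.prod_const, Finset.card_range]
  refine Finset.prod_le_prod (fun _ _ => (half_pos (iv_pos j)).le) fun l hl => le_max_of_le_left ?_
  have h1 := h l (Finset.mem_range.1 hl)
  have h2 := abs_le.1 (h' l (Finset.mem_range.1 hl))
  rw [← hx, tau_th, Y.mon_sh, th_S ht (Y.mon_mem _), ← inner_RW (mon_H _)]
  rw [Y.mon_sh] at h2
  have h3 := abs_le.1 ((abs_real_inner_le_norm (Y.L (Y.mon (Y.sh (en l : ι × ι).1 b))) _).trans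
    ((mul_le_of_le_one_left (norm_nonneg _) ((norm_L _).trans (norm_mon _))).trans h1))
  rw [inner_sub_right] at h3
  rw [le_sub_comm, abs_le]
  constructor <;> linarith [h2.1, h2.2, h3.1, h3.2]

theorem recur (hz : z ∈ Y.Inv) (h0 : 0 ≤ z) (h1 : 0 < ⟪Y.L 1, z⟫_ℝ) (j : ℕ) :
    0 < ⟪Y.L (Y.om j), z⟫_ℝ := by
  by_contra hn
  have hj := iv_pos j
  have key : ∀ᵐ t ∂Y.m, t ∈ Y.S → z t = 0 := by
    refine isClosed_S.isCompact.induction_on (p := fun B => ∀ᵐ t ∂Y.m, t ∈ B → z t = 0) (by simp)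
      (fun A B h hB => hB.mono fun t a b => a (h b))
      (fun A B hA hB => (hA.and hB).mono fun t a b => b.elim a.1 a.2) fun s hs => ?_
    obtain ⟨r, hr, a1⟩ := exists_inv hs
    obtain ⟨U, a2, a3, a4⟩ := mem_nhdsWithin.1 ((eventually_all_finite (finite_Iio j)).2 fun l _ =>
      (tendsto_iff_norm_sub_tendsto_zero.1 (cont_R (w0_mem (en l : ι × ι).2) s hs)).eventually
        (ge_mem_nhds (show 0 < iv j / 4 by positivity)))
    refine ⟨U ∩ Y.S, inter_mem_nhdsWithin _ (a2.mem_nhds a3) |> fun h => inter_comm _ _ ▸ h, ?_⟩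
    have a5 := (Lp.memLp z).indicator (a2.measurableSet.inter (isClosed_S (Y := Y)).measurableSet)
    have a6 : 0 ≤ a5.toLp ∧ a5.toLp ≤ z := by
      refine ⟨(Lp.coeFn_nonneg _).1 ?_, (Lp.coeFn_le _ _).1 ?_⟩ <;>
        filter_upwards [a5.coeFn_toLp, (Lp.coeFn_nonneg _).2 h0] with t a b <;> rw [a] <;>
        by_cases h : t ∈ U ∩ Y.S <;> simp [h] <;> exact b
    have a7 : (iv j / 2) ^ j * ⟪Y.L 1, a5.toLp⟫_ℝ ≤ ⟪Y.L (Y.om j), z⟫_ℝ := by
      rw [show ⟪Y.L (Y.om j), z⟫_ℝ = ⟪Y.V r (Y.L (Y.om j)), z⟫_ℝ by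
        rw [← inner_W, mem_Inv.1 hz r hr]]
      refine ge_of_tendsto (V_spec hr (om_mem j) z) ?_
      filter_upwards [(eventually_all_finite (finite_Iio j)).2 fun l _ => (Metric.tendsto_nhds.1
        (V_spec hr (Y.mon_mem (en l : ι × ι).1) (Y.R s (Y.w0 (en l : ι × ι).2))) (iv j / 4)
        (by positivity))] with b hb
      refine (inner_lower (f := tau b (Y.om j)) a6.1 ?_).trans ?_
      · filter_upwards [a5.coeFn_toLp] with t a b
        have ht := mem_of_indicator_ne_zero (a ▸ b)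
        refine om_lower ht.2 (y := fun a => Y.R s (Y.w0 a)) (a4 ht) fun l hl => ?_
        have := (hb l hl).le
        rwa [← inner_R (mon_H _), (a1 _ (w0_mem _)).1] at this
      · have := inner_nonneg (L_nonneg (Y := Y) (f := tau b (Y.om j)) fun t => om_nonneg j _)
          (sub_nonneg.2 a6.2)
        rwa [inner_sub_right, sub_nonneg] at this
    have a8 := ae_mul_zero (L_nonneg zero_le_one) a6.1 (nonpos_of_mul_nonpos_right
      (a7.trans (not_lt.1 hn)) (by positivity))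
    filter_upwards [a8, a5.coeFn_toLp, coe_L 1] with t a b c ht
    simpa [b, c, indicator_of_mem ht] using a
  obtain ⟨t, a, b, c⟩ := ((freq_of_pos h1).and_eventually (key.and ae_S)).exists
  simp [b c] at a

theorem exists_win (j : ℕ) : ∃ i, ∀ b, 0 < Y.om i (pure b) → ∀ t ∈ Y.S, 0 < Y.om i t →
    (iv j / 2) ^ j ≤ tau b (Y.om j) t := by
  have hj : 0 < iv j / 4 := by have := iv_pos j; positivity
  obtain ⟨i, h1, h2⟩ := (((eventually_all_finite (finite_Iio j)).2 fun l _ =>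
    win_R (w0_mem (Y := Y) (en l : ι × ι).2) hj).and ((eventually_all_finite (finite_Iio j)).2
    fun l _ => win_th (en l : ι × ι).1 (w0_mem (Y := Y) (en l : ι × ι).2) hj)).exists
  exact ⟨i, fun b hb t ht h => om_lower ht (fun l hl => (h1 l hl t ht h).le)
    fun l hl => by simpa only [th_pure, P] using (h2 l hl _ hb).le⟩

theorem freq_om (j : ℕ) : ∃ᵐ t ∂Y.m, 0 < Y.om j t :=
  ((freq_of_pos (recur one_inv (L_nonneg zero_le_one) (by rw [inner_one_L]; simp) j)).and_eventually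
    ((coe_L (Y.om j)).and (coe_L 1))).mono fun t h => by simpa [h.2.1, h.2.2] using h.1

theorem rho_iff (hf : f ∈ Y.C1) (hf' : Y.L f ∈ Y.H) (q : ℝ) :
    q < ‖Y.H0.starProjection (Y.L f)‖ ^ 2 ↔
      0 < ∫ t, ((Y.th f (Y.L f) - algebraMap ℝ _ q) ⊔ 0 : C(BN, ℝ)) t ∂Y.m := by
  have h1 : ∀ᵐ t ∂Y.m, t ∈ Y.S ∧ Y.th f (Y.L f) t = ⟪Y.H0.starProjection (Y.L f),
      Y.R t (Y.H0.starProjection (Y.L f))⟫_ℝ := by
    filter_upwards [ae_diag hf', ae_S] with t a b using ⟨b, by rw [th_S b hf, ← inner_RW hf', a]⟩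
  have hw := Y.H0.starProjection_apply_mem (Y.L f)
  generalize Y.H0.starProjection (Y.L f) = w at h1 hw
  rw [← inner_one_L]
  refine ⟨fun h => not_le.1 fun hn => ?_, fun h => ?_⟩
  · obtain ⟨j, hj⟩ := (win_R hw (e := (‖w‖ ^ 2 - q) / (‖w‖ + 1))
      (div_pos (sub_pos.2 h) (by positivity))).exists
    obtain ⟨t, a, b, c, d, e⟩ := ((freq_om j).and_eventually (h1.and
      ((ae_mul_zero (L_nonneg zero_le_one) (L_nonneg le_sup_right) hn).and
      ((coe_L 1).and (coe_L ((Y.th f (Y.L f) - algebraMap ℝ _ q) ⊔ 0)))))).exists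
    have h2 := hj t b.1 a
    have h3 := abs_le.1 (abs_real_inner_le_norm w (Y.R t w - w))
    rw [lt_div_iff₀ (by positivity)] at h2
    rw [inner_sub_right, real_inner_self_eq_norm_sq] at h3
    have h4 : ⟪w, Y.R t w⟫_ℝ ≤ q := by simpa [d, e, b.2] using c
    nlinarith [h3.1, norm_nonneg (Y.R t w - w)]
  · obtain ⟨t, a, b, d, e⟩ := ((freq_of_pos h).and_eventually (h1.and
      ((coe_L 1).and (coe_L ((Y.th f (Y.L f) - algebraMap ℝ _ q) ⊔ 0))))).exists
    have h4 : q < ⟪w, Y.R t w⟫_ℝ := by simpa [d, e, b.2] using a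
    exact h4.trans_le ((real_inner_le_norm _ _).trans_eq (by rw [(mem_H0.1 hw).2 t b.1, sq]))

end Sys

end Pool.Agent.Lib.MP_f43b6f_lc
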