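import Pool.Agent.Lib.MP_f43b6f_lc.Defs

set_option autoImplicit false

namespace Pool.Agent.Lib.MP_f43b6f_lc

/-- The sets arithmetical in `f`, by levels. Level `0` holds the graph of `f` and `{0}`; every level
is closed under computable preimages, complements and intersections; an existential projection
along the pairing function raises the level by one; the levels increase. -/
inductive ArithLev (f : ℕ → ℕ) : ℕ → Set ℕ → Prop
  | graph : ArithLev f 0 {n | f n.unpair.1 = n.unpair.2}
  | zero : ArithLev f 0 {0}
  | preimage {m : ℕ} {g : ℕ → ℕ} {A : Set ℕ} :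
      Computable g → ArithLev f m A → ArithLev f m (g ⁻¹' A)
  | compl {m : ℕ} {A : Set ℕ} : ArithLev f m A → ArithLev f m Aᶜ
  | inter {m : ℕ} {A B : Set ℕ} : ArithLev f m A → ArithLev f m B → ArithLev f m (A ∩ B)
  | proj {m : ℕ} {A : Set ℕ} : ArithLev f m A → ArithLev f (m + 1) {n | ∃ j, Nat.pair n j ∈ A}
  | succ {m : ℕ} {A : Set ℕ} : ArithLev f m A → ArithLev f (m + 1) A

end Pool.Agent.Lib.MP_f43b6f_lc
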