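import Pool.Agent.Lib.MP_f43b6f_lc.UAr
import Pool.Agent.Lib.MP_f43b6f_lc.VDef

set_option autoImplicit false

/-!
A calculus of predicates, functions and real numbers that are arithmetical at a bounded level,
uniformly over a family of base classes.
-/

namespace Pool.Agent.Lib.MP_f43b6f_lc.V

open Encodable

/-- Levels over a base class. -/
inductive Lev (B : Set ℕ → Prop) : ℕ → Set ℕ → Prop
  | base {A : Set ℕ} : B A → Lev B 0 A
  | zero : Lev B 0 {0}
  | preimage {m : ℕ} {g : ℕ → ℕ} {A : Set ℕ} : Computable g → Lev B m A → Lev B m (g ⁻¹' A)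
  | compl {m : ℕ} {A : Set ℕ} : Lev B m A → Lev B m Aᶜ
  | inter {m : ℕ} {A C : Set ℕ} : Lev B m A → Lev B m C → Lev B m (A ∩ C)
  | proj {m : ℕ} {A : Set ℕ} : Lev B m A → Lev B (m + 1) {n | ∃ j, Nat.pair n j ∈ A}
  | succ {m : ℕ} {A : Set ℕ} : Lev B m A → Lev B (m + 1) A

theorem Lev.mono {B : Set ℕ → Prop} {m n : ℕ} {A : Set ℕ} (h : Lev B m A) (e : m ≤ n) :
    Lev B n A := by
  induction e with
  | refl => exact h
  | step _ ih => exact ih.succ

theorem lev_mono {f : ℕ → ℕ} {m n : ℕ} {A : Set ℕ} (h : ArithLev f m A) (e : m ≤ n) :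
    ArithLev f n A := by
  induction e with
  | refl => exact h
  | step _ ih => exact ih.succ

theorem Lev.trans {f : ℕ → ℕ} {m a : ℕ} {A : Set ℕ} (h : Lev (ArithLev f m) a A) :
    ArithLev f (m + a) A := by
  induction h with
  | base h => exact h
  | zero => exact lev_mono .zero (Nat.zero_le _)
  | preimage hg _ ih => exact ih.preimage hg
  | compl _ ih => exact ih.compl
  | inter _ _ ih ih' => exact ih.inter ih'
  | proj _ ih => exact ih.proj
  | succ _ ih => exact ih.succ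

/-- A family of base classes. -/
structure Fam (I : Type) where
  /-- the base class at an index -/
  B : I → Set ℕ → Prop

variable {I : Type} {o : Fam I}

section ap

variable {α β : Type} [Primcodable α] [Primcodable β]

/-- Families of predicates on a coded type of bounded level. -/
def AP (o : Fam I) (P : I → α → Prop) : Prop :=
  ∃ m, ∀ i, ∃ A, Lev (o.B i) m A ∧ ∀ a, P i a ↔ encode a ∈ A

theorem AP.congr {P Q : I → α → Prop} (h : AP o P) (e : ∀ i a, Q i a ↔ P i a) : AP o Q := by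
  obtain ⟨m, h⟩ := h
  exact ⟨m, fun i => (h i).imp fun A h => ⟨h.1, fun a => (e i a).trans (h.2 a)⟩⟩

theorem AP.not {P : I → α → Prop} (h : AP o P) : AP o fun i a => ¬ P i a := by
  obtain ⟨m, h⟩ := h
  exact ⟨m, fun i => (h i).elim fun A h => ⟨Aᶜ, h.1.compl, fun a => not_congr (h.2 a)⟩⟩

theorem AP.and {P Q : I → α → Prop} (h : AP o P) (h' : AP o Q) :
    AP o fun i a => P i a ∧ Q i a := by
  obtain ⟨m, h⟩ := h
  obtain ⟨n, h'⟩ := h'
  refine ⟨max m n, fun i => ?_⟩
  obtain ⟨A, h1, h2⟩ := h i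
  obtain ⟨B, h3, h4⟩ := h' i
  exact ⟨A ∩ B, (h1.mono (le_max_left _ _)).inter (h3.mono (le_max_right _ _)),
    fun a => and_congr (h2 a) (h4 a)⟩

theorem AP.prim {P : I → β → Prop} {h : I → α → β} (hP : AP o P) (hh : ∀ i, Primrec (h i)) :
    AP o fun i a => P i (h i a) := by
  obtain ⟨m, hP⟩ := hP
  refine ⟨m, fun i => ?_⟩
  obtain ⟨A, h1, h2⟩ := hP i
  refine ⟨_, h1.preimage (g := fun n => (encode ((decode (α := α) n).map (h i))).pred)
    (Primrec.pred.comp (Primrec.nat_iff.2 (hh i))).to_comp, fun a => ?_⟩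
  simp [h2]

theorem AP.of_prim {P : I → α → Prop} (hP : ∀ i, PrimrecPred (P i)) : AP o P := by
  classical
  have h0 : AP o fun _ (n : ℕ) => n = 0 := ⟨0, fun _ => ⟨{0}, .zero, fun a => by simp⟩⟩
  refine (h0.prim fun i => Primrec.ite (hP i) (Primrec.const 0) (Primrec.const 1)).congr
    fun i a => ?_
  by_cases h : P i a <;> simp [h]

theorem AP.ex {P : I → α → β → Prop} (hP : AP o fun i (p : α × β) => P i p.1 p.2) :
    AP o fun i a => ∃ b, P i a b := by
  rcases isEmpty_or_nonempty β with h | ⟨⟨b₀⟩⟩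
  · exact (AP.of_prim fun _ => Primrec.eq.comp (Primrec.const 0) (Primrec.const 1)).congr (by simp)
  obtain ⟨m, h⟩ := hP.prim (h := fun _ (p : α × ℕ) => (p.1, (decode p.2).getD b₀))
    fun _ => Primrec.fst.pair (Primrec.option_getD.comp (Primrec.decode.comp Primrec.snd)
      (Primrec.const b₀))
  refine ⟨m + 1, fun i => ?_⟩
  obtain ⟨A, h1, h2⟩ := h i
  refine ⟨_, h1.proj, fun a => ⟨?_, ?_⟩⟩
  · rintro ⟨b, hb⟩
    exact ⟨encode b, (h2 (a, encode b)).1 (by simpa using hb)⟩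
  · rintro ⟨m, hm⟩
    exact ⟨_, (h2 (a, m)).2 hm⟩

end ap

/-- Types fibred over the index type with a coded fibre. -/
class Dom (I α : Type) where
  /-- the fibre -/
  T : Type
  /-- the coding of the fibre -/
  pc : Primcodable T
  /-- the point over an index -/
  pt : I → T → α
  /-- the fibre coordinate -/
  pr : α → T
  pr_pt : ∀ i t, pr (pt i t) = t

instance pcT (I α : Type) [d : Dom I α] : Primcodable (Dom.T I α) := d.pc

instance (priority := low) domProd {α β : Type} [Dom I α] [Dom I β] : Dom I (α × β) where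
  T := Dom.T I α × Dom.T I β
  pc := inferInstance
  pt i t := (Dom.pt i t.1, Dom.pt i t.2)
  pr a := (Dom.pr (I := I) a.1, Dom.pr (I := I) a.2)
  pr_pt i t := by simp [Dom.pr_pt]

instance (priority := low) domIdx : Dom I I where
  T := Unit
  pc := inferInstance
  pt i _ := i
  pr _ := ()
  pr_pt _ _ := rfl

instance domCode {β : Type} [h : Primcodable β] : Dom I β where
  T := β
  pc := h
  pt _ t := t
  pr a := a
  pr_pt _ _ := rfl

/-- Observations of a value. -/
class Obs (I δ : Type) where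
  /-- the value lies over an index -/
  ok : I → δ → Prop
  /-- the observation with a given number -/
  obs : δ → ℕ → Prop

instance obsProp : Obs I Prop := ⟨fun _ _ => True, fun p _ => p⟩
instance obsReal : Obs I ℝ := ⟨fun _ _ => True, fun x n => rv n < x⟩
instance (priority := low) obsDom {β : Type} [Dom I β] : Obs I β :=
  ⟨fun i b => Dom.pt i (Dom.pr (I := I) b) = b, fun b n => encode (Dom.pr (I := I) b) = n⟩

variable {α β γ δ σ τ : Type} [Dom I α] [Primcodable β] [Primcodable γ] [Dom I σ] [Dom I τ]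

/-- Maps of bounded level. -/
@[fun_prop] structure Ar (o : Fam I) [Obs I δ] (g : α → δ) : Prop where
  ok : ∀ (i : I) t, Obs.ok i (g (Dom.pt i t))
  ap : AP o fun i (p : Dom.T I α × ℕ) => Obs.obs I (g (Dom.pt i p.1)) p.2

theorem ar_iff {P : α → Prop} : Ar o P ↔ AP o fun i t => P (Dom.pt i t) :=
  ⟨fun h => AP.prim (h := fun _ a => (a, 0)) h.2 fun _ => Primrec.id.pair (Primrec.const 0),
    fun h => ⟨fun _ _ => trivial,
      AP.prim (h := fun _ (p : Dom.T I α × ℕ) => p.1) h fun _ => Primrec.fst⟩⟩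

theorem Ar.congr {P Q : α → Prop} (h : Ar o P) (e : ∀ a, Q a ↔ P a) : Ar o Q :=
  ar_iff.2 ((ar_iff.1 h).congr fun _ _ => e _)

theorem Ar.of_eq [Obs I δ] {g h : α → δ} (hg : Ar o g) (e : ∀ a, h a = g a) : Ar o h := by
  rwa [show h = g from funext e]

theorem Ar.of_prim' {h : α → σ} (h0 : ∀ (i : I) t, Dom.pt i (Dom.pr (I := I) (h (Dom.pt i t))) =
    h (Dom.pt i t)) (hh : ∀ i : I, Primrec fun t => Dom.pr (I := I) (h (Dom.pt i t))) : Ar o h :=
  ⟨h0, AP.of_prim fun i =>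
    Primrec.eq.comp (Primrec.encode.comp ((hh i).comp Primrec.fst)) Primrec.snd⟩

theorem Ar.of_prim {h : β → γ} (hh : Primrec h) : Ar o h :=
  Ar.of_prim' (fun _ _ => rfl) fun _ => hh

theorem Ar.idx (o : Fam I) (J : I → β) : Ar o J :=
  Ar.of_prim' (fun _ _ => rfl) fun i => Primrec.const (J i)

@[fun_prop] theorem Ar.comp [Obs I δ] {g : σ → δ} {h : α → σ} (hg : Ar o g) (hh : Ar o h) :
    Ar o fun a => g (h a) := by
  have e : ∀ (i : I) t, Dom.pt i (Dom.pr (I := I) (h (Dom.pt i t))) = h (Dom.pt i t) := hh.1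
  refine ⟨fun i t => (congrArg (fun x => Obs.ok i (g x)) (e i t)).mp (hg.1 i _),
    (AP.ex (P := fun i (p : Dom.T I α × ℕ) (b : Dom.T I σ) =>
    encode (Dom.pr (I := I) (h (Dom.pt i p.1))) = encode b ∧ Obs.obs I (g (Dom.pt i b)) p.2)
    (AP.and ?_ ?_)).congr fun i p => by simp [e]⟩
  · exact AP.prim (h := fun _ (q : (Dom.T I α × ℕ) × Dom.T I σ) => (q.1.1, encode q.2)) hh.2
      fun _ => (Primrec.fst.comp Primrec.fst).pair (Primrec.encode.comp Primrec.snd)
  · exact AP.prim (h := fun _ (q : (Dom.T I α × ℕ) × Dom.T I σ) => (q.2, q.1.2)) hg.2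
      fun _ => Primrec.snd.pair (Primrec.snd.comp Primrec.fst)

@[fun_prop] theorem Ar.id : Ar o fun a : α => a :=
  Ar.of_prim' (fun i t => by rw [Dom.pr_pt]) fun i => Primrec.id.of_eq fun t => by
    simp [Dom.pr_pt]

theorem Ar.pr : Ar o fun a : α => Dom.pr (I := I) a :=
  Ar.of_prim' (fun _ _ => rfl) fun i => Primrec.id.of_eq fun t => (Dom.pr_pt i t).symm

/-- Arithmetical constants. -/
class Cst (I : Type) [Obs I δ] (c : δ) : Prop where
  out : ∀ o : Fam I, Ar o fun _ : ℕ => c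

@[fun_prop] theorem Ar.const [Obs I δ] (c : δ) [h : Cst I c] : Ar o fun _ : α => c :=
  (h.out o).comp (Ar.of_prim' (h := fun _ : α => (0 : ℕ)) (fun _ _ => rfl)
    fun _ => Primrec.const (0 : ℕ))

instance cstCode (b : β) : Cst I b := ⟨fun _ => Ar.of_prim (Primrec.const b)⟩

theorem Ar.idxP (o : Fam I) (J : I → Prop) : Ar o J := ar_iff.2 <|
  AP.of_prim fun i => by
    by_cases h : J i
    · exact (Primrec.eq.comp (Primrec.const 0) (Primrec.const 0)).of_eq (by simp [h, Dom.pt])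
    · exact (Primrec.eq.comp (Primrec.const 0) (Primrec.const 1)).of_eq (by simp [h, Dom.pt])

instance cstProp (p : Prop) : Cst I p := ⟨fun _ => ar_iff.2 <| by
  by_cases h : p
  · exact (AP.of_prim fun _ => Primrec.eq.comp (Primrec.const 0) (Primrec.const 0)).congr
      (by simp [h])
  · exact (AP.of_prim fun _ => Primrec.eq.comp (Primrec.const 0) (Primrec.const 1)).congr
      (by simp [h])⟩

@[fun_prop] theorem Ar.pair {g : α → σ} {h : α → τ} (hg : Ar o g) (hh : Ar o h) :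
    Ar o fun a => (g a, h a) := by
  refine ⟨fun i t => Prod.ext (hg.1 i t) (hh.1 i t), (AP.and
    (AP.prim (h := fun _ (q : Dom.T I α × ℕ) => (q.1, q.2.unpair.1)) hg.2 fun _ => ?_)
    (AP.prim (h := fun _ (q : Dom.T I α × ℕ) => (q.1, q.2.unpair.2)) hh.2 fun _ => ?_)).congr
    fun i p => ?_⟩
  · exact Primrec.fst.pair (Primrec.fst.comp (Primrec.unpair.comp Primrec.snd))
  · exact Primrec.fst.pair (Primrec.snd.comp (Primrec.unpair.comp Primrec.snd))
  · change Nat.pair (encode (Dom.pr (I := I) (g (Dom.pt i p.1))))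
      (encode (Dom.pr (I := I) (h (Dom.pt i p.1)))) = p.2 ↔
      encode (Dom.pr (I := I) (g (Dom.pt i p.1))) = p.2.unpair.1 ∧
        encode (Dom.pr (I := I) (h (Dom.pt i p.1))) = p.2.unpair.2
    constructor
    · intro e
      simp [← e]
    · rintro ⟨e1, e2⟩
      rw [e1, e2, Nat.pair_unpair]

@[fun_prop] theorem Ar.fst {g : α → σ × τ} (hg : Ar o g) : Ar o fun a => (g a).1 :=
  (Ar.of_prim' (h := (Prod.fst : σ × τ → σ)) (fun i (t : Dom.T I σ × Dom.T I τ) =>
    congrArg (Dom.pt i) (Dom.pr_pt i t.1))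
    fun i => Primrec.fst.of_eq fun (t : Dom.T I σ × Dom.T I τ) => (Dom.pr_pt i t.1).symm).comp hg

@[fun_prop] theorem Ar.snd {g : α → σ × τ} (hg : Ar o g) : Ar o fun a => (g a).2 :=
  (Ar.of_prim' (h := (Prod.snd : σ × τ → τ)) (fun i (t : Dom.T I σ × Dom.T I τ) =>
    congrArg (Dom.pt i) (Dom.pr_pt i t.2))
    fun i => Primrec.snd.of_eq fun (t : Dom.T I σ × Dom.T I τ) => (Dom.pr_pt i t.2).symm).comp hg

@[fun_prop] theorem Ar.pairC {g : α → β} {h : α → γ} (hg : Ar o g) (hh : Ar o h) :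
    Ar o fun a => (g a, h a) := Ar.pair hg hh

@[fun_prop] theorem Ar.fstC {g : α → β × γ} (hg : Ar o g) : Ar o fun a => (g a).1 :=
  (Ar.of_prim Primrec.fst).comp hg

@[fun_prop] theorem Ar.sndC {g : α → β × γ} (hg : Ar o g) : Ar o fun a => (g a).2 :=
  (Ar.of_prim Primrec.snd).comp hg

theorem Ar.prim₂ {ρ : Type} [Primcodable ρ] {f : β → γ → ρ} (hf : Primrec₂ f) {g : α → β}
    {h : α → γ} (hg : Ar o g) (hh : Ar o h) : Ar o fun a => f (g a) (h a) :=
  (Ar.of_prim hf).comp (hg.pairC hh)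

theorem Ar.rel {r : β → γ → Prop} (hr : PrimrecRel r) {g : α → β}
    {h : α → γ} (hg : Ar o g) (hh : Ar o h) : Ar o fun a => r (g a) (h a) :=
  ((ar_iff (P := fun p : β × γ => r p.1 p.2)).2
    (AP.of_prim (P := fun _ (p : β × γ) => r p.1 p.2) fun _ => hr)).comp (hg.pairC hh)

@[fun_prop] theorem Ar.not {P : α → Prop} (h : Ar o P) : Ar o fun a => ¬ P a :=
  ar_iff.2 (ar_iff.1 h).not

@[fun_prop] theorem Ar.and {P Q : α → Prop} (h : Ar o P) (h' : Ar o Q) :
    Ar o fun a => P a ∧ Q a := ar_iff.2 ((ar_iff.1 h).and (ar_iff.1 h'))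

@[fun_prop] theorem Ar.or {P Q : α → Prop} (h : Ar o P) (h' : Ar o Q) :
    Ar o fun a => P a ∨ Q a := (h.not.and h'.not).not.congr fun a => by tauto

theorem Ar.imp {P Q : α → Prop} (h : Ar o P) (h' : Ar o Q) :
    Ar o fun a => P a → Q a := (h.not.or h').congr fun a => by tauto

@[fun_prop] theorem Ar.ex {P : α → β → Prop} (h : Ar o fun p : α × β => P p.1 p.2) :
    Ar o fun a => ∃ b, P a b :=
  ar_iff.2 (AP.ex (P := fun i t b => P (Dom.pt i t) b) (ar_iff.1 h))

theorem Ar.all {P : α → β → Prop} (h : Ar o fun p : α × β => P p.1 p.2) :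
    Ar o fun a => ∀ b, P a b :=
  (Ar.ex (P := fun a b => ¬ P a b) h.not).not.congr fun a => by simp

@[fun_prop] theorem Ar.eq {g h : α → β} (hg : Ar o g) (hh : Ar o h) :
    Ar o fun a => g a = h a := by
  classical
  exact Ar.rel Primrec.eq hg hh

@[fun_prop] theorem Ar.ne {g h : α → β} (hg : Ar o g) (hh : Ar o h) :
    Ar o fun a => g a ≠ h a := (hg.eq hh).not

theorem Ar.obs' [Obs I δ] {g : α → δ} (hg : Ar o g) :
    Ar o fun p : α × ℕ => Obs.obs I (g p.1) p.2 := ar_iff.2 hg.2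

theorem Ar.obs [Obs I δ] {g : α → δ} {h : α → ℕ} (hg : Ar o g) (hh : Ar o h) :
    Ar o fun a => Obs.obs I (g a) (h a) := hg.obs'.comp (Ar.id.pair hh)

theorem Ar.of_obs' [Obs I δ] {g : α → δ} (h0 : ∀ (i : I) t, Obs.ok i (g (Dom.pt i t)))
    (hg : Ar o fun p : α × ℕ => Obs.obs I (g p.1) p.2) : Ar o g := ⟨h0, ar_iff.1 hg⟩

theorem Ar.of_obs {g : α → ℝ} (hg : Ar o fun p : α × ℕ => Obs.obs I (g p.1) p.2) : Ar o g :=
  Ar.of_obs' (fun _ _ => trivial) hg

@[fun_prop] theorem Ar.encode {g : α → β} (hg : Ar o g) : Ar o fun a => encode (g a) :=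
  (Ar.of_prim Primrec.encode).comp hg

theorem Ar.of_graph {g : α → β} (hg : Ar o fun p : α × β => g p.1 = p.2) : Ar o g := by
  refine Ar.of_obs' (fun _ _ => rfl)
    ((Ar.ex (P := fun (p : α × ℕ) (b : β) => g p.1 = b ∧ Encodable.encode b = p.2)
    (Ar.and ?_ (by fun_prop))).congr fun p => by simp [Obs.obs, Dom.pr])
  exact hg.comp (h := fun q : (α × ℕ) × β => (q.1.1, q.2)) (by fun_prop)

@[fun_prop] theorem Ar.ite [Obs I δ] {P : α → Prop} [DecidablePred P] {g h : α → δ} (hP : Ar o P)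
    (hg : Ar o g) (hh : Ar o h) : Ar o fun a => if P a then g a else h a := by
  have h1 := hg.obs'
  have h2 := hh.obs'
  have h3 : Ar o fun p : α × ℕ => P p.1 := by fun_prop
  refine Ar.of_obs' (fun i t => ?_) (((h3.and h1).or (h3.not.and h2)).congr fun p => ?_)
  · split_ifs
    exacts [hg.1 i t, hh.1 i t]
  · by_cases h : P p.1 <;> simp [h]

@[fun_prop] theorem Ar.inl {g : α → β} (hg : Ar o g) : Ar o fun a => (Sum.inl (g a) : β ⊕ γ) :=
  (Ar.of_prim Primrec.sumInl).comp hg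

@[fun_prop] theorem Ar.inr {g : α → γ} (hg : Ar o g) : Ar o fun a => (Sum.inr (g a) : β ⊕ γ) :=
  (Ar.of_prim Primrec.sumInr).comp hg

theorem Ar.elim [Obs I δ] {s : α → β ⊕ γ} {g : α → β → δ} {h : α → γ → δ}
    (hs : Ar o s) (hg : Ar o fun p : α × β => g p.1 p.2) (hh : Ar o fun p : α × γ => h p.1 p.2) :
    Ar o fun a => Sum.elim (g a) (h a) (s a) := by
  refine Ar.of_obs' (fun i t => ?_) ((Ar.or
    (Ar.ex (P := fun (p : α × ℕ) (b : β) => s p.1 = .inl b ∧ Obs.obs I (g p.1 b) p.2)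
      (Ar.and (by fun_prop) (Ar.obs ?_ (by fun_prop))))
    (Ar.ex (P := fun (p : α × ℕ) (b : γ) => s p.1 = .inr b ∧ Obs.obs I (h p.1 b) p.2)
      (Ar.and (by fun_prop) (Ar.obs ?_ (by fun_prop))))).congr fun p => ?_)
  · rcases s (Dom.pt i t) with b | b
    exacts [hg.1 i (t, b), hh.1 i (t, b)]
  · fun_prop
  · fun_prop
  · cases s p.1 <;> simp

@[fun_prop] theorem Ar.add_nat {g h : α → ℕ} (hg : Ar o g) (hh : Ar o h) :
    Ar o fun a => g a + h a := Ar.prim₂ Primrec.nat_add hg hh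

@[fun_prop] theorem Ar.mul_nat {g h : α → ℕ} (hg : Ar o g) (hh : Ar o h) :
    Ar o fun a => g a * h a := Ar.prim₂ Primrec.nat_mul hg hh

@[fun_prop] theorem Ar.sub_nat {g h : α → ℕ} (hg : Ar o g) (hh : Ar o h) :
    Ar o fun a => g a - h a := Ar.prim₂ Primrec.nat_sub hg hh

@[fun_prop] theorem Ar.le_nat {g h : α → ℕ} (hg : Ar o g) (hh : Ar o h) :
    Ar o fun a => g a ≤ h a := Ar.rel Primrec.nat_le hg hh

@[fun_prop] theorem Ar.lt_nat {g h : α → ℕ} (hg : Ar o g) (hh : Ar o h) :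
    Ar o fun a => g a < h a := Ar.rel Primrec.nat_lt hg hh

@[fun_prop] theorem Ar.unpair {g : α → ℕ} (hg : Ar o g) : Ar o fun a => (g a).unpair :=
  (Ar.of_prim Primrec.unpair).comp hg

@[fun_prop] theorem Ar.npair {g h : α → ℕ} (hg : Ar o g) (hh : Ar o h) :
    Ar o fun a => Nat.pair (g a) (h a) := Ar.prim₂ Primrec₂.natPair hg hh

@[fun_prop] theorem Ar.some {g : α → β} (hg : Ar o g) : Ar o fun a => some (g a) :=
  (Ar.of_prim Primrec.option_some).comp hg

@[fun_prop] theorem Ar.cons {g : α → β} {L : α → List β} (hg : Ar o g) (hL : Ar o L) :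
    Ar o fun a => g a :: L a := Ar.prim₂ Primrec.list_cons hg hL

@[fun_prop] theorem Ar.append {L M : α → List β} (hL : Ar o L) (hM : Ar o M) :
    Ar o fun a => L a ++ M a := Ar.prim₂ Primrec.list_append hL hM

@[fun_prop] theorem Ar.length {L : α → List β} (hL : Ar o L) : Ar o fun a => (L a).length :=
  (Ar.of_prim Primrec.list_length).comp hL

@[fun_prop] theorem Ar.range {g : α → ℕ} (hg : Ar o g) : Ar o fun a => List.range (g a) :=
  (Ar.of_prim Primrec.list_range).comp hg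

@[fun_prop] theorem Ar.get? {L : α → List β} {g : α → ℕ} (hL : Ar o L) (hg : Ar o g) :
    Ar o fun a => (L a)[g a]? := Ar.prim₂ Primrec.list_getElem? hL hg

@[fun_prop] theorem Ar.getD {L : α → List β} {g : α → ℕ} (d : β) (hL : Ar o L) (hg : Ar o g) :
    Ar o fun a => (L a).getD (g a) d := Ar.prim₂ (Primrec.list_getD d) hL hg

@[fun_prop] theorem Ar.mem {L : α → List β} {g : α → β} (hL : Ar o L) (hg : Ar o g) :
    Ar o fun a => g a ∈ L a :=
  (Ar.ex (P := fun a (i : ℕ) => (L a)[i]? = Option.some (g a)) (by fun_prop)).congr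
    fun a => List.mem_iff_getElem?

@[fun_prop] theorem Ar.map {L : α → List β} {g : α → β → γ} (hL : Ar o L)
    (hg : Ar o fun p : α × β => g p.1 p.2) : Ar o fun a => (L a).map (g a) := by
  refine Ar.of_graph ((Ar.and (P := fun p : α × List γ => (L p.1).length = p.2.length)
    (by fun_prop) (Ar.all (P := fun (p : α × List γ) (q : ℕ × β) =>
      (L p.1)[q.1]? = Option.some q.2 → p.2[q.1]? = Option.some (g p.1 q.2))
      (Ar.imp (by fun_prop) (by fun_prop)))).congr fun p => ⟨?_, ?_⟩)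
  · intro e
    refine ⟨by simp [← e], fun q hq => by simp [← e, hq]⟩
  · rintro ⟨e1, e2⟩
    refine List.ext_getElem (by simpa using e1) fun i h1 h2 => ?_
    have h3 : i < (L p.1).length := by simpa using h1
    have := e2 (i, (L p.1)[i]) (by simp [h3])
    simp only [List.getElem?_eq_getElem h2, Option.some.injEq] at this
    simp [this]

@[fun_prop] theorem Ar.en [Inhabited β] {g : α → ℕ} (hg : Ar o g) :
    Ar o fun a => (MP_f43b6f_lc.en (g a) : β) :=
  (Ar.of_prim (Primrec.option_getD_default.comp Primrec.decode)).comp hg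

theorem Ar.choose {R : α → β → Prop} (hR : Ar o fun p : α × β => R p.1 p.2)
    (h : ∀ a, ∃ b, R a b) : ∃ g : α → β, Ar o g ∧ ∀ a, R a (g a) := by
  have h1 : ∀ a, ∃ b, R a b ∧ ∀ b', R a b' → Encodable.encode b ≤ Encodable.encode b' := fun a => by
    obtain ⟨b, h2, h3⟩ := (InvImage.wf (Encodable.encode (α := β)) Nat.lt_wfRel.wf).has_min
      {b | R a b} (h a)
    exact ⟨b, h2, fun b' hb' => not_lt.1 (h3 b' hb')⟩
  choose g h2 h3 using h1
  refine ⟨g, Ar.of_graph ((hR.and (Ar.all (P := fun (p : α × β) (b : β) =>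
    R p.1 b → Encodable.encode p.2 ≤ Encodable.encode b) (Ar.imp (by fun_prop) (by fun_prop)))).congr
    fun p => ⟨?_, ?_⟩), h2⟩
  · intro e
    exact ⟨e ▸ h2 _, e ▸ h3 _⟩
  · rintro ⟨e1, e2⟩
    exact encode_injective (le_antisymm (h3 _ _ e1) (e2 _ (h2 _)))

theorem Ar.nrec {s : α → ℕ → β} {h : α → ℕ → β → β}
    (hh : Ar o fun p : α × ℕ × β => h p.1 p.2.1 p.2.2) (h0 : Ar o fun a => s a 0)
    (hs : ∀ a n, s a (n + 1) = h a n (s a n)) : Ar o fun p : α × ℕ => s p.1 p.2 := by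
  obtain ⟨z, hz⟩ : ∃ z : α → β, ∀ a, s a 0 = z a := ⟨_, fun _ => rfl⟩
  simp only [hz] at h0
  refine Ar.of_graph ((Ar.ex (P := fun (p : (α × ℕ) × β) (L : List β) =>
    L[0]? = Option.some (z p.1.1) ∧ L[p.1.2]? = Option.some p.2 ∧ ∀ q : ℕ × β, q.1 < p.1.2 →
      L[q.1]? = Option.some q.2 → L[q.1 + 1]? = Option.some (h p.1.1 q.1 q.2))
    (Ar.and (by fun_prop) (Ar.and (by fun_prop) (Ar.all (Ar.imp (by fun_prop)
      (Ar.imp (by fun_prop) (by fun_prop))))))).congr fun p => ⟨?_, ?_⟩)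
  · intro e
    refine ⟨(List.range (p.1.2 + 1)).map (s p.1.1), by simp [hz], by simp [e], fun q h1 h2 => ?_⟩
    have h3 : q.1 < p.1.2 + 1 := by omega
    have h4 : q.1 + 1 < p.1.2 + 1 := by omega
    simp [h3] at h2
    simp [h4, hs, h2]
  · rintro ⟨L, h1, h2, h3⟩
    have : ∀ i ≤ p.1.2, L[i]? = Option.some (s p.1.1 i) := fun i hi => by
      induction i with
      | zero => rw [hz]; exact h1
      | succ i ih => rw [hs]; exact h3 (i, s p.1.1 i) hi (ih (by omega))
    exact Option.some_injective _ ((this _ le_rfl).symm.trans h2)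

/-- Dependent choice at a bounded level. -/
theorem Ar.dc [Inhabited β] {G : α → List β → Prop} {R : α → List β → β → Prop}
    (hG : Ar o fun p : α × List β => G p.1 p.2)
    (hR : Ar o fun p : α × List β × β => R p.1 p.2.1 p.2.2) (h0 : ∀ a, G a [])
    (h : ∀ a L, G a L → ∃ b, R a L b ∧ G a (b :: L)) :
    ∃ (x : α → ℕ → β) (L : α → ℕ → List β), (Ar o fun p : α × ℕ => x p.1 p.2) ∧
      (Ar o fun p : α × ℕ => L p.1 p.2) ∧ ∀ a, L a 0 = [] ∧
      ∀ n, L a (n + 1) = x a n :: L a n ∧ G a (L a n) ∧ R a (L a n) (x a n) := by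
  obtain ⟨g, hg, h1⟩ := Ar.choose (o := o) (R := fun (p : α × List β) b =>
    G p.1 p.2 → R p.1 p.2 b ∧ G p.1 (b :: p.2))
    (Ar.imp (by fun_prop) (by fun_prop)) fun p => by
      by_cases h2 : G p.1 p.2
      · exact (h _ _ h2).imp fun _ h3 _ => h3
      · exact ⟨default, fun h3 => absurd h3 h2⟩
  let L : α → ℕ → List β := fun a n => Nat.rec [] (fun _ M => g (a, M) :: M) n
  have hL : Ar o fun p : α × ℕ => L p.1 p.2 :=
    Ar.nrec (h := fun a _ M => g (a, M) :: M) (by fun_prop) (Ar.const []) fun _ _ => rfl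
  have h2 : ∀ a n, G a (L a n) := fun a n => by
    induction n with
    | zero => exact h0 a
    | succ n ih => exact (h1 (a, L a n) ih).2
  exact ⟨fun a n => g (a, L a n), L, hg.comp (Ar.id.fst.pair hL), hL,
    fun a => ⟨rfl, fun n => ⟨rfl, h2 a n, (h1 (a, L a n) (h2 a n)).1⟩⟩⟩

end Pool.Agent.Lib.MP_f43b6f_lc.V
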