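import Pool.Agent.Lib.MP_f43b6f_lc.UHull
import Pool.Agent.Lib.MP_f43b6f_lc.VReal

set_option autoImplicit false

/-!
Families of reservoirs and maximal consistent sets of conditions at a bounded level.
-/

namespace Pool.Agent.Lib.MP_f43b6f_lc.V

open Filter Topology Set Res

variable {I : Type} {o : Fam I} {F : I → Res}

/-- The family of reservoirs has bounded level. -/
class RA (o : Fam I) (F : I → Res) : Prop where
  out : Ar o fun p : I × ℕ × ℕ => (F p.1).mem p.2.1 p.2.2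

@[fun_prop] theorem Ar.resMem [hF : RA o F] {α : Type} [Dom I α] {ix : α → I} {g h : α → ℕ}
    (hi : Ar o ix) (hg : Ar o g) (hh : Ar o h) : Ar o fun a => (F (ix a)).mem (g a) (h a) :=
  hF.out.comp (hi.pair (hg.pairC hh))

/-- The family of colourings has bounded level. -/
class CA (o : Fam I) (c : I → Orc) : Prop where
  out : Ar o fun p : I × ℕ => (c p.1).f p.2

@[fun_prop] theorem Ar.orc {c : I → Orc} [hc : CA o c] {α : Type} [Dom I α] {ix : α → I}
    {g : α → ℕ} (hi : Ar o ix) (hg : Ar o g) : Ar o fun a => (c (ix a)).f (g a) :=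
  hc.out.comp (hi.pair hg)

theorem ar_stabMem {ι : Type} [Primcodable ι] [Inhabited ι] {κ : I → ι → ℝ} {sh : I → ι → ℕ → ι}
    (hF : RA o F)
    (hκ : Ar o fun p : I × ι => κ p.1 p.2) (hsh : Ar o fun p : I × ι × ℕ => sh p.1 p.2.1 p.2.2) :
    Ar o fun p : I × ℕ × ℕ => (F p.1).stabMem (κ p.1) (sh p.1) p.2.1 p.2.2 :=
  hF.out.and (Ar.all (Ar.imp (by fun_prop) (by fun_prop)))

@[fun_prop] theorem Ar.avg {α : Type} [Dom I α] {μ : α → List ℕ} {f : α → ℕ → ℝ}
    (hf : Ar o fun p : α × ℕ => f p.1 p.2) (hμ : Ar o μ) : Ar o fun a => avg (μ a) (f a) := by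
  unfold MP_f43b6f_lc.avg
  fun_prop

theorem ar_lst (hF : RA o F) :
    Ar o fun p : I × ℕ × List ℕ => (F p.1).lst p.2.1 p.2.2 :=
  Ar.and (by fun_prop) (Ar.all (Ar.imp (by fun_prop) (by fun_prop)))

variable {ι K : Type} {φ : I → ι → ℕ → ℝ} {g : K → (ι → ℝ) → ℝ} [Primcodable K] [Inhabited K]

theorem ar_sol (hφ : ∀ i a n, φ i a n ∈ Icc (0 : ℝ) 1) (hg : ∀ i, Continuous (g i))
    (hF : RA o F)
    (hg' : Ar o fun p : I × K × List ℕ => g p.2.1 fun a => avg p.2.2 (φ p.1 a))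
    {β : Type} [Primcodable β] {N : I × β → K → Prop}
    (hN : Ar o fun p : (I × β) × K => N p.1 p.2) :
    Ar o fun a : I × β => ((F a.1).sol (φ a.1) g (N a)).Nonempty := by
  refine Ar.congr ?_ fun a => sol_iff (hφ a.1) hg (N a)
  refine Ar.ex (Ar.all (Ar.ex (Ar.and ?_ (Ar.all (Ar.imp (by fun_prop) (Ar.imp (by fun_prop)
    (Ar.lt_real ?_ (by fun_prop))))))))
  · exact (ar_lst hF).comp (h := fun p : (((I × β) × Unit) × ℕ) × List ℕ =>
      (p.1.1.1.1, p.1.2, p.2)) (by fun_prop)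
  · exact hg'.comp (h := fun p : ((((I × β) × Unit) × ℕ) × List ℕ) × ℕ =>
      (p.1.1.1.1.1, en p.2, p.1.2)) (by fun_prop)

theorem greedy (hφ : ∀ i a n, φ i a n ∈ Icc (0 : ℝ) 1) (hg : ∀ i, Continuous (g i))
    (hF : RA o F)
    (hg' : Ar o fun p : I × K × List ℕ => g p.2.1 fun a => avg p.2.2 (φ p.1 a))
    {J : Type} [Primcodable J] [Inhabited J] {N : I → K → Prop}
    (hN : Ar o fun p : I × K => N p.1 p.2) (h0 : ∀ x, ((F x).sol (φ x) g (N x)).Nonempty)
    {B : I → J → K → Prop} (hB : Ar o fun p : I × J × K => B p.1 p.2.1 p.2.2) :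
    ∃ (A : I → J → Prop) (N' : I → K → Prop), (Ar o fun p : I × K => N' p.1 p.2) ∧ ∀ x,
      (∀ i, N' x i ↔ N x i ∨ ∃ j, A x j ∧ B x j i) ∧ ((F x).sol (φ x) g (N' x)).Nonempty ∧
      ∀ j, ((F x).sol (φ x) g (N' x) ∩ (F x).sol (φ x) g (B x j)).Nonempty → A x j := by
  classical
  let up : I × List J → K → Prop := fun L i => N L.1 i ∨ ∃ j, j ∈ L.2 ∧ B L.1 j i
  have h1 : Ar o fun L : I × List J => ((F L.1).sol (φ L.1) g (up L)).Nonempty :=
    ar_sol hφ hg hF hg' (by fun_prop)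
  let h : I → ℕ → List J → List J := fun x n L =>
    if ((F x).sol (φ x) g (up (x, en n :: L))).Nonempty then en n :: L else L
  let L : I → ℕ → List J := fun x n => Nat.rec [] (h x) n
  have hL : Ar o fun p : I × ℕ => L p.1 p.2 := Ar.nrec (h := h) (Ar.ite (h1.comp
    (h := fun p : I × ℕ × List J => (p.1, en p.2.1 :: p.2.2)) (by fun_prop)) (by fun_prop)
    (by fun_prop)) (Ar.const []) fun _ _ => rfl
  have h2 : ∀ x n, ((F x).sol (φ x) g (up (x, L x n))).Nonempty := fun x n => by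
    induction n with
    | zero => simpa [L, up] using h0 x
    | succ n ih =>
      change ((F x).sol (φ x) g (up (x, h x n (L x n)))).Nonempty
      simp only [h]
      split_ifs with h3
      exacts [h3, ih]
  have h3 : ∀ x n, L x n ⊆ L x (n + 1) := fun x n => by
    change L x n ⊆ h x n (L x n)
    simp only [h]
    split_ifs <;> simp
  refine ⟨fun x j => ∃ n, j ∈ L x n, fun x i => N x i ∨ ∃ j, (∃ n, j ∈ L x n) ∧ B x j i, ?_,
    fun x => ⟨fun _ => Iff.rfl, ?_, fun j ⟨κ, h4, h5⟩ => ⟨Encodable.encode j + 1, ?_⟩⟩⟩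
  · clear_value L
    fun_prop
  · obtain ⟨κ, h4, h5⟩ := exists_mem_cc (F := F x) (cube_compact ι) (cube_convex ι)
      (fun n a _ => hφ x a n) (D := fun M => {y | ∀ i, up (x, L x M) i → g i y ≤ 0})
      (fun M => by
        simp only [ofPred_forall]
        exact isClosed_iInter fun l => isClosed_iInter fun _ => isClosed_le (hg _) continuous_const)
      (fun M y hy i hi => hy i (hi.imp_right fun ⟨j, a, b⟩ => ⟨j, h3 x M a, b⟩))
      fun M => (h2 x M).imp fun κ hκ => ⟨mem_iInter.1 hκ.1 M, hκ.2⟩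
    refine ⟨κ, h4, fun i hi => ?_⟩
    rcases hi with hi | ⟨j, ⟨n, a⟩, b⟩
    exacts [h5 0 i (Or.inl hi), h5 n i (Or.inr ⟨j, a, b⟩)]
  · change j ∈ h x _ (L x _)
    simp only [h, en_encode]
    rw [if_pos]
    · simp
    refine ⟨κ, h4.1, fun i hi => ?_⟩
    rcases hi with hi | ⟨j', a, b⟩
    · exact h4.2 i (Or.inl hi)
    rcases List.mem_cons.1 a with rfl | a
    exacts [h5.2 i b, h4.2 i (Or.inr ⟨j', ⟨_, a⟩, b⟩)]

end Pool.Agent.Lib.MP_f43b6f_lc.V
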