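import Pool.Agent.Lib.MP_f43b6f_lc.UAsm
import Pool.Agent.Lib.MP_f43b6f_lc.VHull

set_option autoImplicit false

/-!
Assembly for families: one round of the construction has bounded level.
-/

namespace Pool.Agent.Lib.MP_f43b6f_lc.V

open Filter Topology Set

/-- The forcing data on a reservoir `F` for a colouring with `k` colours. -/
structure Forc (o : Orc) (k : ℕ) (F : Res) where
  /-- the windows -/
  O : Res
  /-- positivity of window times monomial, relative to a set of killed pairs -/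
  Pos : (ℕ × List (ℕ × ℕ) → Prop) → ℕ → List (ℕ × ℕ) → Prop
  hO : ∀ j b, O.mem j b → F.mem j b
  pos_empty : Pos (fun _ => False) 0 []
  not_pos : ∀ D j v, D (j, v) → ¬ Pos D j v
  pos_trans : ∀ D D' j v, Pos D j v → (∀ p, D' p → ¬ Pos D p.1 p.2) → Pos D' j v
  pos_mono : ∀ D j j' v, Pos D j v → j' ≤ j → Pos D j' v
  pos_split : ∀ D j, Pos D 0 [] → ∃ i < k, Pos D j [(i, 0)]
  pos_point : ∀ D j i, Pos D j [(i, 0)] → ∀ N, ∃ b, F.mem N b ∧ o.f b = i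
  step : ∀ j, ∃ j1, ∀ D v i N, Pos D j1 v →
    (∀ b, N ≤ b → vl o v b → ¬ Pos D j1 ((i, b) :: v)) →
    ∃ r, O.mem j r ∧ o.f r ≠ i ∧ (∀ n, n < j → ¬ Pos D j [(i, n)] → o.f (n + r) ≠ i) ∧
      ∃ j2, Pos (fun p => D p ∨ (p.1 = j2 ∧ ∃ b, (b = 0 ∨ O.mem j2 b) ∧ p.2 = [(i, r + b)])) 0 []

/-- A solution. -/
def Sol (c : Orc) (X : Set ℕ) : Prop := X.Infinite ∧ ∃ i, ∀ s ∈ FSle 2 X, c.f s = i

theorem sol_of {o : Orc} {x : ℕ → ℕ} (hm : StrictMono x) {i : ℕ}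
    (h1 : ∀ n, o.f (x n) = i) (h2 : ∀ m n, m < n → o.f (x m + x n) = i) : Sol o (range x) := by
  refine ⟨infinite_range_of_injective hm.injective, i, ?_⟩
  rintro _ ⟨T, hT, c1, c2, rfl⟩
  rcases (show T.card = 1 ∨ T.card = 2 by omega) with h | h
  · obtain ⟨a, rfl⟩ := Finset.card_eq_one.1 h
    obtain ⟨n, rfl⟩ := hT (show a ∈ ({a} : Finset ℕ) by simp)
    simpa using h1 n
  · obtain ⟨a, b, hab, rfl⟩ := Finset.card_eq_two.1 h
    obtain ⟨m, rfl⟩ := hT (show a ∈ ({a, b} : Finset ℕ) by simp)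
    obtain ⟨n, rfl⟩ := hT (show b ∈ ({x m, b} : Finset ℕ) by simp)
    rw [Finset.sum_pair hab]
    rcases lt_trichotomy m n with h | rfl | h
    · exact h2 m n h
    · exact absurd rfl hab
    · rw [add_comm]
      exact h2 n m h

/-- The pairs killed at the start. -/
def E0 (k : ℕ) (J : List ℕ) (j : ℕ) (p : ℕ × List (ℕ × ℕ)) : Prop :=
  p.1 = j ∧ ∃ i, i < k ∧ ¬ i ∈ J ∧ p.2 = [(i, 0)]

/-- The pairs killed along the construction. -/
def OO (O : Res) (D : ℕ × List (ℕ × ℕ) → Prop) (i : ℕ) (L : List (ℕ × ℕ))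
    (p : ℕ × List (ℕ × ℕ)) : Prop :=
  D p ∨ ∃ q, q ∈ L ∧ p.1 = q.2 ∧ ∃ b, (b = 0 ∨ O.mem q.2 b) ∧ p.2 = [(i, q.1 + b)]

namespace Forc

variable {o : Orc} {k : ℕ} {F : Res} (Z : Forc o k F)

theorem pos_sub {D D' : ℕ × List (ℕ × ℕ) → Prop} {j : ℕ} {v : List (ℕ × ℕ)} (h : Z.Pos D j v)
    (hD : ∀ p, D' p → D p) : Z.Pos D' j v :=
  Z.pos_trans D D' j v h fun p hp => Z.not_pos D p.1 p.2 (hD p hp)

theorem exists_colour : ∃ (J : List ℕ) (j i : ℕ), i < k ∧ Z.Pos (E0 k J j) 0 [] ∧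
    ∀ D', (∀ p, E0 k J j p → D' p) → Z.Pos D' 0 [] → ∀ j, Z.Pos D' j [(i, 0)] := by
  classical
  have h0 : ∃ n, ∃ I : List ℕ, I.length = n ∧ ∃ j, Z.Pos (E0 k I j) 0 [] :=
    ⟨_, List.range k, rfl, 0, Z.pos_sub Z.pos_empty fun p ⟨_, i, h1, h2, _⟩ =>
      h2 (List.mem_range.2 h1)⟩
  obtain ⟨I, h1, j₀, h2⟩ := Nat.find_spec h0
  obtain ⟨i, h3, h4⟩ := Z.pos_split _ j₀ h2
  have h5 : i ∈ I := by
    by_contra h5
    exact Z.not_pos _ _ _ ⟨rfl, i, h3, h5, rfl⟩ h4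
  refine ⟨I, j₀, i, h3, h2, fun D hD hp j => ?_⟩
  by_contra h6
  refine Nat.find_min h0 (m := (I.erase i).length) ?_ ⟨_, rfl, max j j₀, ?_⟩
  · rw [← h1, List.length_erase_of_mem h5]
    have := List.length_pos_of_mem h5
    omega
  · refine Z.pos_trans D _ 0 [] hp ?_
    rintro ⟨j', v⟩ ⟨rfl, i', a1, a2, rfl⟩ a3
    by_cases a4 : i' = i
    · exact h6 (a4 ▸ Z.pos_mono _ _ _ _ a3 (le_max_left _ _))
    · exact Z.not_pos D j₀ _ (hD _ ⟨rfl, i', a1, fun a5 => a2 ((List.mem_erase_of_ne a4).2 a5),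
        rfl⟩) (Z.pos_mono _ _ _ _ a3 (le_max_right _ _))

/-- The good elements. -/
def BB (D : ℕ × List (ℕ × ℕ) → Prop) (i : ℕ) (L : ℕ → List (ℕ × ℕ)) (n : ℕ) : Prop :=
  o.f n ≠ i ∧ ∃ q : ℕ × ℕ, ∀ b, (b = 0 ∨ Z.O.mem q.1 b) →
    ¬ Z.Pos (OO Z.O D i (L q.2)) q.1 [(i, n + b)]

theorem failure_core {D : ℕ × List (ℕ × ℕ) → Prop} {i : ℕ} {x : ℕ → ℕ × ℕ}
    {L : ℕ → List (ℕ × ℕ)} (l0 : L 0 = []) (hL : ∀ n, L (n + 1) = x n :: L n ∧
      Z.Pos (OO Z.O D i (L n)) 0 [] ∧ Z.O.mem (L n).length (x n).1 ∧ o.f (x n).1 ≠ i ∧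
      ∀ m, m < (L n).length → ¬ Z.Pos (OO Z.O D i (L n)) (L n).length [(i, m)] →
        o.f (m + (x n).1) ≠ i) :
    ∃ F' : Res, ∀ N t, F'.mem N t ↔ F.mem N t ∧ Z.BB D i L t ∧
      ∀ n, n < N → Z.BB D i L n → Z.BB D i L (n + t) := by
  set B := Z.BB D i L
  have len : ∀ n, (L n).length = n := fun n => by
    induction n with
    | zero => simp [l0]
    | succ n ih => simp [(hL n).1, ih]
  have sub : ∀ m n, m ≤ n → ∀ p, OO Z.O D i (L m) p → OO Z.O D i (L n) p := fun m n hmn => by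
    induction hmn with
    | refl => exact fun _ hp => hp
    | step _ ih =>
      intro p hp
      rcases ih p hp with hp | ⟨q, c1, c2⟩
      · exact .inl hp
      · exact .inr ⟨q, by simp [(hL _).1, c1], c2⟩
  have hR : ∀ l, Z.O.mem l (x l).1 ∧ o.f (x l).1 ≠ i ∧ ∀ n, n < l →
      ¬ Z.Pos (OO Z.O D i (L l)) l [(i, n)] → o.f (n + (x l).1) ≠ i := fun l => by
    simpa only [len] using (hL l).2.2
  have hB : ∀ n, ∀ᶠ l in atTop, B n → B (n + (x l).1) := fun n => by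
    by_cases hn : B n
    · obtain ⟨-, ⟨j, l₀⟩, c1⟩ := hn
      filter_upwards [eventually_ge_atTop j, eventually_ge_atTop l₀, eventually_gt_atTop n]
        with l d1 d2 d3 _
      have d4 := Z.O.anti d1 (hR l).1
      obtain ⟨N', d5⟩ := Z.O.sum d4
      refine ⟨(hR l).2.2 n d3 fun d6 => c1 0 (.inl rfl)
        (Z.pos_sub (Z.pos_mono _ _ _ _ d6 d1) (sub _ _ d2)), (max j N', l₀), fun b d6 d7 => ?_⟩
      refine c1 ((x l).1 + b) (.inr ?_) (add_assoc n _ b ▸ Z.pos_mono _ _ _ _ d7 (le_max_left _ _))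
      rcases d6 with rfl | d6
      exacts [d4, d5 b (Z.O.anti (le_max_right _ _) d6)]
    · exact Eventually.of_forall fun _ h => absurd h hn
  refine ⟨{
    mem := fun N t => F.mem N t ∧ B t ∧ ∀ n, n < N → B n → B (n + t)
    anti := fun hMN ht => ⟨F.anti hMN ht.1, ht.2.1, fun n hn => ht.2.2 n (hn.trans_le hMN)⟩
    ne := fun N => ?_
    ge := fun ht => F.ge ht.1
    sum := fun {N b} hb => ?_ }, fun _ _ => Iff.rfl⟩
  · obtain ⟨l, c1, c2⟩ := (((eventually_all_finset (Finset.range N)).2 fun n _ => hB n).and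
      (eventually_ge_atTop N)).exists
    refine ⟨(x l).1, F.anti c2 (Z.hO _ _ (hR l).1), ⟨(hR l).2.1, ((x l).2, l + 1), fun b hb =>
      Z.not_pos _ _ _ (.inr ⟨x l, by simp [(hL l).1], rfl, b, hb, rfl⟩)⟩,
      fun n hn => c1 n (Finset.mem_range.2 hn)⟩
  · obtain ⟨N₁, c1⟩ := F.sum hb.1
    refine ⟨N₁ + N + b + 1, fun t ht => ⟨c1 t (F.anti (by omega) ht.1),
      ht.2.2 b (by omega) hb.2.1, fun n hn c2 => ?_⟩⟩
    rw [← add_assoc]
    exact ht.2.2 _ (by omega) (hb.2.2 n hn c2)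

end Forc

variable {I : Type} {o : Fam I} {c : I → Orc} {k : I → ℕ} {F : I → Res}

/-- The forcing data have bounded level. -/
structure ForcA (o : Fam I) (Z : ∀ x, Forc (c x) (k x) (F x)) : Prop where
  aO : RA o fun x => (Z x).O
  aPos : ∀ {β : Type} [Primcodable β] (D : I × β → ℕ × List (ℕ × ℕ) → Prop),
    Ar o (fun p : (I × β) × (ℕ × List (ℕ × ℕ)) => D p.1 p.2) →
    Ar o fun p : (I × β) × (ℕ × List (ℕ × ℕ)) => (Z p.1.1).Pos (D p.1) p.2.1 p.2.2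

theorem ar_vl (hc : CA o c) {α : Type} [Dom I α] {ix : α → I} {L : α → List (ℕ × ℕ)} {g : α → ℕ}
    (hi : Ar o ix) (hL : Ar o L) (hg : Ar o g) : Ar o fun a => vl (c (ix a)) (L a) (g a) :=
  Ar.all (Ar.imp (by fun_prop) (by fun_prop))

theorem Ar.dcS {β : Type} [Primcodable β] [Inhabited β] (S : I → Prop) {G : I → List β → Prop}
    {R : I → List β → β → Prop} (hG : Ar o fun p : I × List β => G p.1 p.2)
    (hR : Ar o fun p : I × List β × β => R p.1 p.2.1 p.2.2) (h0 : ∀ a, S a → G a [])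
    (h : ∀ a, S a → ∀ L, G a L → ∃ b, R a L b ∧ G a (b :: L)) :
    ∃ (x : I → ℕ → β) (L : I → ℕ → List β), (Ar o fun p : I × ℕ => x p.1 p.2) ∧
      (Ar o fun p : I × ℕ => L p.1 p.2) ∧ ∀ a, S a → L a 0 = [] ∧
      ∀ n, L a (n + 1) = x a n :: L a n ∧ G a (L a n) ∧ R a (L a n) (x a n) := by
  have hS := Ar.idxP o S
  obtain ⟨x, L, h1, h2, h3⟩ := Ar.dc (o := o) (G := fun a L => S a → G a L)
    (R := fun a L b => S a → R a L b) (Ar.imp (by fun_prop) hG) (Ar.imp (by fun_prop) hR) h0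
    fun a L hL => by
      by_cases ha : S a
      · exact (h a ha L (hL ha)).imp fun _ h => ⟨fun _ => h.1, fun _ => h.2⟩
      · exact ⟨default, fun h => absurd h ha, fun h => absurd h ha⟩
  exact ⟨x, L, h1, h2, fun a ha => ⟨(h3 a).1, fun n =>
    ⟨((h3 a).2 n).1, ((h3 a).2 n).2.1 ha, ((h3 a).2 n).2.2 ha⟩⟩⟩

namespace ForcA

variable {Z : ∀ x, Forc (c x) (k x) (F x)} (hZ : ForcA o Z)

include hZ

theorem arPos {α β : Type} [Dom I α] [Primcodable β] (D : I × β → ℕ × List (ℕ × ℕ) → Prop)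
    (hD : Ar o fun p : (I × β) × (ℕ × List (ℕ × ℕ)) => D p.1 p.2) {a : α → I × β} {j : α → ℕ}
    {v : α → List (ℕ × ℕ)} (ha : Ar o a) (hj : Ar o j) (hv : Ar o v) :
    Ar o fun b => (Z (a b).1).Pos (D (a b)) (j b) (v b) :=
  (hZ.aPos D hD).comp (h := fun b => (a b, (j b, v b))) (by fun_prop)

theorem success (hc : CA o c) {D : I → ℕ × List (ℕ × ℕ) → Prop}
    (hD : Ar o fun p : I × ℕ × List (ℕ × ℕ) => D p.1 p.2) (i j : I → ℕ) (S : I → Prop)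
    (h0 : ∀ x, S x → (Z x).Pos (D x) (j x) [(i x, 0)])
    (h : ∀ x, S x → ∀ v N, (Z x).Pos (D x) (j x) v →
      ∃ b, N ≤ b ∧ vl (c x) v b ∧ (Z x).Pos (D x) (j x) ((i x, b) :: v)) :
    ∃ X : I → Set ℕ, (Ar o fun p : I × ℕ => p.2 ∈ X p.1) ∧ ∀ x, S x → Sol (c x) (X x) := by
  have hi := Ar.idx o i
  have hj := Ar.idx o j
  have hm : Ar o fun p : I × List ℕ => Forc.mono (i p.1) p.2 := by
    unfold Forc.mono
    fun_prop
  obtain ⟨x, L, ax, -, hL⟩ := Ar.dcS (o := o) S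
    (G := fun a xs => (Z a).Pos (D a) (j a) (Forc.mono (i a) xs))
    (R := fun a xs b => (∀ y, y ∈ xs → y < b) ∧ vl (c a) (Forc.mono (i a) xs) b)
    (hZ.arPos (fun p : I × ℕ => D p.1) (by fun_prop) (a := fun p : I × List ℕ => (p.1, 0))
      (by fun_prop) (by fun_prop) hm)
    (Ar.and (Ar.all (Ar.imp (by fun_prop) (by fun_prop))) (ar_vl hc (by fun_prop)
      (hm.comp (h := fun p : I × List ℕ × ℕ => (p.1, p.2.1)) (by fun_prop)) (by fun_prop))) h0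
    fun a ha xs hxs => by
      obtain ⟨b, a1, a2, a3⟩ := h a ha _ (xs.sum + 1) hxs
      exact ⟨b, ⟨fun y hy => Nat.lt_of_le_of_lt (List.le_sum_of_mem hy) a1, a2⟩, a3⟩
  refine ⟨fun a => range (x a),
    Ar.ex (P := fun (p : I × ℕ) m => x p.1 m = p.2) (by fun_prop), fun a ha => ?_⟩
  obtain ⟨l0, hL⟩ := hL a ha
  have h1 : ∀ n m, m < n → x a m ∈ L a n := fun n => by
    induction n with
    | zero => simp
    | succ n ih =>
      intro m hm
      rw [(hL n).1, List.mem_cons]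
      rcases Nat.lt_succ_iff_lt_or_eq.1 hm with h | rfl
      exacts [.inr (ih m h), .inl rfl]
  refine sol_of (fun m n hmn => (hL n).2.2.1 _ (h1 n m hmn)) (i := i a) (fun n => ?_)
    fun m n hmn => ?_
  · simpa using (hL n).2.2.2 (i a, 0) (by simp [Forc.mono])
  · exact (hL n).2.2.2 (i a, x a m) (by simp [Forc.mono, h1 n m hmn])

theorem arOO {D : I → ℕ × List (ℕ × ℕ) → Prop}
    (hD : Ar o fun p : I × ℕ × List (ℕ × ℕ) => D p.1 p.2) (i : I → ℕ) :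
    Ar o fun p : (I × List (ℕ × ℕ)) × (ℕ × List (ℕ × ℕ)) =>
      OO (Z p.1.1).O (D p.1.1) (i p.1.1) p.1.2 p.2 := by
  have hi := Ar.idx o i
  have aO := hZ.aO
  refine Ar.or (by fun_prop) (Ar.ex (Ar.and (by fun_prop) (Ar.and (by fun_prop) (Ar.ex (Ar.and
    (Ar.or (by fun_prop) (Ar.resMem (F := fun x => (Z x).O) ?_ ?_ ?_)) (by fun_prop))))))
  all_goals fun_prop

theorem failure (hc : CA o c) (hF : RA o F) {D : I → ℕ × List (ℕ × ℕ) → Prop}
    (hD : Ar o fun p : I × ℕ × List (ℕ × ℕ) => D p.1 p.2) (i : I → ℕ) (S : I → Prop)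
    (h0 : ∀ x, (Z x).Pos (D x) 0 [])
    (h : ∀ x, S x → ∀ L, (Z x).Pos (OO (Z x).O (D x) (i x) L) 0 [] → ∀ j, ∃ v N,
      (Z x).Pos (OO (Z x).O (D x) (i x) L) j v ∧ ∀ b, N ≤ b → vl (c x) v b →
        ¬ (Z x).Pos (OO (Z x).O (D x) (i x) L) j ((i x, b) :: v)) :
    ∃ F' : I → Res, RA o F' ∧ ∀ x, S x → (∀ N b, (F' x).mem N b → (F x).mem N b) ∧
      ¬ Col (c x) (F' x) (i x) := by
  have hi := Ar.idx o i
  have hS := Ar.idxP o S
  have aO := hZ.aO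
  have aOO := hZ.arOO hD i
  obtain ⟨x, L, ax, aL, hL⟩ := Ar.dcS (o := o) S
    (G := fun a L => (Z a).Pos (OO (Z a).O (D a) (i a) L) 0 [])
    (R := fun a L q => (Z a).O.mem L.length q.1 ∧ (c a).f q.1 ≠ i a ∧ ∀ n, n < L.length →
      ¬ (Z a).Pos (OO (Z a).O (D a) (i a) L) L.length [(i a, n)] → (c a).f (n + q.1) ≠ i a)
    (hZ.arPos (fun a => OO (Z a.1).O (D a.1) (i a.1) a.2) aOO (a := fun L => L)
      (j := fun _ => 0) (v := fun _ => []) (by fun_prop)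
      (by fun_prop) (by fun_prop))
    (Ar.and (Ar.resMem (F := fun x => (Z x).O) (by fun_prop) (by fun_prop) (by fun_prop))
      (Ar.and (by fun_prop) (Ar.all (Ar.imp (by fun_prop) (Ar.imp
        (Ar.not (hZ.arPos (fun a => OO (Z a.1).O (D a.1) (i a.1) a.2) aOO
          (a := fun p : (I × List (ℕ × ℕ) × ℕ × ℕ) × ℕ => (p.1.1, p.1.2.1))
          (j := fun p => p.1.2.1.length) (v := fun p => [(i p.1.1, p.2)])
          (by fun_prop) (by fun_prop) (by fun_prop))) (by fun_prop))))))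
    (fun a _ => (Z a).pos_sub (h0 a) fun p hp => by simpa [OO] using hp)
    fun a ha L hL => by
      obtain ⟨j1, a1⟩ := (Z a).step L.length
      obtain ⟨v, N, a2, a3⟩ := h a ha L hL j1
      obtain ⟨r, b1, b2, b3, j2, b4⟩ := a1 _ v (i a) N a2 a3
      refine ⟨(r, j2), ⟨b1, b2, b3⟩, (Z a).pos_sub b4 ?_⟩
      rintro p (hp | ⟨q, c1, c2⟩)
      · exact .inl (.inl hp)
      · rcases List.mem_cons.1 c1 with rfl | c1
        · exact .inr c2
        · exact .inl (.inr ⟨q, c1, c2⟩)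
  have aB : Ar o fun p : I × ℕ => (Z p.1).BB (D p.1) (i p.1) (L p.1) p.2 :=
    Ar.and (by fun_prop) (Ar.ex (Ar.all (Ar.imp (Ar.or (by fun_prop)
      (Ar.resMem (F := fun x => (Z x).O) (by fun_prop) (by fun_prop) (by fun_prop)))
      (Ar.not (hZ.arPos (fun a => OO (Z a.1).O (D a.1) (i a.1) a.2) aOO
        (a := fun p : ((I × ℕ) × ℕ × ℕ) × ℕ => (p.1.1.1, L p.1.1.1 p.1.2.2))
        (j := fun p => p.1.2.1) (v := fun p => [(i p.1.1.1, p.1.1.2 + p.2)])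
        (by fun_prop) (by fun_prop) (by fun_prop))))))
  obtain ⟨B, hB⟩ : ∃ B : I → ℕ → Prop, ∀ a, (Z a).BB (D a) (i a) (L a) = B a := ⟨_, fun _ => rfl⟩
  have key : ∀ a, ∃ F' : Res, ∀ N t, F'.mem N t ↔ (F a).mem N t ∧
      (S a → B a t ∧ ∀ n, n < N → B a n → B a (n + t)) := fun a => by
    by_cases ha : S a
    · simpa only [ha, forall_const, hB] using (Z a).failure_core (hL a ha).1 (hL a ha).2
    · exact ⟨F a, by simp [ha]⟩
  choose F' hF' using key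
  simp only [hB] at aB
  refine ⟨F', ⟨Ar.congr ?_ fun p => hF' p.1 p.2.1 p.2.2⟩,
    fun a ha => ⟨fun N b hb => ((hF' a N b).1 hb).1, fun hc => ?_⟩⟩
  · exact Ar.and hF.out (Ar.imp (by fun_prop) (Ar.and (by fun_prop) (Ar.all (Ar.imp (by fun_prop)
      (Ar.imp (by fun_prop) (by fun_prop))))))
  · obtain ⟨b, c1, c2⟩ := hc 0
    have := (((hF' a 0 b).1 c1).2 ha).1
    rw [← hB] at this
    exact this.1 c2

theorem dich (hc : CA o c) (hF : RA o F) : ∃ (X : I → Set ℕ) (F' : I → Res),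
    (Ar o fun p : I × ℕ => p.2 ∈ X p.1) ∧ RA o F' ∧ ∀ x, Sol (c x) (X x) ∨
      (∀ N b, (F' x).mem N b → (F x).mem N b) ∧
        ∃ i < k x, Col (c x) (F x) i ∧ ¬ Col (c x) (F' x) i := by
  choose J j₀ i h2 h3 h4 using fun x => (Z x).exists_colour
  have hk := Ar.idx o k
  have hJ := Ar.idx o J
  have hj := Ar.idx o j₀
  have hD : Ar o fun p : I × ℕ × List (ℕ × ℕ) => E0 (k p.1) (J p.1) (j₀ p.1) p.2 := by
    unfold E0
    fun_prop
  obtain ⟨D, e⟩ : ∃ D : I → ℕ × List (ℕ × ℕ) → Prop, ∀ x, E0 (k x) (J x) (j₀ x) = D x :=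
    ⟨_, fun _ => rfl⟩
  simp only [e] at hD h3 h4
  let S : I → Prop := fun x => ∀ L, (Z x).Pos (OO (Z x).O (D x) (i x) L) 0 [] → ∀ j, ∃ v N,
    (Z x).Pos (OO (Z x).O (D x) (i x) L) j v ∧ ∀ b, N ≤ b → vl (c x) v b →
      ¬ (Z x).Pos (OO (Z x).O (D x) (i x) L) j ((i x, b) :: v)
  obtain ⟨F', a1, a2⟩ := hZ.failure hc hF hD i S h3 fun _ h => h
  have key : ∀ x, ∃ L j, ¬ S x → (Z x).Pos (OO (Z x).O (D x) (i x) L) 0 [] ∧ ∀ v N,
      (Z x).Pos (OO (Z x).O (D x) (i x) L) j v → ∃ b, N ≤ b ∧ vl (c x) v b ∧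
        (Z x).Pos (OO (Z x).O (D x) (i x) L) j ((i x, b) :: v) := fun x => by
    by_contra h
    push Not at h
    refine (h [] 0).1 fun L hL j => ?_
    obtain ⟨v, N, b1, b2⟩ := (h L j).2 hL
    exact ⟨v, N, b1, b2⟩
  choose L j b using key
  have hL := Ar.idx o L
  obtain ⟨X, a3, a4⟩ := hZ.success hc (D := fun x => OO (Z x).O (D x) (i x) (L x))
    ((hZ.arOO hD i).comp (h := fun p : I × ℕ × List (ℕ × ℕ) => ((p.1, L p.1), p.2))
      (by fun_prop)) i j (fun x => ¬ S x)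
    (fun x hx => h4 x _ (fun _ h => .inl h) (b x hx).1 _) fun x hx => (b x hx).2
  refine ⟨X, F', a3, a1, fun x => ?_⟩
  by_cases hx : S x
  · exact .inr ⟨(a2 x hx).1, i x, h2 x,
      (Z x).pos_point (D x) 0 (i x) (h4 x _ (fun _ h => h) (h3 x) 0), (a2 x hx).2⟩
  · exact .inl (a4 x hx)

end ForcA

end Pool.Agent.Lib.MP_f43b6f_lc.V
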