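import Pool.Agent.Lib.MP_f43b6f_lc.UIdem
import Pool.Agent.Lib.MP_f43b6f_lc.VHull

set_option autoImplicit false

/-!
Families of idempotent means at a bounded level.
-/

namespace Pool.Agent.Lib.MP_f43b6f_lc.V

open Filter Topology Set

variable {I : Type} {o : Fam I} {ι : Type} [Primcodable ι] [Inhabited ι]

theorem Ar.bil {α : Type} [Dom I α] {x : α → ι → ℝ}
    (hx : Ar o fun p : α × ι => x p.1 p.2) : Ar o fun a => bil (x a) (x a) := by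
  refine Ar.lim (x := fun a n => ((List.range n).map fun l =>
    MP_f43b6f_lc.iv l * MP_f43b6f_lc.iv l *
      (clamp (x a (MP_f43b6f_lc.en l)) * clamp (x a (MP_f43b6f_lc.en l)))).sum)
    (by unfold clamp; fun_prop) fun a => ?_
  have := (summable_sw fun l => abs_mul_le (clamp_mem (x a (MP_f43b6f_lc.en l)))
    (clamp_mem (x a (MP_f43b6f_lc.en l)))).hasSum.tendsto_sum_nat
  refine this.congr fun n => ?_
  induction n with
  | zero => simp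
  | succ n ih => rw [Finset.sum_range_succ, List.range_succ, List.map_append, List.sum_append, ih]
                 simp

/-- The conditions that fix the values on the lower family. -/
def N0 {ι₀ : Type} (e : ι₀ → ι) (lam : ι₀ → ℝ) (i : (List (ι × ℕ) × ℕ) ⊕ ℕ) : Prop :=
  ∃ p : ι₀ × ℕ × ℕ, i = .inl ([(e p.1, p.2.1)], p.2.2) ∧ rv p.2.1 * lam p.1 ≤ rv p.2.2

/-- The blocks of shifted conditions. -/
def B0 (F : Res) (sh : ι → ℕ → ι) (j : List (ι × ℕ) × ℕ × ℕ) (i : (List (ι × ℕ) × ℕ) ⊕ ℕ) : Prop :=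
  i = .inl (j.1, j.2.1) ∨ ∃ s, F.mem j.2.2 s ∧ i = .inl (j.1.map fun p => (sh p.1 s, p.2), j.2.1)

theorem n0_iff {ι₀ : Type} (e : ι₀ → ι) (lam : ι₀ → ℝ) (k : ι → ℝ) :
    (∀ i, N0 e lam i → cond' i k ≤ 0) ↔ ∀ a, k (e a) = lam a := by
  refine ⟨fun h a => ?_, ?_⟩
  · have h4 : ∀ q, rv q * k (e a) ≤ rv q * lam a := fun q => le_of_forall_gt fun c hc => by
      obtain ⟨r, a1, a2⟩ := exists_rv hc
      have := h _ ⟨(a, q, r), rfl, a1.le⟩
      simp only [cond', Sum.elim_inl, lin_apply] at this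
      simp at this
      linarith
    have a1 := h4 (Nat.pair 1 (Nat.pair 0 0))
    have a2 := h4 (Nat.pair 0 (Nat.pair 1 0))
    simp only [rv_pair] at a1 a2
    norm_num at a1 a2
    linarith
  · rintro h _ ⟨p, rfl, hp⟩
    simpa [cond', lin_apply, h] using hp

theorem max_core {F : Res} {φ : ι → ℕ → ℝ} (hφ : ∀ a n, φ a n ∈ Icc (0 : ℝ) 1) {sh : ι → ℕ → ι}
    (h1 : ∀ a b n, φ (sh a b) n = φ a (b + n)) (h2 : ∀ a b n, sh (sh a b) n = sh a (b + n))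
    {ι₀ : Type} {e : ι₀ → ι} {sh₀ : ι₀ → ℕ → ι₀}
    (h3 : ∀ a b, sh (e a) b = e (sh₀ a b)) {lam : ι₀ → ℝ}
    (ha : ∀ a, Tendsto (fun b => lam (sh₀ a b)) F.fil (𝓝 (lam a)))
    {A₁ : List (ι × ℕ) × ℕ × ℕ → Prop} {A₂ : ℕ → Prop}
    {N₁ N₂ : (List (ι × ℕ) × ℕ) ⊕ ℕ → Prop}
    (a2 : ∀ i, N₁ i ↔ N0 e lam i ∨ ∃ j, A₁ j ∧ B0 F sh j i)
    (a4 : ∀ j, (F.sol φ cond' N₁ ∩ F.sol φ cond' (B0 F sh j)).Nonempty → A₁ j)
    (b2 : ∀ i, N₂ i ↔ N₁ i ∨ ∃ j, A₂ j ∧ i = .inr j)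
    (b4 : ∀ j, (F.sol φ cond' N₂ ∩ F.sol φ cond' fun i => i = .inr j).Nonempty → A₂ j)
    {κ : ι → ℝ} (d2 : κ ∈ F.sol φ cond' N₂) :
    ∃ A : Set (ι → ℝ), (∀ a, κ (e a) = lam a) ∧ κ ∈ A ∧ Convex ℝ A ∧
      A ⊆ F.hull (fun n a => φ a n) ∧ (∀ k ∈ A, F.hull (fun n => shift sh n k) = A) ∧
      ∀ k ∈ A, bil k k ≤ bil κ κ := by
  have hQ : ∀ n, (fun a => φ a n) ∈ cube ι := fun n a _ => hφ a n
  have hc : F.hull (fun n a => φ a n) ⊆ cube ι :=
    Res.hull_sub 0 (cube_compact ι).isClosed (cube_convex ι) fun n _ => hQ n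
  have horb : ∀ k ∈ F.hull (fun n a => φ a n),
      F.hull (fun n => shift sh n k) ⊆ F.hull fun n a => φ a n := fun k hk =>
    Res.hull_trans fun n => by
      convert Res.hull_map (shift sh n) hk using 2
      funext t a
      exact (h1 a n t).symm
  have e0 := n0_iff e lam
  have e1 : ∀ (f : List (ι × ℕ)) s (k : ι → ℝ),
      lin (f.map fun p => (sh p.1 s, p.2)) k = lin f (shift sh s k) := fun f s k => by
    simp [lin_apply, shift, Function.comp_def]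
  have e2 : ∀ (j : List (ι × ℕ) × ℕ × ℕ) (k : ι → ℝ), (∀ s, F.mem j.2.2 s → lin j.1 (shift sh s k) ≤ rv j.2.1) →
      ∀ k' ∈ F.hull (fun n => shift sh n k), ∀ i, B0 F sh j i → cond' i k' ≤ 0 := by
    rintro j k h k' hk' _ (rfl | ⟨s, hs, rfl⟩)
    · exact sub_nonpos.2 (Res.hull_le _ _ h hk')
    · obtain ⟨M, hM⟩ := F.sum hs
      refine sub_nonpos.2 ((e1 _ _ _).trans_le (Res.hull_le M ((lin j.1).comp (shift sh s))
        (fun n hn => le_of_eq_of_le ?_ (h _ (hM n hn))) hk'))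
      simp [lin_apply, shift, h2]
  have e3 : ∀ k ∈ F.sol φ cond' N₁, F.hull (fun n => shift sh n k) ⊆ F.sol φ cond' N₁ := by
    intro k hk k' hk'
    refine ⟨horb k hk.1 hk', fun i hi => ?_⟩
    rcases (a2 i).1 hi with hi | ⟨j, b1, b2⟩
    · refine (e0 k').2 (fun a => ?_) i hi
      have b3 := (e0 k).1 fun i hi => hk.2 i ((a2 i).2 (Or.inl hi))
      refine eq_of_forall_dist_le fun r hr => ?_
      obtain ⟨M, hM⟩ := (Res.ev _).1 (Metric.tendsto_nhds.1 (ha a) r hr)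
      refine Res.hull_sub (D := (ContinuousLinearMap.proj (R := ℝ) (φ := fun _ : ι => ℝ) (e a)) ⁻¹'
        Metric.closedBall (lam a) r) M (Metric.isClosed_closedBall.preimage (by fun_prop))
        ((convex_closedBall _ _).linear_preimage _) (fun n hn => ?_) hk'
      simpa [shift, h3, b3] using (hM n hn).le
    · refine e2 j k (fun s hs => ?_) k' hk' i b2
      simpa [cond', e1] using hk.2 _ ((a2 _).2 (Or.inr ⟨j, b1, Or.inr ⟨s, hs, rfl⟩⟩))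
  have d1 : κ ∈ F.sol φ cond' N₁ := ⟨d2.1, fun i hi => d2.2 i ((b2 i).2 (Or.inl hi))⟩
  refine ⟨F.sol φ cond' N₁, (e0 κ).1 fun i hi => d1.2 i ((a2 i).2 (Or.inl hi)), d1, ?_,
    fun _ h => h.1, fun k hk => (e3 k hk).antisymm fun k' hk' => mem_iInter.2 fun M => ?_,
    fun k hk => not_lt.1 fun h => ?_⟩
  · intro x hx y hy s t hs ht hst
    refine ⟨Res.hull_convex _ hx.1 hy.1 hs ht hst, fun i hi => ?_⟩
    obtain ⟨p, rfl⟩ : ∃ p, i = .inl p := by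
      rcases (a2 i).1 hi with ⟨_, rfl, _⟩ | ⟨_, _, rfl | ⟨_, _, rfl⟩⟩ <;> exact ⟨_, rfl⟩
    exact sub_nonpos.2 (convex_halfSpace_le (lin p.1).toLinearMap.isLinear _
      (sub_nonpos.1 (hx.2 _ hi)) (sub_nonpos.1 (hy.2 _ hi)) hs ht hst)
  · by_contra hn
    obtain ⟨f, u, d3, d4⟩ := geometric_hahn_banach_closed_point (Res.cc_convex _ M)
      isClosed_closure hn
    obtain ⟨f', d5⟩ := exists_lin f (show 0 < (f k' - u) / 3 by linarith)
    obtain ⟨c, d6, d7⟩ := exists_rv (show u + (f k' - u) / 3 < f k' - (f k' - u) / 3 by linarith)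
    have d8 : ∀ n, shift sh n k ∈ cube ι := fun n a _ => hc hk.1 _ trivial
    obtain ⟨k₃, d9, -⟩ := Res.exists_mem_cc (F := F) (cube_compact ι) (cube_convex ι) d8
      (D := fun _ => univ) (fun _ => isClosed_univ) (fun _ => subset_rfl)
      fun M => (F.ne M).elim fun n hn => ⟨_, Res.mem_cc hn, trivial⟩
    have := hk'.2 _ ((a2 _).2 (Or.inr ⟨(f', c, M), a4 _ ⟨k₃, e3 k hk d9, (e3 k hk d9).1,
      e2 _ k (fun s hs => ?_) k₃ d9⟩, Or.inl rfl⟩))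
    · have := sub_nonpos.1 this
      have := abs_lt.1 (d5 k' (hc hk'.1))
      linarith
    · have := d3 _ (Res.mem_cc hs)
      have := abs_lt.1 (d5 _ (d8 s))
      change lin f' _ ≤ rv c
      linarith
  · obtain ⟨q, d3, d4⟩ := exists_rv h
    have := d2.2 _ ((b2 _).2 (Or.inr ⟨q, b4 q ⟨k, ⟨hk.1, fun i hi => ?_⟩, hk.1, ?_⟩, rfl⟩))
    · exact absurd (sub_nonpos.1 this) (not_le.2 d3)
    · rcases (b2 i).1 hi with hi' | ⟨r, -, rfl⟩
      · exact hk.2 i hi'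
      · exact sub_nonpos.2 ((sub_nonpos.1 (d2.2 _ hi)).trans h.le)
    · rintro _ rfl
      exact sub_nonpos.2 d4.le

theorem exists_max {F : I → Res} (hF : RA o F)
    {φ : I → ι → ℕ → ℝ} (hφ : ∀ x a n, φ x a n ∈ Icc (0 : ℝ) 1)
    (hφ' : Ar o fun p : I × ι × ℕ => φ p.1 p.2.1 p.2.2)
    {sh : I → ι → ℕ → ι} (hsh' : Ar o fun p : I × ι × ℕ => sh p.1 p.2.1 p.2.2)
    (h1 : ∀ x a b n, φ x (sh x a b) n = φ x a (b + n))
    (h2 : ∀ x a b n, sh x (sh x a b) n = sh x a (b + n))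
    {ι₀ : Type} [Primcodable ι₀] {e : ι₀ → ι} (he : Ar o e) {sh₀ : I → ι₀ → ℕ → ι₀}
    (h3 : ∀ x a b, sh x (e a) b = e (sh₀ x a b)) {lam : I → ι₀ → ℝ}
    (hl : Ar o fun p : I × ι₀ => lam p.1 p.2)
    (ha : ∀ x a, Tendsto (fun b => lam x (sh₀ x a b)) (F x).fil (𝓝 (lam x a)))
    (hb : ∀ x, lam x ∈ (F x).hull fun n a => φ x (e a) n) :
    ∃ κ : I → ι → ℝ, (Ar o fun p : I × ι => κ p.1 p.2) ∧ ∀ x, ∃ A : Set (ι → ℝ),
      (∀ a, κ x (e a) = lam x a) ∧ κ x ∈ A ∧ Convex ℝ A ∧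
      A ⊆ (F x).hull (fun n a => φ x a n) ∧
      (∀ k ∈ A, (F x).hull (fun n => shift (sh x) n k) = A) ∧
      ∀ k ∈ A, bil k k ≤ bil (κ x) (κ x) := by
  have hg : ∀ i, Continuous (cond' (ι := ι) i) := by
    rintro (p | q)
    · exact (lin p.1).continuous.sub continuous_const
    · exact continuous_const.sub (continuous_bil continuous_id continuous_id)
  have hg' : Ar o fun p : I × ((List (ι × ℕ) × ℕ) ⊕ ℕ) × List ℕ =>
      cond' p.2.1 fun a => avg p.2.2 (φ p.1 a) := by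
    refine Ar.elim (by fun_prop) ?_ (Ar.sub_real (by fun_prop) (Ar.bil (by fun_prop)))
    simp only [lin_apply]
    fun_prop
  obtain ⟨A₁, N₁, a1, a⟩ := greedy hφ hg hF hg' (N := fun x => N0 e (lam x))
    (by unfold N0; fun_prop) (fun x => by
      obtain ⟨k, b1, b2⟩ := Res.hull_lift (cube_compact ι) (cube_convex ι)
        (fun n a _ => hφ x a n)
        (ContinuousLinearMap.pi fun a => ContinuousLinearMap.proj (e a)) (hb x)
      exact ⟨k, b1, (n0_iff e (lam x) k).2 fun a => congrFun b2 a⟩)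
    (B := fun x => B0 (F x) (sh x)) (by unfold B0; fun_prop)
  obtain ⟨A₂, N₂, b1, b⟩ := greedy hφ hg hF hg' a1 (fun x => (a x).2.1)
    (B := fun _ (q : ℕ) i => i = .inr q) (by fun_prop)
  obtain ⟨A₃, N₃, c1, c⟩ := greedy hφ hg hF hg' b1 (fun x => (b x).2.1)
    (B := fun _ (j : List (ι × ℕ) × ℕ) i => i = .inl j) (by fun_prop)
  choose κ c3 using fun x => (c x).2.1
  refine ⟨κ, ?_, fun x => max_core (hφ x) (h1 x) (h2 x) (h3 x) (ha x) (a x).1 (a x).2.2 (b x).1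
    (b x).2.2 ⟨(c3 x).1, fun i hi => (c3 x).2 i (((c x).1 i).2 (Or.inl hi))⟩⟩
  refine Ar.of_obs (((ar_sol hφ hg hF hg' (N := fun (p : I × ι × ℕ) i => N₃ p.1 i ∨
    i = .inl ([(p.2.1, Nat.pair 1 (Nat.pair 0 0))], p.2.2)) (by fun_prop)).not.comp
    (h := fun p : (I × ι) × ℕ => (p.1.1, p.1.2, p.2)) (by fun_prop)).congr
    fun p => ⟨fun h ⟨k, d3, d4⟩ => ?_, fun h => not_le.1 fun h' => h ⟨κ p.1.1, (c3 _).1, ?_⟩⟩)
  · have := (c3 p.1.1).2 _ (((c _).1 _).2 (Or.inr ⟨_, (c _).2.2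
      ([(p.1.2, Nat.pair 1 (Nat.pair 0 0))], p.2)
      ⟨k, ⟨d3, fun i hi => d4 i (Or.inl hi)⟩, d3, fun i hi => d4 i (Or.inr hi)⟩, rfl⟩))
    simp [cond', lin_apply, rv_one] at this
    exact absurd h (not_lt.2 this)
  · rintro i (hi | rfl)
    · exact (c3 _).2 i hi
    · simpa [cond', lin_apply, rv_one] using h'

theorem idem {F : I → Res} (hF : RA o F)
    {φ : I → ι → ℕ → ℝ} (hφ : ∀ x a n, φ x a n ∈ Icc (0 : ℝ) 1)
    (hφ' : Ar o fun p : I × ι × ℕ => φ p.1 p.2.1 p.2.2)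
    {sh : I → ι → ℕ → ι} (hsh' : Ar o fun p : I × ι × ℕ => sh p.1 p.2.1 p.2.2)
    (h1 : ∀ x a b n, φ x (sh x a b) n = φ x a (b + n))
    (h2 : ∀ x a b n, sh x (sh x a b) n = sh x a (b + n))
    {ι₀ : Type} [Primcodable ι₀] {e : ι₀ → ι} (he : Ar o e) {sh₀ : I → ι₀ → ℕ → ι₀}
    (h3 : ∀ x a b, sh x (e a) b = e (sh₀ x a b)) {lam : I → ι₀ → ℝ}
    (hl : Ar o fun p : I × ι₀ => lam p.1 p.2)
    (ha : ∀ x a, Tendsto (fun b => lam x (sh₀ x a b)) (F x).fil (𝓝 (lam x a)))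
    (hb : ∀ x, lam x ∈ (F x).hull fun n a => φ x (e a) n) :
    ∃ κ : I → ι → ℝ, (Ar o fun p : I × ι => κ p.1 p.2) ∧ ∀ x, (∀ a, κ x (e a) = lam x a) ∧ ∃ hne,
      κ x ∈ ((F x).stab (κ x) (sh x) (h2 x) hne).hull fun n a => φ x a n := by
  obtain ⟨κ, a1, a⟩ := exists_max hF hφ hφ' hsh' h1 h2 he h3 hl ha hb
  refine ⟨κ, a1, fun x => ?_⟩
  obtain ⟨A, a2, a3, a4, a5, a6, a7⟩ := a x
  have hc : A ⊆ cube ι := a5.trans
    (Res.hull_sub 0 (cube_compact ι).isClosed (cube_convex ι) fun n _ a _ => hφ x a n)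
  have c4 := idem_var (hφ x) (hc a3) (idem_pair (hφ x) (h1 x) (h2 x) a3 a4 a5 hc a6 a7)
    fun k hk => a7 k ((a6 _ a3).le hk)
  refine ⟨a2, fun M => ?_, mem_iInter.2 fun M => ?_⟩
  · by_contra hn
    have := c4 M 0 (-1) fun n h => absurd ⟨n, h⟩ hn
    norm_num at this
  · by_contra hn
    obtain ⟨f, u, d3, d4⟩ := geometric_hahn_banach_closed_point (Res.cc_convex _ M)
      isClosed_closure hn
    exact absurd (c4 M f u fun n h => (d3 _ (Res.mem_cc h)).le) (not_le.2 d4)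

theorem exists_lists {F : I → Res} (hF : RA o F) {φ : I → ι → ℕ → ℝ}
    (hφ' : Ar o fun p : I × ι × ℕ => φ p.1 p.2.1 p.2.2) {κ : I → ι → ℝ}
    (hκ : Ar o fun p : I × ι => κ p.1 p.2) (h : ∀ x, κ x ∈ (F x).hull fun n a => φ x a n) :
    ∃ μ : I × ℕ → List ℕ, Ar o μ ∧ ∀ x, (∀ M, (F x).lst M (μ (x, M))) ∧
      ∀ a, Tendsto (fun M => avg (μ (x, M)) (φ x a)) atTop (𝓝 (κ x a)) := by
  obtain ⟨μ, h1, h2⟩ := Ar.choose (o := o) (R := fun (M : I × ℕ) μ => (F M.1).lst M.2 μ ∧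
    ∀ l, l < M.2 → |avg μ (φ M.1 (en l)) - κ M.1 (en l)| < iv M.2)
    (((ar_lst hF).comp (h := fun p : (I × ℕ) × List ℕ => (p.1.1, p.1.2, p.2)) (by fun_prop)).and
      (Ar.all (Ar.imp (by fun_prop) (by fun_prop)))) fun M => by
      obtain ⟨μ, h3, h4⟩ := Res.exists_lst (h M.1) M.2
        (U := ⋂ l ∈ Iio M.2, {y | |y (en l) - κ M.1 (en l)| < iv M.2})
        ((finite_Iio M.2).isOpen_biInter fun l _ => isOpen_lt (by fun_prop) continuous_const)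
        (by simpa using fun l _ => iv_pos M.2)
      exact ⟨μ, h3, by simpa using h4⟩
  refine ⟨μ, h1, fun x => ⟨fun M => (h2 (x, M)).1,
    fun a => Metric.tendsto_nhds.2 fun r hr => ?_⟩⟩
  filter_upwards [eventually_gt_atTop (Encodable.encode a), tendsto_iv.eventually (gt_mem_nhds hr)]
    with M h3 h4
  simpa only [en_encode, Real.dist_eq] using ((h2 (x, M)).2 _ h3).trans h4

end Pool.Agent.Lib.MP_f43b6f_lc.V
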