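import Pool.Agent.Lib.MP_f43b6f_lc.UTower
import Pool.Agent.Lib.MP_f43b6f_lc.VIdem

set_option autoImplicit false

/-!
The three levels for families: building the systems from the idempotent means.
-/

namespace Pool.Agent.Lib.MP_f43b6f_lc.V

open Filter Topology Set MeasureTheory

variable {I : Type} {o : Fam I}

/-- The data of the systems have bounded level. -/
structure SysA (o : Fam I) {ι : Type} [Primcodable ι] (Y : I → Sys ι) : Prop where
  hF : RA o fun x => (Y x).F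
  hsh : Ar o fun p : I × ι × ℕ => (Y p.1).sh p.2.1 p.2.2
  hmon : Ar o fun p : I × ι × ℕ => (Y p.1).mon p.2.1 (pure p.2.2)
  hmon1 : Ar o fun p : I × ℕ × ℕ => (Y p.1).mon1 p.2.1 (pure p.2.2)
  hint : ∀ {β : Type} [Primcodable β] (G : I × β → C(BN, ℝ)), (∀ a, G a ∈ (Y a.1).C2) →
    Ar o (fun p : (I × β) × ℕ => G p.1 (pure p.2)) → Ar o fun a : I × β => ∫ x, G a x ∂(Y a.1).m

/-- A family of functions with values in the unit interval, closed under shifts. -/
structure Gen (γ : Type) where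
  /-- the functions -/
  g : γ → ℕ → ℝ
  /-- the shift of indices -/
  sh : γ → ℕ → γ
  g01 : ∀ a n, g a n ∈ Icc (0 : ℝ) 1
  h1 : ∀ a b n, g (sh a b) n = g a (b + n)
  h2 : ∀ a b n, sh (sh a b) n = sh a (b + n)

namespace Gen

variable {γ : Type} (G : Gen γ)

/-- The family of monomials. -/
noncomputable def lst : Gen (List γ) where
  g L n := (L.map fun a => G.g a n).prod
  sh L b := L.map fun a => G.sh a b
  g01 L n := prod_mem_unit _ (by
    intro x hx
    obtain ⟨a, -, rfl⟩ := List.mem_map.1 hx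
    exact G.g01 a n)
  h1 L b n := by simp [Function.comp_def, G.h1]
  h2 L b n := by simp [Function.comp_def, G.h2]

/-- The next level. -/
noncomputable def up (κ : List γ → ℝ) (h01 : ∀ L, κ L ∈ Icc (0 : ℝ) 1) :
    Gen (γ ⊕ (List γ × List γ)) where
  g a n := Sum.elim (fun a => G.g a n) (fun P => κ (G.lst.sh P.1 n ++ P.2)) a
  sh a b := Sum.elim (fun a => .inl (G.sh a b)) (fun P => .inr (G.lst.sh P.1 b, P.2)) a
  g01 a n := by
    rcases a with a | P
    exacts [G.g01 a n, h01 _]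
  h1 a b n := by
    rcases a with a | P
    · exact G.h1 a b n
    · simp [G.lst.h2]
  h2 a b n := by
    rcases a with a | P
    · simp [G.h2]
    · simp [G.lst.h2]

/-- A mean on the monomials that is invariant along the reservoir. -/
structure Good (F : Res) (κ : List γ → ℝ) : Prop where
  ha : ∀ a, Tendsto (fun b => κ (G.lst.sh a b)) F.fil (𝓝 (κ a))
  hb : κ ∈ F.hull fun n a => G.lst.g a n

variable {G}

theorem Good.unit {F : Res} {κ : List γ → ℝ} (h : G.Good F κ) (L : List γ) :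
    κ L ∈ Icc (0 : ℝ) 1 :=
  Res.hull_sub 0 (cube_compact _).isClosed (cube_convex _) (fun n _ a _ => G.lst.g01 a n) h.hb L
    (mem_univ _)

theorem up_g {κ : List γ → ℝ} (h01 : ∀ L, κ L ∈ Icc (0 : ℝ) 1) (L : List γ) (n : ℕ) :
    (G.up κ h01).lst.g (L.map .inl) n = G.lst.g L n := by
  simp [lst, up, Function.comp_def]

variable (G)

theorem exists_M (a : γ) : ∃ f : C(BN, ℝ), ∀ n, f (pure n) = G.g a n :=
  exists_ext _ 1 fun n => abs_le.2 ⟨by linarith [(G.g01 a n).1], (G.g01 a n).2⟩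

/-- The continuous extensions. -/
noncomputable def M (a : γ) : C(BN, ℝ) := (G.exists_M a).choose

@[simp] theorem M_pure (a : γ) (n : ℕ) : G.M a (pure n) = G.g a n := (G.exists_M a).choose_spec n

theorem tau_M (a : γ) (b : ℕ) : tau b (G.M a) = G.M (G.sh a b) :=
  ext_pure fun n => by simp [G.h1]

theorem M01 (a : γ) (x : BN) : G.M a x ∈ Icc (0 : ℝ) 1 :=
  isClosed_Icc.mem_of_tendsto (tendsto_val _ x)
    (Eventually.of_forall fun n => by simpa using G.g01 a n)

theorem M_append (L L' : List γ) : G.lst.M (L ++ L') = G.lst.M L * G.lst.M L' :=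
  ext_pure fun n => by simp [lst]

theorem M_nil : G.lst.M [] = 1 := ext_pure fun n => by simp [lst]

/-- The closed algebra of the monomials. -/
noncomputable def alg : Subalgebra ℝ C(BN, ℝ) :=
  (Algebra.adjoin ℝ (range G.lst.M)).topologicalClosure

theorem M_mem (L : List γ) : G.lst.M L ∈ G.alg :=
  Subalgebra.le_topologicalClosure _ (Algebra.subset_adjoin ⟨L, rfl⟩)

theorem alg_sub {f : C(BN, ℝ)} (hf : f ∈ G.alg) :
    f ∈ closure (Submodule.span ℝ (range G.lst.M) : Set C(BN, ℝ)) := by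
  refine closure_mono (fun x hx => ?_) hf
  have h1 : x ∈ (Algebra.adjoin ℝ (range G.lst.M)).toSubmodule := hx
  rw [Algebra.adjoin_eq_span] at h1
  refine Submodule.span_mono (fun y hy => ?_) h1
  induction hy using Submonoid.closure_induction with
  | mem y hy => exact hy
  | one => exact ⟨[], G.M_nil⟩
  | mul y z _ _ hy hz =>
    obtain ⟨L, rfl⟩ := hy
    obtain ⟨L', rfl⟩ := hz
    exact ⟨L ++ L', G.M_append L L'⟩

theorem alg_le {D : Submodule ℝ C(BN, ℝ)} (hD : IsClosed (D : Set C(BN, ℝ)))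
    (h : ∀ L, G.lst.M L ∈ D) {f : C(BN, ℝ)} (hf : f ∈ G.alg) : f ∈ D :=
  closure_minimal (Submodule.span_le.2 (range_subset_iff.2 h)) hD (G.alg_sub hf)

theorem alg_tendsto {I : Type} (l : Filter I) (A : I → C(BN, ℝ) →ₗ[ℝ] ℝ) (a : C(BN, ℝ) →ₗ[ℝ] ℝ)
    (hA : ∀ i f, |A i f| ≤ ‖f‖) (ha : ∀ f, |a f| ≤ ‖f‖)
    (h : ∀ L, Tendsto (fun i => A i (G.lst.M L)) l (𝓝 (a (G.lst.M L)))) {f : C(BN, ℝ)}
    (hf : f ∈ G.alg) : Tendsto (fun i => A i f) l (𝓝 (a f)) := by
  have h1 : ∀ g ∈ Submodule.span ℝ (range G.lst.M), Tendsto (fun i => A i g) l (𝓝 (a g)) := by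
    intro g hg
    induction hg using Submodule.span_induction with
    | mem g hg =>
      obtain ⟨L, rfl⟩ := hg
      exact h L
    | zero => simpa only [map_zero] using tendsto_const_nhds
    | add x y _ _ hx hy => simpa only [map_add] using hx.add hy
    | smul c x _ hx => simpa only [map_smul, smul_eq_mul] using hx.const_mul c
  refine Metric.tendsto_nhds.2 fun e he => ?_
  obtain ⟨g, hg, h2⟩ := Metric.mem_closure_iff.1 (G.alg_sub hf) (e / 3) (by positivity)
  filter_upwards [Metric.tendsto_nhds.1 (h1 g hg) (e / 3) (by positivity)] with i hi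
  have h3 := hA i (f - g)
  have h4 := ha (f - g)
  rw [map_sub, ← dist_eq_norm] at h3 h4
  rw [Real.dist_eq, abs_lt] at *
  rw [abs_le] at h3 h4
  constructor <;> linarith [h3.1, h3.2, h4.1, h4.2, hi.1, hi.2]

theorem up_M {κ : List γ → ℝ} (h01 : ∀ L, κ L ∈ Icc (0 : ℝ) 1) (L : List γ) :
    (G.up κ h01).lst.M (L.map .inl) = G.lst.M L := ext_pure fun n => by simp [up_g]

theorem alg_up {κ : List γ → ℝ} (h01 : ∀ L, κ L ∈ Icc (0 : ℝ) 1) :
    G.alg ≤ (G.up κ h01).alg := fun _ hf =>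
  G.alg_le (D := (G.up κ h01).alg.toSubmodule) (Subalgebra.isClosed_topologicalClosure _)
    (fun L => G.up_M h01 L ▸ M_mem _ _) hf

theorem tau_alg {f : C(BN, ℝ)} (hf : f ∈ G.alg) (b : ℕ) : tau b f ∈ G.alg :=
  G.alg_le (D := G.alg.toSubmodule.comap (tau b).toLinearMap)
    ((Subalgebra.isClosed_topologicalClosure _).preimage
      (AddMonoidHomClass.continuous_of_bound (tau b) 1 fun f => by simpa using norm_tau b f))
    (fun L => by
      change tau b (G.lst.M L) ∈ G.alg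
      rw [tau_M]
      exact M_mem _ _) hf

end Gen

variable {γ : Type} [Primcodable γ]

/-- The families of functions have bounded level. -/
structure GenA (o : Fam I) (G : I → Gen γ) : Prop where
  ag : Ar o fun p : I × γ × ℕ => (G p.1).g p.2.1 p.2.2
  ash : Ar o fun p : I × γ × ℕ => (G p.1).sh p.2.1 p.2.2

variable {G : I → Gen γ}

theorem GenA.lst (h : GenA o G) : GenA o fun x => (G x).lst where
  ag := Ar.prod (x := fun (p : I × List γ × ℕ) a => (G p.1).g a p.2.2)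
    (h.ag.comp (h := fun q : (I × List γ × ℕ) × γ => (q.1.1, q.2, q.1.2.2)) (by fun_prop))
    (fun p a => ((G p.1).g01 a p.2.2).1) (by fun_prop)
  ash := Ar.map (g := fun (p : I × List γ × ℕ) a => (G p.1).sh a p.2.2) (by fun_prop)
    (h.ash.comp (h := fun q : (I × List γ × ℕ) × γ => (q.1.1, q.2, q.1.2.2)) (by fun_prop))

theorem GenA.up (h : GenA o G) {κ : I → List γ → ℝ} (h01 : ∀ x L, κ x L ∈ Icc (0 : ℝ) 1)
    (hκ : Ar o fun p : I × List γ => κ p.1 p.2) : GenA o fun x => (G x).up (κ x) (h01 x) := by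
  have h1 := h.lst.ash.comp (h := fun q : (I × (γ ⊕ (List γ × List γ)) × ℕ) × (List γ × List γ) =>
    (q.1.1, q.2.1, q.1.2.2)) (by fun_prop)
  constructor
  · exact Ar.elim (s := fun p : I × (γ ⊕ (List γ × List γ)) × ℕ => p.2.1)
      (g := fun p a => (G p.1).g a p.2.2)
      (h := fun p P => κ p.1 ((G p.1).lst.sh P.1 p.2.2 ++ P.2)) (by fun_prop)
      (h.ag.comp (h := fun q : (I × (γ ⊕ (List γ × List γ)) × ℕ) × γ => (q.1.1, q.2, q.1.2.2))
        (by fun_prop))
      (hκ.comp (Ar.pair Ar.id.fst.fst (Ar.append h1 (by fun_prop))))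
  · exact Ar.elim (s := fun p : I × (γ ⊕ (List γ × List γ)) × ℕ => p.2.1)
      (g := fun p a => (.inl ((G p.1).sh a p.2.2) : γ ⊕ (List γ × List γ)))
      (h := fun p P => .inr ((G p.1).lst.sh P.1 p.2.2, P.2)) (by fun_prop)
      (Ar.inl (h.ash.comp
        (h := fun q : (I × (γ ⊕ (List γ × List γ)) × ℕ) × γ => (q.1.1, q.2, q.1.2.2))
        (by fun_prop)))
      (Ar.inr (Ar.pairC h1 (by fun_prop)))

/-- Invariant means of bounded level. -/
structure GoodA (o : Fam I) (G : I → Gen γ) (F : I → Res) (κ : I → List γ → ℝ) : Prop where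
  hG : GenA o G
  hF : RA o F
  hκ : Ar o fun p : I × List γ => κ p.1 p.2
  gd : ∀ x, (G x).Good (F x) (κ x)

theorem good_of (hG : GenA o G) {F : I → Res} (hF : RA o F)
    {ι₀ : Type} [Primcodable ι₀] {e : ι₀ → List γ} (he : Ar o e) {sh₀ : I → ι₀ → ℕ → ι₀}
    (h3 : ∀ x a b, (G x).lst.sh (e a) b = e (sh₀ x a b)) {lam : I → ι₀ → ℝ}
    (hl : Ar o fun p : I × ι₀ => lam p.1 p.2)
    (ha : ∀ x a, Tendsto (fun b => lam x (sh₀ x a b)) (F x).fil (𝓝 (lam x a)))
    (hb : ∀ x, lam x ∈ (F x).hull fun n a => (G x).lst.g (e a) n) :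
    ∃ (F' : I → Res) (κ : I → List γ → ℝ), GoodA o G F' κ ∧
      ∀ x, (∀ N b, (F' x).mem N b → (F x).mem N b) ∧ ∀ a, κ x (e a) = lam x a := by
  obtain ⟨κ, h1, h⟩ := idem hF (φ := fun x => (G x).lst.g) (fun x => (G x).lst.g01) hG.lst.ag
    (sh := fun x => (G x).lst.sh) hG.lst.ash (fun x => (G x).lst.h1) (fun x => (G x).lst.h2) he h3
    hl ha hb
  choose h2 hne h4 using h
  exact ⟨fun x => (F x).stab (κ x) (G x).lst.sh (G x).lst.h2 (hne x), κ,
    ⟨hG, ⟨ar_stabMem (sh := fun x => (G x).lst.sh) hF h1 hG.lst.ash⟩, h1,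
      fun x => ⟨(F x).stab_tendsto (κ x) (G x).lst.sh (G x).lst.h2 (hne x), h4 x⟩⟩,
    fun x => ⟨fun _ _ h => h.1, h2 x⟩⟩

theorem good_zero (hG : GenA o G) {F : I → Res} (hF : RA o F) :
    ∃ (F' : I → Res) (κ : I → List γ → ℝ), GoodA o G F' κ ∧
      ∀ x N b, (F' x).mem N b → (F x).mem N b := by
  obtain ⟨F', κ, h1, h2⟩ := good_of hG hF (ι₀ := Empty) (e := fun a => a.elim)
    ((Ar.const []).of_eq fun a => a.elim) (sh₀ := fun _ a _ => a) (fun _ a => a.elim)
    (lam := fun _ a => a.elim) ((Ar.const 0).of_eq fun a => a.2.elim) (fun _ a => a.elim)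
    fun x => mem_iInter.2 fun M => by
      obtain ⟨b, hb⟩ := (F x).ne M
      exact mem_of_eq_of_mem (funext fun a => a.elim) (Res.mem_cc hb)
  exact ⟨F', κ, h1, fun x => (h2 x).1⟩

theorem GoodA.succ {F : I → Res} {κ : I → List γ → ℝ} (h : GoodA o G F κ) :
    ∃ (F' : I → Res) (κ' : I → List (γ ⊕ (List γ × List γ)) → ℝ),
      GoodA o (fun x => (G x).up (κ x) (h.gd x).unit) F' κ' ∧
      ∀ x, (∀ N b, (F' x).mem N b → (F x).mem N b) ∧ ∀ a, κ' x (a.map .inl) = κ x a :=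
  good_of (h.hG.up (fun x => (h.gd x).unit) h.hκ) h.hF (e := fun a : List γ => a.map .inl)
    (Ar.map (L := fun a : List γ => a) (g := fun _ a => (Sum.inl a : γ ⊕ (List γ × List γ)))
      (by fun_prop) (by fun_prop)) (sh₀ := fun x => (G x).lst.sh)
    (fun x a b => by simp [Gen.lst, Gen.up, Function.comp_def]) h.hκ (fun x => (h.gd x).ha)
    fun x => by simpa only [Gen.up_g] using (h.gd x).hb

/-- The bottom generators. -/
noncomputable def gen0 (c : Orc) : Gen (ℕ × ℕ) where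
  g p n := if c.f (p.2 + n) = p.1 then 1 else 0
  sh p b := (p.1, p.2 + b)
  g01 p n := by split_ifs <;> simp
  h1 p b n := by simp [add_assoc]
  h2 p b n := by simp [add_assoc]

theorem gen0A {c : I → Orc} (hc : CA o c) : GenA o fun x => gen0 (c x) where
  ag := Ar.ite (P := fun p : I × (ℕ × ℕ) × ℕ => (c p.1).f (p.2.1.2 + p.2.2) = p.2.1.1)
    (by fun_prop) (by fun_prop) (by fun_prop)
  ash := by
    unfold gen0
    fun_prop

theorem exists_sys {c : I → Orc} (hc : CA o c) (F : I → Res) (hF : RA o F) :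
    ∃ Y : I → Sys (List (ℕ × ℕ)), SysA o Y ∧ ∀ x, (∀ N b, (Y x).F.mem N b → (F x).mem N b) ∧
      ∀ L n, (Y x).mon L (pure n) =
        (L.map fun p => if (c x).f (p.2 + n) = p.1 then (1 : ℝ) else 0).prod := by
  obtain ⟨F0, κ0, g0, s0⟩ := good_zero (gen0A hc) hF
  obtain ⟨F1, κ1, g1, s1⟩ := g0.succ
  obtain ⟨F2, κ2, g2, s2⟩ := g1.succ
  set G1 := fun x => (gen0 (c x)).up (κ0 x) (g0.gd x).unit with hG1
  set G2 := fun x => (G1 x).up (κ1 x) (g1.gd x).unit with hG2
  obtain ⟨μ, aμ, hμ⟩ := exists_lists g2.hF (φ := fun x => (G2 x).lst.g) g2.hG.lst.ag g2.hκ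
    fun x => (g2.gd x).hb
  choose m hm tm using fun x => exists_meas (fun M => μ (x, M)) fun M => ((hμ x).1 M).1
  have t2 : ∀ x L, Tendsto (fun M => avgL (μ (x, M)) ((G2 x).lst.M L)) atTop (𝓝 (κ2 x L)) :=
    fun x L => ((hμ x).2 L).congr fun M =>
      congrArg (avg _) (funext fun n => ((G2 x).lst.M_pure L n).symm)
  have i2 : ∀ x L, ∫ y, (G2 x).lst.M L y ∂m x = κ2 x L := fun x L => tendsto_nhds_unique (tm x _)
    ((t2 x L).mono_left (hyperfilter_le_cofinite.trans Nat.cofinite_eq_atTop.le))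
  have i1 : ∀ x L, ∫ y, (G1 x).lst.M L y ∂m x = κ1 x L := fun x L => by
    rw [← (G1 x).up_M (g1.gd x).unit, i2, (s2 x).2]
  have i0 : ∀ x L, ∫ y, (gen0 (c x)).lst.M L y ∂m x = κ0 x L := fun x L => by
    rw [← (gen0 (c x)).up_M (g0.gd x).unit, i1, (s1 x).2]
  refine ⟨fun x => {
    F := F2 x
    m := m x
    prob := hm x
    C1 := (G1 x).alg
    C2 := (G2 x).alg
    mon := (gen0 (c x)).lst.M
    sh := (gen0 (c x)).lst.sh
    mon1 := fun a => (G1 x).lst.M (en a)
    hS := ae_far (hμ x).1 (tm x)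
    cl1 := Subalgebra.isClosed_topologicalClosure _
    cl2 := Subalgebra.isClosed_topologicalClosure _
    le12 := (G1 x).alg_up _
    tau1 := fun f hf b => (G1 x).tau_alg hf b
    inv := fun f hf => (G2 x).alg_tendsto (F2 x).fil
      (fun b => (intL (m x)).comp (tau b).toLinearMap) (intL (m x))
      (fun b f => (abs_intL (m x) _).trans (norm_tau b f)) (abs_intL (m x)) (fun L => ?_) hf
    mon_sh := (gen0 (c x)).lst.tau_M
    sh_sh := (gen0 (c x)).lst.h2
    mon_mem := fun a => (gen0 (c x)).alg_up _ (Gen.M_mem _ a)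
    mon01 := (gen0 (c x)).lst.M01
    mon1_mem := fun a => Gen.M_mem _ _
    dense1 := fun f hf => ?_
    th0 := fun a b => ⟨(G1 x).lst.M [.inr (a, b)], Gen.M_mem _ _, fun n => ?_⟩
    th1 := fun a b => ⟨(G2 x).lst.M [.inr (en a, en b)], Gen.M_mem _ _, fun n => ?_⟩ },
    ⟨g2.hF, g0.hG.lst.ash, ?_, ?_, fun G hG aG => ?_⟩,
    fun x => ⟨fun N b h => s0 x N b ((s1 x).1 N b ((s2 x).1 N b h)),
      fun L n => (gen0 (c x)).lst.M_pure L n⟩⟩
  · change Tendsto (fun b => ∫ y, tau b ((G2 x).lst.M L) y ∂m x) _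
      (𝓝 (∫ y, (G2 x).lst.M L y ∂m x))
    simpa only [Gen.tau_M, i2] using (g2.gd x).ha L
  · have : range (fun a : ℕ => (G1 x).lst.M (en a)) = range (G1 x).lst.M :=
      Function.Surjective.range_comp (fun b => ⟨_, en_encode b⟩) (G1 x).lst.M
    rw [this]
    exact (G1 x).alg_sub hf
  · simp only [Gen.tau_M, ← ContinuousMap.mul_apply, ← Gen.M_append, i0]
    simp [Gen.lst, hG1, Gen.up]
  · simp only [Gen.tau_M, ← ContinuousMap.mul_apply, ← Gen.M_append, i1]
    simp [Gen.lst, hG2, Gen.up]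
  · simpa only [Gen.M_pure] using g0.hG.lst.ag
  · simpa only [Gen.M_pure] using g1.hG.lst.ag.comp
      (h := fun p : I × ℕ × ℕ => (p.1, en p.2.1, p.2.2)) (by fun_prop)
  · refine Ar.lim (x := fun a M => avg (μ (a.1, M)) fun n => G a (pure n))
      (Ar.avg (aG.comp (h := fun q : (_ × ℕ) × ℕ => (q.1.1, q.2)) (by fun_prop))
        (aμ.comp (by fun_prop))) fun a => ?_
    exact (G2 a.1).alg_tendsto atTop (fun M => avgL (μ (a.1, M))) (intL (m a.1))
      (fun M => abs_avgL ((hμ a.1).1 M).1) (abs_intL (m a.1)) (fun L => by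
        change Tendsto _ _ (𝓝 (∫ y, (G2 a.1).lst.M L y ∂m a.1))
        rw [i2]
        exact t2 a.1 L) (hG a)

end Pool.Agent.Lib.MP_f43b6f_lc.V
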