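import Pool.Agent.Lib.MP_f43b6f_lc.UBridge
import Pool.Agent.Lib.MP_f43b6f_lc.VTower
import Pool.Agent.Lib.MP_f43b6f_lc.VAsm

set_option autoImplicit false

/-!
From the analytic systems to the forcing data, the round, and the count of levels.
-/

namespace Pool.Agent.Lib.MP_f43b6f_lc.V

open Filter Topology Set MeasureTheory TopologicalSpace Sys
open scoped InnerProductSpace

variable {I : Type} {o : Fam I}

instance cstIv (n : ℕ) : Cst I (iv n) := ⟨fun _ => Ar.iv (Ar.const n)⟩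

section sys

variable {ι : Type} [Primcodable ι] {Y : I → Sys ι}

theorem ar_th (hY : SysA o Y) {β : Type} [Primcodable β] {f g : I × β → C(BN, ℝ)}
    (hf : ∀ a, f a ∈ (Y a.1).C1) (hg : ∀ a, g a ∈ (Y a.1).C1)
    (af : Ar o fun p : (I × β) × ℕ => f p.1 (pure p.2))
    (ag : Ar o fun p : (I × β) × ℕ => g p.1 (pure p.2)) :
    Ar o fun p : (I × β) × ℕ => (Y p.1.1).th (f p.1) ((Y p.1.1).L (g p.1)) (pure p.2) := by
  refine ((hY.hint (fun p : I × β × ℕ => tau p.2.2 (f (p.1, p.2.1)) * g (p.1, p.2.1))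
    (fun p => (Y p.1).le12 (mul_mem ((Y p.1).tau1 _ (hf (p.1, p.2.1)) _) (hg (p.1, p.2.1))))
    ?_).comp (h := fun p : (I × β) × ℕ => (p.1.1, p.1.2, p.2)) (by fun_prop)).of_eq fun p => by
      simp [th_pure, inner_LL]
  simp only [ContinuousMap.mul_apply, tau_pure]
  exact (af.comp (h := fun q : (I × β × ℕ) × ℕ => ((q.1.1, q.1.2.1), q.1.2.2 + q.2))
    (by fun_prop)).mul_real
    (ag.comp (h := fun q : (I × β × ℕ) × ℕ => ((q.1.1, q.1.2.1), q.2)) (by fun_prop))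

variable [Inhabited ι]

theorem ar_P (hY : SysA o Y) : Ar o fun a : I × ι × ι => (Y a.1).P a.2 := by
  have h1 : ∀ a : I × (ι × ι) × ℕ, (Y a.1).mon a.2.1.1 + (Y a.1).mon a.2.1.2 ∈ (Y a.1).C1 :=
    fun a => add_mem ((Y a.1).mon_mem _) ((Y a.1).mon_mem _)
  have h2 : Ar o fun p : (I × (ι × ι) × ℕ) × ℕ =>
      ((Y p.1.1).mon p.1.2.1.1 + (Y p.1.1).mon p.1.2.1.2) (pure p.2) :=
    (hY.hmon.comp (h := fun p : (I × (ι × ι) × ℕ) × ℕ => (p.1.1, p.1.2.1.1, p.2))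
      (by fun_prop)).add_real
      (hY.hmon.comp (h := fun p : (I × (ι × ι) × ℕ) × ℕ => (p.1.1, p.1.2.1.2, p.2)) (by fun_prop))
  have h3 : Ar o fun a : I × ι × ι => ‖(Y a.1).w0 a.2.1 + (Y a.1).w0 a.2.2‖ ^ 2 := by
    refine Ar.of_obs (((Ar.lt_real (Ar.const 0) (hY.hint (fun p : I × (ι × ι) × ℕ =>
      ((Y p.1).th ((Y p.1).mon p.2.1.1 + (Y p.1).mon p.2.1.2)
        ((Y p.1).L ((Y p.1).mon p.2.1.1 + (Y p.1).mon p.2.1.2)) -
        algebraMap ℝ _ (rv p.2.2)) ⊔ 0) (fun p => ?_) ?_)).comp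
      (h := fun p : (I × ι × ι) × ℕ => (p.1.1, p.1.2, p.2)) (by fun_prop)).congr fun p => ?_)
    · exact ContinuousMap.sup_mem_closed_subalgebra _ (Y p.1).cl2
        ⟨_, sub_mem (th_C2 (h1 p) (L_mem (h1 p))) (algebraMap_mem _ _)⟩ ⟨_, zero_mem _⟩
    · refine (Ar.max_real (Ar.sub_real (ar_th hY h1 h1 h2 h2)
        (Ar.rv (g := fun q : (I × (ι × ι) × ℕ) × ℕ => q.1.2.2) (by fun_prop))) (Ar.const 0)).of_eq
        fun q => by simp
    · rw [← rho_iff (h1 (p.1.1, p.1.2, p.2))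
        (map_add (Y p.1.1).L _ _ ▸ add_mem (mon_H _) (mon_H _)), map_add, map_add]
      rfl
  refine (Ar.mul_real (Ar.const (iv 1)) (Ar.sub_real h3 (Ar.mul_real (Ar.const (iv 3))
    (Ar.add_real (h3.comp (h := fun a : I × ι × ι => (a.1, a.2.1, a.2.1)) (by fun_prop))
      (h3.comp (h := fun a : I × ι × ι => (a.1, a.2.2, a.2.2)) (by fun_prop)))))).of_eq
    fun a => ?_
  have : (Y a.1).P a.2 = ⟪(Y a.1).w0 a.2.1, (Y a.1).w0 a.2.2⟫_ℝ := by
    rw [w0, Submodule.inner_starProjection_left_eq_right,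
      Submodule.starProjection_eq_self_iff.2 (w0_mem _), P]
  simp only [this, norm_add_sq_real, real_inner_self_eq_norm_sq, iv]
  ring

omit [Inhabited ι] in
theorem ar_psh (hY : SysA o Y) : Ar o fun p : I × (ι × ι) × ℕ => (Y p.1).psh p.2.1 p.2.2 := by
  have := hY.hsh
  unfold psh
  obtain ⟨s, hs⟩ : ∃ s : I → ι → ℕ → ι, ∀ x, (Y x).sh = s x := ⟨_, fun _ => rfl⟩
  simp only [hs] at this ⊢
  fun_prop

theorem ar_om (hY : SysA o Y) : Ar o fun p : I × ℕ × ℕ => (Y p.1).om p.2.1 (pure p.2.2) := by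
  have h1 := ar_P hY
  have h2 := ar_psh hY
  obtain ⟨s, hs⟩ : ∃ s : I → ι × ι → ℕ → ι × ι, ∀ x, (Y x).psh = s x := ⟨_, fun _ => rfl⟩
  obtain ⟨Q, hQ⟩ : ∃ Q : I → ι × ι → ℝ, ∀ x, (Y x).P = Q x := ⟨_, fun _ => rfl⟩
  simp only [hs, hQ] at h1 h2
  refine (Ar.prod (x := fun (p : I × ℕ × ℕ) l =>
    max (iv p.2.1 - |Q p.1 (s p.1 (en l) p.2.2) - Q p.1 (en l)|) 0)
    (by fun_prop) (fun _ _ => le_max_right _ _) (L := fun p => List.range p.2.1)
    (by fun_prop)).of_eq fun p => ?_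
  simp only [om_apply, th_P, hs, hQ]
  rw [← List.prod_toFinset _ List.nodup_range, List.toFinset_range]

theorem ar_pos (hY : SysA o Y) {β : Type} [Primcodable β] (D : I × β → ℕ × ι → Prop)
    (hD : Ar o fun p : (I × β) × (ℕ × ι) => D p.1 p.2) :
    Ar o fun p : (I × β) × (ℕ × ι) => (Y p.1.1).Pos (D p.1) p.2.1 p.2.2 := by
  have h1 : ∀ p : I × (ℕ × ι) × List (ℕ × ℕ),
      (Y p.1).om p.2.1.1 * (Y p.1).mon p.2.1.2 ∈ (Y p.1).C1 := fun p =>
    mul_mem (om_mem _) ((Y p.1).mon_mem _)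
  have h2 : Ar o fun p : I × (ℕ × ι) × List (ℕ × ℕ) => ⟪(Y p.1).L 1, (Y p.1).Th
      ((Y p.1).L ((Y p.1).om p.2.1.1 * (Y p.1).mon p.2.1.2)) ((Y p.1).L ((Y p.1).gl p.2.2))⟫_ℝ := by
    refine (hY.hint (fun p : I × (ℕ × ι) × List (ℕ × ℕ) =>
      (Y p.1).th ((Y p.1).om p.2.1.1 * (Y p.1).mon p.2.1.2) ((Y p.1).L ((Y p.1).gl p.2.2)))
      (fun p => th_C2 (h1 p) (L_mem (gl_mem p.2.2)))
      (ar_th (f := fun p : I × (ℕ × ι) × List (ℕ × ℕ) => (Y p.1).om p.2.1.1 * (Y p.1).mon p.2.1.2)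
        (g := fun p => (Y p.1).gl p.2.2) hY h1 (fun p => gl_mem p.2.2) ?_ ?_)).of_eq
      fun p => by rw [Th_L (h1 p), inner_one_L]
    · exact ((ar_om hY).comp
        (h := fun q : (I × (ℕ × ι) × List (ℕ × ℕ)) × ℕ => (q.1.1, q.1.2.1.1, q.2))
        (by fun_prop)).mul_real (hY.hmon.comp
        (h := fun q : (I × (ℕ × ι) × List (ℕ × ℕ)) × ℕ => (q.1.1, q.1.2.1.2, q.2)) (by fun_prop))
    · have h3 := Ar.sum (x := fun (q : (I × (ℕ × ι) × List (ℕ × ℕ)) × ℕ) (b : ℕ × ℕ) =>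
        rv b.2 * (Y q.1.1).mon1 b.1 (pure q.2)) (Ar.mul_real (by fun_prop) (hY.hmon1.comp
          (h := fun q : ((I × (ℕ × ι) × List (ℕ × ℕ)) × ℕ) × ℕ × ℕ => (q.1.1.1, q.2.1, q.1.2))
          (by fun_prop))) (L := fun q => q.1.2.2) (by fun_prop)
      refine (Ar.max_real (h3.neg_real.max_real (Ar.const 1).neg_real).neg_real
        (Ar.const 0)).of_eq fun q => ?_
      have : ∀ c, (Y q.1.1).gc c (pure q.2) =
          (c.map fun b => rv b.2 * (Y q.1.1).mon1 b.1 (pure q.2)).sum :=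
        fun c => by induction c <;> simp_all [gc]
      simp [gl, this]
  refine Ar.congr ?_ fun p => pos_iff (D p.1) p.2
  refine Ar.ex (Ar.all (Ar.ex (Ar.and (Ar.lt_real (by fun_prop) ?_) (Ar.all (Ar.imp (by fun_prop)
    (Ar.imp (by fun_prop) (Ar.lt_real ?_ (by fun_prop))))))))
  · exact h2.comp (h := fun q : ((((I × β) × ℕ × ι) × ℕ) × ℕ) × List (ℕ × ℕ) =>
      (q.1.1.1.1.1, q.1.1.1.2, q.2)) (by fun_prop)
  · exact h2.comp (h := fun q : (((((I × β) × ℕ × ι) × ℕ) × ℕ) × List (ℕ × ℕ)) × ℕ =>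
      (q.1.1.1.1.1.1, en q.2, q.1.2)) (by fun_prop)

end sys

theorem forc_of_sys {o : Orc} {Y : Sys (List (ℕ × ℕ))} (hm : ∀ L n, Y.mon L (pure n) =
    (L.map fun p => if o.f (p.2 + n) = p.1 then (1 : ℝ) else 0).prod) {k : ℕ}
    (hk : ∀ n, o.f n < k) :
    ∃ Z : Forc o k Y.F, Z.O.mem = Y.F.stabMem Y.P Y.psh ∧ Z.Pos = Y.Pos := by
  refine ⟨{
    O := Y.F.stab Y.P Y.psh (fun a b n => by simp [Sys.psh, Y.sh_sh]) fun j => ?_
    Pos := Y.Pos
    hO := fun _ _ h => h.1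
    pos_empty := ⟨Y.L 1, Sys.one_inv, Sys.L_nonneg zero_le_one, le_rfl, by simp, by
      rw [Sys.inner_LL]; simp [mon_nil hm, Sys.om_zero]⟩
    not_pos := fun D j v h ⟨z, _, _, _, a, b⟩ => absurd b (not_lt.2 (a (j, v) h))
    pos_trans := fun D D' j v ⟨z, a, b, c, d, e⟩ h =>
      ⟨z, a, b, c, fun p hp => not_lt.1 fun h' => h p hp ⟨z, a, b, c, d, h'⟩, e⟩
    pos_mono := fun D j j' v ⟨z, a, b, c, d, e⟩ h => ⟨z, a, b, c, d, lt_of_lt_of_le e
      (Sys.inner_mono (fun t => mul_le_mul_of_nonneg_right (Sys.om_anti h t) (Y.mon01 v t).1) b)⟩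
    pos_split := fun D j ⟨z, a, b, c, d, e⟩ => ?_
    pos_point := fun D j i ⟨z, a, b, c, d, e⟩ N => ?_
    step := pos_step hm }, rfl, rfl⟩
  · obtain ⟨t, a, b⟩ := ((Sys.freq_om (Y := Y) j).and_eventually Sys.ae_S).exists
    exact (Sys.freq_mem b a).exists
  · rw [mon_nil hm, Sys.om_zero, mul_one] at e
    have h := Sys.recur a b e j
    rw [show Y.om j = ∑ i ∈ Finset.range k, Y.om j * Y.mon [(i, 0)] from ext_pure fun n => by
      simp [hm, hk], map_sum, sum_inner] at h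
    obtain ⟨i, hi, h⟩ := Finset.exists_lt_of_sum_lt (f := fun _ => (0 : ℝ)) (by simpa using h)
    exact ⟨i, Finset.mem_range.1 hi, z, a, b, c, d, h⟩
  · obtain ⟨t, h1, h2, h3⟩ := ((Sys.freq_of_pos e).and_eventually
      (Sys.ae_S.and (Sys.coe_L (Y.om j * Y.mon [(i, 0)])))).exists
    rw [h3] at h1
    obtain ⟨n, h4, h5⟩ := ((Sys.mem_S.1 h2 N).and ((tendsto_val _ t).eventually_ne
      (right_ne_zero_of_mul (left_ne_zero_of_mul h1.ne')))).exists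
    exact ⟨n, h4, by simpa [hm] using h5⟩

theorem round {c : I → Orc} {k : I → ℕ} (hk : ∀ x n, (c x).f n < k x) (hc : CA o c) {F : I → Res}
    (hF : RA o F) : ∃ (X : I → Set ℕ) (F' : I → Res),
    (Ar o fun p : I × ℕ => p.2 ∈ X p.1) ∧ RA o F' ∧ ∀ x, Sol (c x) (X x) ∨
      (∀ N b, (F' x).mem N b → (F x).mem N b) ∧
        ∃ i < k x, Col (c x) (F x) i ∧ ¬ Col (c x) (F' x) i := by
  obtain ⟨Y, hY, h⟩ := exists_sys hc F hF
  choose Z h1 h2 using fun x => forc_of_sys (h x).2 (hk x)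
  have hZ : ForcA o Z := ⟨⟨by
    simpa only [h1] using ar_stabMem (κ := fun x => (Y x).P) (sh := fun x => (Y x).psh) hY.hF
      (ar_P hY) (ar_psh hY)⟩, fun D hD => by simpa only [h2] using ar_pos hY D hD⟩
  obtain ⟨X, F', a1, a2, a3⟩ := hZ.dich hc hY.hF
  exact ⟨X, F', a1, a2, fun x => (a3 x).imp_right fun ⟨b1, i, b2, b3, b4⟩ =>
    ⟨fun N b hb => (h x).1 N b (b1 N b hb), i, b2,
      fun N => (b3 N).imp fun b hb => ⟨(h x).1 _ _ hb.1, hb.2⟩, b4⟩⟩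

theorem ar_set {X : I → Set ℕ} :
    (Ar o fun p : I × ℕ => p.2 ∈ X p.1) ↔ ∃ m, ∀ i, Lev (o.B i) m (X i) := by
  refine ⟨fun h => ?_, fun ⟨m, h⟩ => ar_iff.2 ?_⟩
  · obtain ⟨m, h⟩ := AP.prim (h := fun _ (n : ℕ) => (((), n) : Unit × ℕ)) (ar_iff.1 h)
      fun _ => (Primrec.const ()).pair Primrec.id
    exact ⟨m, fun i => (h i).elim fun A hA => (show X i = A from Set.ext hA.2) ▸ hA.1⟩
  · exact AP.prim (P := fun i (n : ℕ) => n ∈ X i) (h := fun _ (t : Unit × ℕ) => t.2)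
      ⟨m, fun i => ⟨X i, h i, fun _ => Iff.rfl⟩⟩ fun _ => Primrec.snd

/-- The code of a reservoir. -/
def code (F : Res) : Set ℕ := {n | F.mem n.unpair.1 n.unpair.2}

theorem ra_iff {F : I → Res} : RA o F ↔ ∃ m, ∀ i, Lev (o.B i) m (code (F i)) := by
  refine ⟨fun h => ar_set.1 ?_, fun h => ⟨((ar_set.2 h).comp
    (h := fun p : I × ℕ × ℕ => (p.1, Nat.pair p.2.1 p.2.2)) (by fun_prop)).congr
    fun p => by simp [code]⟩⟩
  change Ar o fun p : I × ℕ => (F p.1).mem p.2.unpair.1 p.2.unpair.2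
  fun_prop

theorem ca_of {c : I → Orc} (h : ∀ i, o.B i {n | (c i).f n.unpair.1 = n.unpair.2}) : CA o c :=
  ⟨Ar.of_graph (((ar_set.2 ⟨0, fun i => .base (h i)⟩).comp
    (h := fun p : (I × ℕ) × ℕ => (p.1.1, Nat.pair p.1.2 p.2)) (by fun_prop)).congr
    fun p => by simp)⟩

/-- A colouring with a reservoir at a known level. -/
structure Ix where
  /-- the colouring -/
  c : Orc
  /-- the number of colours -/
  k : ℕ
  /-- the reservoir -/
  F : Res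
  /-- the level -/
  m : ℕ
  hk : ∀ n, c.f n < k
  hF : ArithLev c.f m (code F)

theorem round_lev : ∃ a, ∀ x : Ix, (∃ X, ArithLev x.c.f (x.m + a) X ∧ Sol x.c X) ∨
    ∃ F' : Res, ArithLev x.c.f (x.m + a) (code F') ∧ (∀ N b, F'.mem N b → x.F.mem N b) ∧
      ∃ i < x.k, Col x.c x.F i ∧ ¬ Col x.c F' i := by
  obtain ⟨X, F', h1, h2, h3⟩ := round (o := ⟨fun x : Ix => ArithLev x.c.f x.m⟩) Ix.hk
    (ca_of fun x => lev_mono .graph (Nat.zero_le _)) (F := Ix.F)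
    (ra_iff.2 ⟨0, fun x => .base x.hF⟩)
  obtain ⟨a, h1⟩ := ar_set.1 h1
  obtain ⟨b, h2⟩ := ra_iff.1 h2
  exact ⟨max a b, fun x => (h3 x).imp
    (fun h => ⟨X x, ((h1 x).mono (le_max_left _ _)).trans, h⟩)
    fun h => ⟨F' x, ((h2 x).mono (le_max_right _ _)).trans, h⟩⟩

theorem solved_lev : ∃ a, ∀ (k : ℕ) (c : ℕ → ℕ), (∀ n, c n < k) →
    ∃ X, ArithLev c (a * k) X ∧ Sol ⟨c⟩ X := by
  classical
  obtain ⟨a, h⟩ := round_lev
  have key : ∀ (k : ℕ) (c : Orc), (∀ n, c.f n < k) → ∀ n m, ∀ F : Res, ArithLev c.f m (code F) →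
      ((Finset.range k).filter (Col c F)).card < n →
      ∃ X, ArithLev c.f (m + a * n) X ∧ Sol c X := fun k c hk n => by
    induction n with
    | zero => simp
    | succ n ih =>
      intro m F hF hn
      rcases h ⟨c, k, F, m, hk, hF⟩ with ⟨X, b1, b2⟩ | ⟨F', b1, b2, i, b3, b4, b5⟩
      · exact ⟨X, lev_mono b1 (show m + a ≤ _ by rw [mul_add]; omega), b2⟩
      obtain ⟨X, c1, c2⟩ := ih (m + a) F' b1 (lt_of_lt_of_le (Finset.card_lt_card
        (t := (Finset.range k).filter (Col c F)) ⟨fun i' hi' => by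
          rw [Finset.mem_filter] at hi' ⊢
          exact ⟨hi'.1, fun N => (hi'.2 N).imp fun b hb => ⟨b2 _ _ hb.1, hb.2⟩⟩,
        fun hsub => b5 (Finset.mem_filter.1 (hsub (Finset.mem_filter.2
          ⟨Finset.mem_range.2 b3, b4⟩))).2⟩) (Nat.lt_succ_iff.1 hn))
      exact ⟨X, lev_mono c1 (by rw [mul_add]; omega), c2⟩
  let F₀ : Res := ⟨fun N b => N ≤ b, fun h h' => h.trans h', fun N => ⟨N, le_rfl⟩, fun h => h,
    fun h => ⟨0, fun _ _ => h.trans (Nat.le_add_right _ _)⟩⟩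
  obtain ⟨m, hm⟩ := (ra_iff (o := ⟨fun c : Orc => ArithLev c.f 0⟩) (F := fun _ => F₀)).1
    ⟨Ar.le_nat (by fun_prop) (by fun_prop)⟩
  refine ⟨m + 2 * a, fun k c hk => ?_⟩
  obtain ⟨X, h1, h2⟩ := key k ⟨c⟩ hk (k + 1) (0 + m) F₀ (hm ⟨c⟩).trans
    (Nat.lt_succ_of_le ((Finset.card_filter_le _ _).trans (Finset.card_range k).le))
  have := hk 0
  exact ⟨X, lev_mono h1 (by nlinarith [Nat.zero_le (c 0)]), h2⟩

/-- A set of some level is arithmetical. -/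
theorem arithIn_of_lev {f : ℕ → ℕ} {m : ℕ} {A : Set ℕ} (h : ArithLev f m A) : ArithIn f A := by
  induction h with
  | graph => exact .graph
  | zero => exact .zero
  | preimage hg _ ih => exact ih.preimage hg
  | compl _ ih => exact ih.compl
  | inter _ _ ih ih' => exact ih.inter ih'
  | proj _ ih => exact ih.proj
  | succ _ ih => exact ih

end Pool.Agent.Lib.MP_f43b6f_lc.V
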